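import Pool.Agent.Work.MP_b30479_gt.AX.Defs

/-!
# The split basis
-/

namespace Pool.Agent.Work.MP_b30479_gt.AX

open Finset Polynomial TB

/-- the entries of `PN` as a function of natural numbers -/
noncomputable def basis_p (s : ℕ) (t : ℂ) (N i k : ℕ) : ℂ :=
  if i ≤ k then (t ^ s * t) ^ (k - i) * (qf t k / qf t (k - i)) *
    (∏ l ∈ range k, (1 - t⁻¹ ^ (N - l))) * ∏ l ∈ Ico i k, (1 - t ^ (N - l))
  else 0

theorem basis_PN (s : ℕ) (t : ℂ) (N : ℕ) (i k : Fin (N + 1)) :
    PN s t N i k = basis_p s t N i k := rfl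

theorem basis_zero {s : ℕ} {t : ℂ} {N i k : ℕ} (h : k < i) : basis_p s t N i k = 0 :=
  if_neg (not_le.2 h)

theorem basis_last {s : ℕ} {t : ℂ} {N : ℕ} (i : ℕ) : basis_p s t N i (N + 1) = 0 := by
  unfold basis_p
  split_ifs
  · rw [prod_range_succ, Nat.sub_self, pow_zero, sub_self]
    ring
  · rfl

theorem basis_rel1 {s : ℕ} {t : ℂ} (h : IsPrimitiveRoot t (2 * s + 1)) {N i k : ℕ} (hik : i ≤ k)
    (hk : k ≤ 2 * s) :
    basis_p s t N i k * (1 - t ^ (k - i)) =
      basis_p s t N (i + 1) k * (t ^ s * t) * (1 - t ^ (N - i)) := by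
  rcases Nat.lt_or_ge i k with hlt | hge
  · unfold basis_p
    rw [if_pos hik, if_pos (by omega : i + 1 ≤ k), prod_eq_prod_Ico_succ_bot hlt]
    obtain ⟨m, rfl⟩ : ∃ m, k = i + m + 1 := ⟨k - i - 1, by omega⟩
    rw [show i + m + 1 - i = m + 1 by omega, show i + m + 1 - (i + 1) = m by omega, qf_succ t m]
    have h1 : qf t m ≠ 0 := qf_ne_zero h (by omega)
    have h2 : (1 - t ^ (m + 1)) ≠ 0 := one_sub_pow_ne h (by omega) (by omega)
    field_simp
    ring
  · have : k = i := by omega
    subst this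
    rw [basis_zero (by omega : k < k + 1), Nat.sub_self]
    ring

theorem basis_rel2 {s : ℕ} {t : ℂ} (h : IsPrimitiveRoot t (2 * s + 1)) {N i k : ℕ} (hik : i ≤ k)
    (hk : k + 1 ≤ 2 * s) :
    basis_p s t N i (k + 1) * (1 - t ^ (k + 1 - i)) =
      basis_p s t N i k * (t ^ s * t) * (1 - t ^ (k + 1)) * (1 - t⁻¹ ^ (N - k)) *
        (1 - t ^ (N - k)) := by
  unfold basis_p
  rw [if_pos hik, if_pos (by omega : i ≤ k + 1), prod_Ico_succ_top hik, prod_range_succ]
  obtain ⟨m, rfl⟩ : ∃ m, k = i + m := ⟨k - i, by omega⟩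
  rw [show i + m + 1 - i = m + 1 by omega, show i + m - i = m by omega, qf_succ t m,
    qf_succ t (i + m)]
  have h1 : qf t m ≠ 0 := qf_ne_zero h (by omega)
  have h2 : (1 - t ^ (m + 1)) ≠ 0 := one_sub_pow_ne h (by omega) (by omega)
  field_simp
  ring

theorem basis_sum1 {N : ℕ} (A : ℕ → ℂ) (j : ℕ) :
    ∑ b ∈ range (N + 1), (if b = j then A b else 0) = if j ≤ N then A j else 0 := by
  rw [sum_ite_eq']
  simp

theorem basis_sum3 {N : ℕ} (f A B D : ℕ → ℂ) {i : ℕ} (hi : i ≤ N)
    (hf : ∀ b, b ≤ N → f b = (if b = i then A b else 0) + (if b = i - 1 then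
      (if 1 ≤ i then B b else 0) else 0) + (if b = i + 1 then D b else 0)) :
    ∑ b : Fin (N + 1), f b =
      A i + (if 1 ≤ i then B (i - 1) else 0) + (if i + 1 ≤ N then D (i + 1) else 0) := by
  rw [Fin.sum_univ_eq_sum_range (fun b => f b) (N + 1),
    sum_congr rfl fun b hb => hf b (by rw [mem_range] at hb; omega), sum_add_distrib,
    sum_add_distrib, basis_sum1, basis_sum1, basis_sum1, if_pos hi, if_pos (by omega)]

theorem basis_rel2' {s : ℕ} {t : ℂ} (h : IsPrimitiveRoot t (2 * s + 1)) {N i k : ℕ}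
    (hN : N ≤ 2 * s) (hik : i ≤ k) (hk : k ≤ N) :
    basis_p s t N i (k + 1) * (1 - t ^ (k + 1 - i)) =
      basis_p s t N i k * (t ^ s * t) * (1 - t ^ (k + 1)) * (1 - t⁻¹ ^ (N - k)) *
        (1 - t ^ (N - k)) := by
  rcases Nat.lt_or_ge k N with hlt | hge
  · exact basis_rel2 h hik (by omega)
  · have : k = N := by omega
    subst this
    rw [basis_last, Nat.sub_self]
    ring

theorem basis_W {s : ℕ} {t : ℂ} (h : IsPrimitiveRoot t (2 * s + 1)) (b : ℕ) :
    t ^ s * t * xx s t b = t⁻¹ ^ b + t * t ^ b := by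
  have hV := sq_mul h
  unfold xx
  rw [pow_succ]
  linear_combination (t⁻¹ ^ b + t * t ^ b) * hV

theorem basis_dgW {s : ℕ} {t : ℂ} (h : IsPrimitiveRoot t (2 * s + 1)) (i j : ℕ) :
    t ^ s * t * dg s t i j =
      2 * t⁻¹ ^ j + 2 * t * t ^ i - t ^ i * t⁻¹ ^ j - t * t ^ i * t⁻¹ ^ j := by
  have hV := sq_mul h
  unfold dg
  rw [pow_succ]
  linear_combination (2 * t⁻¹ ^ j + 2 * t * t ^ i - t ^ i * t⁻¹ ^ j - t * t ^ i * t⁻¹ ^ j) * hV

/-- the row identity for `C_{12}` -/
theorem basis_T {s : ℕ} {t : ℂ} (h : IsPrimitiveRoot t (2 * s + 1)) {N i k : ℕ}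
    (hN : N ≤ 2 * s) (hi : i ≤ N) (hk : k ≤ N) :
    dg s t i (N - i) * basis_p s t N i k +
      (if 1 ≤ i then (1 - t ^ (i - 1 + 1)) * (1 - t⁻¹ ^ (N - (i - 1))) * basis_p s t N (i - 1) k
        else 0) +
      (if i + 1 ≤ N then (1 - t⁻¹ ^ (i + 1)) * (1 - t ^ (N - (i + 1) + 1)) *
        (t ^ (i + 1) * t⁻¹ ^ (N - (i + 1) + 1)) * basis_p s t N (i + 1) k else 0) =
    basis_p s t N i k * xx s t (N - k) + (if 1 ≤ k then (0 : ℂ) else 0) +
      (if k + 1 ≤ N then basis_p s t N i (k + 1) else 0) := by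
  have h0 : t ≠ 0 := h.ne_zero (by omega)
  have hV := sq_mul h
  have hW : t ^ s * t ≠ 0 := mul_ne_zero (pow_ne_zero _ h0) h0
  have e1 : (if k + 1 ≤ N then basis_p s t N i (k + 1) else 0) = basis_p s t N i (k + 1) := by
    split_ifs with h1
    · rfl
    · have : k = N := by omega
      rw [this, basis_last]
  have e2 : (if i + 1 ≤ N then (1 - t⁻¹ ^ (i + 1)) * (1 - t ^ (N - (i + 1) + 1)) *
        (t ^ (i + 1) * t⁻¹ ^ (N - (i + 1) + 1)) * basis_p s t N (i + 1) k else 0) =
      (1 - t⁻¹ ^ (i + 1)) * (1 - t ^ (N - i)) *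
        (t ^ (i + 1) * t⁻¹ ^ (N - i)) * basis_p s t N (i + 1) k := by
    split_ifs with h1
    · rw [show N - (i + 1) + 1 = N - i by omega]
    · rw [show N - i = 0 by omega]
      simp
  rw [e1, e2, ite_self, add_zero]
  rcases Nat.lt_or_ge k i with hlt | hge
  · rw [basis_zero (by omega : k < i), basis_zero (by omega : k < i + 1)]
    rcases Nat.lt_or_ge (k + 1) i with h3 | h3
    · rw [basis_zero (by omega : k + 1 < i), basis_zero (by omega : k < i - 1)]
      simp only [mul_zero, ite_self, zero_mul, add_zero]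
    · have : i = k + 1 := by omega
      subst this
      rw [if_pos (by omega), Nat.add_sub_cancel]
      unfold basis_p
      rw [if_pos le_rfl, if_pos le_rfl, Nat.sub_self, Nat.sub_self, Ico_self, Ico_self,
        prod_range_succ, qf_succ]
      ring
  · -- middle term
    set M : ℂ := (if 1 ≤ i then (1 - t ^ (i - 1 + 1)) * (1 - t⁻¹ ^ (N - (i - 1))) *
      basis_p s t N (i - 1) k else 0) with hM
    have hMD : M * (1 - t ^ (k - i + 1)) = (1 - t ^ i) * (1 - t⁻¹ ^ (N - i + 1)) *
        (basis_p s t N i k * (t ^ s * t) * (1 - t ^ (N - i + 1))) := by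
      rw [hM]
      split_ifs with h1
      · have := basis_rel1 h (N := N) (i := i - 1) (k := k) (by omega) (by omega)
        rw [show k - (i - 1) = k - i + 1 by omega, show i - 1 + 1 = i by omega,
          show N - (i - 1) = N - i + 1 by omega] at this
        rw [show i - 1 + 1 = i by omega, show N - (i - 1) = N - i + 1 by omega]
        linear_combination (1 - t ^ i) * (1 - t⁻¹ ^ (N - i + 1)) * this
      · rw [show i = 0 by omega]
        simp
    have hP1 := basis_rel1 h (N := N) (i := i) (k := k) hge (by omega)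
    have hPk := basis_rel2' h (N := N) (i := i) (k := k) hN hge hk
    have hd := basis_dgW h i (N - i)
    have hx := basis_W h (N - k)
    obtain ⟨m, rfl⟩ : ∃ m, k = i + m := ⟨k - i, by omega⟩
    obtain ⟨r, rfl⟩ : ∃ r, N = i + m + r := ⟨N - (i + m), by omega⟩
    rw [show i + m + r - i = m + r by omega, show i + m - i = m by omega] at *
    rw [show i + m + r - (i + m) = r by omega] at *
    rw [show i + m + 1 - i = m + 1 by omega] at hPk
    by_cases hc : m + 1 = 2 * s + 1
    · have hi0 : i = 0 := by omega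
      have hr0 : r = 0 := by omega
      subst hi0 hr0
      have hlast : basis_p s t (0 + m + 0) 0 (0 + m + 1) = 0 := basis_last 0
      have hM0 : M = 0 := by rw [hM, if_neg (by omega)]
      rw [hlast, hM0]
      rw [← hc] at h
      have htm : t ^ m * t = 1 := by rw [← pow_succ]; exact h.pow_eq_one
      apply mul_left_cancel₀ hW
      simp only [pow_zero, add_zero, zero_add, mul_one, one_mul, pow_one, inv_pow] at hd hx hP1 ⊢
      have hmt : t ^ m = t⁻¹ := eq_inv_of_mul_eq_one_left htm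
      rw [hmt] at hd hP1 ⊢
      rw [inv_inv] at hd ⊢
      have ident : (2 * t + 2 * t - t - t * t) + (1 - t⁻¹) * (t * t) * (1 - t⁻¹) - (1 + t) = 0 := by
        field_simp
        ring
      linear_combination basis_p s t m 0 m * hd - basis_p s t m 0 m * hx -
        (1 - t⁻¹) * (t * t) * hP1 + basis_p s t m 0 m * ident
    · have hD : (1 - t ^ (m + 1)) ≠ 0 := one_sub_pow_ne h (by omega) (by omega)
      apply mul_left_cancel₀ (mul_ne_zero hD hW)
      have nx : t ^ i ≠ 0 := pow_ne_zero _ h0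
      have ny : t ^ m ≠ 0 := pow_ne_zero _ h0
      have nz : t ^ r ≠ 0 := pow_ne_zero _ h0
      have ident : (1 - t ^ (m + 1)) * (2 * t⁻¹ ^ (m + r) + 2 * t * t ^ i -
            t ^ i * t⁻¹ ^ (m + r) - t * t ^ i * t⁻¹ ^ (m + r)) +
          (t ^ s * t) * ((1 - t ^ i) * (1 - t⁻¹ ^ (m + r + 1)) * ((t ^ s * t) *
            (1 - t ^ (m + r + 1)))) +
          (1 - t ^ (m + 1)) * ((1 - t⁻¹ ^ (i + 1)) * (t ^ (i + 1) * t⁻¹ ^ (m + r)) *
            (1 - t ^ m)) -
          (1 - t ^ (m + 1)) * (t⁻¹ ^ r + t * t ^ r) -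
          (t ^ s * t) * ((t ^ s * t) * (1 - t ^ (i + m + 1)) * (1 - t⁻¹ ^ r) * (1 - t ^ r)) = 0 := by
        have hVV : (t ^ s * t) * (t ^ s * t) = t := by linear_combination t * hV
        have e : ∀ A B : ℂ, (t ^ s * t) * (A * ((t ^ s * t) * B)) = t * (A * B) := by
          intro A B
          linear_combination (A * B) * hVV
        rw [e, show (t ^ s * t) * ((t ^ s * t) * (1 - t ^ (i + m + 1)) * (1 - t⁻¹ ^ r) *
          (1 - t ^ r)) = t * ((1 - t ^ (i + m + 1)) * (1 - t⁻¹ ^ r) * (1 - t ^ r)) by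
            linear_combination ((1 - t ^ (i + m + 1)) * (1 - t⁻¹ ^ r) * (1 - t ^ r)) * hVV]
        simp only [pow_succ, pow_add, inv_pow]
        generalize t ^ i = x at *
        generalize t ^ m = y at *
        generalize t ^ r = z at *
        field_simp
        ring
      linear_combination (1 - t ^ (m + 1)) * basis_p s t (i + m + r) i (i + m) * hd +
        (t ^ s * t) * hMD -
        (1 - t ^ (m + 1)) * (1 - t⁻¹ ^ (i + 1)) * (t ^ (i + 1) * t⁻¹ ^ (m + r)) * hP1 -
        (1 - t ^ (m + 1)) * basis_p s t (i + m + r) i (i + m) * hx - (t ^ s * t) * hPk +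
        basis_p s t (i + m + r) i (i + m) * ident

theorem TN_PN {s : ℕ} {t : ℂ} (h : IsPrimitiveRoot t (2 * s + 1)) {N : ℕ} (hN : N ≤ 2 * s) :
    TN s t N * PN s t N = PN s t N * LN s t N := by
  ext i k
  rw [Matrix.mul_apply, Matrix.mul_apply]
  have hi := i.2
  have hk := k.2
  have hL := basis_sum3 (N := N) (fun b => cas s t b (N - b) i (N - i) * basis_p s t N b k)
    (fun b => dg s t b (N - b) * basis_p s t N b k)
    (fun b => (1 - t ^ (b + 1)) * (1 - t⁻¹ ^ (N - b)) * basis_p s t N b k)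
    (fun b => (1 - t⁻¹ ^ b) * (1 - t ^ (N - b + 1)) * (t ^ b * t⁻¹ ^ (N - b + 1)) *
      basis_p s t N b k) (i := i) (by omega) (by
      intro b hb
      rcases lt_trichotomy b (i : ℕ) with hlt | heq | hgt
      · have h1 : ¬ b = (i : ℕ) := by omega
        have h4 : ¬ b = (i : ℕ) + 1 := by omega
        rcases Nat.lt_or_ge (b + 1) (i : ℕ) with h3 | h3
        · have h2 : ¬ b = (i : ℕ) - 1 := by omega
          rw [cas_zero _ _ _ _ _ _ (by omega) (by omega) (by omega), if_neg h1, if_neg h2,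
            if_neg h4]
          ring
        · have h2 : b = (i : ℕ) - 1 := by omega
          have h5 : 1 ≤ (i : ℕ) := by omega
          have h6 : (i : ℕ) = b + 1 := by omega
          rw [if_neg h1, if_pos h2, if_pos h5, if_neg h4, h6]
          obtain ⟨r, hr⟩ : ∃ r, N - b = r + 1 := ⟨N - b - 1, by omega⟩
          rw [hr, show N - (b + 1) = r by omega, cas_up]
          ring
      · have h2 : ¬ b = (i : ℕ) + 1 := by omega
        rw [if_pos heq, if_neg h2, ← heq, cas_diag]
        rcases Nat.eq_zero_or_pos b with hb0 | hb0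
        · have h5 : ¬ 1 ≤ b := by omega
          rw [if_neg h5, ite_self]
          ring
        · have h5 : ¬ b = b - 1 := by omega
          rw [if_neg h5]
          ring
      · have h1 : ¬ b = (i : ℕ) := by omega
        have h4 : ¬ b = (i : ℕ) - 1 := by omega
        rcases Nat.lt_or_ge ((i : ℕ) + 1) b with h3 | h3
        · have h2 : ¬ b = (i : ℕ) + 1 := by omega
          rw [cas_zero _ _ _ _ _ _ (by omega) (by omega) (by omega), if_neg h1, if_neg h2,
            if_neg h4]
          ring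
        · have h2 : b = (i : ℕ) + 1 := by omega
          rw [if_neg h1, if_neg h4, if_pos h2, h2,
            show N - (i : ℕ) = N - ((i : ℕ) + 1) + 1 by omega, cas_dn]
          ring)
  have hR := basis_sum3 (N := N) (fun b => basis_p s t N i b * (if b = (k : ℕ) then
      xx s t (N - k) else if b = (k : ℕ) + 1 then 1 else 0))
    (fun b => basis_p s t N i b * xx s t (N - k)) (fun b => 0) (fun b => basis_p s t N i b)
    (i := k) (by omega) (by
      intro b hb
      rcases eq_or_ne b (k : ℕ) with h1 | h1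
      · have h2 : ¬ b = (k : ℕ) + 1 := by omega
        rw [if_pos h1, if_pos h1, if_neg h2]
        simp
      · rcases eq_or_ne b ((k : ℕ) + 1) with h2 | h2
        · rw [if_neg h1, if_neg h1, if_pos h2, if_pos h2]
          simp
        · rw [if_neg h1, if_neg h1, if_neg h2, if_neg h2]
          simp)
  exact hL.trans ((basis_T h hN (by omega) (by omega)).trans hR.symm)

/-- the row identity for `C_{23}` -/
theorem basis_U {s : ℕ} {t : ℂ} (h : IsPrimitiveRoot t (2 * s + 1)) {N i k : ℕ}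
    (hN : N ≤ 2 * s) (hi : i ≤ N) (hk : k ≤ N) :
    xx s t (N - i) * basis_p s t N i k + (if 1 ≤ i then (0 : ℂ) else 0) +
      (if i + 1 ≤ N then (1 - t⁻¹ ^ (N - i)) * (1 - t⁻¹ ^ (i + 1)) * basis_p s t N (i + 1) k
        else 0) =
    basis_p s t N i k * xx s t (N - k) + (if 1 ≤ k then basis_p s t N i (k - 1) * phi t N k else 0)
      + (if k + 1 ≤ N then (0 : ℂ) else 0) := by
  have h0 : t ≠ 0 := h.ne_zero (by omega)
  have hV := sq_mul h
  have hW : t ^ s * t ≠ 0 := mul_ne_zero (pow_ne_zero _ h0) h0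
  have e1 : (if 1 ≤ k then basis_p s t N i (k - 1) * phi t N k else 0) =
      basis_p s t N i (k - 1) * phi t N k := by
    split_ifs with h1
    · rfl
    · rw [show k = 0 by omega]
      unfold phi
      simp
  have e2 : (if i + 1 ≤ N then (1 - t⁻¹ ^ (N - i)) * (1 - t⁻¹ ^ (i + 1)) *
        basis_p s t N (i + 1) k else 0) =
      (1 - t⁻¹ ^ (N - i)) * (1 - t⁻¹ ^ (i + 1)) * basis_p s t N (i + 1) k := by
    split_ifs with h1
    · rfl
    · rw [show N - i = 0 by omega]
      simp
  rw [e1, e2, ite_self, ite_self, add_zero, add_zero]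
  rcases Nat.lt_or_ge k i with hlt | hge
  · rw [basis_zero hlt, basis_zero (by omega : k < i + 1), basis_zero (by omega : k - 1 < i)]
    ring
  · rcases Nat.lt_or_ge i k with hlt | hge'
    · have hP1 := basis_rel1 h (N := N) (i := i) (k := k) hge (by omega)
      have hPk := basis_rel2' h (N := N) (i := i) (k := k - 1) hN (by omega) (by omega)
      have hx1 := basis_W h (N - i)
      have hx2 := basis_W h (N - k)
      obtain ⟨m, rfl⟩ : ∃ m, k = i + m + 1 := ⟨k - i - 1, by omega⟩
      obtain ⟨r, rfl⟩ : ∃ r, N = i + m + 1 + r := ⟨N - (i + m + 1), by omega⟩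
      have hphi : phi t (i + m + 1 + r) (i + m + 1) = (1 - t ^ (i + m + 1)) * (1 - t ^ (r + 1)) *
          (1 - t⁻¹ ^ (r + 1)) * (1 - t ^ (i + m + r + r + 3)) * t⁻¹ ^ (i + m + r + 2) := by
        unfold phi
        rw [show i + m + 1 + r + 1 - (i + m + 1) = r + 1 by omega,
          show 2 * (i + m + 1 + r) + 2 - (i + m + 1) = i + m + r + r + 3 by omega,
          show i + m + 1 + r + 1 = i + m + r + 2 by omega]
      rw [show i + m + 1 + r - i = m + r + 1 by omega, show i + m + 1 - i = m + 1 by omega] at hP1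
      rw [show i + m + 1 - 1 = i + m by omega, show i + m + 1 + r - (i + m) = r + 1 by omega,
        show i + m + 1 - i = m + 1 by omega] at hPk
      rw [show i + m + 1 + r - i = m + r + 1 by omega] at hx1 ⊢
      rw [show i + m + 1 + r - (i + m + 1) = r by omega] at hx2 ⊢
      rw [show i + m + 1 - 1 = i + m by omega, hphi]
      have hD : (1 - t ^ (m + 1)) ≠ 0 := one_sub_pow_ne h (by omega) (by omega)
      apply mul_left_cancel₀ (mul_ne_zero hD hW)
      have nx : t ^ i ≠ 0 := pow_ne_zero _ h0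
      have ny : t ^ m ≠ 0 := pow_ne_zero _ h0
      have nz : t ^ r ≠ 0 := pow_ne_zero _ h0
      have hneg : (1 - t⁻¹ ^ (m + r + 1)) = - t⁻¹ ^ (m + r + 1) * (1 - t ^ (m + r + 1)) := by
        have : t⁻¹ ^ (m + r + 1) * t ^ (m + r + 1) = 1 := by
          rw [← mul_pow, inv_mul_cancel₀ h0, one_pow]
        linear_combination -this
      rw [hneg]
      have ident : (t⁻¹ ^ (m + r + 1) + t * t ^ (m + r + 1) - (t⁻¹ ^ r + t * t ^ r)) -
          t⁻¹ ^ (m + r + 1) * (1 - t⁻¹ ^ (i + 1)) * (1 - t ^ (m + 1)) -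
          (1 - t ^ (m + 1)) * ((1 - t ^ (i + m + r + r + 3)) * t⁻¹ ^ (i + m + r + 2)) = 0 := by
        simp only [pow_succ, pow_add, inv_pow]
        generalize t ^ i = x at *
        generalize t ^ m = y at *
        generalize t ^ r = z at *
        field_simp
        ring
      linear_combination
        (1 - t ^ (m + 1)) * basis_p s t (i + m + 1 + r) i (i + m + 1) * (hx1 - hx2) +
        (1 - t ^ (m + 1)) * t⁻¹ ^ (m + r + 1) * (1 - t⁻¹ ^ (i + 1)) * hP1 +
        (t⁻¹ ^ (m + r + 1) + t * t ^ (m + r + 1) - (t⁻¹ ^ r + t * t ^ r) -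
          t⁻¹ ^ (m + r + 1) * (1 - t⁻¹ ^ (i + 1)) * (1 - t ^ (m + 1))) * hPk +
        (basis_p s t (i + m + 1 + r) i (i + m) * (t ^ s * t) * (1 - t ^ (i + m + 1)) *
          (1 - t⁻¹ ^ (r + 1)) * (1 - t ^ (r + 1))) * ident
    · have : k = i := by omega
      subst this
      rw [basis_zero (by omega : k < k + 1)]
      rcases Nat.eq_zero_or_pos k with hk0 | hk0
      · subst hk0
        unfold phi
        simp
        ring
      · rw [basis_zero (by omega : k - 1 < k)]
        ring

theorem UN_PN {s : ℕ} {t : ℂ} (h : IsPrimitiveRoot t (2 * s + 1)) {N : ℕ} (hN : N ≤ 2 * s) :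
    UN s t N * PN s t N = PN s t N * SN s t N := by
  ext i k
  rw [Matrix.mul_apply, Matrix.mul_apply]
  have hi := i.2
  have hk := k.2
  have hL := basis_sum3 (N := N) (fun b => (if b = (i : ℕ) then xx s t (N - i) else
      if b = (i : ℕ) + 1 then (1 - t⁻¹ ^ (N - i)) * (1 - t⁻¹ ^ ((i : ℕ) + 1)) else 0) *
        basis_p s t N b k)
    (fun b => xx s t (N - i) * basis_p s t N b k) (fun b => 0)
    (fun b => (1 - t⁻¹ ^ (N - i)) * (1 - t⁻¹ ^ ((i : ℕ) + 1)) * basis_p s t N b k)
    (i := i) (by omega) (by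
      intro b hb
      rcases eq_or_ne b (i : ℕ) with h1 | h1
      · have h2 : ¬ b = (i : ℕ) + 1 := by omega
        rw [if_pos h1, if_pos h1, if_neg h2]
        simp
      · rcases eq_or_ne b ((i : ℕ) + 1) with h2 | h2
        · rw [if_neg h1, if_neg h1, if_pos h2, if_pos h2]
          simp
        · rw [if_neg h1, if_neg h1, if_neg h2, if_neg h2]
          simp)
  have hR := basis_sum3 (N := N) (fun b => basis_p s t N i b * (if b = (k : ℕ) then
      xx s t (N - k) else if (k : ℕ) = b + 1 then phi t N k else 0))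
    (fun b => basis_p s t N i b * xx s t (N - k)) (fun b => basis_p s t N i b * phi t N k)
    (fun b => 0) (i := k) (by omega) (by
      intro b hb
      rcases eq_or_ne b (k : ℕ) with h1 | h1
      · have h2 : ¬ b = (k : ℕ) + 1 := by omega
        rw [if_pos h1, if_pos h1, if_neg h2]
        rcases Nat.eq_zero_or_pos (k : ℕ) with hk0 | hk0
        · have h5 : ¬ 1 ≤ (k : ℕ) := by omega
          rw [if_neg h5]
          simp
        · have h5 : ¬ b = (k : ℕ) - 1 := by omega
          rw [if_neg h5]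
          simp
      · rw [if_neg h1, if_neg h1]
        rcases eq_or_ne (k : ℕ) (b + 1) with h2 | h2
        · have h3 : b = (k : ℕ) - 1 := by omega
          have h4 : 1 ≤ (k : ℕ) := by omega
          have h5 : ¬ b = (k : ℕ) + 1 := by omega
          rw [if_pos h2, if_pos h3, if_pos h4, if_neg h5]
          simp
        · rw [if_neg h2]
          rcases Nat.eq_zero_or_pos (k : ℕ) with hk0 | hk0
          · have h5 : ¬ 1 ≤ (k : ℕ) := by omega
            rw [if_neg h5]
            simp
          · have h5 : ¬ b = (k : ℕ) - 1 := by omega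
            rw [if_neg h5]
            simp)
  exact hL.trans ((basis_U h hN (by omega) (by omega)).trans hR.symm)

theorem PN_unit {s : ℕ} {t : ℂ} (h : IsPrimitiveRoot t (2 * s + 1)) {N : ℕ} (hN : N ≤ 2 * s) :
    IsUnit (PN s t N) := by
  rw [Matrix.isUnit_iff_isUnit_det]
  have hup : (PN s t N).BlockTriangular id := by
    intro i j hij
    exact if_neg (by simpa using hij)
  rw [Matrix.det_of_isUpperTriangular hup, isUnit_iff_ne_zero, prod_ne_zero_iff]
  intro k _
  rw [basis_PN]
  unfold basis_p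
  rw [if_pos le_rfl, Nat.sub_self, pow_zero, qf_zero, Ico_self, prod_empty]
  have h1 : qf t k ≠ 0 := qf_ne_zero h (by have := k.2; omega)
  have h2 : ∏ l ∈ range (k : ℕ), (1 - t⁻¹ ^ (N - l)) ≠ 0 := by
    rw [prod_ne_zero_iff]
    intro l hl
    rw [mem_range] at hl
    have hk := k.2
    exact one_sub_pow_ne h.inv (by omega) (by omega)
  rw [div_one, one_mul, mul_one]
  exact mul_ne_zero h1 h2

end Pool.Agent.Work.MP_b30479_gt.AX
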