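import Pool.Agent.Work.MP_b30479_gt.AX.Defs
import Pool.Agent.Work.MP_b30479_gt.AxisWord
import Pool.Agent.Work.MP_b30479_gt.TB.Plat

/-!
# The braid group representation on `V ⊗ V ⊗ V`
-/

namespace Pool.Agent.Work.MP_b30479_gt.AX

open Finset Polynomial TB

/-- reordering of the tensor indices -/
def braidE (s : ℕ) : ((Fin 3 → Fin (2 * s + 1)) → ℂ) ≃ₗ[ℂ] V3 s where
  toFun X k p := X ![p.1, p.2, k]
  invFun Y f := Y (f 2) (f 0, f 1)
  left_inv := by
    intro X
    funext f
    show X ![f 0, f 1, f 2] = X f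
    congr 1
    funext l
    fin_cases l <;> rfl
  right_inv := by
    intro Y
    rfl
  map_add' _ _ := rfl
  map_smul' _ _ := rfl

lemma braidE_zero {s : ℕ} {u : ℂˣ} (b : Bool) (X : (Fin 3 → Fin (2 * s + 1)) → ℂ) :
    braidE s ((crossing (r := 2) s u (0, b)).mulVec X) = op12 (Rm s u b) (braidE s X) := by
  funext k p
  show ∑ z, crossing (r := 2) s u (0, b) ![p.1, p.2, k] z * X z =
    ∑ q : I2 s, Rm s u b p q * X ![q.1, q.2, k]
  rw [sum_fin3, Fintype.sum_prod_type]
  refine Finset.sum_congr rfl fun a _ => Finset.sum_congr rfl fun c _ => ?_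
  rw [Finset.sum_eq_single k]
  · exact congrArg (fun w => w * X ![a, c, k]) ((crossing_zero b _ _ _ _).trans (if_pos rfl))
  · intro d _ hd
    rw [crossing_zero, if_neg (fun hh => hd hh.symm), zero_mul]
  · intro hc
    exact absurd (Finset.mem_univ _) hc

lemma braidE_one {s : ℕ} {u : ℂˣ} (b : Bool) (X : (Fin 3 → Fin (2 * s + 1)) → ℂ) :
    braidE s ((crossing (r := 2) s u (1, b)).mulVec X) = op23 (Rm s u b) (braidE s X) := by
  funext k p
  show ∑ z, crossing (r := 2) s u (1, b) ![p.1, p.2, k] z * X z =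
    ∑ q : I2 s, Rm s u b (p.2, k) q * X ![p.1, q.1, q.2]
  rw [sum_fin3, Finset.sum_eq_single p.1, Fintype.sum_prod_type]
  · refine Finset.sum_congr rfl fun a _ => Finset.sum_congr rfl fun c _ => ?_
    exact congrArg (fun w => w * X ![p.1, a, c]) ((crossing_one b _ _ _ _).trans (if_pos rfl))
  · intro d _ hd
    refine Finset.sum_eq_zero fun a _ => Finset.sum_eq_zero fun c _ => ?_
    rw [crossing_one, if_neg (fun hh => hd hh.symm), zero_mul]
  · intro hc
    exact absurd (Finset.mem_univ _) hc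

lemma braidE_word {s : ℕ} {u : ℂˣ} (K : ℕ) (X : (Fin 3 → Fin (2 * s + 1)) → ℂ) :
    braidE s ((braidMatrix s u (wordK K)).mulVec X) =
      ((op12 (Rm s u true) * op23 (Rm s u false)) ^ K) (braidE s X) := by
  induction K with
  | zero =>
    have h : braidMatrix s u (wordK 0) =
        (1 : Matrix (Fin 3 → Fin (2 * s + 1)) (Fin 3 → Fin (2 * s + 1)) ℂ) := by
      simp [braidMatrix, wordK]
    rw [h, Matrix.one_mulVec, pow_zero]
    rfl
  | succ K ih =>
    have h : braidMatrix s u (wordK (K + 1)) =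
        crossing (r := 2) s u (0, true) * (crossing (r := 2) s u (1, false) *
          braidMatrix s u (wordK K)) := by
      simp [braidMatrix, wordK, List.replicate_succ]
    rw [h, ← Matrix.mulVec_mulVec, ← Matrix.mulVec_mulVec, braidE_zero, braidE_one, ih, pow_succ']
    rfl

theorem trace_braid {s : ℕ} {u : ℂˣ} (K : ℕ) :
    (braidMatrix s u (wordK K)).trace =
      LinearMap.trace ℂ (V3 s) ((op12 (Rm s u true) * op23 (Rm s u false)) ^ K) := by
  have h : (braidE s).conj (Matrix.toLin' (braidMatrix s u (wordK K))) =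
      (op12 (Rm s u true) * op23 (Rm s u false)) ^ K := by
    apply LinearMap.ext
    intro Y
    rw [LinearEquiv.conj_apply_apply, Matrix.toLin'_apply, braidE_word,
      LinearEquiv.apply_symm_apply]
  rw [← h, LinearMap.trace_conj', Matrix.trace_toLin'_eq]

end Pool.Agent.Work.MP_b30479_gt.AX
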