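import Pool.Agent.Work.MP_b30479_gt.AX.CmF

/-!
# Decomposition of the trace by levels
-/

namespace Pool.Agent.Work.MP_b30479_gt.AX

open Finset Polynomial TB

/-- the algebra of the matrices which preserve the level -/
noncomputable def levAlg (s : ℕ) : Subalgebra ℂ (Matrix (I2 s) (I2 s) ℂ) where
  carrier := {T | ∀ p q : I2 s, (p.1 : ℕ) + p.2 ≠ (q.1 : ℕ) + q.2 → T p q = 0}
  mul_mem' := by
    intro A B hA hB p q hpq
    rw [Matrix.mul_apply]
    apply Finset.sum_eq_zero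
    intro r _
    by_cases h1 : (p.1 : ℕ) + p.2 = (r.1 : ℕ) + r.2
    · rw [hB r q (by rw [← h1]; exact hpq), mul_zero]
    · rw [hA p r h1, zero_mul]
  add_mem' := by
    intro A B hA hB p q hpq
    rw [Matrix.add_apply, hA p q hpq, hB p q hpq, add_zero]
  algebraMap_mem' := by
    intro c p q hpq
    rw [Matrix.algebraMap_matrix_apply, if_neg]
    intro h
    exact hpq (by rw [h])

lemma level_mem_iff {s : ℕ} {T : Matrix (I2 s) (I2 s) ℂ} :
    T ∈ levAlg s ↔ ∀ p q : I2 s, (p.1 : ℕ) + p.2 ≠ (q.1 : ℕ) + q.2 → T p q = 0 := Iff.rfl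

lemma level_sum_fiber {s M L : ℕ} {e : Fin (M + 1) → I2 s} (inj : Function.Injective e)
    (he : ∀ p : I2 s, (p.1 : ℕ) + p.2 = L ↔ ∃ a, e a = p) (f : I2 s → ℂ) :
    ∑ p ∈ univ.filter (fun p : I2 s => (p.1 : ℕ) + p.2 = L), f p = ∑ a, f (e a) := by
  have h : univ.filter (fun p : I2 s => (p.1 : ℕ) + p.2 = L) = univ.map ⟨e, inj⟩ := by
    ext p
    simp only [mem_filter, mem_univ, true_and, mem_map, Function.Embedding.coeFn_mk]
    exact he p
  rw [h, Finset.sum_map]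
  rfl

lemma level_mul {s M L : ℕ} {e : Fin (M + 1) → I2 s} (inj : Function.Injective e)
    (he : ∀ p : I2 s, (p.1 : ℕ) + p.2 = L ↔ ∃ a, e a = p) {A : Matrix (I2 s) (I2 s) ℂ}
    (hA : A ∈ levAlg s) (B : Matrix (I2 s) (I2 s) ℂ) :
    (A * B).submatrix e e = A.submatrix e e * B.submatrix e e := by
  ext a b
  rw [Matrix.submatrix_apply, Matrix.mul_apply, Matrix.mul_apply]
  have h1 : ∑ j, A (e a) j * B j (e b) =
      ∑ p ∈ univ.filter (fun p : I2 s => (p.1 : ℕ) + p.2 = L), A (e a) p * B p (e b) := by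
    rw [Finset.sum_filter]
    apply Finset.sum_congr rfl
    intro p _
    split_ifs with h
    · rfl
    · rw [hA (e a) p, zero_mul]
      rw [(he (e a)).2 ⟨a, rfl⟩]
      exact fun h' => h h'.symm
  rw [h1, level_sum_fiber inj he]
  rfl

/-- restriction to a level -/
noncomputable def levRes {s M L : ℕ} {e : Fin (M + 1) → I2 s} (inj : Function.Injective e)
    (he : ∀ p : I2 s, (p.1 : ℕ) + p.2 = L ↔ ∃ a, e a = p) :
    levAlg s →ₐ[ℂ] Matrix (Fin (M + 1)) (Fin (M + 1)) ℂ where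
  toFun T := (T : Matrix (I2 s) (I2 s) ℂ).submatrix e e
  map_one' := by
    rw [OneMemClass.coe_one]
    exact Matrix.submatrix_one _ inj
  map_mul' A B := by
    rw [MulMemClass.coe_mul]
    exact level_mul inj he A.2 B
  map_zero' := by
    rw [ZeroMemClass.coe_zero]
    rfl
  map_add' A B := rfl
  commutes' c := by
    ext a b
    rw [Matrix.submatrix_apply, Subalgebra.coe_algebraMap, Matrix.algebraMap_matrix_apply,
      Matrix.algebraMap_matrix_apply]
    by_cases h : a = b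
    · rw [if_pos h, if_pos (by rw [h])]
    · rw [if_neg h, if_neg (fun h' => h (inj h'))]

lemma level_aeval {s M L : ℕ} {e : Fin (M + 1) → I2 s} (inj : Function.Injective e)
    (he : ∀ p : I2 s, (p.1 : ℕ) + p.2 = L ↔ ∃ a, e a = p) {A : Matrix (I2 s) (I2 s) ℂ}
    (hA : A ∈ levAlg s) (p : ℂ[X]) :
    (aeval A p).submatrix e e = aeval (A.submatrix e e) p := by
  have h1 : aeval A p = ((aeval (⟨A, hA⟩ : levAlg s) p : levAlg s) : Matrix (I2 s) (I2 s) ℂ) := by
    have := Polynomial.aeval_algHom_apply (levAlg s).val (⟨A, hA⟩ : levAlg s) p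
    exact this
  have h2 := Polynomial.aeval_algHom_apply (levRes inj he) (⟨A, hA⟩ : levAlg s) p
  rw [h1]
  exact h2.symm

lemma level_pow {s M L : ℕ} {e : Fin (M + 1) → I2 s} (inj : Function.Injective e)
    (he : ∀ p : I2 s, (p.1 : ℕ) + p.2 = L ↔ ∃ a, e a = p) {A : Matrix (I2 s) (I2 s) ℂ}
    (hA : A ∈ levAlg s) (K : ℕ) :
    (A ^ K).submatrix e e = (A.submatrix e e) ^ K := by
  have h2 := map_pow (levRes inj he) (⟨A, hA⟩ : levAlg s) K
  exact h2

lemma level_aeval_mem {s : ℕ} {A : Matrix (I2 s) (I2 s) ℂ} (hA : A ∈ levAlg s) (p : ℂ[X]) :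
    aeval A p ∈ levAlg s := by
  have := Polynomial.aeval_algHom_apply (levAlg s).val (⟨A, hA⟩ : levAlg s) p
  have h2 : aeval A p = ((aeval (⟨A, hA⟩ : levAlg s) p : levAlg s) : Matrix (I2 s) (I2 s) ℂ) := this
  rw [h2]
  exact (aeval (⟨A, hA⟩ : levAlg s) p).2

/-- embedding of a low level -/
def eLow {s N : ℕ} (hN : N ≤ 2 * s) (a : Fin (N + 1)) : I2 s := (⟨a, by omega⟩, ⟨N - a, by omega⟩)

/-- embedding of a high level -/
def eHigh {s M : ℕ} (hM : M ≤ 2 * s) (a : Fin (M + 1)) : I2 s :=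
  (⟨2 * s - M + a, by omega⟩, ⟨2 * s - a, by omega⟩)

lemma eLow_inj {s N : ℕ} (hN : N ≤ 2 * s) : Function.Injective (eLow (s := s) hN) := by
  intro a b h
  have := congrArg (fun p : I2 s => (p.1 : ℕ)) h
  exact Fin.ext this

lemma eHigh_inj {s M : ℕ} (hM : M ≤ 2 * s) : Function.Injective (eHigh (s := s) hM) := by
  intro a b h
  have := congrArg (fun p : I2 s => (p.1 : ℕ)) h
  simp only [eHigh] at this
  exact Fin.ext (by omega)

lemma eLow_iff {s N : ℕ} (hN : N ≤ 2 * s) (p : I2 s) :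
    (p.1 : ℕ) + p.2 = N ↔ ∃ a, eLow hN a = p := by
  obtain ⟨⟨i, hi⟩, ⟨j, hj⟩⟩ := p
  constructor
  · intro h
    simp only at h
    refine ⟨⟨i, by omega⟩, ?_⟩
    simp only [eLow, Prod.mk.injEq, Fin.mk.injEq, true_and]
    omega
  · rintro ⟨a, ha⟩
    simp only [eLow, Prod.mk.injEq, Fin.mk.injEq] at ha
    simp only
    have := a.2
    omega

lemma eHigh_iff {s M : ℕ} (hM : M ≤ 2 * s) (p : I2 s) :
    (p.1 : ℕ) + p.2 = 4 * s - M ↔ ∃ a, eHigh hM a = p := by
  obtain ⟨⟨i, hi⟩, ⟨j, hj⟩⟩ := p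
  constructor
  · intro h
    simp only at h
    refine ⟨⟨2 * s - j, by omega⟩, ?_⟩
    simp only [eHigh, Prod.mk.injEq, Fin.mk.injEq]
    omega
  · rintro ⟨a, ha⟩
    simp only [eHigh, Prod.mk.injEq, Fin.mk.injEq] at ha
    simp only
    have := a.2
    omega

lemma level_sum {s : ℕ} (f : I2 s → ℂ) (G G' : ℕ → ℂ)
    (hG : ∀ N (hN : N ≤ 2 * s), ∑ a, f (eLow hN a) = G N)
    (hG' : ∀ M (hM : M ≤ 2 * s), ∑ a, f (eHigh hM a) = G' M) :
    ∑ p, f p = ∑ N ∈ range (2 * s + 1), G N + ∑ M ∈ range (2 * s), G' M := by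
  have h1 : ∑ p, f p = ∑ L ∈ range (2 * s + 1 + 2 * s),
      ∑ p ∈ univ.filter (fun p : I2 s => (p.1 : ℕ) + p.2 = L), f p := by
    symm
    apply Finset.sum_fiberwise_of_maps_to
    intro p _
    rw [mem_range]
    have := p.1.2
    have := p.2.2
    omega
  rw [h1, Finset.sum_range_add]
  congr 1
  · apply Finset.sum_congr rfl
    intro N hN
    rw [mem_range] at hN
    rw [level_sum_fiber (eLow_inj (s := s) (by omega)) (eLow_iff (by omega)), hG N (by omega)]
  · rw [← Finset.sum_range_reflect]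
    apply Finset.sum_congr rfl
    intro M hM
    rw [mem_range] at hM
    have e : 2 * s + 1 + (2 * s - 1 - M) = 4 * s - M := by omega
    rw [e, level_sum_fiber (eHigh_inj (s := s) (by omega)) (eHigh_iff (by omega)), hG' M (by omega)]

lemma level_Cm_mem (s : ℕ) (t : ℂ) : Cm s t ∈ levAlg s := fun _ _ h => Cm_level h

lemma level_Um_mem (s : ℕ) (t : ℂ) : Um s t ∈ levAlg s := by
  intro p q h
  unfold Um
  rw [if_neg, if_neg]
  · intro h'
    omega
  · intro h'
    exact h (by rw [h'])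

lemma level_Cm_low {s N : ℕ} (t : ℂ) (hN : N ≤ 2 * s) :
    (Cm s t).submatrix (eLow hN) (eLow hN) = TN s t N := by
  ext a b
  rfl

lemma level_Cm_high {s M : ℕ} {t : ℂ} (h : IsPrimitiveRoot t (2 * s + 1)) (hM : M ≤ 2 * s) :
    (Cm s t).submatrix (eHigh hM) (eHigh hM) = TN s t M := by
  ext a b
  exact cas_high h hM a b

lemma level_Um_low {s N : ℕ} (t : ℂ) (hN : N ≤ 2 * s) :
    (Um s t).submatrix (eLow hN) (eLow hN) = UN s t N := by
  ext a b
  rw [Matrix.submatrix_apply]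
  unfold Um UN
  have h1 : (eLow hN b = eLow hN a) ↔ ((b : ℕ) = a) := by
    rw [(eLow_inj hN).eq_iff, Fin.ext_iff]
  have h2 : ((eLow hN b).1 : ℕ) = (eLow hN a).1 + 1 ∧ ((eLow hN b).2 : ℕ) + 1 = (eLow hN a).2 ↔
      (b : ℕ) = a + 1 := by
    simp only [eLow]
    have := a.2
    have := b.2
    omega
  rw [if_congr h1 rfl (if_congr h2 rfl rfl)]
  rfl

lemma level_pow_inv {s : ℕ} {t : ℂ} (h : IsPrimitiveRoot t (2 * s + 1)) {a b : ℕ}
    (hab : a + b = 2 * s + 1) : t⁻¹ ^ a = t ^ b := by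
  have h0 : t ≠ 0 := h.ne_zero (by omega)
  rw [inv_pow]
  have : t ^ a * t ^ b = 1 := by rw [← pow_add, hab, h.pow_eq_one]
  exact (eq_inv_of_mul_eq_one_right this).symm

lemma level_Um_high {s M : ℕ} {t : ℂ} (h : IsPrimitiveRoot t (2 * s + 1)) (hM : M ≤ 2 * s) :
    (Um s t).submatrix (eHigh hM) (eHigh hM) = UB s t M := by
  ext a b
  rw [Matrix.submatrix_apply]
  unfold Um UB
  have h1 : (eHigh hM b = eHigh hM a) ↔ ((b : ℕ) = a) := by
    rw [(eHigh_inj hM).eq_iff, Fin.ext_iff]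
  have h2 : ((eHigh hM b).1 : ℕ) = (eHigh hM a).1 + 1 ∧
      ((eHigh hM b).2 : ℕ) + 1 = (eHigh hM a).2 ↔ (b : ℕ) = a + 1 := by
    simp only [eHigh]
    have := a.2
    have := b.2
    omega
  rw [if_congr h1 rfl (if_congr h2 rfl rfl)]
  have ha := a.2
  have hb := b.2
  have h0 : t ≠ 0 := h.ne_zero (by omega)
  split_ifs with h3 h4
  · simp only [eHigh, xx]
    have e1 : t⁻¹ ^ (2 * s - (a : ℕ)) = t ^ ((a : ℕ) + 1) := level_pow_inv h (by omega)
    have e2 : t⁻¹ ^ (a : ℕ) = t ^ (2 * s + 1 - (a : ℕ)) := level_pow_inv h (by omega)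
    have e3 : t ^ (2 * s - (a : ℕ)) * t = t ^ (2 * s + 1 - (a : ℕ)) := by
      rw [← pow_succ]
      congr 1
      omega
    rw [e1, e2, ← e3]
    ring
  · simp only [eHigh]
    have e1 : t⁻¹ ^ (2 * s - (a : ℕ)) = t ^ ((a : ℕ) + 1) := level_pow_inv h (by omega)
    have e2 : t⁻¹ ^ (2 * s - M + (a : ℕ) + 1) = t ^ (M - (a : ℕ)) := level_pow_inv h (by omega)
    rw [e1, e2]
  · rfl

theorem trace_level {s : ℕ} {t : ℂ} (h : IsPrimitiveRoot t (2 * s + 1)) (p q : ℂ[X]) (K : ℕ) :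
    ((aeval (Cm s t) p * aeval (Um s t) q) ^ K).trace =
      ∑ N ∈ range (2 * s + 1), ((aeval (TN s t N) p * aeval (UN s t N) q) ^ K).trace +
      ∑ M ∈ range (2 * s), ((aeval (TN s t M) p * aeval (UB s t M) q) ^ K).trace := by
  have hC : aeval (Cm s t) p ∈ levAlg s := level_aeval_mem (level_Cm_mem s t) p
  have hU : aeval (Um s t) q ∈ levAlg s := level_aeval_mem (level_Um_mem s t) q
  apply level_sum
  · intro N hN
    have e : ((aeval (Cm s t) p * aeval (Um s t) q) ^ K).submatrix (eLow hN) (eLow hN) =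
        (aeval (TN s t N) p * aeval (UN s t N) q) ^ K := by
      rw [level_pow (eLow_inj hN) (eLow_iff hN) (mul_mem hC hU),
        level_mul (eLow_inj hN) (eLow_iff hN) hC,
        level_aeval (eLow_inj hN) (eLow_iff hN) (level_Cm_mem s t),
        level_aeval (eLow_inj hN) (eLow_iff hN) (level_Um_mem s t), level_Cm_low, level_Um_low]
    rw [← e]
    rfl
  · intro M hM
    have e : ((aeval (Cm s t) p * aeval (Um s t) q) ^ K).submatrix (eHigh hM) (eHigh hM) =
        (aeval (TN s t M) p * aeval (UB s t M) q) ^ K := by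
      rw [level_pow (eHigh_inj hM) (eHigh_iff hM) (mul_mem hC hU),
        level_mul (eHigh_inj hM) (eHigh_iff hM) hC,
        level_aeval (eHigh_inj hM) (eHigh_iff hM) (level_Cm_mem s t),
        level_aeval (eHigh_inj hM) (eHigh_iff hM) (level_Um_mem s t), level_Cm_high h,
        level_Um_high h]
    rw [← e]
    rfl

/-- the polynomial in the Casimir matrix of a level is the level part of the polynomial in the
Casimir matrix -/
theorem aeval_TN {s : ℕ} {t : ℂ} (p : ℂ[X]) {N : ℕ} (hN : N ≤ 2 * s) (a b : Fin (N + 1)) :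
    aeval (TN s t N) p a b = aeval (Cm s t) p
      (⟨a, by omega⟩, ⟨N - a, by omega⟩) (⟨b, by omega⟩, ⟨N - b, by omega⟩) := by
  rw [← level_Cm_low t hN, ← level_aeval (eLow_inj hN) (eLow_iff hN) (level_Cm_mem s t)]
  rfl

end Pool.Agent.Work.MP_b30479_gt.AX
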