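import Pool.Agent.Work.MP_b30479_gt.AX.Basis
import Pool.Agent.Work.MP_b30479_gt.AX.Level

/-!
# Closed form of the braiding in the split basis
-/

namespace Pool.Agent.Work.MP_b30479_gt.AX

open Finset Polynomial TB

/-- the first column of the braiding on a level -/
theorem TN_first {s : ℕ} {u : ℂˣ} {p : ℂ[X]} (hp : Rm s u true = aeval (Cm s (u : ℂ)) p) {N : ℕ}
    (hN : N ≤ 2 * s) (a : Fin (N + 1)) : aeval (TN s (u : ℂ) N) p a 0 =
      if (a : ℕ) = N then (u : ℂ) ^ (s * s) * (u : ℂ)⁻¹ ^ (s * N) else 0 := by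
  have ha := a.2
  rw [aeval_TN p hN, ← hp]
  change entry s u true ((0 : Fin (N + 1)) : ℕ) (N - ((0 : Fin (N + 1)) : ℕ)) (a : ℕ)
    (N - (a : ℕ)) = _
  simp only [Fin.coe_ofNat_eq_mod, Nat.zero_mod, Nat.sub_zero]
  unfold entry
  simp only [if_true]
  by_cases h : (a : ℕ) = N
  · rw [if_pos ⟨by omega, by omega⟩, if_pos h, h, Nat.sub_self]
    unfold coeffPos gauss
    have hu : (u : ℂ) ≠ 0 := u.ne_zero
    simp only [Nat.choose_zero_succ, Nat.cast_zero, mul_zero, sub_zero, zero_add, add_zero,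
      Finset.range_zero, Finset.prod_empty, mul_one]
    rw [Units.val_zpow_eq_zpow_val, inv_pow, mul_sub, zpow_sub₀ hu, div_eq_mul_inv]
    norm_cast
  · rw [if_neg (by omega), if_neg h]

/-- the product of the factors `1 - t⁻¹^(N-l)` -/
lemma Closed_prodA {s : ℕ} {t : ℂ} (h : IsPrimitiveRoot t (2 * s + 1)) {N : ℕ} (hN : N ≤ 2 * s)
    (k : ℕ) (hk : k ≤ N) : (∏ l ∈ range k, (1 - t⁻¹ ^ (N - l))) =
      (-1) ^ k * (t⁻¹ ^ (k * N) * t ^ (k.choose 2)) * (qf t N / qf t (N - k)) := by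
  have h0 : t ≠ 0 := h.ne_zero (by omega)
  induction k with
  | zero =>
    have n1 : qf t N ≠ 0 := qf_ne_zero h hN
    simp [n1]
  | succ k ih =>
    have n1 : qf t (N - (k + 1)) ≠ 0 := qf_ne_zero h (by omega)
    have e0 : N - k = N - (k + 1) + 1 := by omega
    have n2 : (1 : ℂ) - t ^ (N - (k + 1) + 1) ≠ 0 := one_sub_pow_ne h (by omega) (by omega)
    rw [prod_range_succ, ih (by omega), e0, qf_succ, Nat.choose_succ_succ' k 1,
      Nat.choose_one_right, add_mul k 1 N, one_mul, pow_add t⁻¹ (k * N) N, pow_add t k,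
      pow_succ (-1 : ℂ) k]
    have e1 : t⁻¹ ^ N * t ^ k = t⁻¹ ^ (N - (k + 1) + 1) := by
      have : N = (N - (k + 1) + 1) + k := by omega
      conv_lhs => rw [this]
      rw [pow_add, mul_assoc, inv_pow, inv_pow, inv_mul_cancel₀ (pow_ne_zero _ h0), mul_one]
    have e2 : t⁻¹ ^ (N - (k + 1) + 1) * t ^ (N - (k + 1) + 1) = 1 := by
      rw [inv_pow, inv_mul_cancel₀ (pow_ne_zero _ h0)]
    generalize t⁻¹ ^ (N - (k + 1) + 1) = A at *
    generalize t ^ (N - (k + 1) + 1) = B at *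
    generalize qf t (N - (k + 1)) = Q at *
    generalize qf t N = R
    generalize t⁻¹ ^ (k * N) = X
    generalize t ^ (k.choose 2) = Y
    have e3 : (-1 : ℂ) ^ k * (X * Y) * (R / (Q * (1 - B))) * (1 - A) =
        (-1) ^ k * -1 * (X * A * Y) * (R / Q) := by
      have e4 : 1 - A = -A * (1 - B) := by linear_combination -e2
      rw [e4]
      field_simp
    calc (-1 : ℂ) ^ k * (X * Y) * (R / (Q * (1 - B))) * (1 - A)
        = (-1) ^ k * -1 * (X * A * Y) * (R / Q) := e3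
      _ = (-1) ^ k * -1 * (X * t⁻¹ ^ N * (t ^ k * Y)) * (R / Q) := by rw [← e1]; ring

lemma Closed_prodB {s : ℕ} {t : ℂ} (h : IsPrimitiveRoot t (2 * s + 1)) {N : ℕ} (hN : N ≤ 2 * s)
    (a m : ℕ) (hk : a + m ≤ N) : (∏ l ∈ Ico a (a + m), (1 - t ^ (N - l))) =
      qf t (N - a) / qf t (N - (a + m)) := by
  induction m with
  | zero =>
    have n1 : qf t (N - a) ≠ 0 := qf_ne_zero h (by omega)
    simp [n1]
  | succ m ih =>
    have n1 : qf t (N - (a + (m + 1))) ≠ 0 := qf_ne_zero h (by omega)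
    have e0 : N - (a + m) = N - (a + (m + 1)) + 1 := by omega
    have n2 : (1 : ℂ) - t ^ (N - (a + (m + 1)) + 1) ≠ 0 := one_sub_pow_ne h (by omega) (by omega)
    rw [← add_assoc, prod_Ico_succ_top (by omega), ih (by omega), add_assoc, e0, qf_succ]
    field_simp

/-- telescoping of the alternating `q`-binomial sum -/
lemma Closed_tele {s : ℕ} {t : ℂ} (h : IsPrimitiveRoot t (2 * s + 1)) {M : ℕ} (hM : M + 1 ≤ 2 * s)
    (r : ℕ) (hr : r ≤ M) :
    ∑ m ∈ range (r + 1), (-1) ^ m * (t ^ (m.choose 2) * t⁻¹ ^ (m * M)) *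
      (qf t (M + 1) / (qf t m * qf t (M + 1 - m))) =
    (-1) ^ r * (t ^ (r.choose 2) * t⁻¹ ^ (r * M)) * (qf t M / (qf t r * qf t (M - r))) := by
  have h0 : t ≠ 0 := h.ne_zero (by omega)
  induction r with
  | zero =>
    have n1 : qf t (M + 1) ≠ 0 := qf_ne_zero h hM
    have n2 : qf t M ≠ 0 := qf_ne_zero h (by omega)
    simp [n1, n2]
  | succ r ih =>
    rw [sum_range_succ, ih (by omega)]
    have e0 : M - r = M - (r + 1) + 1 := by omega
    have e1 : M + 1 - (r + 1) = M - (r + 1) + 1 := by omega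
    have n1 : qf t r ≠ 0 := qf_ne_zero h (by omega)
    have n2 : qf t (M - (r + 1)) ≠ 0 := qf_ne_zero h (by omega)
    have n3 : (1 : ℂ) - t ^ (r + 1) ≠ 0 := one_sub_pow_ne h (by omega) (by omega)
    have n4 : (1 : ℂ) - t ^ (M - (r + 1) + 1) ≠ 0 := one_sub_pow_ne h (by omega) (by omega)
    rw [e0, e1, qf_succ, qf_succ, qf_succ, Nat.choose_succ_succ' r 1, Nat.choose_one_right,
      add_mul r 1 M, one_mul, pow_add t⁻¹ (r * M) M, pow_add t r, pow_succ (-1 : ℂ) r]
    -- `t^(M+1) = t^(r+1) * t^(M-(r+1)+1)`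
    have e2 : t ^ (M + 1) = t ^ (r + 1) * t ^ (M - (r + 1) + 1) := by
      rw [← pow_add]; congr 1; omega
    have e3 : t ^ r * t⁻¹ ^ M * t ^ (M - (r + 1) + 1) = 1 := by
      rw [inv_pow, mul_comm (t ^ r), mul_assoc, ← pow_add, show r + (M - (r + 1) + 1) = M by omega,
        inv_mul_cancel₀ (pow_ne_zero _ h0)]
    rw [e2]
    generalize t ^ (M - (r + 1) + 1) = B at *
    generalize t ^ (r + 1) = C at *
    generalize qf t (M - (r + 1)) = Q at *
    generalize qf t r = R at *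
    generalize qf t M = Z at *
    generalize t⁻¹ ^ (r * M) = X
    generalize t ^ (r.choose 2) = Y
    generalize t ^ r = D at *
    generalize t⁻¹ ^ M = E at *
    generalize (-1 : ℂ) ^ r = S
    field_simp
    linear_combination (S * Y * X * Z * (C - 1)) * e3

lemma Closed_alt {s : ℕ} {t : ℂ} (h : IsPrimitiveRoot t (2 * s + 1)) {M : ℕ} (hM : M + 1 ≤ 2 * s) :
    ∑ m ∈ range (M + 2), (-1) ^ m * (t ^ (m.choose 2) * t⁻¹ ^ (m * M)) *
      (qf t (M + 1) / (qf t m * qf t (M + 1 - m))) = 0 := by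
  have h0 : t ≠ 0 := h.ne_zero (by omega)
  rw [sum_range_succ, Closed_tele h hM M le_rfl]
  have n1 : qf t (M + 1) ≠ 0 := qf_ne_zero h hM
  have n2 : qf t M ≠ 0 := qf_ne_zero h (by omega)
  rw [Nat.sub_self, Nat.sub_self, qf_zero, mul_one, mul_one, div_self n1, div_self n2,
    Nat.choose_succ_succ' M 1, Nat.choose_one_right, add_mul M 1 M, one_mul,
    pow_add t⁻¹ (M * M) M, pow_add t M, pow_succ (-1 : ℂ) M]
  have e3 : t ^ M * t⁻¹ ^ M = 1 := by
    rw [inv_pow, mul_inv_cancel₀ (pow_ne_zero _ h0)]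
  linear_combination (-(-1) ^ M * t ^ (M.choose 2) * t⁻¹ ^ (M * M)) * e3

lemma Closed_choose (a m : ℕ) : (a + m).choose 2 = a.choose 2 + m.choose 2 + a * m := by
  induction m with
  | zero => simp
  | succ m ih =>
    rw [← add_assoc, Nat.choose_succ_succ' (a + m) 1, Nat.choose_succ_succ' m 1, ih,
      Nat.choose_one_right, Nat.choose_one_right]
    ring

/-- the terms of the first column -/
lemma Closed_term {s : ℕ} {t : ℂ} (h : IsPrimitiveRoot t (2 * s + 1)) {a R m : ℕ}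
    (hN : a + R ≤ 2 * s) (hm : m ≤ R) :
    ((t ^ s * t) ^ m * (qf t (a + m) / qf t m) *
      (∏ l ∈ range (a + m), (1 - t⁻¹ ^ (a + R - l))) *
        ∏ l ∈ Ico a (a + m), (1 - t ^ (a + R - l))) *
      ((-1) ^ (a + R) * t ^ (s * s + (a + R + 1).choose 2) * ((t ^ s)⁻¹ ^ (a + m)) *
        (qf t (a + R - (a + m)) / (qf t (a + m) * qf t (a + R)))) =
    ((-1) ^ (a + R) * t ^ (s * s + (a + R + 1).choose 2) * (t ^ s)⁻¹ ^ a * (-1) ^ a) *
      ((-1) ^ m * (t ^ m * (t⁻¹ ^ ((a + m) * (a + R)) * t ^ ((a + m).choose 2))) *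
        (qf t R / (qf t m * qf t (R - m)))) := by
  have h0 : t ≠ 0 := h.ne_zero (by omega)
  rw [Closed_prodA h hN (a + m) (by omega), Closed_prodB h hN a m (by omega)]
  have e1 : a + R - (a + m) = R - m := by omega
  have e2 : a + R - a = R := by omega
  rw [e1, e2]
  have n1 : qf t (a + m) ≠ 0 := qf_ne_zero h (by omega)
  have n2 : qf t m ≠ 0 := qf_ne_zero h (by omega)
  have n3 : qf t (R - m) ≠ 0 := qf_ne_zero h (by omega)
  have n4 : qf t (a + R) ≠ 0 := qf_ne_zero h (by omega)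
  have hV : t ^ s ≠ 0 := pow_ne_zero _ h0
  have e3 : (t ^ s * t) ^ m * (t ^ s)⁻¹ ^ (a + m) = (t ^ s)⁻¹ ^ a * t ^ m := by
    rw [mul_pow, pow_add]
    have : (t ^ s) ^ m * (t ^ s)⁻¹ ^ m = 1 := by
      rw [← mul_pow, mul_inv_cancel₀ hV, one_pow]
    linear_combination ((t ^ s)⁻¹ ^ a * t ^ m) * this
  have e4 : (-1 : ℂ) ^ (a + m) = (-1) ^ a * (-1) ^ m := pow_add _ _ _
  rw [e4]
  generalize t⁻¹ ^ ((a + m) * (a + R)) = X
  generalize t ^ ((a + m).choose 2) = Y
  generalize (-1 : ℂ) ^ (a + R) * t ^ (s * s + (a + R + 1).choose 2) = W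
  calc (t ^ s * t) ^ m * (qf t (a + m) / qf t m) * ((-1) ^ a * (-1) ^ m * (X * Y) *
        (qf t (a + R) / qf t (R - m))) * (qf t R / qf t (R - m)) *
        (W * (t ^ s)⁻¹ ^ (a + m) * (qf t (R - m) / (qf t (a + m) * qf t (a + R))))
      = ((t ^ s * t) ^ m * (t ^ s)⁻¹ ^ (a + m)) * W * ((-1) ^ a * (-1) ^ m * (X * Y)) *
        ((qf t (a + m) / qf t m) * (qf t (a + R) / qf t (R - m)) * (qf t R / qf t (R - m)) *
          (qf t (R - m) / (qf t (a + m) * qf t (a + R)))) := by ring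
    _ = ((t ^ s)⁻¹ ^ a * t ^ m) * W * ((-1) ^ a * (-1) ^ m * (X * Y)) *
        (qf t R / (qf t m * qf t (R - m))) := by
        rw [e3]
        congr 1
        field_simp
    _ = _ := by ring

lemma Closed_pow {t : ℂ} (h0 : t ≠ 0) (a m M : ℕ) :
    t ^ m * (t⁻¹ ^ ((a + m) * (a + (M + 1))) * t ^ ((a + m).choose 2)) =
      t⁻¹ ^ (a * (a + (M + 1))) * t ^ (a.choose 2) * (t ^ (m.choose 2) * t⁻¹ ^ (m * M)) := by
  have e : (t ^ m * t ^ ((a + m).choose 2)) * (t ^ (a * (a + (M + 1))) * t ^ (m * M)) =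
      t ^ (a.choose 2) * t ^ (m.choose 2) * t ^ ((a + m) * (a + (M + 1))) := by
    rw [← pow_add, ← pow_add, ← pow_add, ← pow_add, ← pow_add, Closed_choose]
    congr 1
    ring
  simp only [inv_pow]
  have n1 : t ^ (a * (a + (M + 1))) ≠ 0 := pow_ne_zero _ h0
  have n2 : t ^ (m * M) ≠ 0 := pow_ne_zero _ h0
  have n3 : t ^ ((a + m) * (a + (M + 1))) ≠ 0 := pow_ne_zero _ h0
  generalize t ^ (a * (a + (M + 1))) = A at *
  generalize t ^ (m * M) = B at *
  generalize t ^ ((a + m) * (a + (M + 1))) = C at *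
  generalize t ^ ((a + m).choose 2) = D at *
  generalize t ^ (a.choose 2) = E at *
  generalize t ^ (m.choose 2) = F at *
  generalize t ^ m = G at *
  field_simp
  linear_combination e

/-- the first column of `alM` -/
theorem PN_alM_first {s : ℕ} {t : ℂ} (h : IsPrimitiveRoot t (2 * s + 1)) {N : ℕ} (hN : N ≤ 2 * s)
    (a : Fin (N + 1)) : (PN s t N * alM s t N) a 0 =
      if (a : ℕ) = N then t ^ (s * s) * t⁻¹ ^ (s * N) else 0 := by
  have h0 : t ≠ 0 := h.ne_zero (by omega)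
  obtain ⟨a, ha⟩ := a
  obtain ⟨R, rfl⟩ : ∃ R, N = a + R := ⟨N - a, by omega⟩
  rw [Matrix.mul_apply]
  have step1 : ∑ j, PN s t (a + R) ⟨a, ha⟩ j * alM s t (a + R) j 0 =
      ∑ k ∈ range (a + R + 1), (if a ≤ k then
      (t ^ s * t) ^ (k - a) * (qf t k / qf t (k - a)) *
      (∏ l ∈ range k, (1 - t⁻¹ ^ (a + R - l))) * ∏ l ∈ Ico a k, (1 - t ^ (a + R - l)) else 0) *
      ((-1) ^ (a + R) * t ^ (s * s + (a + R + 1).choose 2) * ((t ^ s)⁻¹ ^ k) *
        (qf t (a + R - k) / (qf t k * qf t (a + R)))) := by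
    rw [← Fin.sum_univ_eq_sum_range (fun k => (if a ≤ k then
      (t ^ s * t) ^ (k - a) * (qf t k / qf t (k - a)) *
      (∏ l ∈ range k, (1 - t⁻¹ ^ (a + R - l))) * ∏ l ∈ Ico a k, (1 - t ^ (a + R - l)) else 0) *
      ((-1) ^ (a + R) * t ^ (s * s + (a + R + 1).choose 2) * ((t ^ s)⁻¹ ^ k) *
        (qf t (a + R - k) / (qf t k * qf t (a + R))))) (a + R + 1)]
    apply Finset.sum_congr rfl
    intro k _
    unfold PN alM
    have e0 : ((0 : Fin (a + R + 1)) : ℕ) = 0 := rfl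
    simp only [e0, Nat.zero_le, if_true, Nat.sub_zero, Nat.choose_zero_succ, zero_mul, pow_zero,
      mul_one, one_mul]
  have hsplit : ∀ F : ℕ → ℂ, ∑ k ∈ range (a + R + 1), F k =
      ∑ k ∈ range a, F k + ∑ x ∈ range (R + 1), F (a + x) := by
    intro F
    rw [add_assoc, Finset.sum_range_add]
  rw [step1, hsplit]
  have step2 : ∑ k ∈ range a, (if a ≤ k then
      (t ^ s * t) ^ (k - a) * (qf t k / qf t (k - a)) *
      (∏ l ∈ range k, (1 - t⁻¹ ^ (a + R - l))) * ∏ l ∈ Ico a k, (1 - t ^ (a + R - l)) else 0) *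
      ((-1) ^ (a + R) * t ^ (s * s + (a + R + 1).choose 2) * ((t ^ s)⁻¹ ^ k) *
        (qf t (a + R - k) / (qf t k * qf t (a + R)))) = 0 := by
    apply Finset.sum_eq_zero
    intro k hk
    rw [mem_range] at hk
    rw [if_neg (by omega), zero_mul]
  rw [step2, zero_add]
  have step3 : ∑ x ∈ range (R + 1), (if a ≤ a + x then
      (t ^ s * t) ^ (a + x - a) * (qf t (a + x) / qf t (a + x - a)) *
      (∏ l ∈ range (a + x), (1 - t⁻¹ ^ (a + R - l))) * ∏ l ∈ Ico a (a + x),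
        (1 - t ^ (a + R - l)) else 0) *
      ((-1) ^ (a + R) * t ^ (s * s + (a + R + 1).choose 2) * ((t ^ s)⁻¹ ^ (a + x)) *
        (qf t (a + R - (a + x)) / (qf t (a + x) * qf t (a + R)))) =
      ∑ m ∈ range (R + 1),
        ((-1) ^ (a + R) * t ^ (s * s + (a + R + 1).choose 2) * (t ^ s)⁻¹ ^ a * (-1) ^ a) *
      ((-1) ^ m * (t ^ m * (t⁻¹ ^ ((a + m) * (a + R)) * t ^ ((a + m).choose 2))) *
        (qf t R / (qf t m * qf t (R - m)))) := by
    apply Finset.sum_congr rfl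
    intro m hm
    rw [mem_range] at hm
    rw [if_pos (by omega), show a + m - a = m by omega, ← Closed_term h hN (by omega)]
  rw [step3, ← Finset.mul_sum]
  rcases Nat.eq_zero_or_pos R with hR | hR
  · subst hR
    have n1 : qf t 0 ≠ 0 := qf_ne_zero h (by omega)
    simp only [zero_add, Finset.sum_range_one, add_zero, if_true, pow_zero, one_mul,
      Nat.sub_zero]
    rw [qf_zero, mul_one, div_one, mul_one, Nat.choose_succ_succ' a 1, Nat.choose_one_right]
    have e1 : (-1 : ℂ) ^ a * (-1) ^ a = 1 := by rw [← mul_pow]; simp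
    have e2 : (t ^ s)⁻¹ ^ a = t⁻¹ ^ (s * a) := by rw [pow_mul, inv_pow t s]
    have e3 : t ^ (a + a.choose 2) * (t⁻¹ ^ (a * a) * t ^ (a.choose 2)) = 1 := by
      have e5 : a + a.choose 2 + a.choose 2 = a * a := by
        have : ∀ n : ℕ, n + n.choose 2 + n.choose 2 = n * n := by
          intro n
          induction n with
          | zero => rfl
          | succ n ih =>
            rw [Nat.choose_succ_succ' n 1, Nat.choose_one_right]
            nlinarith
        exact this a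
      rw [mul_comm (t⁻¹ ^ (a * a)), ← mul_assoc, ← pow_add, e5, ← mul_pow, mul_inv_cancel₀ h0,
        one_pow]
    rw [e2, pow_add t (s * s)]
    calc (-1) ^ a * (t ^ (s * s) * t ^ (a + a.choose (1 + 1))) * t⁻¹ ^ (s * a) * (-1) ^ a *
          (t⁻¹ ^ (a * a) * t ^ a.choose 2)
        = ((-1) ^ a * (-1) ^ a) * (t ^ (s * s) * t⁻¹ ^ (s * a)) *
          (t ^ (a + a.choose 2) * (t⁻¹ ^ (a * a) * t ^ (a.choose 2))) := by ring
      _ = _ := by rw [e1, e3]; ring
  · obtain ⟨M, rfl⟩ : ∃ M, R = M + 1 := ⟨R - 1, by omega⟩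
    rw [if_neg (by simp)]
    have step4 : ∑ m ∈ range (M + 1 + 1),
      ((-1) ^ m * (t ^ m * (t⁻¹ ^ ((a + m) * (a + (M + 1))) * t ^ ((a + m).choose 2))) *
        (qf t (M + 1) / (qf t m * qf t (M + 1 - m)))) =
        t⁻¹ ^ (a * (a + (M + 1))) * t ^ (a.choose 2) *
        ∑ m ∈ range (M + 2), (-1) ^ m * (t ^ (m.choose 2) * t⁻¹ ^ (m * M)) *
      (qf t (M + 1) / (qf t m * qf t (M + 1 - m))) := by
      rw [Finset.mul_sum]
      apply Finset.sum_congr rfl
      intro m _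
      rw [Closed_pow h0]
      ring
    rw [step4, Closed_alt h (by omega), mul_zero, mul_zero]

/-- `LN` as a sum of two matrices -/
lemma Closed_LN_split (s : ℕ) (t : ℂ) (N : ℕ) (a b : Fin (N + 1)) :
    LN s t N a b = (if a = b then xx s t (N - b) else 0) +
      (if (a : ℕ) = b + 1 then 1 else 0) := by
  unfold LN
  by_cases h : (a : ℕ) = b
  · have h' : a = b := Fin.ext h
    rw [if_pos h, if_pos h', if_neg (by omega), add_zero]
  · have h' : a ≠ b := fun e => h (by rw [e])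
    rw [if_neg h, if_neg h', zero_add]

lemma Closed_mul_LN (s : ℕ) (t : ℂ) (N : ℕ) (A : Matrix (Fin (N + 1)) (Fin (N + 1)) ℂ)
    (k j : Fin (N + 1)) : (A * LN s t N) k j = A k j * xx s t (N - j) +
      if hj : (j : ℕ) + 1 < N + 1 then A k ⟨(j : ℕ) + 1, hj⟩ else 0 := by
  rw [Matrix.mul_apply]
  simp only [Closed_LN_split, mul_add, sum_add_distrib, mul_ite, mul_zero, mul_one]
  rw [Finset.sum_ite_eq' Finset.univ j, if_pos (mem_univ _)]
  congr 1
  by_cases hj : (j : ℕ) + 1 < N + 1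
  · rw [dif_pos hj]
    rw [Finset.sum_eq_single (⟨(j : ℕ) + 1, hj⟩ : Fin (N + 1))]
    · simp
    · intro b _ hb
      rw [if_neg]
      intro e
      exact hb (Fin.ext e)
    · intro hc
      exact absurd (mem_univ _) hc
  · rw [dif_neg hj]
    apply Finset.sum_eq_zero
    intro b _
    rw [if_neg]
    have := b.2
    omega

lemma Closed_LN_mul (s : ℕ) (t : ℂ) (N : ℕ) (A : Matrix (Fin (N + 1)) (Fin (N + 1)) ℂ)
    (k j : Fin (N + 1)) : (LN s t N * A) k j = xx s t (N - k) * A k j +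
      if hk : 0 < (k : ℕ) then A ⟨(k : ℕ) - 1, by omega⟩ j else 0 := by
  rw [Matrix.mul_apply]
  simp only [Closed_LN_split, add_mul, sum_add_distrib, ite_mul, zero_mul, one_mul]
  rw [Finset.sum_ite_eq Finset.univ k, if_pos (mem_univ _)]
  congr 1
  by_cases hk : 0 < (k : ℕ)
  · rw [dif_pos hk]
    rw [Finset.sum_eq_single (⟨(k : ℕ) - 1, by omega⟩ : Fin (N + 1))]
    · rw [if_pos]
      change (k : ℕ) = (k : ℕ) - 1 + 1
      omega
    · intro b _ hb
      rw [if_neg]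
      intro e
      exact hb (Fin.ext (by change (b : ℕ) = (k : ℕ) - 1; omega))
    · intro hc
      exact absurd (mem_univ _) hc
  · rw [dif_neg hk]
    apply Finset.sum_eq_zero
    intro b _
    rw [if_neg]
    omega

/-- the key identity for `alM` -/
lemma Closed_key {s : ℕ} {t : ℂ} (h : IsPrimitiveRoot t (2 * s + 1)) {N : ℕ} (hN : N ≤ 2 * s)
    (j m : ℕ) (hk : j + m + 1 ≤ N) (h1 : j + m + 1 < N + 1) (h2 : j < N + 1) (h3 : j + 1 < N + 1)
    (h4 : j + m < N + 1) :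
    alM s t N ⟨j + m + 1, h1⟩ ⟨j, h2⟩ * xx s t (N - j) + alM s t N ⟨j + m + 1, h1⟩ ⟨j + 1, h3⟩ =
      xx s t (N - (j + m + 1)) * alM s t N ⟨j + m + 1, h1⟩ ⟨j, h2⟩ +
        alM s t N ⟨j + m, h4⟩ ⟨j, h2⟩ := by
  have h0 : t ≠ 0 := h.ne_zero (by omega)
  unfold alM
  simp only
  rw [if_pos (by omega), if_pos (by omega), if_pos (by omega)]
  have e0 : j + m + 1 - j = m + 1 := by omega
  have e1 : j + m + 1 - (j + 1) = m := by omega
  have e2 : j + m - j = m := by omega
  obtain ⟨R, rfl⟩ : ∃ R, N = j + m + 1 + R := ⟨N - (j + m + 1), by omega⟩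
  have e3 : j + m + 1 + R - (j + m + 1) = R := by omega
  have e4 : j + m + 1 + R - j = m + R + 1 := by omega
  have e5 : j + m + 1 + R - (j + 1) = m + R := by omega
  have e6 : j + m + 1 + R - (j + m) = R + 1 := by omega
  rw [e0, e1, e2, e3, e4, e5, e6]
  unfold xx
  have n1 : qf t m ≠ 0 := qf_ne_zero h (by omega)
  have n2 : (1 : ℂ) - t ^ (m + 1) ≠ 0 := one_sub_pow_ne h (by omega) (by omega)
  have n3 : qf t (m + R) ≠ 0 := qf_ne_zero h (by omega)
  have n4 : (1 : ℂ) - t ^ (m + R + 1) ≠ 0 := one_sub_pow_ne h (by omega) (by omega)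
  rw [qf_succ, qf_succ, qf_succ, Nat.choose_succ_succ' j 1, Nat.choose_one_right,
    add_mul j 1, one_mul, pow_add t⁻¹ (j * _) _, pow_add t j, pow_succ (-1 : ℂ) j,
    pow_succ _ m]
  generalize (-1 : ℂ) ^ (j + m + 1 + R) * t ^ (s * s + (j + m + 1 + R + 1).choose 2) = W
  generalize t⁻¹ ^ (j * (j + m + 1 + R)) = X
  generalize t ^ (j.choose 2) = Y
  generalize (-1 : ℂ) ^ j = S
  have hV : t ^ s ≠ 0 := pow_ne_zero _ h0
  simp only [pow_add, pow_one, inv_pow]
  generalize t ^ s = V at *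
  have hx : t ^ j ≠ 0 := pow_ne_zero _ h0
  have hy : t ^ m ≠ 0 := pow_ne_zero _ h0
  have hz : t ^ R ≠ 0 := pow_ne_zero _ h0
  simp only [pow_add, pow_one] at n2 n4
  generalize t ^ j = x at *
  generalize t ^ m = y at *
  generalize t ^ R = z at *
  generalize qf t m = q1 at *
  generalize qf t (m + R) = q2 at *
  generalize qf t R = q3 at *
  obtain ⟨G, hG⟩ : ∃ G, G = 1 - y * z * t := ⟨_, rfl⟩
  obtain ⟨H, hH⟩ : ∃ H, H = 1 - y * t := ⟨_, rfl⟩
  rw [← hG] at n4
  rw [← hH] at n2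
  rw [← hG, ← hH]
  field_simp
  rw [hG, hH]
  ring

/-- `alM` commutes with `LN` -/
theorem alM_comm {s : ℕ} {t : ℂ} (h : IsPrimitiveRoot t (2 * s + 1)) {N : ℕ} (hN : N ≤ 2 * s) :
    alM s t N * LN s t N = LN s t N * alM s t N := by
  ext k j
  rw [Closed_mul_LN, Closed_LN_mul]
  have hk := k.2
  have hj := j.2
  have hz : ∀ (k j : Fin (N + 1)), (k : ℕ) < j → alM s t N k j = 0 := by
    intro k j hkj
    unfold alM
    rw [if_neg (by omega)]
  rcases lt_trichotomy (k : ℕ) (j : ℕ) with hlt | heq | hgt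
  · rw [hz k j hlt]
    have e1 : (if hj : (j : ℕ) + 1 < N + 1 then alM s t N k ⟨(j : ℕ) + 1, hj⟩ else 0) = 0 := by
      split_ifs with h1
      · exact hz _ _ (by change (k : ℕ) < (j : ℕ) + 1; omega)
      · rfl
    have e2 : (if hk : 0 < (k : ℕ) then alM s t N ⟨(k : ℕ) - 1, by omega⟩ j else 0) = 0 := by
      split_ifs with h1
      · exact hz _ _ (by change (k : ℕ) - 1 < (j : ℕ); omega)
      · rfl
    rw [e1, e2]
    ring
  · have e0 : k = j := Fin.ext heq
    subst e0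
    have e1 : (if hj : (k : ℕ) + 1 < N + 1 then alM s t N k ⟨(k : ℕ) + 1, hj⟩ else 0) = 0 := by
      split_ifs with h1
      · exact hz _ _ (by change (k : ℕ) < (k : ℕ) + 1; omega)
      · rfl
    have e2 : (if hk : 0 < (k : ℕ) then alM s t N ⟨(k : ℕ) - 1, by omega⟩ k else 0) = 0 := by
      split_ifs with h1
      · exact hz _ _ (by change (k : ℕ) - 1 < (k : ℕ); omega)
      · rfl
    rw [e1, e2]
    ring
  · obtain ⟨k, hk'⟩ := k
    obtain ⟨j, hj'⟩ := j
    simp only at hgt hk hj ⊢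
    rw [dif_pos (by omega), dif_pos (by omega)]
    obtain ⟨m, rfl⟩ : ∃ m, k = j + m + 1 := ⟨k - j - 1, by omega⟩
    exact Closed_key h hN j m (by omega) _ _ _ _

/-- a matrix commuting with `LN` and with zero first column vanishes -/
lemma Closed_cyclic {s : ℕ} {t : ℂ} {N : ℕ} (D : Matrix (Fin (N + 1)) (Fin (N + 1)) ℂ)
    (hD : D * LN s t N = LN s t N * D) (h0 : ∀ i, D i 0 = 0) : D = 0 := by
  have key : ∀ (j : ℕ) (hj : j < N + 1) (i : Fin (N + 1)), D i ⟨j, hj⟩ = 0 := by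
    intro j
    induction j with
    | zero => intro hj i; exact h0 i
    | succ j ih =>
      intro hj i
      have e := congrFun (congrFun hD i) ⟨j, by omega⟩
      rw [Closed_mul_LN, Closed_LN_mul] at e
      simp only at e
      rw [dif_pos hj, ih (by omega) i] at e
      have e2 : (if hk : 0 < (i : ℕ) then D ⟨(i : ℕ) - 1, by omega⟩ ⟨j, by omega⟩ else 0) = 0 := by
        split_ifs with h1
        · exact ih (by omega) _
        · rfl
      rw [e2] at e
      simpa using e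
  ext i j
  exact key j j.2 i

lemma Closed_intertwine {N : ℕ} {A B P : Matrix (Fin (N + 1)) (Fin (N + 1)) ℂ}
    (hAP : A * P = P * B) (p : ℂ[X]) : aeval A p * P = P * aeval B p := by
  induction p using Polynomial.induction_on' with
  | add f g hf hg => rw [map_add, map_add, add_mul, mul_add, hf, hg]
  | monomial n c =>
    have hpow : ∀ n : ℕ, A ^ n * P = P * B ^ n := by
      intro n
      induction n with
      | zero => simp
      | succ n ih => rw [pow_succ, pow_succ, mul_assoc, hAP, ← mul_assoc, ih, mul_assoc]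
    rw [aeval_monomial, aeval_monomial, mul_assoc, hpow, ← mul_assoc, ← mul_assoc,
      (Algebra.commutes c P)]

theorem LN_aeval {s : ℕ} {u : ℂˣ} (h : IsPrimitiveRoot (u : ℂ) (2 * s + 1)) {p : ℂ[X]}
    (hp : Rm s u true = aeval (Cm s (u : ℂ)) p) {N : ℕ} (hN : N ≤ 2 * s) :
    aeval (LN s (u : ℂ) N) p = alM s (u : ℂ) N := by
  have hu := PN_unit h hN
  have e1 := Closed_intertwine (TN_PN h hN) p
  -- the first column of `PN` is `e_0`
  have hP0 : ∀ i : Fin (N + 1), PN s (u : ℂ) N i 0 = if i = 0 then 1 else 0 := by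
    intro i
    unfold PN
    by_cases hi : i = 0
    · subst hi
      simp
    · have hi' : ¬ ((i : ℕ) ≤ ((0 : Fin (N + 1)) : ℕ)) := by
        intro hc
        apply hi
        apply Fin.ext
        simpa using hc
      rw [if_neg hi', if_neg hi]
  have e2 : ∀ a, (aeval (TN s (u : ℂ) N) p * PN s (u : ℂ) N) a 0 =
      aeval (TN s (u : ℂ) N) p a 0 := by
    intro a
    rw [Matrix.mul_apply]
    simp only [hP0, mul_ite, mul_one, mul_zero]
    simp
  -- difference
  set D := aeval (LN s (u : ℂ) N) p - alM s (u : ℂ) N with hDdef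
  have hcomm : D * LN s (u : ℂ) N = LN s (u : ℂ) N * D := by
    rw [hDdef, sub_mul, mul_sub, alM_comm h hN]
    congr 1
    have : Commute (aeval (LN s (u : ℂ) N) p) (aeval (LN s (u : ℂ) N) (X : ℂ[X])) := by
      rw [Commute, SemiconjBy, ← map_mul, ← map_mul, mul_comm]
    rw [aeval_X] at this
    exact this
  have hcol : ∀ a, (PN s (u : ℂ) N * D) a 0 = 0 := by
    intro a
    rw [hDdef, mul_sub, ← e1, Matrix.sub_apply, e2, TN_first hp hN, PN_alM_first h hN, sub_self]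
  have hD0 : ∀ i, D i 0 = 0 := by
    have hv : (PN s (u : ℂ) N).mulVec (fun i => D i 0) = 0 := by
      funext a
      exact hcol a
    have hinj := Matrix.mulVec_injective_iff_isUnit.mpr hu
    have : (fun i => D i 0) = 0 := hinj (by rw [hv, Matrix.mulVec_zero])
    intro i
    exact congrFun this i
  have hD := Closed_cyclic D hcomm hD0
  exact sub_eq_zero.mp hD

end Pool.Agent.Work.MP_b30479_gt.AX
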