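import Pool.Agent.Work.MP_b30479_gt.AX.Defs

/-!
# Symmetries of the Casimir matrix
-/

namespace Pool.Agent.Work.MP_b30479_gt.AX

open Finset Polynomial TB

lemma CmF_ne {s : ℕ} {t : ℂ} {i j a b : ℕ} (h : i + j ≠ a + b) : cas s t i j a b = 0 := by
  unfold cas
  rw [if_neg (by omega), if_neg (by omega), if_neg (by omega)]

/-- `commC_cas` on all levels -/
lemma CmF_commC {s : ℕ} {t : ℂ} (h : IsPrimitiveRoot t (2 * s + 1)) (i j a b : ℕ)
    (hij : i + j = a + b + 1) :
    (1 - t⁻¹ ^ (a + 1)) * t ^ ((s : ℤ) - b) * cas s t i j (a + 1) b +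
        (1 - t⁻¹ ^ (b + 1)) * cas s t i j a (b + 1)
      = (1 - t⁻¹ ^ i) * t ^ ((s : ℤ) - j) * cas s t (i - 1) j a b +
        (1 - t⁻¹ ^ j) * cas s t i (j - 1) a b := by
  have h0 : t ≠ 0 := h.ne_zero (by omega)
  have hV := sq_mul h
  rw [zp h0, zp h0]
  rcases lt_trichotomy (a + 1) i with hlt | heq | hgt
  · rcases Nat.lt_or_ge (a + 2) i with h3 | h3
    · rw [cas_zero _ _ _ _ _ _ (by omega) (by omega) (by omega),
        cas_zero _ _ _ _ _ _ (by omega) (by omega) (by omega),
        cas_zero _ _ _ _ _ _ (by omega) (by omega) (by omega),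
        cas_zero _ _ _ _ _ _ (by omega) (by omega) (by omega)]
      ring
    · have hi : i = a + 2 := by omega
      subst hi
      have hb : b = j + 1 := by omega
      subst hb
      have e1 := cas_dn s t (a + 1) j
      have e2 := cas_dn s t a j
      rw [show a + 1 + 1 = a + 2 by ring] at e1
      rw [e1, show a + 2 - 1 = a + 1 by omega, e2,
        cas_zero s t (a + 2) j a (j + 1 + 1) (by omega) (by omega) (by omega),
        cas_zero s t (a + 2) (j - 1) a (j + 1) (by omega) (by omega) (by omega)]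
      have e3 : t ^ (a + 2) = t ^ a * t * t := by ring
      have e4 : t⁻¹ ^ (a + 2) = t⁻¹ ^ a * t⁻¹ * t⁻¹ := by ring
      rw [e3, e4, pow_succ t a, pow_succ t j, pow_succ t⁻¹ a, pow_succ t⁻¹ j, inv_pow, inv_pow]
      have nx : t ^ a ≠ 0 := pow_ne_zero _ h0
      have ny : t ^ j ≠ 0 := pow_ne_zero _ h0
      generalize t ^ s = V at *
      generalize t ^ a = x at *
      generalize t ^ j = y at *
      field_simp
      ring
  · subst heq
    have hb : b = j := by omega
    subst hb
    rw [cas_diag, Nat.add_sub_cancel, cas_diag, cas_dn]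
    rcases Nat.eq_zero_or_pos b with hj | hj
    · subst hj
      simp only [pow_zero, sub_self, zero_mul, add_zero, zero_add]
      unfold dg
      rw [pow_succ t s, pow_succ t a, pow_succ t⁻¹ a, inv_pow, pow_one, pow_one]
      simp only [pow_zero, mul_one]
      have nx : t ^ a ≠ 0 := pow_ne_zero _ h0
      generalize t ^ s = V at *
      generalize t ^ a = x at *
      obtain ⟨ht, hV0⟩ := eq_inv_sq hV
      rw [ht]
      field_simp
      ring
    · obtain ⟨j, rfl⟩ : ∃ j, b = j + 1 := ⟨b - 1, by omega⟩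
      rw [Nat.add_sub_cancel, cas_dn]
      unfold dg
      simp only [pow_succ, inv_pow]
      have nx : t ^ a ≠ 0 := pow_ne_zero _ h0
      have ny : t ^ j ≠ 0 := pow_ne_zero _ h0
      generalize t ^ s = V at *
      generalize t ^ a = x at *
      generalize t ^ j = y at *
      obtain ⟨ht, hV0⟩ := eq_inv_sq hV
      rw [ht]
      field_simp
      ring
  · rcases Nat.lt_or_ge a (i + 1) with h3 | h3
    · have hi : a = i := by omega
      subst hi
      obtain ⟨j, rfl⟩ : ∃ j', j = j' + 1 := ⟨j - 1, by omega⟩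
      have hb : b = j := by omega
      subst hb
      rw [cas_diag, Nat.add_sub_cancel, cas_diag, cas_up]
      rcases Nat.eq_zero_or_pos a with hi | hi
      · subst hi
        simp only [pow_zero, sub_self, zero_mul, add_zero, zero_add]
        unfold dg
        rw [pow_succ t s, pow_succ t⁻¹ b, inv_pow]
        simp only [pow_zero, mul_one]
        have ny : t ^ b ≠ 0 := pow_ne_zero _ h0
        generalize t ^ s = V at *
        generalize t ^ b = y at *
        obtain ⟨ht, hV0⟩ := eq_inv_sq hV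
        rw [ht]
        field_simp
        ring
      · obtain ⟨i, rfl⟩ : ∃ i, a = i + 1 := ⟨a - 1, by omega⟩
        rw [Nat.add_sub_cancel, cas_up]
        unfold dg
        simp only [pow_succ, inv_pow]
        have nx : t ^ i ≠ 0 := pow_ne_zero _ h0
        have ny : t ^ b ≠ 0 := pow_ne_zero _ h0
        generalize t ^ s = V at *
        generalize t ^ i = x at *
        generalize t ^ b = y at *
        obtain ⟨ht, hV0⟩ := eq_inv_sq hV
        rw [ht]
        field_simp
        ring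
    · rcases Nat.lt_or_ge (i + 1) a with h4 | h4
      · rw [cas_zero _ _ _ _ _ _ (by omega) (by omega) (by omega),
          cas_zero _ _ _ _ _ _ (by omega) (by omega) (by omega),
          cas_zero _ _ _ _ _ _ (by omega) (by omega) (by omega),
          cas_zero _ _ _ _ _ _ (by omega) (by omega) (by omega)]
        ring
      · have ha : a = i + 1 := by omega
        subst ha
        obtain ⟨j, rfl⟩ : ∃ j', j = j' + 2 := ⟨j - 2, by omega⟩
        have hb : b = j := by omega
        subst hb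
        have e1 := cas_up s t i (b + 1)
        have e2 := cas_up s t i b
        rw [show b + 1 + 1 = b + 2 by ring] at e1
        have e3 : (1 - t⁻¹ ^ i) * cas s t (i - 1) (b + 2) (i + 1) b = 0 := by
          rcases Nat.eq_zero_or_pos i with hi | hi
          · subst hi; simp
          · rw [cas_zero s t (i - 1) (b + 2) (i + 1) b (by omega) (by omega) (by omega), mul_zero]
        rw [e1, show b + 2 - 1 = b + 1 by omega, e2,
          cas_zero s t i (b + 2) (i + 1 + 1) b (by omega) (by omega) (by omega)]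
        linear_combination -(t ^ s * t⁻¹ ^ (b + 2)) * e3

lemma CmF_inv_root {s : ℕ} {t : ℂ} (h : IsPrimitiveRoot t (2 * s + 1)) :
    t⁻¹ ^ (2 * s + 1) = 1 := by
  rw [inv_pow, h.pow_eq_one, inv_one]

lemma CmF_left {s : ℕ} {t : ℂ} (h : IsPrimitiveRoot t (2 * s + 1)) (p q : I2 s) :
    (Em s t * Cm s t) p q =
      (1 - t⁻¹ ^ ((p.1 : ℕ) + 1)) * t ^ ((s : ℤ) - (p.2 : ℕ)) * cas s t q.1 q.2 (p.1 + 1) p.2 +
      (1 - t⁻¹ ^ ((p.2 : ℕ) + 1)) * cas s t q.1 q.2 p.1 (p.2 + 1) := by
  rw [Matrix.mul_apply]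
  unfold Em Cm
  simp only [add_mul, Finset.sum_add_distrib]
  congr 1
  · by_cases hp : (p.1 : ℕ) + 1 ≤ 2 * s
    · rw [Finset.sum_eq_single ((⟨p.1 + 1, by omega⟩, p.2) : I2 s)]
      · rw [if_pos ⟨rfl, rfl⟩]
      · intro r _ hr
        rw [if_neg, zero_mul]
        rintro ⟨h1, h2⟩
        apply hr
        rw [Prod.ext_iff, Fin.ext_iff]
        exact ⟨h1, h2⟩
      · intro hc
        exact absurd (Finset.mem_univ _) hc
    · have hp2 : (p.1 : ℕ) + 1 = 2 * s + 1 := by have := p.1.2; omega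
      rw [hp2, CmF_inv_root h, sub_self, zero_mul, zero_mul]
      apply Finset.sum_eq_zero
      intro r _
      rw [if_neg, zero_mul]
      rintro ⟨h1, h2⟩
      have := r.1.2
      omega
  · by_cases hp : (p.2 : ℕ) + 1 ≤ 2 * s
    · rw [Finset.sum_eq_single ((p.1, ⟨p.2 + 1, by omega⟩) : I2 s)]
      · rw [if_pos ⟨rfl, rfl⟩]
      · intro r _ hr
        rw [if_neg, zero_mul]
        rintro ⟨h1, h2⟩
        apply hr
        rw [Prod.ext_iff, Fin.ext_iff (a := r.2)]
        exact ⟨h1, h2⟩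
      · intro hc
        exact absurd (Finset.mem_univ _) hc
    · have hp2 : (p.2 : ℕ) + 1 = 2 * s + 1 := by have := p.2.2; omega
      rw [hp2, CmF_inv_root h, sub_self, zero_mul]
      apply Finset.sum_eq_zero
      intro r _
      rw [if_neg, zero_mul]
      rintro ⟨h1, h2⟩
      have := r.2.2
      omega

lemma CmF_right {s : ℕ} {t : ℂ} (p q : I2 s) :
    (Cm s t * Em s t) p q =
      (1 - t⁻¹ ^ (q.1 : ℕ)) * t ^ ((s : ℤ) - (q.2 : ℕ)) * cas s t (q.1 - 1) q.2 p.1 p.2 +
      (1 - t⁻¹ ^ (q.2 : ℕ)) * cas s t q.1 (q.2 - 1) p.1 p.2 := by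
  rw [Matrix.mul_apply]
  unfold Em Cm
  simp only [mul_add, Finset.sum_add_distrib]
  congr 1
  · by_cases hq1 : 1 ≤ (q.1 : ℕ)
    · rw [Finset.sum_eq_single ((⟨q.1 - 1, by omega⟩, q.2) : I2 s)]
      · rw [if_pos ⟨by simp only; omega, rfl⟩]
        simp only
        rw [Nat.sub_add_cancel hq1]
        ring
      · intro r _ hr
        rw [if_neg, mul_zero]
        rintro ⟨h1, h2⟩
        apply hr
        rw [Prod.ext_iff, Fin.ext_iff]
        exact ⟨by simp only; omega, h2.symm⟩
      · intro hc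
        exact absurd (Finset.mem_univ _) hc
    · have hq0 : (q.1 : ℕ) = 0 := by omega
      rw [hq0, pow_zero, sub_self, zero_mul, zero_mul]
      apply Finset.sum_eq_zero
      intro r _
      rw [if_neg, mul_zero]
      rintro ⟨h1, h2⟩
      omega
  · by_cases hq1 : 1 ≤ (q.2 : ℕ)
    · rw [Finset.sum_eq_single ((q.1, ⟨q.2 - 1, by omega⟩) : I2 s)]
      · rw [if_pos ⟨rfl, by simp only; omega⟩]
        simp only
        rw [Nat.sub_add_cancel hq1]
        ring
      · intro r _ hr
        rw [if_neg, mul_zero]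
        rintro ⟨h1, h2⟩
        apply hr
        rw [Prod.ext_iff, Fin.ext_iff (a := r.2)]
        exact ⟨h1.symm, by simp only; omega⟩
      · intro hc
        exact absurd (Finset.mem_univ _) hc
    · have hq0 : (q.2 : ℕ) = 0 := by omega
      rw [hq0, pow_zero, sub_self, zero_mul]
      apply Finset.sum_eq_zero
      intro r _
      rw [if_neg, mul_zero]
      rintro ⟨h1, h2⟩
      omega

theorem Em_comm_Cm {s : ℕ} {t : ℂ} (h : IsPrimitiveRoot t (2 * s + 1)) :
    Em s t * Cm s t = Cm s t * Em s t := by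
  ext p q
  rw [CmF_left h, CmF_right]
  by_cases hpq : (q.1 : ℕ) + q.2 = p.1 + p.2 + 1
  · exact CmF_commC h q.1 q.2 p.1 p.2 hpq
  · have z1 : cas s t q.1 q.2 (p.1 + 1) p.2 = 0 := CmF_ne (by omega)
    have z2 : cas s t q.1 q.2 p.1 (p.2 + 1) = 0 := CmF_ne (by omega)
    have z3 : (1 - t⁻¹ ^ (q.1 : ℕ)) * t ^ ((s : ℤ) - (q.2 : ℕ)) *
        cas s t (q.1 - 1) q.2 p.1 p.2 = 0 := by
      by_cases hq1 : 1 ≤ (q.1 : ℕ)
      · rw [CmF_ne (by omega), mul_zero]
      · have hq0 : (q.1 : ℕ) = 0 := by omega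
        rw [hq0, pow_zero, sub_self, zero_mul, zero_mul]
    have z4 : (1 - t⁻¹ ^ (q.2 : ℕ)) * cas s t q.1 (q.2 - 1) p.1 p.2 = 0 := by
      by_cases hq1 : 1 ≤ (q.2 : ℕ)
      · rw [CmF_ne (by omega), mul_zero]
      · have hq0 : (q.2 : ℕ) = 0 := by omega
        rw [hq0, pow_zero, sub_self, zero_mul]
    rw [z1, z2, z3, z4]
    ring

/-- the Casimir operator preserves the level -/
theorem Cm_level {s : ℕ} {t : ℂ} {p q : I2 s} (h : (p.1 : ℕ) + p.2 ≠ (q.1 : ℕ) + q.2) :
    Cm s t p q = 0 := by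
  unfold Cm
  exact CmF_ne (fun h' => h h'.symm)

lemma CmF_dag {s : ℕ} {t : ℂ} (h : IsPrimitiveRoot t (2 * s + 1)) (i j a b : ℕ) :
    star (cas s t i j a b) = cas s t b a j i := by
  by_cases hij : i + j = a + b
  · exact isDag_cas h (a + b) i j a b hij le_rfl
  · rw [CmF_ne hij, CmF_ne (by omega), star_zero]

theorem Cm_dag {s : ℕ} {t : ℂ} (h : IsPrimitiveRoot t (2 * s + 1)) (p q : I2 s) :
    Cm s t (q.2, q.1) (p.2, p.1) = star (Cm s t p q) := by
  unfold Cm
  simp only
  rw [CmF_dag h]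

/-- the reflection of the Casimir entries -/
lemma CmF_omega {s : ℕ} {t : ℂ} (h : IsPrimitiveRoot t (2 * s + 1)) {i j a b : ℕ}
    (hi : i ≤ 2 * s) (hj : j ≤ 2 * s) (ha : a ≤ 2 * s) (hb : b ≤ 2 * s) :
    cas s t (2 * s - j) (2 * s - i) (2 * s - b) (2 * s - a) = cas s t i j a b := by
  have h0 : t ≠ 0 := h.ne_zero (by omega)
  have hV := sq_mul h
  have hroot := h.pow_eq_one
  by_cases hij : i + j = a + b
  swap
  · rw [CmF_ne hij, CmF_ne (by omega)]
  -- `t ^ (2 s - m) = t⁻¹ ^ (m + 1)`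
  have key : ∀ m : ℕ, m ≤ 2 * s → t ^ (2 * s - m) = t⁻¹ ^ (m + 1) := by
    intro m hm
    have : t ^ (2 * s - m) * t ^ (m + 1) = 1 := by
      rw [← pow_add, show 2 * s - m + (m + 1) = 2 * s + 1 by omega, hroot]
    rw [inv_pow]
    exact eq_inv_of_mul_eq_one_left this
  have key' : ∀ m : ℕ, m ≤ 2 * s → t⁻¹ ^ (2 * s - m) = t ^ (m + 1) := by
    intro m hm
    rw [inv_pow, key m hm, inv_pow, inv_inv]
  rcases lt_trichotomy a i with hlt | heq | hgt
  · rcases Nat.lt_or_ge (a + 1) i with h3 | h3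
    · rw [cas_zero _ _ _ _ _ _ (by omega) (by omega) (by omega),
        cas_zero _ _ _ _ _ _ (by omega) (by omega) (by omega)]
    · have hi' : i = a + 1 := by omega
      subst hi'
      have hb' : b = j + 1 := by omega
      subst hb'
      rw [cas_dn, show 2 * s - j = 2 * s - (j + 1) + 1 by omega,
        show 2 * s - a = 2 * s - (a + 1) + 1 by omega, cas_dn,
        show 2 * s - (j + 1) + 1 = 2 * s - j by omega,
        show 2 * s - (a + 1) + 1 = 2 * s - a by omega, key j (by omega), key' j (by omega),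
        key a (by omega), key' a (by omega)]
      ring
  · subst heq
    have hb' : b = j := by omega
    subst hb'
    rw [cas_diag, cas_diag]
    unfold dg
    rw [key' a (by omega), key b (by omega)]
    simp only [pow_succ, inv_pow]
    have nx : t ^ a ≠ 0 := pow_ne_zero _ h0
    have ny : t ^ b ≠ 0 := pow_ne_zero _ h0
    generalize t ^ s = V at *
    generalize t ^ a = x at *
    generalize t ^ b = y at *
    obtain ⟨ht, hV0⟩ := eq_inv_sq hV
    rw [ht]
    field_simp
    ring
  · rcases Nat.lt_or_ge (i + 1) a with h3 | h3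
    · rw [cas_zero _ _ _ _ _ _ (by omega) (by omega) (by omega),
        cas_zero _ _ _ _ _ _ (by omega) (by omega) (by omega)]
    · have ha' : a = i + 1 := by omega
      subst ha'
      obtain ⟨j, rfl⟩ : ∃ j', j = j' + 1 := ⟨j - 1, by omega⟩
      have hb' : b = j := by omega
      subst hb'
      rw [cas_up, show 2 * s - b = 2 * s - (b + 1) + 1 by omega,
        show 2 * s - i = 2 * s - (i + 1) + 1 by omega, cas_up,
        show 2 * s - (b + 1) + 1 = 2 * s - b by omega,
        show 2 * s - (i + 1) + 1 = 2 * s - i by omega, key b (by omega), key' i (by omega)]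
      ring

theorem Cm_omega {s : ℕ} {t : ℂ} (h : IsPrimitiveRoot t (2 * s + 1)) (p q : I2 s) :
    Cm s t (Fin.rev p.2, Fin.rev p.1) (Fin.rev q.2, Fin.rev q.1) = Cm s t p q := by
  unfold Cm
  simp only [Fin.val_rev]
  have h1 := p.1.2
  have h2 := p.2.2
  have h3 := q.1.2
  have h4 := q.2.2
  rw [show 2 * s + 1 - ((q.2 : ℕ) + 1) = 2 * s - q.2 by omega,
    show 2 * s + 1 - ((q.1 : ℕ) + 1) = 2 * s - q.1 by omega,
    show 2 * s + 1 - ((p.2 : ℕ) + 1) = 2 * s - p.2 by omega,
    show 2 * s + 1 - ((p.1 : ℕ) + 1) = 2 * s - p.1 by omega]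
  exact CmF_omega h (by omega) (by omega) (by omega) (by omega)

/-- the Casimir matrix of level `4s - M > 2s` is that of level `M` -/
theorem cas_high {s : ℕ} {t : ℂ} (h : IsPrimitiveRoot t (2 * s + 1)) {M : ℕ} (hM : M ≤ 2 * s)
    (a b : Fin (M + 1)) : cas s t (2 * s - M + b) (2 * s - b) (2 * s - M + a) (2 * s - a) =
      cas s t (b : ℕ) (M - b) a (M - a) := by
  have ha := a.2
  have hb := b.2
  have := CmF_omega h (i := b) (j := M - b) (a := a) (b := M - a) (by omega) (by omega) (by omega)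
    (by omega)
  rw [← this, show 2 * s - (M - (b : ℕ)) = 2 * s - M + b by omega,
    show 2 * s - (M - (a : ℕ)) = 2 * s - M + a by omega]

/-- the Casimir matrix of a level is symmetric -/
theorem TN_symm {s : ℕ} {t : ℂ} (h : IsPrimitiveRoot t (2 * s + 1)) {N : ℕ} (hN : N ≤ 2 * s) :
    (TN s t N).transpose = TN s t N := by
  have h0 : t ≠ 0 := h.ne_zero (by omega)
  have key : ∀ a b : ℕ, a + 1 ≤ N → b = a + 1 →
      cas s t b (N - b) a (N - a) = cas s t a (N - a) b (N - b) := by
    intro a b ha hb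
    subst hb
    obtain ⟨j, hj⟩ : ∃ j, N - (a + 1) = j := ⟨_, rfl⟩
    rw [hj, show N - a = j + 1 by omega, cas_dn, cas_up]
    simp only [pow_succ, inv_pow]
    have nx : t ^ a ≠ 0 := pow_ne_zero _ h0
    have ny : t ^ j ≠ 0 := pow_ne_zero _ h0
    generalize t ^ a = x at *
    generalize t ^ j = y at *
    field_simp
    ring
  ext a b
  rw [Matrix.transpose_apply]
  unfold TN
  have ha := a.2
  have hb := b.2
  rcases lt_trichotomy (a : ℕ) b with hlt | heq | hgt
  · rcases Nat.lt_or_ge ((a : ℕ) + 1) b with h3 | h3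
    · rw [cas_zero _ _ _ _ _ _ (by omega) (by omega) (by omega),
        cas_zero _ _ _ _ _ _ (by omega) (by omega) (by omega)]
    · exact (key a b (by omega) (by omega)).symm
  · rw [heq]
  · rcases Nat.lt_or_ge ((b : ℕ) + 1) a with h3 | h3
    · rw [cas_zero _ _ _ _ _ _ (by omega) (by omega) (by omega),
        cas_zero _ _ _ _ _ _ (by omega) (by omega) (by omega)]
    · exact key b a (by omega) (by omega)

/-- conjugation reverses the level -/
theorem TN_star {s : ℕ} {t : ℂ} (h : IsPrimitiveRoot t (2 * s + 1)) {N : ℕ} (hN : N ≤ 2 * s)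
    (a b : Fin (N + 1)) : star (TN s t N (Fin.rev a) (Fin.rev b)) = TN s t N a b := by
  have e : TN s t N a b = TN s t N b a := by
    have := congrFun (congrFun (TN_symm h hN) b) a
    rwa [Matrix.transpose_apply] at this
  rw [e]
  unfold TN
  have ha := a.2
  have hb := b.2
  rw [CmF_dag h]
  simp only [Fin.val_rev]
  rw [show N - (N + 1 - ((a : ℕ) + 1)) = a by omega,
    show N - (N + 1 - ((b : ℕ) + 1)) = b by omega,
    show N + 1 - ((a : ℕ) + 1) = N - a by omega,
    show N + 1 - ((b : ℕ) + 1) = N - b by omega]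

lemma CmF_star_xx {s : ℕ} {t : ℂ} (h : IsPrimitiveRoot t (2 * s + 1)) (b : ℕ) :
    star (xx s t b) = xx s t b := by
  have h0 : t ≠ 0 := h.ne_zero (by omega)
  have hV := sq_mul h
  have hs : star t = t⁻¹ := star_root h
  unfold xx
  simp only [star_add, star_mul', star_pow, star_inv₀, hs, inv_inv]
  simp only [pow_succ, inv_pow]
  have nx : t ^ b ≠ 0 := pow_ne_zero _ h0
  generalize t ^ s = V at *
  generalize t ^ b = x at *
  obtain ⟨ht, hV0⟩ := eq_inv_sq hV
  rw [ht]
  field_simp
  ring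

/-- relation between the matrices of `C_{23}` on the levels `M` and `4s - M` -/
theorem UB_eq {s : ℕ} {t : ℂ} (h : IsPrimitiveRoot t (2 * s + 1)) {M : ℕ} (hM : M ≤ 2 * s)
    (a b : Fin (M + 1)) : UB s t M a b = star (UN s t M (Fin.rev b) (Fin.rev a)) := by
  have h0 : t ≠ 0 := h.ne_zero (by omega)
  have hs : star t = t⁻¹ := star_root h
  have ha := a.2
  have hb := b.2
  have e1 : M - (M + 1 - ((b : ℕ) + 1)) = b := by omega
  have e2 : M + 1 - ((b : ℕ) + 1) + 1 = M + 1 - b := by omega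
  unfold UB UN
  simp only [Fin.val_rev]
  rw [e1]
  by_cases h1 : (b : ℕ) = a
  · rw [if_pos h1, if_pos (show M + 1 - ((a : ℕ) + 1) = M + 1 - ((b : ℕ) + 1) by omega),
      CmF_star_xx h, h1]
  · by_cases h2 : (b : ℕ) = a + 1
    · rw [if_neg h1, if_pos h2,
        if_neg (show ¬ M + 1 - ((a : ℕ) + 1) = M + 1 - ((b : ℕ) + 1) by omega),
        if_pos (show M + 1 - ((a : ℕ) + 1) = M + 1 - ((b : ℕ) + 1) + 1 by omega), e2,
        star_mul', star_sub, star_sub, star_one, star_pow, star_pow, star_inv₀, hs, inv_inv, h2,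
        show M + 1 - ((a : ℕ) + 1) = M - a by omega]
    · rw [if_neg h1, if_neg h2,
        if_neg (show ¬ M + 1 - ((a : ℕ) + 1) = M + 1 - ((b : ℕ) + 1) by omega),
        if_neg (show ¬ M + 1 - ((a : ℕ) + 1) = M + 1 - ((b : ℕ) + 1) + 1 by omega), star_zero]

end Pool.Agent.Work.MP_b30479_gt.AX
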