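import Mathlib

/-!
# Traces of powers as sums over cyclic sequences
-/

namespace Pool.Agent.Work.MP_b30479_gt.AX

open Finset

theorem CycTr_path {R : Type*} [CommSemiring R] {m : Type*} [Fintype m] [DecidableEq m]
    (M : Matrix m m R) (n : ℕ) : ∀ a b : m,
    (M ^ (n + 1)) a b = ∑ k : Fin n → m, ∏ i : Fin (n + 1),
      M ((Fin.cons a k : Fin (n + 1) → m) i) ((Fin.snoc k b : Fin (n + 1) → m) i) := by
  induction n with
  | zero =>
    intro a b
    simp [Fin.snoc]
  | succ n ih =>
    intro a b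
    rw [pow_succ', Matrix.mul_apply]
    rw [← (Fin.consEquiv (fun _ : Fin (n + 1) => m)).sum_comp, Fintype.sum_prod_type]
    apply sum_congr rfl
    intro c _
    rw [ih, mul_sum]
    apply sum_congr rfl
    intro k _
    rw [Fin.prod_univ_succ (n := n + 1)]
    have h1 : (Fin.snoc (Fin.cons c k : Fin (n + 1) → m) b : Fin (n + 2) → m) =
        Fin.cons c (Fin.snoc k b : Fin (n + 1) → m) := (Fin.cons_snoc_eq_snoc_cons c k b).symm
    have hce : (Fin.consEquiv (fun _ : Fin (n + 1) => m)) (c, k) =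
        (Fin.cons c k : Fin (n + 1) → m) := rfl
    rw [hce, h1]
    simp only [Fin.cons_zero, Fin.cons_succ]

theorem trace_pow_cyc {R : Type*} [CommSemiring R] {m : Type*} [Fintype m] [DecidableEq m]
    (M : Matrix m m R) (K : ℕ) [NeZero K] :
    (M ^ K).trace = ∑ k : Fin K → m, ∏ i, M (k i) (k (i + 1)) := by
  obtain ⟨n, rfl⟩ : ∃ n, K = n + 1 := ⟨K - 1, by have := NeZero.pos K; omega⟩
  rw [Matrix.trace, ← (Fin.consEquiv (fun _ : Fin (n + 1) => m)).sum_comp, Fintype.sum_prod_type]
  apply sum_congr rfl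
  intro a _
  rw [Matrix.diag_apply, CycTr_path]
  apply sum_congr rfl
  intro k _
  apply prod_congr rfl
  intro i _
  have hce : (Fin.consEquiv (fun _ : Fin (n + 1) => m)) (a, k) =
      (Fin.cons a k : Fin (n + 1) → m) := rfl
  rw [hce]
  congr 1
  refine Fin.lastCases ?_ (fun j => ?_) i
  · rw [Fin.snoc_last, Fin.last_add_one, Fin.cons_zero]
  · rw [Fin.snoc_castSucc, Fin.coeSucc_eq_succ, Fin.cons_succ]

theorem trace_mul_pow_cyc {R : Type*} [CommSemiring R] {m p : Type*} [Fintype m] [DecidableEq m]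
    [Fintype p] (A : Matrix m p R) (B : Matrix p m R) (K : ℕ) [NeZero K] :
    ((A * B) ^ K).trace =
      ∑ k : Fin K → m, ∑ j : Fin K → p, ∏ i, A (k i) (j i) * B (j i) (k (i + 1)) := by
  classical
  rw [trace_pow_cyc]
  apply sum_congr rfl
  intro k _
  simp only [Matrix.mul_apply]
  rw [Finset.prod_univ_sum, Fintype.piFinset_univ]

end Pool.Agent.Work.MP_b30479_gt.AX
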