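import Pool.Agent.Work.MP_b30479_gt.TB.Cas

/-!
# Definitions for the trace formula
-/

namespace Pool.Agent.Work.MP_b30479_gt.AX

open Finset Polynomial TB

/-- index set of `V ⊗ V` -/
abbrev I2 (s : ℕ) := Fin (2 * s + 1) × Fin (2 * s + 1)

/-- `V ⊗ V ⊗ V`: the first argument is the third tensor index -/
abbrev V3 (s : ℕ) := Fin (2 * s + 1) → (I2 s → ℂ)

/-- the braiding (`b = true`) and its inverse (`b = false`) on `V ⊗ V` (row = output) -/
noncomputable def Rm (s : ℕ) (u : ℂˣ) (b : Bool) : Matrix (I2 s) (I2 s) ℂ := fun p q =>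
  entry s u b q.1 q.2 p.1 p.2

/-- the Casimir operator on `V ⊗ V` -/
noncomputable def Cm (s : ℕ) (t : ℂ) : Matrix (I2 s) (I2 s) ℂ := fun p q => cas s t q.1 q.2 p.1 p.2

/-- the operator `E` on `V ⊗ V` -/
noncomputable def Em (s : ℕ) (t : ℂ) : Matrix (I2 s) (I2 s) ℂ := fun p q =>
  (if (q.1 : ℕ) = p.1 + 1 ∧ q.2 = p.2 then (1 - t⁻¹ ^ ((p.1 : ℕ) + 1)) * t ^ ((s : ℤ) - (p.2 : ℕ))
    else 0) +
  (if q.1 = p.1 ∧ (q.2 : ℕ) = p.2 + 1 then 1 - t⁻¹ ^ ((p.2 : ℕ) + 1) else 0)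

/-- eigenvalues of the Casimir operator -/
noncomputable def xx (s : ℕ) (t : ℂ) (b : ℕ) : ℂ := t ^ s * t⁻¹ ^ b + t ^ (s + 1) * t ^ b

/-- the Casimir operator `C_{23}` on the kernel of `E`, in the coordinates `X(i, j, 0)` -/
noncomputable def Um (s : ℕ) (t : ℂ) : Matrix (I2 s) (I2 s) ℂ := fun p q =>
  if q = p then xx s t p.2
  else if (q.1 : ℕ) = p.1 + 1 ∧ (q.2 : ℕ) + 1 = p.2 then
    (1 - t⁻¹ ^ (p.2 : ℕ)) * (1 - t⁻¹ ^ ((p.1 : ℕ) + 1))
  else 0

/-- the operator `E` on `V ⊗ V ⊗ V` -/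
noncomputable def E3 (s : ℕ) (t : ℂ) : Module.End ℂ (V3 s) where
  toFun X k := t ^ ((s : ℤ) - (k : ℕ)) • (Em s t).mulVec (X k) +
    if h : (k : ℕ) + 1 < 2 * s + 1 then (1 - t⁻¹ ^ ((k : ℕ) + 1)) • X ⟨(k : ℕ) + 1, h⟩ else 0
  map_add' X Y := by
    funext k
    by_cases h : (k : ℕ) + 1 < 2 * s + 1
    · simp only [Pi.add_apply, dif_pos h, Matrix.mulVec_add, smul_add]
      abel
    · simp only [Pi.add_apply, dif_neg h, Matrix.mulVec_add, smul_add, add_zero]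
  map_smul' c X := by
    funext k
    by_cases h : (k : ℕ) + 1 < 2 * s + 1
    · simp only [Pi.smul_apply, dif_pos h, Matrix.mulVec_smul, smul_add, RingHom.id_apply]
      rw [smul_comm c, smul_comm c]
    · simp only [Pi.smul_apply, dif_neg h, Matrix.mulVec_smul, smul_zero, add_zero,
        RingHom.id_apply]
      rw [smul_comm c]

/-- action of a matrix on the first two tensor factors -/
noncomputable def op12 {s : ℕ} (T : Matrix (I2 s) (I2 s) ℂ) : Module.End ℂ (V3 s) where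
  toFun X k := T.mulVec (X k)
  map_add' X Y := by
    funext k
    simp only [Pi.add_apply, Matrix.mulVec_add]
  map_smul' c X := by
    funext k
    simp only [Pi.smul_apply, Matrix.mulVec_smul, RingHom.id_apply]

/-- action of a matrix on the last two tensor factors -/
noncomputable def op23 {s : ℕ} (T : Matrix (I2 s) (I2 s) ℂ) : Module.End ℂ (V3 s) where
  toFun X k p := ∑ q : I2 s, T (p.2, k) q * X q.2 (p.1, q.1)
  map_add' X Y := by
    funext k p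
    simp only [Pi.add_apply, mul_add, Finset.sum_add_distrib]
  map_smul' c X := by
    funext k p
    simp only [Pi.smul_apply, smul_eq_mul, RingHom.id_apply, Finset.mul_sum]
    apply Finset.sum_congr rfl
    intro q _
    ring

/-- complex conjugation of polynomials -/
noncomputable def pbar (p : ℂ[X]) : ℂ[X] := p.map (starRingEnd ℂ)

/-! ### levels -/

/-- `C_{12}` on level `N` (index = first tensor index) -/
noncomputable def TN (s : ℕ) (t : ℂ) (N : ℕ) : Matrix (Fin (N + 1)) (Fin (N + 1)) ℂ := fun a b =>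
  cas s t (b : ℕ) (N - b) a (N - a)

/-- `C_{23}` on level `N ≤ 2s` -/
noncomputable def UN (s : ℕ) (t : ℂ) (N : ℕ) : Matrix (Fin (N + 1)) (Fin (N + 1)) ℂ := fun a b =>
  if (b : ℕ) = a then xx s t (N - a)
  else if (b : ℕ) = a + 1 then (1 - t⁻¹ ^ (N - a)) * (1 - t⁻¹ ^ ((a : ℕ) + 1)) else 0

/-- `C_{23}` on level `4s - M > 2s`, `M < 2s` (index = first tensor index minus `2s - M`) -/
noncomputable def UB (s : ℕ) (t : ℂ) (M : ℕ) : Matrix (Fin (M + 1)) (Fin (M + 1)) ℂ := fun a b =>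
  if (b : ℕ) = a then xx s t a
  else if (b : ℕ) = a + 1 then (1 - t ^ ((a : ℕ) + 1)) * (1 - t ^ (M - a)) else 0

/-- split form of `C_{12}` -/
noncomputable def LN (s : ℕ) (t : ℂ) (N : ℕ) : Matrix (Fin (N + 1)) (Fin (N + 1)) ℂ := fun a b =>
  if (a : ℕ) = b then xx s t (N - b) else if (a : ℕ) = b + 1 then 1 else 0

/-- the split parameters -/
noncomputable def phi (t : ℂ) (N k : ℕ) : ℂ :=
  (1 - t ^ k) * (1 - t ^ (N + 1 - k)) * (1 - t⁻¹ ^ (N + 1 - k)) * (1 - t ^ (2 * N + 2 - k)) *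
    t⁻¹ ^ (N + 1)

/-- split form of `C_{23}` -/
noncomputable def SN (s : ℕ) (t : ℂ) (N : ℕ) : Matrix (Fin (N + 1)) (Fin (N + 1)) ℂ := fun a b =>
  if (a : ℕ) = b then xx s t (N - b) else if (b : ℕ) = a + 1 then phi t N b else 0

/-- the change of basis -/
noncomputable def PN (s : ℕ) (t : ℂ) (N : ℕ) : Matrix (Fin (N + 1)) (Fin (N + 1)) ℂ := fun i k =>
  if (i : ℕ) ≤ k then (t ^ s * t) ^ ((k : ℕ) - i) * (qf t k / qf t ((k : ℕ) - i)) *
    (∏ l ∈ range k, (1 - t⁻¹ ^ (N - l))) * ∏ l ∈ Ico (i : ℕ) k, (1 - t ^ (N - l))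
  else 0

/-- the matrix of the braiding `σ_1` in the split basis -/
noncomputable def alM (s : ℕ) (t : ℂ) (N : ℕ) : Matrix (Fin (N + 1)) (Fin (N + 1)) ℂ := fun k j =>
  if (j : ℕ) ≤ k then (-1) ^ N * t ^ (s * s + (N + 1).choose 2) *
    ((-1) ^ (j : ℕ) * (t ^ (j : ℕ).choose 2 * t⁻¹ ^ ((j : ℕ) * N)) * (t ^ s)⁻¹ ^ ((k : ℕ) - j)) *
      (qf t (N - k) / (qf t ((k : ℕ) - j) * qf t (N - j)))
  else 0

/-- the matrix of `σ_2^{-1}` in the split basis -/
noncomputable def stM (s : ℕ) (t : ℂ) (N : ℕ) : Matrix (Fin (N + 1)) (Fin (N + 1)) ℂ := fun j k =>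
  star (alM s t N k j) * ∏ l ∈ Ioc (j : ℕ) k, phi t N l

end Pool.Agent.Work.MP_b30479_gt.AX
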