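import Pool.Agent.Work.MP_b30479_gt.TB.Tt

/-!
# Definitions for the asymptotic analysis
-/

namespace Pool.Agent.Work.MP_b30479_gt.AX

open Finset TB

/-- `f(m) = ∏_{l=1}^{m} 2 sin(π l/n)` -/
noncomputable def fS (n m : ℕ) : ℝ := ∏ l ∈ range m, 2 * Real.sin (Real.pi * (l + 1) / n)

/-- `f(k)/(f(j) f(k-j))` for `0 ≤ j ≤ k < n`, zero otherwise -/
noncomputable def bS (n : ℕ) (k j : ℤ) : ℝ :=
  if 0 ≤ j ∧ j ≤ k ∧ k < n then fS n k.toNat / (fS n j.toNat * fS n (k - j).toNat) else 0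

/-- the (nearly) maximal value of `bS` -/
noncomputable def b0 (n : ℕ) : ℝ := bS n ((n : ℤ) - (n / 3 : ℕ)) (n / 3 : ℕ)

/-- `bS` centred at the maximum and normalised -/
noncomputable def beta (n : ℕ) (x y : ℤ) : ℝ :=
  bS n ((n : ℤ) - (n / 3 : ℕ) + x) ((n / 3 : ℕ) + y) / b0 n

/-- the kernel -/
noncomputable def mS (n : ℕ) (v x y : ℤ) : ℂ :=
  ((√(beta n (x - v) (y - v) * beta n (x + v) (y + v)) : ℝ) : ℂ) *
    Complex.exp (((Real.pi * x * y / n : ℝ) : ℂ) * Complex.I)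

/-- lattice points `((v, x), y)` -/
abbrev ZK (K : ℕ) := (ℤ × (Fin K → ℤ)) × (Fin K → ℤ)

/-- points `((V, X), Y)` -/
abbrev EK (K : ℕ) := (ℝ × (Fin K → ℝ)) × (Fin K → ℝ)

/-- the summand (cyclic product of kernels) -/
noncomputable def FS (K : ℕ) [NeZero K] (n : ℕ) (z : ZK K) : ℂ :=
  ∏ i, mS n z.1.1 (z.1.2 i) (z.2 i) * star (mS n z.1.1 (z.1.2 (i + 1)) (z.2 i))

/-- the limit kernel -/
noncomputable def gam (V X Y : ℝ) : ℂ :=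
  ((Real.exp (-(Real.pi / √3) * (X ^ 2 - X * Y + Y ^ 2 + V ^ 2)) : ℝ) : ℂ) *
    Complex.exp (((Real.pi * X * Y : ℝ) : ℂ) * Complex.I)

/-- the limit integrand -/
noncomputable def GK (K : ℕ) [NeZero K] (Z : EK K) : ℂ :=
  ∏ i, gam Z.1.1 (Z.1.2 i) (Z.2 i) * star (gam Z.1.1 (Z.1.2 (i + 1)) (Z.2 i))

/-- squared norm of a lattice point -/
noncomputable def sqn {K : ℕ} (z : ZK K) : ℝ :=
  (z.1.1 : ℝ) ^ 2 + ∑ i, (z.1.2 i : ℝ) ^ 2 + ∑ i, (z.2 i : ℝ) ^ 2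

/-- the lattice point below `√n Z` -/
noncomputable def flK {K : ℕ} (n : ℕ) (Z : EK K) : ZK K :=
  ((⌊√(n : ℝ) * Z.1.1⌋, fun i => ⌊√(n : ℝ) * Z.1.2 i⌋), fun i => ⌊√(n : ℝ) * Z.2 i⌋)

/-- first index after the main block of level `N` -/
def cN (s N : ℕ) : ℤ := 2 * N + 1 - 2 * s

/-- the main block of level `N` (in a symmetrised basis) -/
noncomputable def Am (s N : ℕ) : Matrix (Fin (N + 1)) (Fin (N + 1)) ℂ := fun k j =>
  if ((k : ℕ) : ℤ) < cN s N ∧ ((j : ℕ) : ℤ) < cN s N then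
    ((√(bS (2 * s + 1) (k : ℕ) (j : ℕ) *
      bS (2 * s + 1) ((k : ℕ) + 2 * (2 * s - N)) ((j : ℕ) + 2 * (2 * s - N))) : ℝ) : ℂ) *
      Complex.exp (((Real.pi * (k : ℕ) * (j : ℕ) / ((2 * s + 1 : ℕ) : ℝ) : ℝ) : ℂ) * Complex.I)
  else 0

/-- absolute values of the rest of level `N` (in a symmetrised basis) -/
noncomputable def Br (s N : ℕ) : Matrix (Fin (N + 1)) (Fin (N + 1)) ℝ := fun k j =>
  if cN s N ≤ ((k : ℕ) : ℤ) ∧ cN s N ≤ ((j : ℕ) : ℤ) then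
    √(bS (2 * s + 1) (k : ℕ) (j : ℕ) *
      bS (2 * s + 1) (2 * N + 1 - (j : ℕ)) ((k : ℕ) - (j : ℕ)))
  else 0

end Pool.Agent.Work.MP_b30479_gt.AX
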