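import Pool.Agent.Work.MP_b30479_gt.AX.SinP

/-!
# Gaussian domination
-/

namespace Pool.Agent.Work.MP_b30479_gt.AX

open Finset TB

theorem bS_nonneg (n : ℕ) (k j : ℤ) : 0 ≤ bS n k j := by
  unfold bS
  split_ifs with h
  · have h1 : 0 < fS n k.toNat := fS_pos (by omega)
    have h2 : 0 < fS n j.toNat := fS_pos (by omega)
    have h3 : 0 < fS n (k - j).toNat := fS_pos (by omega)
    positivity
  · exact le_rfl

theorem b0_pos {n : ℕ} (hn : 3 ≤ n) : 0 < b0 n := by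
  unfold b0 bS
  rw [if_pos ⟨by omega, by omega, by omega⟩]
  have h1 : 0 < fS n ((n : ℤ) - (n / 3 : ℕ)).toNat := fS_pos (by omega)
  have h2 : 0 < fS n ((n / 3 : ℕ) : ℤ).toNat := fS_pos (by omega)
  have h3 : 0 < fS n ((n : ℤ) - (n / 3 : ℕ) - (n / 3 : ℕ)).toNat := fS_pos (by omega)
  positivity

/-- the symmetric energy -/
noncomputable def Dom_G (n A B C : ℕ) : ℝ :=
  Real.log (fS n A) + Real.log (fS n B) + Real.log (fS n C)

lemma Dom_bS {n k j : ℕ} (hj : j ≤ k) (hk : k < n) :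
    bS n (k : ℤ) (j : ℤ) = n * Real.exp (-Dom_G n (n - 1 - k) j (k - j)) := by
  unfold bS Dom_G
  rw [if_pos ⟨by omega, by omega, by omega⟩]
  have e1 : ((k : ℤ)).toNat = k := by omega
  have e2 : ((j : ℤ)).toNat = j := by omega
  have e3 : ((k : ℤ) - (j : ℤ)).toNat = k - j := by omega
  rw [e1, e2, e3]
  have h1 : 0 < fS n k := fS_pos hk
  have h2 : 0 < fS n j := fS_pos (by omega)
  have h3 : 0 < fS n (k - j) := fS_pos (by omega)
  have h4 : 0 < fS n (n - 1 - k) := fS_pos (by omega)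
  have h5 := fS_refl hk
  rw [Real.exp_neg, Real.exp_add, Real.exp_add, Real.exp_log h4, Real.exp_log h2, Real.exp_log h3]
  rw [← h5]
  field_simp

lemma Dom_log_succ {n m : ℕ} (h : m + 1 < n) :
    Real.log (fS n (m + 1)) =
      Real.log (fS n m) + Real.log (2 * Real.sin (Real.pi * ((m : ℝ) + 1) / n)) := by
  have hn : (0 : ℝ) < n := by exact_mod_cast (by omega : 0 < n)
  rw [fS_succ, Real.log_mul (fS_pos (by omega)).ne']
  have : 0 < Real.sin (Real.pi * ((m : ℝ) + 1) / n) := by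
    apply Real.sin_pos_of_pos_of_lt_pi
    · positivity
    · rw [div_lt_iff₀ hn]
      apply mul_lt_mul_of_pos_left _ Real.pi_pos
      exact_mod_cast h
  positivity

/-- the basic step -/
lemma Dom_step {n A B C : ℕ} (hn : A + B + C + 1 = n) (hAC : C + 2 ≤ A) (hB1 : 1 ≤ B)
    (hBC : C ≤ B) :
    (1 / 8 : ℝ) * ((A : ℝ) - C - 1) / n ≤
      Real.log (2 * Real.sin (Real.pi * A / n)) -
        Real.log (2 * Real.sin (Real.pi * ((C : ℝ) + 1) / n)) := by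
  have hn0 : (0 : ℝ) < n := by exact_mod_cast (by omega : 0 < n)
  have hpi := Real.pi_pos
  have hnr : (A : ℝ) + B + C + 1 = n := by exact_mod_cast hn
  have hA : (C : ℝ) + 2 ≤ A := by exact_mod_cast hAC
  have hB : (1 : ℝ) ≤ B := by exact_mod_cast hB1
  have hBC' : (C : ℝ) ≤ B := by exact_mod_cast hBC
  have hC0 : (0 : ℝ) ≤ C := Nat.cast_nonneg _
  set α : ℝ := Real.pi * ((C : ℝ) + 1) / n with hα
  set β : ℝ := Real.pi * A / n with hβ
  have hαpos : 0 < α := by positivity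
  have hsα : 0 < Real.sin α := by
    apply Real.sin_pos_of_pos_of_lt_pi hαpos
    rw [hα, div_lt_iff₀ hn0]
    apply mul_lt_mul_of_pos_left _ hpi
    linarith
  have hsα' : Real.sin α ≤ α := (Real.sin_lt hαpos).le
  have h1 : Real.sin β - Real.sin α = 2 * Real.sin ((β - α) / 2) * Real.cos ((β + α) / 2) :=
    Real.sin_sub_sin β α
  have h2 : ((A : ℝ) - C - 1) / n ≤ Real.sin ((β - α) / 2) := by
    have h3 : (β - α) / 2 = Real.pi / 2 * (((A : ℝ) - C - 1) / n) := by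
      rw [hα, hβ]; field_simp; ring
    have h4 : 0 ≤ (β - α) / 2 := by
      rw [h3]
      apply mul_nonneg (by positivity)
      apply div_nonneg _ hn0.le
      linarith
    have h5 : (β - α) / 2 ≤ Real.pi / 2 := by
      rw [h3]
      have : ((A : ℝ) - C - 1) / n ≤ 1 := by
        rw [div_le_one hn0]
        linarith
      nlinarith
    have h6 := Real.mul_le_sin h4 h5
    refine le_trans (le_of_eq ?_) h6
    rw [h3]
    field_simp
  have h7 : (B : ℝ) / n ≤ Real.cos ((β + α) / 2) := by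
    have h3 : (β + α) / 2 = Real.pi / 2 - Real.pi / 2 * ((B : ℝ) / n) := by
      rw [hα, hβ, ← hnr]
      have : (A : ℝ) + B + C + 1 ≠ 0 := by rw [hnr]; exact hn0.ne'
      field_simp
      ring
    rw [h3, Real.cos_pi_div_two_sub]
    have h4 : 0 ≤ Real.pi / 2 * ((B : ℝ) / n) := by positivity
    have h5 : Real.pi / 2 * ((B : ℝ) / n) ≤ Real.pi / 2 := by
      have : (B : ℝ) / n ≤ 1 := by
        rw [div_le_one hn0]
        linarith
      nlinarith
    have h6 := Real.mul_le_sin h4 h5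
    refine le_trans (le_of_eq ?_) h6
    field_simp
  set D : ℝ := ((A : ℝ) - C - 1) / n with hD
  have hD0 : 0 ≤ D := by
    apply div_nonneg _ hn0.le
    linarith
  have hD1 : D ≤ 1 := by
    rw [hD, div_le_one hn0]
    linarith
  -- `sin β ≥ (1 + D/4) sin α`
  have h8 : (1 + D / 4) * Real.sin α ≤ Real.sin β := by
    have h9 : 2 * D * ((B : ℝ) / n) ≤ Real.sin β - Real.sin α := by
      rw [h1]
      have hb : 0 ≤ (B : ℝ) / n := by positivity
      calc 2 * D * ((B : ℝ) / n) ≤ 2 * Real.sin ((β - α) / 2) * ((B : ℝ) / n) := by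
            apply mul_le_mul_of_nonneg_right _ hb
            linarith
        _ ≤ _ := by
            apply mul_le_mul_of_nonneg_left h7
            have : 0 ≤ Real.sin ((β - α) / 2) := le_trans hD0 h2
            linarith
    have h10 : D / 4 * Real.sin α ≤ 2 * D * ((B : ℝ) / n) := by
      have h11 : Real.sin α ≤ 8 * ((B : ℝ) / n) := by
        refine hsα'.trans ?_
        rw [hα, mul_div_assoc, mul_div_assoc']
        rw [mul_div_assoc', div_le_div_iff_of_pos_right hn0]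
        have hpi4 := Real.pi_le_four
        have : (C : ℝ) + 1 ≤ 2 * B := by linarith
        nlinarith
      calc D / 4 * Real.sin α ≤ D / 4 * (8 * ((B : ℝ) / n)) :=
            mul_le_mul_of_nonneg_left h11 (by linarith)
        _ = _ := by ring
    linarith
  have h12 : Real.log (1 + D / 4) ≤
      Real.log (2 * Real.sin β) - Real.log (2 * Real.sin α) := by
    have hsβ : 0 < Real.sin β := lt_of_lt_of_le (by positivity) h8
    rw [← Real.log_div (by positivity) (by positivity)]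
    apply Real.log_le_log (by positivity)
    rw [le_div_iff₀ (by positivity)]
    linarith
  refine le_trans ?_ h12
  have h13 := Real.le_log_one_add_of_nonneg (x := D / 4) (by linarith)
  refine le_trans ?_ h13
  rw [le_div_iff₀ (by linarith)]
  have : (1 / 8 : ℝ) * ((A : ℝ) - C - 1) / n = D / 8 := by rw [hD]; ring
  rw [this]
  nlinarith

/-- the reference energy -/
noncomputable def Dom_G0 (n : ℕ) : ℝ := Dom_G n (n / 3 - 1) (n / 3) (n - 2 * (n / 3))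

lemma Dom_ratio {n a r : ℕ} (ha : 1 ≤ a) (hn : n ≤ 5 * a) (h2 : 2 * a ≤ n) (hr : a + r < n) :
    Real.log (2 * Real.sin (Real.pi * ((a : ℝ) + r) / n)) -
      Real.log (2 * Real.sin (Real.pi * (a : ℝ) / n)) ≤ 2 := by
  have hn0 : (0 : ℝ) < n := by exact_mod_cast (by omega : 0 < n)
  have hpi := Real.pi_pos
  have ha' : (1 : ℝ) ≤ a := by exact_mod_cast ha
  have hnr : (n : ℝ) ≤ 5 * a := by exact_mod_cast hn
  have h2r : 2 * (a : ℝ) ≤ n := by exact_mod_cast h2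
  have hrr : (a : ℝ) + r < n := by exact_mod_cast hr
  have hsr : 0 < Real.sin (Real.pi * ((a : ℝ) + r) / n) := by
    apply Real.sin_pos_of_pos_of_lt_pi
    · positivity
    · rw [div_lt_iff₀ hn0]
      exact mul_lt_mul_of_pos_left hrr hpi
  have h1 : (2 / 5 : ℝ) ≤ Real.sin (Real.pi * (a : ℝ) / n) := by
    have h4 : 0 ≤ Real.pi * (a : ℝ) / n := by positivity
    have h5 : Real.pi * (a : ℝ) / n ≤ Real.pi / 2 := by
      rw [div_le_div_iff₀ hn0 (by norm_num)]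
      nlinarith
    have h6 := Real.mul_le_sin h4 h5
    refine le_trans ?_ h6
    have h7 : 2 / Real.pi * (Real.pi * (a : ℝ) / n) = 2 * a / n := by
      field_simp
    rw [h7, le_div_iff₀ hn0]
    linarith
  have h3 : Real.log (4 / 5) ≤ Real.log (2 * Real.sin (Real.pi * (a : ℝ) / n)) := by
    apply Real.log_le_log (by norm_num)
    linarith
  have h4 : Real.log (2 * Real.sin (Real.pi * ((a : ℝ) + r) / n)) ≤ Real.log 2 := by
    apply Real.log_le_log (by positivity)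
    have := Real.sin_le_one (Real.pi * ((a : ℝ) + r) / n)
    linarith
  have h5 : Real.log 2 - Real.log (4 / 5) ≤ 2 := by
    rw [← Real.log_div (by norm_num) (by norm_num)]
    have := Real.log_le_sub_one_of_pos (x := (2 : ℝ) / (4 / 5)) (by norm_num)
    linarith
  linarith

/-- balanced triples -/
lemma Dom_base {n A B C : ℕ} (h3 : 3 ≤ n) (hn : A + B + C + 1 = n) (h1 : A ≤ C + 1) (h2 : B ≤ A)
    (h3' : C ≤ B) : Dom_G0 n - 2 ≤ Dom_G n A B C := by
  have hcase : (A = C ∧ B = C) ∨ (A = C + 1 ∧ B = C) ∨ (A = C + 1 ∧ B = C + 1) := by omega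
  rcases hcase with ⟨rfl, rfl⟩ | ⟨rfl, rfl⟩ | ⟨rfl, rfl⟩
  · obtain ⟨a, rfl⟩ : ∃ a, B = a + 1 := ⟨B - 1, by omega⟩
    have e1 : n / 3 = a + 1 := by omega
    unfold Dom_G0 Dom_G
    rw [e1, show n - 2 * (a + 1) = a + 1 + 1 by omega, show a + 1 - 1 = a by omega,
      Dom_log_succ (m := a + 1) (by omega), Dom_log_succ (m := a) (by omega)]
    have := Dom_ratio (n := n) (a := a + 1) (r := 1) (by omega) (by omega) (by omega) (by omega)
    push_cast at this ⊢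
    linarith
  · obtain ⟨a, rfl⟩ : ∃ a, B = a + 1 := ⟨B - 1, by omega⟩
    have e1 : n / 3 = a + 1 := by omega
    unfold Dom_G0 Dom_G
    rw [e1, show n - 2 * (a + 1) = a + 1 + 1 + 1 by omega, show a + 1 - 1 = a by omega,
      Dom_log_succ (m := a + 1 + 1) (by omega), Dom_log_succ (m := a + 1) (by omega),
      Dom_log_succ (m := a) (by omega)]
    have := Dom_ratio (n := n) (a := a + 1) (r := 2) (by omega) (by omega) (by omega) (by omega)
    push_cast at this ⊢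
    have e2 : (a : ℝ) + 1 + 2 = a + 1 + 1 + 1 := by ring
    rw [e2] at this
    linarith
  · have e1 : n / 3 = C + 1 := by omega
    unfold Dom_G0 Dom_G
    rw [e1, show n - 2 * (C + 1) = C + 1 by omega, show C + 1 - 1 = C by omega]
    linarith

lemma Dom_sorted {n Q : ℕ} (h3 : 3 ≤ n) (IH : ∀ A B C : ℕ, A ^ 2 + B ^ 2 + C ^ 2 ≤ Q →
    A + B + C + 1 = n → 1 ≤ A + B → 1 ≤ B + C → 1 ≤ A + C →
    Dom_G0 n - 3 + (1 / 16 : ℝ) * ((A : ℝ) ^ 2 + (B : ℝ) ^ 2 + (C : ℝ) ^ 2 -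
      ((n : ℝ) - 1) ^ 2 / 3) / n ≤ Dom_G n A B C) (A B C : ℕ)
    (hQ : A ^ 2 + B ^ 2 + C ^ 2 ≤ Q + 1) (hn : A + B + C + 1 = n) (hBC1 : 1 ≤ B + C)
    (hBA : B ≤ A) (hCB : C ≤ B) :
    Dom_G0 n - 3 + (1 / 16 : ℝ) * ((A : ℝ) ^ 2 + (B : ℝ) ^ 2 + (C : ℝ) ^ 2 -
      ((n : ℝ) - 1) ^ 2 / 3) / n ≤ Dom_G n A B C := by
  have hn0 : (3 : ℝ) ≤ n := by exact_mod_cast h3
  have hnr : (A : ℝ) + B + C + 1 = n := by exact_mod_cast hn
  by_cases hAC : A ≤ C + 1
  · have hb := Dom_base h3 hn hAC hBA hCB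
    have h1 : (A : ℝ) ≤ C + 1 := by exact_mod_cast hAC
    have h2 : (B : ℝ) ≤ A := by exact_mod_cast hBA
    have h4 : (C : ℝ) ≤ B := by exact_mod_cast hCB
    have h5 : (A : ℝ) ^ 2 + (B : ℝ) ^ 2 + (C : ℝ) ^ 2 - ((n : ℝ) - 1) ^ 2 / 3 ≤ 1 := by
      have e : (n : ℝ) - 1 = A + B + C := by linarith
      rw [e]
      nlinarith [sq_nonneg ((A : ℝ) - B), sq_nonneg ((B : ℝ) - C), sq_nonneg ((A : ℝ) - C),
        mul_nonneg (sub_nonneg.mpr h2) (sub_nonneg.mpr h1),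
        mul_nonneg (sub_nonneg.mpr h4) (sub_nonneg.mpr h1),
        mul_nonneg (sub_nonneg.mpr (h4.trans h2)) (sub_nonneg.mpr h1)]
    have h6 : (1 / 16 : ℝ) * ((A : ℝ) ^ 2 + (B : ℝ) ^ 2 + (C : ℝ) ^ 2 -
      ((n : ℝ) - 1) ^ 2 / 3) / n ≤ 1 := by
      rw [div_le_one (by linarith)]
      linarith
    linarith
  · have hAC' : C + 2 ≤ A := by omega
    obtain ⟨A', rfl⟩ : ∃ A', A = A' + 1 := ⟨A - 1, by omega⟩
    have ih := IH A' B (C + 1) (by
      have : C + 1 ≤ A' := by omega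
      nlinarith) (by omega) (by omega) (by omega) (by omega)
    have hs := Dom_step (n := n) (A := A' + 1) (B := B) (C := C) hn hAC' (by omega) hCB
    have e1 : Real.log (fS n (A' + 1)) = Real.log (fS n A') +
        Real.log (2 * Real.sin (Real.pi * ((A' : ℝ) + 1) / n)) := Dom_log_succ (by omega)
    have e2 : Real.log (fS n (C + 1)) = Real.log (fS n C) +
        Real.log (2 * Real.sin (Real.pi * ((C : ℝ) + 1) / n)) := Dom_log_succ (by omega)
    unfold Dom_G at ih ⊢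
    rw [e1]
    rw [e2] at ih
    push_cast at ih hs ⊢
    have e3 : (1 / 16 : ℝ) * (((A' : ℝ) + 1) ^ 2 + (B : ℝ) ^ 2 + (C : ℝ) ^ 2 -
        ((n : ℝ) - 1) ^ 2 / 3) / n = (1 / 16 : ℝ) * ((A' : ℝ) ^ 2 + (B : ℝ) ^ 2 +
        ((C : ℝ) + 1) ^ 2 - ((n : ℝ) - 1) ^ 2 / 3) / n +
        (1 / 8 : ℝ) * ((A' : ℝ) + 1 - C - 1) / n := by ring
    rw [e3]
    linarith

lemma Dom_main (n : ℕ) (h3 : 3 ≤ n) : ∀ Q A B C : ℕ, A ^ 2 + B ^ 2 + C ^ 2 ≤ Q →
    A + B + C + 1 = n → 1 ≤ A + B → 1 ≤ B + C → 1 ≤ A + C →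
    Dom_G0 n - 3 + (1 / 16 : ℝ) * ((A : ℝ) ^ 2 + (B : ℝ) ^ 2 + (C : ℝ) ^ 2 -
      ((n : ℝ) - 1) ^ 2 / 3) / n ≤ Dom_G n A B C := by
  intro Q
  induction Q with
  | zero =>
    intro A B C hQ hn h1 h2 h4
    exfalso
    have hA : A = 0 := by
      by_contra h
      have : 1 ≤ A ^ 2 := Nat.one_le_pow _ _ (by omega)
      omega
    have hB : B = 0 := by
      by_contra h
      have : 1 ≤ B ^ 2 := Nat.one_le_pow _ _ (by omega)
      omega
    omega
  | succ Q IH =>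
    intro A B C hQ hn h1 h2 h4
    rcases le_total A B with hAB | hAB <;> rcases le_total B C with hBC | hBC <;>
      rcases le_total A C with hAC | hAC
    · -- A ≤ B ≤ C
      have := Dom_sorted h3 IH C B A (by omega) (by omega) (by omega) hBC hAB
      unfold Dom_G at this ⊢
      ring_nf at this ⊢
      linarith
    · have := Dom_sorted h3 IH C B A (by omega) (by omega) (by omega) hBC hAB
      unfold Dom_G at this ⊢
      ring_nf at this ⊢
      linarith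
    · -- A ≤ C ≤ B
      have := Dom_sorted h3 IH B C A (by omega) (by omega) (by omega) hBC hAC
      unfold Dom_G at this ⊢
      ring_nf at this ⊢
      linarith
    · -- C ≤ A ≤ B
      have := Dom_sorted h3 IH B A C (by omega) (by omega) (by omega) hAB hAC
      unfold Dom_G at this ⊢
      ring_nf at this ⊢
      linarith
    · -- B ≤ A ≤ C
      have := Dom_sorted h3 IH C A B (by omega) (by omega) (by omega) hAC hAB
      unfold Dom_G at this ⊢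
      ring_nf at this ⊢
      linarith
    · -- B ≤ C ≤ A
      have := Dom_sorted h3 IH A C B (by omega) (by omega) (by omega) hAC hBC
      unfold Dom_G at this ⊢
      ring_nf at this ⊢
      linarith
    · have := Dom_sorted h3 IH A B C (by omega) (by omega) (by omega) hAB hBC
      exact this
    · have := Dom_sorted h3 IH A B C (by omega) (by omega) (by omega) hAB hBC
      exact this

lemma Dom_apex {n : ℕ} (h3 : 3 ≤ n) : Real.log (fS n (n - 1)) =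
    Real.log (fS n (n - 2)) + Real.log (fS n 1) - Real.log (fS n 0) := by
  obtain ⟨a, rfl⟩ : ∃ a, n = a + 3 := ⟨n - 3, by omega⟩
  rw [show a + 3 - 1 = a + 1 + 1 by omega, show a + 3 - 2 = a + 1 by omega,
    Dom_log_succ (m := a + 1) (by omega), Dom_log_succ (m := 0) (by omega)]
  have e : Real.sin (Real.pi * (((a + 1 : ℕ) : ℝ) + 1) / ((a + 3 : ℕ) : ℝ)) =
      Real.sin (Real.pi * (((0 : ℕ) : ℝ) + 1) / ((a + 3 : ℕ) : ℝ)) := by
    rw [← Real.sin_pi_sub]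
    congr 1
    push_cast
    have : (a : ℝ) + 3 ≠ 0 := by positivity
    field_simp
    ring
  rw [e]
  ring

lemma Dom_all {n : ℕ} (h3 : 3 ≤ n) (A B C : ℕ) (hn : A + B + C + 1 = n) :
    Dom_G0 n - 4 + (1 / 16 : ℝ) * ((A : ℝ) ^ 2 + (B : ℝ) ^ 2 + (C : ℝ) ^ 2 -
      ((n : ℝ) - 1) ^ 2 / 3) / n ≤ Dom_G n A B C := by
  have hn0 : (3 : ℝ) ≤ n := by exact_mod_cast h3
  have hkey : (1 / 16 : ℝ) * (((n : ℝ) - 1) ^ 2 - ((n : ℝ) - 1) ^ 2 / 3) / n ≤
      (1 / 16 : ℝ) * (((n : ℝ) - 2) ^ 2 + 1 - ((n : ℝ) - 1) ^ 2 / 3) / n + 1 := by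
    have : (1 / 16 : ℝ) * (((n : ℝ) - 1) ^ 2 - ((n : ℝ) - 1) ^ 2 / 3) / n =
      (1 / 16 : ℝ) * (((n : ℝ) - 2) ^ 2 + 1 - ((n : ℝ) - 1) ^ 2 / 3) / n +
        (1 / 16 : ℝ) * (2 * n - 4) / n := by ring
    rw [this]
    have h4 : (1 / 16 : ℝ) * (2 * n - 4) / n ≤ 1 := by
      rw [div_le_one (by linarith)]
      linarith
    linarith
  have hap := Dom_apex h3
  have hn2 : ((n - 2 : ℕ) : ℝ) = (n : ℝ) - 2 := by
    rw [Nat.cast_sub (by omega)]; norm_num
  have hn1 : ((n - 1 : ℕ) : ℝ) = (n : ℝ) - 1 := by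
    rw [Nat.cast_sub (by omega)]; norm_num
  by_cases h1 : A + B = 0
  · obtain rfl : A = 0 := by omega
    obtain rfl : B = 0 := by omega
    obtain rfl : C = n - 1 := by omega
    have := Dom_main n h3 _ 1 0 (n - 2) le_rfl (by omega) (by omega) (by omega) (by omega)
    unfold Dom_G at this ⊢
    rw [hap]
    rw [hn2] at this
    rw [hn1]
    push_cast at this ⊢
    have e1 : (1 / 16 : ℝ) * (0 ^ 2 + 0 ^ 2 + ((n : ℝ) - 1) ^ 2 - ((n : ℝ) - 1) ^ 2 / 3) / n =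
      (1 / 16 : ℝ) * (((n : ℝ) - 1) ^ 2 - ((n : ℝ) - 1) ^ 2 / 3) / n := by ring
    have e2 : (1 / 16 : ℝ) * (1 ^ 2 + 0 ^ 2 + ((n : ℝ) - 2) ^ 2 - ((n : ℝ) - 1) ^ 2 / 3) / n =
      (1 / 16 : ℝ) * (((n : ℝ) - 2) ^ 2 + 1 - ((n : ℝ) - 1) ^ 2 / 3) / n := by ring
    rw [e1]
    rw [e2] at this
    linarith
  by_cases h2 : B + C = 0
  · obtain rfl : B = 0 := by omega
    obtain rfl : C = 0 := by omega
    obtain rfl : A = n - 1 := by omega
    have := Dom_main n h3 _ (n - 2) 1 0 le_rfl (by omega) (by omega) (by omega) (by omega)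
    unfold Dom_G at this ⊢
    rw [hap]
    rw [hn2] at this
    rw [hn1]
    push_cast at this ⊢
    have e1 : (1 / 16 : ℝ) * (((n : ℝ) - 1) ^ 2 + 0 ^ 2 + 0 ^ 2 - ((n : ℝ) - 1) ^ 2 / 3) / n =
      (1 / 16 : ℝ) * (((n : ℝ) - 1) ^ 2 - ((n : ℝ) - 1) ^ 2 / 3) / n := by ring
    have e2 : (1 / 16 : ℝ) * (((n : ℝ) - 2) ^ 2 + 1 ^ 2 + 0 ^ 2 - ((n : ℝ) - 1) ^ 2 / 3) / n =
      (1 / 16 : ℝ) * (((n : ℝ) - 2) ^ 2 + 1 - ((n : ℝ) - 1) ^ 2 / 3) / n := by ring
    rw [e1]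
    rw [e2] at this
    linarith
  by_cases h4 : A + C = 0
  · obtain rfl : A = 0 := by omega
    obtain rfl : C = 0 := by omega
    obtain rfl : B = n - 1 := by omega
    have := Dom_main n h3 _ 1 (n - 2) 0 le_rfl (by omega) (by omega) (by omega) (by omega)
    unfold Dom_G at this ⊢
    rw [hap]
    rw [hn2] at this
    rw [hn1]
    push_cast at this ⊢
    have e1 : (1 / 16 : ℝ) * (0 ^ 2 + ((n : ℝ) - 1) ^ 2 + 0 ^ 2 - ((n : ℝ) - 1) ^ 2 / 3) / n =
      (1 / 16 : ℝ) * (((n : ℝ) - 1) ^ 2 - ((n : ℝ) - 1) ^ 2 / 3) / n := by ring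
    have e2 : (1 / 16 : ℝ) * (1 ^ 2 + ((n : ℝ) - 2) ^ 2 + 0 ^ 2 - ((n : ℝ) - 1) ^ 2 / 3) / n =
      (1 / 16 : ℝ) * (((n : ℝ) - 2) ^ 2 + 1 - ((n : ℝ) - 1) ^ 2 / 3) / n := by ring
    rw [e1]
    rw [e2] at this
    linarith
  have := Dom_main n h3 _ A B C le_rfl hn (by omega) (by omega) (by omega)
  linarith

lemma Dom_quad (i r x y N : ℝ) (hN : N = 3 * i + r) (hr0 : 0 ≤ r) (hr2 : r ≤ 2) :
    (x ^ 2 + y ^ 2) / 2 - 4 ≤ (i - 1 - x) ^ 2 + (i + y) ^ 2 + (N - 2 * i + x - y) ^ 2 -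
      (N - 1) ^ 2 / 3 := by
  subst hN
  have e : (i - 1 - x) ^ 2 + (i + y) ^ 2 + (3 * i + r - 2 * i + x - y) ^ 2 -
      (3 * i + r - 1) ^ 2 / 3 = (x + (r + 2) / 3) ^ 2 + (y - (r - 1) / 3) ^ 2 +
      (x - y + (2 * r + 1) / 3) ^ 2 := by ring
  rw [e]
  nlinarith [sq_nonneg (x + 2 * ((r + 2) / 3)), sq_nonneg (y - 2 * ((r - 1) / 3)),
    sq_nonneg (x - y + (2 * r + 1) / 3), mul_nonneg hr0 (sub_nonneg.mpr hr2)]

theorem beta_dom : ∃ C c : ℝ, 0 < C ∧ 0 < c ∧ ∀ n : ℕ, 3 ≤ n → ∀ x y : ℤ,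
    beta n x y ≤ C * Real.exp (-c * ((x : ℝ) ^ 2 + (y : ℝ) ^ 2) / n) := by
  refine ⟨Real.exp 5, 1 / 32, Real.exp_pos _, by norm_num, ?_⟩
  intro n h3 x y
  have hn0 : (3 : ℝ) ≤ n := by exact_mod_cast h3
  unfold beta
  by_cases hr : 0 ≤ ((n / 3 : ℕ) : ℤ) + y ∧
      ((n / 3 : ℕ) : ℤ) + y ≤ (n : ℤ) - (n / 3 : ℕ) + x ∧ (n : ℤ) - (n / 3 : ℕ) + x < n
  · obtain ⟨hr1, hr2, hr3⟩ := hr
    obtain ⟨j, hj⟩ : ∃ j : ℕ, ((n / 3 : ℕ) : ℤ) + y = j := ⟨(((n / 3 : ℕ) : ℤ) + y).toNat, by omega⟩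
    obtain ⟨k, hk⟩ : ∃ k : ℕ, (n : ℤ) - (n / 3 : ℕ) + x = k :=
      ⟨((n : ℤ) - (n / 3 : ℕ) + x).toNat, by omega⟩
    rw [hj, hk]
    rw [hj, hk] at hr2
    rw [hk] at hr3
    rw [Dom_bS (by omega) (by omega)]
    have hb0 : b0 n = n * Real.exp (-Dom_G0 n) := by
      unfold b0 Dom_G0
      have e1 : (n : ℤ) - (n / 3 : ℕ) = ((n - n / 3 : ℕ) : ℤ) := by omega
      rw [e1, Dom_bS (by omega) (by omega)]
      congr 4
      · omega
      · omega
    rw [hb0]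
    have hall := Dom_all h3 (n - 1 - k) j (k - j) (by omega)
    have hx : ((n - 1 - k : ℕ) : ℝ) = ((n / 3 : ℕ) : ℝ) - 1 - x := by
      have : ((n - 1 - k : ℕ) : ℤ) = ((n / 3 : ℕ) : ℤ) - 1 - x := by omega
      exact_mod_cast this
    have hy : (j : ℝ) = ((n / 3 : ℕ) : ℝ) + y := by
      have h := congrArg (fun z : ℤ => (z : ℝ)) hj
      simp only [Int.cast_add, Int.cast_natCast] at h
      exact h.symm
    have hz : ((k - j : ℕ) : ℝ) = (n : ℝ) - 2 * ((n / 3 : ℕ) : ℝ) + x - y := by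
      have : ((k - j : ℕ) : ℤ) = (n : ℤ) - 2 * ((n / 3 : ℕ) : ℤ) + x - y := by omega
      exact_mod_cast this
    have hq := Dom_quad ((n / 3 : ℕ) : ℝ) ((n % 3 : ℕ) : ℝ) (x : ℝ) (y : ℝ) (n : ℝ) (by
      have : n = 3 * (n / 3) + n % 3 := (Nat.div_add_mod n 3).symm
      exact_mod_cast this) (Nat.cast_nonneg _) (by
      have : n % 3 ≤ 2 := by omega
      exact_mod_cast this)
    rw [hx, hy, hz] at hall
    have hnn : (n : ℝ) ≠ 0 := by linarith
    rw [mul_div_mul_left _ _ hnn, ← Real.exp_sub, ← Real.exp_add]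
    apply Real.exp_le_exp.mpr
    set W := (((n / 3 : ℕ) : ℝ) - 1 - x) ^ 2 + (((n / 3 : ℕ) : ℝ) + y) ^ 2 +
      ((n : ℝ) - 2 * ((n / 3 : ℕ) : ℝ) + x - y) ^ 2 - ((n : ℝ) - 1) ^ 2 / 3 with hW
    have h5 : (1 / 16 : ℝ) * (((x : ℝ) ^ 2 + (y : ℝ) ^ 2) / 2 - 4) / n ≤ (1 / 16 : ℝ) * W / n := by
      apply div_le_div_of_nonneg_right _ (by linarith)
      linarith
    have h6 : (1 / 16 : ℝ) * (((x : ℝ) ^ 2 + (y : ℝ) ^ 2) / 2 - 4) / n =
        -(-(1 / 32) * ((x : ℝ) ^ 2 + (y : ℝ) ^ 2) / n) - (1 / 4) / n := by ring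
    have h7 : (1 / 4 : ℝ) / n ≤ 1 := by
      rw [div_le_one (by linarith)]
      linarith
    linarith
  · have : bS n ((n : ℤ) - (n / 3 : ℕ) + x) ((n / 3 : ℕ) + y) = 0 := by
      unfold bS
      rw [if_neg hr]
    rw [this, zero_div]
    positivity

end Pool.Agent.Work.MP_b30479_gt.AX
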