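import Pool.Agent.Work.MP_b30479_gt.AX.Basis
import Pool.Agent.Work.MP_b30479_gt.AX.CmF

/-!
# The second half of the levels
-/

namespace Pool.Agent.Work.MP_b30479_gt.AX

open Finset Polynomial TB

/-! ### generalities -/

lemma dual_aeval_conj {n : Type*} [Fintype n] [DecidableEq n] {A B P : Matrix n n ℂ}
    (h : A * P = P * B) (p : ℂ[X]) : aeval A p * P = P * aeval B p := by
  induction p using Polynomial.induction_on' with
  | add p q hp hq => rw [map_add, map_add, add_mul, mul_add, hp, hq]
  | monomial k a =>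
    have hk : A ^ k * P = P * B ^ k := by
      induction k with
      | zero => simp
      | succ k ih => rw [pow_succ, mul_assoc, h, ← mul_assoc, ih, mul_assoc, ← pow_succ]
    rw [aeval_monomial, aeval_monomial, mul_assoc, hk, Algebra.algebraMap_eq_smul_one,
      smul_mul_assoc, one_mul, smul_mul_assoc, one_mul, mul_smul_comm]

lemma dual_trace_conj {n : Type*} [Fintype n] [DecidableEq n] {A B P : Matrix n n ℂ}
    (hP : IsUnit P) (h : A * P = P * B) (K : ℕ) : (A ^ K).trace = (B ^ K).trace := by
  have hk : A ^ K * P = P * B ^ K := by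
    induction K with
    | zero => simp
    | succ k ih => rw [pow_succ, mul_assoc, h, ← mul_assoc, ih, mul_assoc, ← pow_succ]
  have hdet : IsUnit P.det := (Matrix.isUnit_iff_isUnit_det P).1 hP
  have h1 : A ^ K = P * B ^ K * P⁻¹ := by
    rw [← hk, mul_assoc, Matrix.mul_nonsing_inv P hdet, mul_one]
  rw [h1, Matrix.trace_mul_comm, ← mul_assoc, Matrix.nonsing_inv_mul P hdet, one_mul]

lemma dual_mul_pow_comm {n : Type*} [Fintype n] [DecidableEq n] (A B : Matrix n n ℂ) (K : ℕ) :
    ((A * B) ^ K).trace = ((B * A) ^ K).trace := by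
  cases K with
  | zero => simp
  | succ k =>
    have h : (A * B) ^ (k + 1) = A * ((B * A) ^ k * B) := by
      induction k with
      | zero => simp
      | succ k ih => rw [pow_succ, ih, pow_succ]; simp only [mul_assoc]
    rw [h, Matrix.trace_mul_comm, mul_assoc, ← pow_succ]

lemma pbar_pbar (p : ℂ[X]) : pbar (pbar p) = p := by
  unfold pbar
  rw [Polynomial.map_map]
  have : (starRingEnd ℂ).comp (starRingEnd ℂ) = RingHom.id ℂ := by
    ext z
    simp
  rw [this, Polynomial.map_id]

/-- an additive map on matrices, conjugate linear, with `f 1 = 1` and `f (X A) = B f(X)`, maps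
`p(A)` to `pbar p (B)` -/
lemma dual_anti {n : Type*} [Fintype n] [DecidableEq n] {A B : Matrix n n ℂ}
    (f : Matrix n n ℂ → Matrix n n ℂ) (P : Matrix n n ℂ → Prop)
    (hadd : ∀ X Y, f (X + Y) = f X + f Y)
    (hsmul : ∀ (c : ℂ) X, f (c • X) = star c • f X) (hone : f 1 = 1) (hP1 : P 1)
    (hPA : ∀ X, P X → P (X * A)) (hmul : ∀ X, P X → f (X * A) = B * f X) (p : ℂ[X]) :
    f (aeval A p) = aeval B (pbar p) := by
  have hpow : ∀ k : ℕ, P (A ^ k) ∧ f (A ^ k) = B ^ k := by
    intro k
    induction k with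
    | zero => rw [pow_zero, pow_zero]; exact ⟨hP1, hone⟩
    | succ k ih =>
      rw [pow_succ, hmul _ ih.1, ih.2, ← pow_succ']
      exact ⟨hPA _ ih.1, rfl⟩
  induction p using Polynomial.induction_on' with
  | add p q hp hq =>
    rw [map_add, hadd, hp, hq, pbar, pbar, pbar, Polynomial.map_add, map_add]
  | monomial k a =>
    rw [pbar, Polynomial.map_monomial, aeval_monomial, aeval_monomial,
      Algebra.algebraMap_eq_smul_one, Algebra.algebraMap_eq_smul_one, smul_mul_assoc, one_mul,
      smul_mul_assoc, one_mul, hsmul, (hpow k).2]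
    rfl

/-! ### reality -/

lemma dual_star_inv {s : ℕ} {t : ℂ} (h : IsPrimitiveRoot t (2 * s + 1)) : star t⁻¹ = t := by
  rw [star_inv₀, star_root h, inv_inv]

lemma star_xx {s : ℕ} {t : ℂ} (h : IsPrimitiveRoot t (2 * s + 1)) (b : ℕ) :
    star (xx s t b) = xx s t b := by
  have h0 : t ≠ 0 := h.ne_zero (by omega)
  have h1 : t⁻¹ ^ s = t ^ (s + 1) := by
    rw [inv_pow, inv_eq_iff_eq_inv, eq_comm, inv_eq_iff_eq_inv, ← one_div, eq_div_iff
      (pow_ne_zero _ h0), ← pow_add, show s + 1 + s = 2 * s + 1 by ring, h.pow_eq_one]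
  have h2 : t⁻¹ ^ (s + 1) = t ^ s := by
    rw [← inv_inj, ← inv_pow, inv_inv, ← h1, inv_pow]
  unfold xx
  rw [star_add, star_mul', star_mul', star_pow, star_pow, star_pow, star_pow, star_root h,
    ← star_root h, star_star, star_root h, h1, h2]
  ring

lemma star_phi {s : ℕ} {t : ℂ} (h : IsPrimitiveRoot t (2 * s + 1)) {N k : ℕ} (hk : k ≤ N) :
    star (phi t N k) = phi t N k := by
  have h0 : t ≠ 0 := h.ne_zero (by omega)
  obtain ⟨m, rfl⟩ := Nat.exists_eq_add_of_le hk
  unfold phi
  have e1 : k + m + 1 - k = m + 1 := by omega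
  have e2 : 2 * (k + m) + 2 - k = k + 2 * m + 2 := by omega
  rw [e1, e2]
  simp only [star_mul', star_sub, star_one, star_pow, star_root h, dual_star_inv h]
  generalize ht : t⁻¹ = z
  have hz : t * z = 1 := by rw [← ht, mul_inv_cancel₀ h0]
  have hz' : z * t = 1 := by rw [mul_comm, hz]
  have a1 : (1 - z ^ k) = - z ^ k * (1 - t ^ k) := by
    have : z ^ k * t ^ k = 1 := by rw [← mul_pow, hz', one_pow]
    linear_combination -this
  have a2 : (1 - z ^ (k + 2 * m + 2)) = - z ^ (k + 2 * m + 2) * (1 - t ^ (k + 2 * m + 2)) := by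
    have : z ^ (k + 2 * m + 2) * t ^ (k + 2 * m + 2) = 1 := by rw [← mul_pow, hz', one_pow]
    linear_combination -this
  have a3 : z ^ k * z ^ (k + 2 * m + 2) * t ^ (k + m + 1) = z ^ (k + m + 1) := by
    have e : z ^ k * z ^ (k + 2 * m + 2) = z ^ (k + m + 1) * z ^ (k + m + 1) := by
      rw [← pow_add, ← pow_add]
      congr 1
      ring
    have : z ^ (k + m + 1) * t ^ (k + m + 1) = 1 := by rw [← mul_pow, hz', one_pow]
    rw [e, mul_assoc, this, mul_one]
  rw [a1, a2]
  linear_combination ((1 - t ^ k) * (1 - z ^ (m + 1)) * (1 - t ^ (m + 1)) *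
    (1 - t ^ (k + 2 * m + 2))) * a3

/-! ### the duality on lower triangular matrices -/

/-- the duality -/
noncomputable def sharp (t : ℂ) (N : ℕ) (A : Matrix (Fin (N + 1)) (Fin (N + 1)) ℂ) :
    Matrix (Fin (N + 1)) (Fin (N + 1)) ℂ := fun j k =>
  star (A k j) * ∏ l ∈ Ioc (j : ℕ) k, phi t N l

theorem SN_aeval {s : ℕ} {t : ℂ} (h : IsPrimitiveRoot t (2 * s + 1)) {N : ℕ} (hN : N ≤ 2 * s)
    (p : ℂ[X]) (j k : Fin (N + 1)) : aeval (SN s t N) (pbar p) j k =
      star (aeval (LN s t N) p k j) * ∏ l ∈ Ioc (j : ℕ) k, phi t N l := by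
  have hL : ∀ a b : Fin (N + 1), (a : ℕ) < b → LN s t N a b = 0 := by
    intro a b hab
    unfold LN
    rw [if_neg (by omega), if_neg (by omega)]
  have key := dual_anti (A := LN s t N) (B := SN s t N) (sharp t N)
    (fun X => ∀ a b : Fin (N + 1), (a : ℕ) < b → X a b = 0) ?_ ?_ ?_ ?_ ?_ ?_ p
  · exact (congrFun (congrFun key j) k).symm
  · intro X Y
    funext a b
    show star ((X + Y) b a) * _ = star (X b a) * _ + star (Y b a) * _
    rw [Matrix.add_apply, star_add, add_mul]
  · intro c X
    funext a b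
    show star ((c • X) b a) * _ = star c • (star (X b a) * _)
    rw [Matrix.smul_apply, smul_eq_mul, smul_eq_mul, star_mul']
    ring
  · funext a b
    show star ((1 : Matrix (Fin (N + 1)) (Fin (N + 1)) ℂ) b a) * _ = _
    by_cases hab : a = b
    · subst hab
      simp
    · rw [Matrix.one_apply_ne (Ne.symm hab), Matrix.one_apply_ne hab, star_zero, zero_mul]
  · intro a b hab
    exact Matrix.one_apply_ne (by rintro rfl; omega)
  · intro X hX a b hab
    rw [Matrix.mul_apply]
    apply Finset.sum_eq_zero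
    intro c _
    rcases lt_or_ge (a : ℕ) (c : ℕ) with hc | hc
    · rw [hX a c hc, zero_mul]
    · rw [hL c b (by omega), mul_zero]
  · intro X hX
    funext a b
    show star ((X * LN s t N) b a) * _ = (SN s t N * sharp t N X) a b
    rw [Matrix.mul_apply, Matrix.mul_apply, star_sum, Finset.sum_mul]
    apply Finset.sum_congr rfl
    intro c _
    show _ = SN s t N a c * (star (X b c) * _)
    rw [star_mul']
    by_cases hbc : (b : ℕ) < c
    · rw [hX b c hbc, star_zero]
      ring
    by_cases hac : (a : ℕ) = c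
    · have e1 : LN s t N c a = xx s t (N - a) := by
        unfold LN
        rw [if_pos hac.symm]
      have e2 : SN s t N a c = xx s t (N - a) := by
        unfold SN
        rw [if_pos hac, ← hac]
      rw [e1, e2, star_xx h, hac]
      ring
    by_cases hac' : (c : ℕ) = a + 1
    · have e1 : LN s t N c a = 1 := by
        unfold LN
        rw [if_neg (by omega), if_pos hac']
      have e2 : SN s t N a c = phi t N c := by
        unfold SN
        rw [if_neg hac, if_pos hac']
      have e3 : Ioc (a : ℕ) b = insert (c : ℕ) (Ioc (c : ℕ) b) := by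
        ext x
        simp only [mem_Ioc, mem_insert]
        omega
      rw [e1, e2, e3, Finset.prod_insert (by simp)]
      rw [star_one]
      ring
    · have e1 : LN s t N c a = 0 := by
        unfold LN
        rw [if_neg (by omega), if_neg hac']
      have e2 : SN s t N a c = 0 := by
        unfold SN
        rw [if_neg hac, if_neg hac']
      rw [e1, e2, star_zero]
      ring

theorem UN_trace {s : ℕ} {t : ℂ} (h : IsPrimitiveRoot t (2 * s + 1)) {N : ℕ} (hN : N ≤ 2 * s)
    (p q : ℂ[X]) (K : ℕ) : ((aeval (TN s t N) p * aeval (UN s t N) q) ^ K).trace =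
      ((aeval (LN s t N) p * aeval (SN s t N) q) ^ K).trace := by
  apply dual_trace_conj (PN_unit h hN)
  rw [mul_assoc, dual_aeval_conj (UN_PN h hN), ← mul_assoc, dual_aeval_conj (TN_PN h hN),
    mul_assoc]

/-- reflection: conjugation, transposition and reversal of the indices -/
noncomputable def refl' {M : ℕ} (A : Matrix (Fin (M + 1)) (Fin (M + 1)) ℂ) :
    Matrix (Fin (M + 1)) (Fin (M + 1)) ℂ := fun a b => star (A (Fin.rev b) (Fin.rev a))

lemma refl'_mul {M : ℕ} (A B : Matrix (Fin (M + 1)) (Fin (M + 1)) ℂ) :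
    refl' (A * B) = refl' B * refl' A := by
  funext a b
  show star ((A * B) (Fin.rev b) (Fin.rev a)) = (refl' B * refl' A) a b
  rw [Matrix.mul_apply, Matrix.mul_apply, star_sum, ← Equiv.sum_comp Fin.revPerm]
  apply Finset.sum_congr rfl
  intro c _
  show star (A _ _ * B _ _) = star (B (Fin.rev c) (Fin.rev a)) * star (A (Fin.rev b) (Fin.rev c))
  rw [star_mul', mul_comm]
  rfl

lemma refl'_one {M : ℕ} : refl' (1 : Matrix (Fin (M + 1)) (Fin (M + 1)) ℂ) = 1 := by
  funext a b
  show star ((1 : Matrix (Fin (M + 1)) (Fin (M + 1)) ℂ) (Fin.rev b) (Fin.rev a)) = _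
  by_cases hab : a = b
  · subst hab
    simp
  · rw [Matrix.one_apply_ne hab, Matrix.one_apply_ne, star_zero]
    intro hh
    exact hab (Fin.rev_injective hh).symm

lemma refl'_aeval {M : ℕ} (A : Matrix (Fin (M + 1)) (Fin (M + 1)) ℂ) (p : ℂ[X]) :
    refl' (aeval A p) = aeval (refl' A) (pbar p) := by
  refine dual_anti refl' (fun _ => True) ?_ ?_ refl'_one trivial (fun _ _ => trivial)
    (fun X _ => refl'_mul _ _) p
  · intro X Y
    funext a b
    show star ((X + Y) _ _) = star (X _ _) + star (Y _ _)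
    rw [Matrix.add_apply, star_add]
  · intro c X
    funext a b
    show star ((c • X) _ _) = star c • star (X _ _)
    rw [Matrix.smul_apply, smul_eq_mul, smul_eq_mul, star_mul']

lemma refl'_pow {M : ℕ} (A : Matrix (Fin (M + 1)) (Fin (M + 1)) ℂ) (K : ℕ) :
    refl' (A ^ K) = refl' A ^ K := by
  induction K with
  | zero => rw [pow_zero, pow_zero, refl'_one]
  | succ k ih => rw [pow_succ, refl'_mul, ih, ← pow_succ']

lemma refl'_trace {M : ℕ} (A : Matrix (Fin (M + 1)) (Fin (M + 1)) ℂ) :
    (refl' A).trace = star A.trace := by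
  unfold Matrix.trace
  rw [star_sum, ← Equiv.sum_comp Fin.revPerm]
  apply Finset.sum_congr rfl
  intro c _
  show star (A (Fin.rev (Fin.rev c)) (Fin.rev (Fin.rev c))) = star (A c c)
  rw [Fin.rev_rev]

/-- entrywise conjugation -/
noncomputable def conjM {n : Type*} (A : Matrix n n ℂ) : Matrix n n ℂ := fun a b => star (A a b)

lemma conjM_mul {n : Type*} [Fintype n] (A B : Matrix n n ℂ) :
    conjM (A * B) = conjM A * conjM B := by
  funext a b
  show star ((A * B) a b) = (conjM A * conjM B) a b
  rw [Matrix.mul_apply, Matrix.mul_apply, star_sum]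
  exact Finset.sum_congr rfl fun c _ => star_mul' _ _

lemma conjM_one {n : Type*} [DecidableEq n] : conjM (1 : Matrix n n ℂ) = 1 := by
  funext a b
  show star ((1 : Matrix n n ℂ) a b) = _
  by_cases hab : a = b
  · subst hab
    simp
  · rw [Matrix.one_apply_ne hab, star_zero]

lemma conjM_pow {n : Type*} [Fintype n] [DecidableEq n] (A : Matrix n n ℂ) (K : ℕ) :
    conjM (A ^ K) = conjM A ^ K := by
  induction K with
  | zero => rw [pow_zero, pow_zero, conjM_one]
  | succ k ih => rw [pow_succ, conjM_mul, ih, ← pow_succ]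

lemma conjM_aeval {n : Type*} [Fintype n] [DecidableEq n] {A : Matrix n n ℂ} (hA : conjM A = A)
    (p : ℂ[X]) : conjM (aeval A p) = aeval A (pbar p) := by
  refine dual_anti conjM (fun X => X * A = A * X) ?_ ?_ conjM_one (by simp) ?_ ?_ p
  · intro X Y
    funext a b
    show star ((X + Y) _ _) = star (X _ _) + star (Y _ _)
    rw [Matrix.add_apply, star_add]
  · intro c X
    funext a b
    show star ((c • X) _ _) = star c • star (X _ _)
    rw [Matrix.smul_apply, smul_eq_mul, smul_eq_mul, star_mul']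
  · intro X hX
    rw [hX, mul_assoc, hX]
  · intro X hX
    rw [hX, conjM_mul, hA]

lemma conjM_trace {n : Type*} [Fintype n] (A : Matrix n n ℂ) :
    (conjM A).trace = star A.trace := by
  unfold Matrix.trace
  rw [star_sum]
  rfl

theorem UB_trace {s : ℕ} {t : ℂ} (h : IsPrimitiveRoot t (2 * s + 1)) {M : ℕ} (hM : M ≤ 2 * s)
    (p : ℂ[X]) (K : ℕ) : ((aeval (TN s t M) p * aeval (UB s t M) (pbar p)) ^ K).trace =
      ((aeval (LN s t M) p * aeval (SN s t M) (pbar p)) ^ K).trace := by
  have hT : refl' (TN s t M) = TN s t M := by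
    funext a b
    show star (TN s t M (Fin.rev b) (Fin.rev a)) = _
    have h1 : TN s t M (Fin.rev b) (Fin.rev a) = TN s t M (Fin.rev a) (Fin.rev b) :=
      congrFun (congrFun (TN_symm h hM) (Fin.rev a)) (Fin.rev b)
    rw [h1, TN_star h hM]
  have hU : refl' (UN s t M) = UB s t M := by
    funext a b
    rw [UB_eq h hM]
    rfl
  have hL : conjM (LN s t M) = LN s t M := by
    funext a b
    show star (LN s t M a b) = _
    unfold LN
    split_ifs
    · exact star_xx h _
    · exact star_one _
    · exact star_zero _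
  have hS : conjM (SN s t M) = SN s t M := by
    funext a b
    show star (SN s t M a b) = _
    unfold SN
    split_ifs
    · exact star_xx h _
    · exact star_phi h (by omega)
    · exact star_zero _
  have e1 : refl' ((aeval (UN s t M) p * aeval (TN s t M) (pbar p)) ^ K) =
      (aeval (TN s t M) p * aeval (UB s t M) (pbar p)) ^ K := by
    rw [refl'_pow, refl'_mul, refl'_aeval, refl'_aeval, hT, hU, pbar_pbar]
  have e2 : ((aeval (UN s t M) p * aeval (TN s t M) (pbar p)) ^ K).trace =
      ((aeval (SN s t M) p * aeval (LN s t M) (pbar p)) ^ K).trace := by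
    apply dual_trace_conj (PN_unit h hM)
    rw [mul_assoc, dual_aeval_conj (TN_PN h hM), ← mul_assoc, dual_aeval_conj (UN_PN h hM),
      mul_assoc]
  have e3 : conjM ((aeval (SN s t M) p * aeval (LN s t M) (pbar p)) ^ K) =
      (aeval (SN s t M) (pbar p) * aeval (LN s t M) p) ^ K := by
    rw [conjM_pow, conjM_mul, conjM_aeval hS, conjM_aeval hL, pbar_pbar]
  rw [← e1, refl'_trace, e2, ← conjM_trace, e3, dual_mul_pow_comm]

end Pool.Agent.Work.MP_b30479_gt.AX
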