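import Pool.Agent.Work.MP_b30479_gt.AX.SinF

/-!
# The entries of the two braiding matrices
-/

namespace Pool.Agent.Work.MP_b30479_gt.AX

open Finset TB

/-- `exp(i π x/n)` -/
noncomputable def emE (n : ℕ) (x : ℝ) : ℂ :=
  Complex.exp (((Real.pi * x / n : ℝ) : ℂ) * Complex.I)

lemma emE_add (n : ℕ) (x y : ℝ) : emE n (x + y) = emE n x * emE n y := by
  unfold emE
  rw [← Complex.exp_add]
  congr 1
  push_cast
  ring

lemma emE_ne (n : ℕ) (x : ℝ) : emE n x ≠ 0 := Complex.exp_ne_zero _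

lemma emE_norm (n : ℕ) (x : ℝ) : ‖emE n x‖ = 1 := Complex.norm_exp_ofReal_mul_I _

lemma emE_zero (n : ℕ) : emE n 0 = 1 := by
  unfold emE; simp

lemma emE_neg (n : ℕ) (x : ℝ) : emE n (-x) = (emE n x)⁻¹ := by
  apply eq_inv_of_mul_eq_one_left
  rw [← emE_add, neg_add_cancel, emE_zero]

lemma emE_nsmul (n : ℕ) (x : ℝ) (m : ℕ) : emE n x ^ m = emE n (m * x) := by
  induction m with
  | zero => simp [emE_zero]
  | succ m ih =>
    rw [pow_succ, ih, ← emE_add]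
    congr 1
    push_cast
    ring

lemma emE_tt (s : ℕ) : tt s = emE (2 * s + 1) 2 := by
  unfold tt emE
  congr 1
  push_cast
  ring

lemma emE_n (s : ℕ) : emE (2 * s + 1) ((2 * s + 1 : ℕ) : ℝ) = -1 := by
  unfold emE
  have : Real.pi * ((2 * s + 1 : ℕ) : ℝ) / ((2 * s + 1 : ℕ) : ℝ) = Real.pi := by
    have : ((2 * s + 1 : ℕ) : ℝ) ≠ 0 := by positivity
    field_simp
  rw [this]
  exact Complex.exp_pi_mul_I

lemma emE_ts (s : ℕ) : (tt s ^ s)⁻¹ = -emE (2 * s + 1) 1 := by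
  apply inv_eq_of_mul_eq_one_left
  rw [emE_tt, emE_nsmul, neg_mul, ← emE_add]
  have : (1 + (s : ℝ) * 2) = ((2 * s + 1 : ℕ) : ℝ) := by push_cast; ring
  rw [this, emE_n]
  ring

lemma emE_qf {s m : ℕ} (hm : m ≤ 2 * s) : qf (tt s) m = (fS (2 * s + 1) m : ℂ) *
    ((-Complex.I) ^ m * emE (2 * s + 1) (m * (m + 1) / 2)) := by
  rw [qf_tt hm]
  unfold emE
  have h1 : Real.pi * ((m : ℝ) * (m + 1)) / (2 * ((2 * s + 1 : ℕ) : ℝ)) =
      Real.pi * ((m : ℝ) * (m + 1) / 2) / ((2 * s + 1 : ℕ) : ℝ) := by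
    have : ((2 * s + 1 : ℕ) : ℝ) ≠ 0 := by positivity
    field_simp
  rw [h1]

lemma em_I (d : ℕ) : (-Complex.I) ^ d * (-Complex.I) ^ d = (-1) ^ d := by
  rw [← mul_pow]
  congr 1
  rw [neg_mul_neg, Complex.I_mul_I]

/-- absolute value and phase of the entries -/
theorem alM_tt {s N : ℕ} (hN : N ≤ 2 * s) : ∃ p q : ℕ → ℂ, (∀ k, ‖p k‖ = 1) ∧ (∀ j, ‖q j‖ = 1) ∧
    ∀ k j : Fin (N + 1), j ≤ k → alM s (tt s) N k j = p k * q j *
      (((fS (2 * s + 1) (N - k) / (fS (2 * s + 1) ((k : ℕ) - j) * fS (2 * s + 1) (N - j)) : ℝ) : ℂ) *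
      Complex.exp (((Real.pi * (k : ℕ) * (j : ℕ) / ((2 * s + 1 : ℕ) : ℝ) : ℝ) : ℂ) *
        Complex.I)) := by
  have htn : ‖tt s‖ = 1 := by rw [emE_tt]; exact emE_norm _ _
  refine ⟨fun k => ((-1) ^ N * tt s ^ (s * s + (N + 1).choose 2)) *
    emE (2 * s + 1) (-((N : ℝ) * k)), fun j => (-1) ^ j * emE (2 * s + 1) (-((j : ℝ) + j * N)),
    ?_, ?_, ?_⟩
  · intro k
    simp [norm_mul, norm_pow, htn, emE_norm]
  · intro j
    simp [norm_mul, norm_pow, emE_norm]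
  · intro k j hjk
    obtain ⟨k, hk⟩ := k
    obtain ⟨j, hj⟩ := j
    have hjk' : j ≤ k := hjk
    have hkN : k ≤ N := by omega
    obtain ⟨d, rfl⟩ := Nat.exists_eq_add_of_le hjk'
    obtain ⟨r, rfl⟩ := Nat.exists_eq_add_of_le hkN
    unfold alM
    simp only [Nat.le_add_right, if_true]
    have e1 : j + d + r - (j + d) = r := by omega
    have e2 : j + d - j = d := by omega
    have e3 : j + d + r - j = d + r := by omega
    rw [e1, e2, e3, emE_qf (m := r) (by omega), emE_qf (m := d) (by omega),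
      emE_qf (m := d + r) (by omega), emE_ts]
    set n : ℕ := 2 * s + 1 with hn
    have hfd : (fS n d : ℂ) ≠ 0 := by
      have := fS_pos (n := n) (m := d) (by omega)
      exact_mod_cast this.ne'
    have hfdr : (fS n (d + r) : ℂ) ≠ 0 := by
      have := fS_pos (n := n) (m := d + r) (by omega)
      exact_mod_cast this.ne'
    have ht1 : tt s ^ j.choose 2 = emE n ((j : ℝ) * (j - 1)) := by
      rw [emE_tt, emE_nsmul]
      congr 1
      rw [Nat.cast_choose_two]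
      ring
    have ht2 : (tt s)⁻¹ ^ (j * (j + d + r)) = emE n (-(2 * (j : ℝ) * (j + d + r))) := by
      rw [emE_tt, ← emE_neg, emE_nsmul]
      congr 1
      push_cast
      ring
    rw [ht1, ht2]
    have hE : Complex.exp (((Real.pi * ((j + d : ℕ) : ℝ) * (j : ℝ) / ((n : ℕ) : ℝ) : ℝ) : ℂ) *
        Complex.I) = emE n (((j : ℝ) + d) * j) := by
      unfold emE
      congr 3
      push_cast
      ring
    have hE' : Complex.exp (((Real.pi * ((j + d : ℕ) : ℝ) * (j : ℝ) / ((2 * s + 1 : ℕ) : ℝ) : ℝ) :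
        ℂ) * Complex.I) = emE n (((j : ℝ) + d) * j) := hE
    rw [hE']
    have key : emE n ((j : ℝ) * (j - 1)) * emE n (-(2 * (j : ℝ) * (j + d + r))) * emE n d *
        emE n (r * (r + 1) / 2) =
        emE n (-((((j + d + r : ℕ) : ℝ)) * ((j + d : ℕ) : ℝ))) *
          emE n (-((j : ℝ) + j * ((j + d + r : ℕ) : ℝ))) * emE n (((j : ℝ) + d) * j) *
          (emE n (d * (d + 1) / 2) * emE n (((d + r : ℕ) : ℝ) * (((d + r : ℕ) : ℝ) + 1) / 2)) := by
      simp only [← emE_add]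
      congr 1
      push_cast
      ring
    have hI : ((-1 : ℂ)) ^ d * (-Complex.I) ^ r = (-Complex.I) ^ d * (-Complex.I) ^ (d + r) := by
      rw [pow_add, ← mul_assoc, em_I]
    have hId : (-Complex.I) ^ d ≠ 0 := pow_ne_zero _ (neg_ne_zero.2 Complex.I_ne_zero)
    have hIdr : (-Complex.I) ^ (d + r) ≠ 0 := pow_ne_zero _ (neg_ne_zero.2 Complex.I_ne_zero)
    have hd1 : (-emE n 1) ^ d = (-1) ^ d * emE n d := by
      rw [neg_pow, emE_nsmul, mul_one]
    rw [hd1]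
    have hA : (fS n d : ℂ) * ((-Complex.I) ^ d * emE n (d * (d + 1) / 2)) *
        ((fS n (d + r) : ℂ) * ((-Complex.I) ^ (d + r) *
          emE n (((d + r : ℕ) : ℝ) * (((d + r : ℕ) : ℝ) + 1) / 2))) ≠ 0 :=
      mul_ne_zero (mul_ne_zero hfd (mul_ne_zero hId (emE_ne _ _)))
        (mul_ne_zero hfdr (mul_ne_zero hIdr (emE_ne _ _)))
    have hcast : (((fS n r / (fS n d * fS n (d + r)) : ℝ)) : ℂ) =
        (fS n r : ℂ) / ((fS n d : ℂ) * (fS n (d + r) : ℂ)) := by push_cast; ring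
    rw [hcast]
    rw [mul_div_assoc', div_mul_eq_mul_div, mul_div_assoc',
      div_eq_div_iff hA (mul_ne_zero hfd hfdr)]
    calc _ = ((-1) ^ (j + d + r) * tt s ^ (s * s + (j + d + r + 1).choose 2) * (-1) ^ j *
          (fS n r : ℂ) * (fS n d : ℂ) * (fS n (d + r) : ℂ)) * ((-1) ^ d * (-Complex.I) ^ r) *
          (emE n ((j : ℝ) * (j - 1)) * emE n (-(2 * (j : ℝ) * (j + d + r))) * emE n d *
            emE n (r * (r + 1) / 2)) := by ring
      _ = _ := by rw [key, hI]; ring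

lemma em_sin (s a b : ℕ) (h : a + b = 2 * (2 * s + 1)) :
    Real.sin (Real.pi * (b : ℝ) / ((2 * s + 1 : ℕ) : ℝ)) =
      -Real.sin (Real.pi * (a : ℝ) / ((2 * s + 1 : ℕ) : ℝ)) := by
  have hn : ((2 * s + 1 : ℕ) : ℝ) ≠ 0 := by positivity
  have hb : (b : ℝ) = 2 * ((2 * s + 1 : ℕ) : ℝ) - a := by
    have : ((a + b : ℕ) : ℝ) = ((2 * (2 * s + 1) : ℕ) : ℝ) := by rw [h]
    push_cast at this ⊢
    linarith
  rw [hb]
  have : Real.pi * (2 * ((2 * s + 1 : ℕ) : ℝ) - a) / ((2 * s + 1 : ℕ) : ℝ) =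
      2 * Real.pi - Real.pi * a / ((2 * s + 1 : ℕ) : ℝ) := by
    field_simp
  rw [this, Real.sin_two_pi_sub]

/-- telescoping on the main block -/
lemma em_main {s N : ℕ} (hN : N ≤ 2 * s) {j k : ℕ} (hjk : j ≤ k) (hk : k ≤ N)
    (hc : k + 2 * (2 * s - N) < 2 * s + 1) :
    (∏ l ∈ Ioc j k, phi (tt s) N l) =
      ((fS (2 * s + 1) k * fS (2 * s + 1) (k + 2 * (2 * s - N)) * fS (2 * s + 1) (N - j) ^ 2 /
        (fS (2 * s + 1) j * fS (2 * s + 1) (j + 2 * (2 * s - N)) * fS (2 * s + 1) (N - k) ^ 2) : ℝ)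
        : ℂ) := by
  induction k, hjk using Nat.le_induction with
  | base =>
    have h1 := (fS_pos (n := 2 * s + 1) (m := j) (by omega)).ne'
    have h2 := (fS_pos (n := 2 * s + 1) (m := j + 2 * (2 * s - N)) (by omega)).ne'
    have h3 := (fS_pos (n := 2 * s + 1) (m := N - j) (by omega)).ne'
    rw [Finset.Ioc_self, Finset.prod_empty, div_self]
    · simp
    · positivity
  | succ k hjk ih =>
    have hI : Ioc j (k + 1) = insert (k + 1) (Ioc j k) := by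
      ext l
      simp only [mem_Ioc, mem_insert]
      omega
    rw [hI, Finset.prod_insert (by simp), ih (by omega) (by omega), phi_tt (by omega)]
    have h1 := (fS_pos (n := 2 * s + 1) (m := j) (by omega)).ne'
    have h2 := (fS_pos (n := 2 * s + 1) (m := j + 2 * (2 * s - N)) (by omega)).ne'
    have h3 := (fS_pos (n := 2 * s + 1) (m := N - (k + 1)) (by omega)).ne'
    have h4 := (fS_pos (n := 2 * s + 1) (m := N - k) (by omega)).ne'
    have e1 := fS_succ (2 * s + 1) k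
    have e2 := fS_succ (2 * s + 1) (k + 2 * (2 * s - N))
    have e3 := fS_succ (2 * s + 1) (N - (k + 1))
    have e2' : k + 1 + 2 * (2 * s - N) = k + 2 * (2 * s - N) + 1 := by omega
    have e3' : N - k = N - (k + 1) + 1 := by omega
    have hs := em_sin s (k + 1 + 2 * (2 * s - N)) (2 * N + 2 - (k + 1)) (by omega)
    have hb : ((2 * N + 2 - (k + 1) : ℕ) : ℝ) = 2 * (N : ℝ) + 2 - ((k + 1 : ℕ) : ℝ) := by
      rw [Nat.cast_sub (by omega)]; push_cast; ring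
    rw [hb] at hs
    have hb2 : ((N - (k + 1) : ℕ) : ℝ) + 1 = (N : ℝ) + 1 - ((k + 1 : ℕ) : ℝ) := by
      rw [Nat.cast_sub (by omega)]; push_cast; ring
    have hb3 : ((k + 2 * (2 * s - N) : ℕ) : ℝ) + 1 = ((k + 1 + 2 * (2 * s - N) : ℕ) : ℝ) := by
      push_cast; ring
    have hb4 : ((k : ℕ) : ℝ) + 1 = ((k + 1 : ℕ) : ℝ) := by push_cast; ring
    rw [hb4] at e1
    rw [hb3] at e2
    rw [hb2, ← e3'] at e3
    rw [hs, e2', e1, e2]
    rw [e3] at h4
    have hsin : Real.sin (Real.pi * ((N : ℝ) + 1 - ((k + 1 : ℕ) : ℝ)) / ((2 * s + 1 : ℕ) : ℝ)) ≠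
        0 := by
      intro h0
      rw [h0] at h4
      simp at h4
    rw [← Complex.ofReal_mul]
    congr 1
    rw [e3]
    field_simp
    ring

/-- the product of the parameters on the main block -/
theorem phi_main {s N : ℕ} (hN : N ≤ 2 * s) {j k : ℕ} (hjk : j ≤ k) (hk : k ≤ N)
    (hc : (k : ℤ) < cN s N) : 0 < bS (2 * s + 1) k j *
      bS (2 * s + 1) ((k : ℤ) + 2 * (2 * s - N)) ((j : ℤ) + 2 * (2 * s - N)) ∧
    (∏ l ∈ Ioc j k, phi (tt s) N l) =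
      ((bS (2 * s + 1) k j * bS (2 * s + 1) ((k : ℤ) + 2 * (2 * s - N)) ((j : ℤ) +
        2 * (2 * s - N)) /
      (fS (2 * s + 1) (N - k) / (fS (2 * s + 1) (k - j) * fS (2 * s + 1) (N - j))) ^ 2 : ℝ) : ℂ)
      := by
  unfold cN at hc
  have hc' : k + 2 * (2 * s - N) < 2 * s + 1 := by omega
  have f1 := fS_pos (n := 2 * s + 1) (m := j) (by omega)
  have f2 := fS_pos (n := 2 * s + 1) (m := k) (by omega)
  have f3 := fS_pos (n := 2 * s + 1) (m := j + 2 * (2 * s - N)) (by omega)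
  have f4 := fS_pos (n := 2 * s + 1) (m := k + 2 * (2 * s - N)) (by omega)
  have f5 := fS_pos (n := 2 * s + 1) (m := k - j) (by omega)
  have f6 := fS_pos (n := 2 * s + 1) (m := N - k) (by omega)
  have f7 := fS_pos (n := 2 * s + 1) (m := N - j) (by omega)
  have b1 : bS (2 * s + 1) k j = fS (2 * s + 1) k / (fS (2 * s + 1) j * fS (2 * s + 1) (k - j)) := by
    unfold bS
    rw [if_pos (by push_cast; omega)]
    congr 2
    have : ((k : ℤ) - (j : ℤ)).toNat = k - j := by omega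
    rw [this]
  have b2 : bS (2 * s + 1) ((k : ℤ) + 2 * (2 * s - N)) ((j : ℤ) + 2 * (2 * s - N)) =
      fS (2 * s + 1) (k + 2 * (2 * s - N)) / (fS (2 * s + 1) (j + 2 * (2 * s - N)) *
        fS (2 * s + 1) (k - j)) := by
    unfold bS
    rw [if_pos (by push_cast; omega)]
    have t1 : ((k : ℤ) + 2 * (2 * s - N)).toNat = k + 2 * (2 * s - N) := by omega
    have t2 : ((j : ℤ) + 2 * (2 * s - N)).toNat = j + 2 * (2 * s - N) := by omega
    have t3 : ((k : ℤ) + 2 * (2 * s - N) - ((j : ℤ) + 2 * (2 * s - N))).toNat = k - j := by omega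
    rw [t1, t2, t3]
  refine ⟨?_, ?_⟩
  · rw [b1, b2]; positivity
  · rw [em_main hN hjk hk hc', b1, b2]
    congr 1
    field_simp

lemma em_sin_pos {s m : ℕ} (h0 : 0 < m) (hm : m < 2 * s + 1) :
    0 < Real.sin (Real.pi * (m : ℝ) / ((2 * s + 1 : ℕ) : ℝ)) := by
  have hn : (0 : ℝ) < ((2 * s + 1 : ℕ) : ℝ) := by positivity
  have hm0 : (0 : ℝ) < m := by exact_mod_cast h0
  have hm1 : (m : ℝ) < ((2 * s + 1 : ℕ) : ℝ) := by exact_mod_cast hm
  apply Real.sin_pos_of_pos_of_lt_pi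
  · exact div_pos (mul_pos Real.pi_pos hm0) hn
  · rw [div_lt_iff₀ hn]
    exact mul_lt_mul_of_pos_left hm1 Real.pi_pos

/-- telescoping on the rest -/
lemma em_rest {s N : ℕ} (hN : N ≤ 2 * s) {j k : ℕ} (hjk : j ≤ k) (hk : k ≤ N)
    (hc : 2 * N + 1 - j < 2 * s + 1) :
    ‖∏ l ∈ Ioc j k, phi (tt s) N l‖ =
      fS (2 * s + 1) k * fS (2 * s + 1) (2 * N + 1 - j) * fS (2 * s + 1) (N - j) ^ 2 /
        (fS (2 * s + 1) j * fS (2 * s + 1) (2 * N + 1 - k) * fS (2 * s + 1) (N - k) ^ 2) := by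
  induction k, hjk using Nat.le_induction with
  | base =>
    have h1 := (fS_pos (n := 2 * s + 1) (m := j) (by omega)).ne'
    have h2 := (fS_pos (n := 2 * s + 1) (m := 2 * N + 1 - j) (by omega)).ne'
    have h3 := (fS_pos (n := 2 * s + 1) (m := N - j) (by omega)).ne'
    rw [Finset.Ioc_self, Finset.prod_empty, div_self]
    · simp
    · positivity
  | succ k hjk ih =>
    have hI : Ioc j (k + 1) = insert (k + 1) (Ioc j k) := by
      ext l
      simp only [mem_Ioc, mem_insert]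
      omega
    rw [hI, Finset.prod_insert (by simp), norm_mul, ih (by omega), phi_tt (by omega)]
    have h1 := (fS_pos (n := 2 * s + 1) (m := j) (by omega)).ne'
    have h2 := (fS_pos (n := 2 * s + 1) (m := 2 * N + 1 - k) (by omega)).ne'
    have h2' := (fS_pos (n := 2 * s + 1) (m := 2 * N + 1 - (k + 1)) (by omega)).ne'
    have h3 := (fS_pos (n := 2 * s + 1) (m := N - (k + 1)) (by omega)).ne'
    have h4 := (fS_pos (n := 2 * s + 1) (m := N - k) (by omega)).ne'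
    have e1 := fS_succ (2 * s + 1) k
    have e2 := fS_succ (2 * s + 1) (2 * N + 1 - (k + 1))
    have e3 := fS_succ (2 * s + 1) (N - (k + 1))
    have e2' : 2 * N + 1 - k = 2 * N + 1 - (k + 1) + 1 := by omega
    have e3' : N - k = N - (k + 1) + 1 := by omega
    have hb : ((2 * N + 1 - (k + 1) : ℕ) : ℝ) + 1 = 2 * (N : ℝ) + 2 - ((k + 1 : ℕ) : ℝ) := by
      rw [Nat.cast_sub (by omega)]; push_cast; ring
    have hb2 : ((N - (k + 1) : ℕ) : ℝ) + 1 = (N : ℝ) + 1 - ((k + 1 : ℕ) : ℝ) := by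
      rw [Nat.cast_sub (by omega)]; push_cast; ring
    have hb4 : ((k : ℕ) : ℝ) + 1 = ((k + 1 : ℕ) : ℝ) := by push_cast; ring
    have s1 := em_sin_pos (s := s) (m := k + 1) (by omega) (by omega)
    have s2 := em_sin_pos (s := s) (m := N - (k + 1) + 1) (by omega) (by omega)
    have s3 := em_sin_pos (s := s) (m := 2 * N + 1 - (k + 1) + 1) (by omega) (by omega)
    rw [Nat.cast_add, Nat.cast_one, hb2] at s2
    rw [Nat.cast_add, Nat.cast_one, hb] at s3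
    rw [hb4] at e1
    rw [hb, ← e2'] at e2
    rw [hb2, ← e3'] at e3
    have hnorm : ‖((-16 * Real.sin (Real.pi * ((k + 1 : ℕ) : ℝ) / ((2 * s + 1 : ℕ) : ℝ)) *
        Real.sin (Real.pi * ((N : ℝ) + 1 - ((k + 1 : ℕ) : ℝ)) / ((2 * s + 1 : ℕ) : ℝ)) ^ 2 *
        Real.sin (Real.pi * (2 * (N : ℝ) + 2 - ((k + 1 : ℕ) : ℝ)) / ((2 * s + 1 : ℕ) : ℝ)) : ℝ) :
          ℂ)‖ = 16 * Real.sin (Real.pi * ((k + 1 : ℕ) : ℝ) / ((2 * s + 1 : ℕ) : ℝ)) *
        Real.sin (Real.pi * ((N : ℝ) + 1 - ((k + 1 : ℕ) : ℝ)) / ((2 * s + 1 : ℕ) : ℝ)) ^ 2 *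
        Real.sin (Real.pi * (2 * (N : ℝ) + 2 - ((k + 1 : ℕ) : ℝ)) / ((2 * s + 1 : ℕ) : ℝ)) := by
      rw [Complex.norm_real, Real.norm_eq_abs]
      rw [show (-16 * Real.sin (Real.pi * ((k + 1 : ℕ) : ℝ) / ((2 * s + 1 : ℕ) : ℝ)) *
        Real.sin (Real.pi * ((N : ℝ) + 1 - ((k + 1 : ℕ) : ℝ)) / ((2 * s + 1 : ℕ) : ℝ)) ^ 2 *
        Real.sin (Real.pi * (2 * (N : ℝ) + 2 - ((k + 1 : ℕ) : ℝ)) / ((2 * s + 1 : ℕ) : ℝ)) : ℝ) =
        -(16 * Real.sin (Real.pi * ((k + 1 : ℕ) : ℝ) / ((2 * s + 1 : ℕ) : ℝ)) *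
        Real.sin (Real.pi * ((N : ℝ) + 1 - ((k + 1 : ℕ) : ℝ)) / ((2 * s + 1 : ℕ) : ℝ)) ^ 2 *
        Real.sin (Real.pi * (2 * (N : ℝ) + 2 - ((k + 1 : ℕ) : ℝ)) / ((2 * s + 1 : ℕ) : ℝ))) by
          ring, abs_neg]
      apply abs_of_pos
      positivity
    rw [hnorm, e1, e2, e3]
    generalize Real.sin (Real.pi * ((k + 1 : ℕ) : ℝ) / ((2 * s + 1 : ℕ) : ℝ)) = A1 at s1 ⊢
    generalize Real.sin (Real.pi * ((N : ℝ) + 1 - ((k + 1 : ℕ) : ℝ)) / ((2 * s + 1 : ℕ) : ℝ)) =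
      A2 at s2 ⊢
    generalize Real.sin (Real.pi * (2 * (N : ℝ) + 2 - ((k + 1 : ℕ) : ℝ)) / ((2 * s + 1 : ℕ) : ℝ)) =
      A3 at s3 ⊢
    have s1' := s1.ne'
    have s2' := s2.ne'
    have s3' := s3.ne'
    field_simp
    ring

/-- the product of the parameters on the rest -/
theorem phi_rest {s N : ℕ} (hN : N ≤ 2 * s) {j k : ℕ} (hjk : j ≤ k) (hk : k ≤ N)
    (hc : cN s N ≤ (j : ℤ)) : 0 < bS (2 * s + 1) k j * bS (2 * s + 1) (2 * N + 1 - j) (k - j) ∧
    ‖∏ l ∈ Ioc j k, phi (tt s) N l‖ =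
      bS (2 * s + 1) k j * bS (2 * s + 1) (2 * N + 1 - j) (k - j) /
      (fS (2 * s + 1) (N - k) / (fS (2 * s + 1) (k - j) * fS (2 * s + 1) (N - j))) ^ 2 := by
  unfold cN at hc
  have hc' : 2 * N + 1 - j < 2 * s + 1 := by omega
  have f1 := fS_pos (n := 2 * s + 1) (m := j) (by omega)
  have f2 := fS_pos (n := 2 * s + 1) (m := k) (by omega)
  have f3 := fS_pos (n := 2 * s + 1) (m := 2 * N + 1 - j) (by omega)
  have f4 := fS_pos (n := 2 * s + 1) (m := 2 * N + 1 - k) (by omega)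
  have f5 := fS_pos (n := 2 * s + 1) (m := k - j) (by omega)
  have f6 := fS_pos (n := 2 * s + 1) (m := N - k) (by omega)
  have f7 := fS_pos (n := 2 * s + 1) (m := N - j) (by omega)
  have b1 : bS (2 * s + 1) k j = fS (2 * s + 1) k / (fS (2 * s + 1) j * fS (2 * s + 1) (k - j)) := by
    unfold bS
    rw [if_pos (by push_cast; omega)]
    congr 2
    have : ((k : ℤ) - (j : ℤ)).toNat = k - j := by omega
    rw [this]
  have b2 : bS (2 * s + 1) (2 * N + 1 - j) (k - j) =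
      fS (2 * s + 1) (2 * N + 1 - j) / (fS (2 * s + 1) (k - j) *
        fS (2 * s + 1) (2 * N + 1 - k)) := by
    unfold bS
    rw [if_pos (by push_cast; omega)]
    have t1 : (2 * (N : ℤ) + 1 - j).toNat = 2 * N + 1 - j := by omega
    have t2 : ((k : ℤ) - j).toNat = k - j := by omega
    have t3 : (2 * (N : ℤ) + 1 - j - ((k : ℤ) - j)).toNat = 2 * N + 1 - k := by omega
    rw [t1, t2, t3]
  refine ⟨?_, ?_⟩
  · rw [b1, b2]; positivity
  · rw [em_rest hN hjk hk hc', b1, b2]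
    field_simp

/-- the parameter with index `cN` vanishes -/
theorem phi_cN {s N : ℕ} (hN : N ≤ 2 * s) {j k : ℕ} (hk : k ≤ N) (hj : (j : ℤ) < cN s N)
    (hc : cN s N ≤ (k : ℤ)) : ∏ l ∈ Ioc j k, phi (tt s) N l = 0 := by
  unfold cN at hj hc
  have hmem : 2 * N + 1 - 2 * s ∈ Ioc j k := by
    rw [mem_Ioc]; omega
  apply Finset.prod_eq_zero hmem
  rw [phi_tt (by omega)]
  have hb : 2 * (N : ℝ) + 2 - ((2 * N + 1 - 2 * s : ℕ) : ℝ) = ((2 * s + 1 : ℕ) : ℝ) := by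
    rw [Nat.cast_sub (by omega)]; push_cast; ring
  rw [hb]
  have : Real.pi * ((2 * s + 1 : ℕ) : ℝ) / ((2 * s + 1 : ℕ) : ℝ) = Real.pi := by
    have : ((2 * s + 1 : ℕ) : ℝ) ≠ 0 := by positivity
    field_simp
  rw [this, Real.sin_pi]
  simp

end Pool.Agent.Work.MP_b30479_gt.AX
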