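import Pool.Agent.Work.MP_b30479_gt.AX.DefsB

/-!
# The limit integral is positive
-/

namespace Pool.Agent.Work.MP_b30479_gt.AX

open Finset TB Filter Topology MeasureTheory

theorem HGauss_star_exp (r θ : ℝ) :
    star (((r : ℝ) : ℂ) * Complex.exp (((θ : ℝ) : ℂ) * Complex.I)) =
      ((r : ℝ) : ℂ) * Complex.exp (-((θ : ℝ) : ℂ) * Complex.I) := by
  rw [Complex.star_def, map_mul, Complex.conj_ofReal, ← Complex.exp_conj, map_mul,
    Complex.conj_ofReal, Complex.conj_I]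
  congr 2
  ring

theorem HGauss_integrand (V X X' Y : ℝ) : gam V X Y * star (gam V X' Y) =
    Complex.exp (((-(2 * Real.pi / √3) : ℝ) : ℂ) * (Y : ℂ) ^ 2 +
      ((((Real.pi / √3) * (X + X') : ℝ) : ℂ) + ((Real.pi * (X - X') : ℝ) : ℂ) * Complex.I) * (Y : ℂ)
        + ((-(Real.pi / √3) * (X ^ 2 + X' ^ 2 + 2 * V ^ 2) : ℝ) : ℂ)) := by
  rw [gam, gam, HGauss_star_exp, Complex.ofReal_exp, Complex.ofReal_exp, ← Complex.exp_add,
    ← Complex.exp_add, ← Complex.exp_add]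
  congr 1
  push_cast
  ring

theorem gam_int (V X X' : ℝ) : ∫ Y : ℝ, gam V X Y * star (gam V X' Y) =
    ((√(√3 / 2) * Real.exp (-(Real.pi / (8 * √3)) * (10 * X ^ 2 + 10 * X' ^ 2 - 8 * X * X') -
      2 * Real.pi / √3 * V ^ 2) : ℝ) : ℂ) *
      Complex.exp (((Real.pi / 4 * (X ^ 2 - X' ^ 2) : ℝ) : ℂ) * Complex.I) := by
  have h3 : (0 : ℝ) < √3 := Real.sqrt_pos.mpr (by norm_num)
  have h33 : √3 * √3 = 3 := Real.mul_self_sqrt (by norm_num)
  have hpi := Real.pi_pos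
  simp_rw [HGauss_integrand]
  have hb : (((-(2 * Real.pi / √3) : ℝ) : ℂ)).re < 0 := by
    rw [Complex.ofReal_re]
    have : 0 < 2 * Real.pi / √3 := by positivity
    linarith
  rw [integral_cexp_quadratic hb]
  have e1 : ((Real.pi : ℂ) / -(((-(2 * Real.pi / √3) : ℝ) : ℂ))) ^ (1 / 2 : ℂ) =
      ((√(√3 / 2) : ℝ) : ℂ) := by
    have : ((Real.pi : ℂ) / -(((-(2 * Real.pi / √3) : ℝ) : ℂ))) = ((√3 / 2 : ℝ) : ℂ) := by
      rw [← Complex.ofReal_neg, ← Complex.ofReal_div]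
      congr 1
      field_simp
    rw [this, show (1 / 2 : ℂ) = (((1 / 2 : ℝ)) : ℂ) by push_cast; rfl,
      ← Complex.ofReal_cpow (by positivity), ← Real.sqrt_eq_rpow]
  rw [e1, Complex.ofReal_mul (√(√3 / 2)), Complex.ofReal_exp, mul_assoc, ← Complex.exp_add]
  congr 2
  have h3c : (((√3 : ℝ) : ℂ)) ≠ 0 := by exact_mod_cast h3.ne'
  have hpic : ((Real.pi : ℝ) : ℂ) ≠ 0 := by exact_mod_cast hpi.ne'
  have h33c : (((√3 : ℝ) : ℂ)) ^ 2 = 3 := by
    rw [sq, ← Complex.ofReal_mul, h33]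
    norm_num
  push_cast
  field_simp
  linear_combination (8 * (((X : ℝ) : ℂ) - ((X' : ℝ) : ℂ)) ^ 2 * (((√3 : ℝ) : ℂ)) ^ 2) * Complex.I_sq -
    8 * (((X : ℝ) : ℂ) - ((X' : ℝ) : ℂ)) ^ 2 * h33c

theorem GK_int_pos (K : ℕ) [NeZero K] (hi : Integrable (GK K)) :
    ∃ r : ℝ, 0 < r ∧ ∫ Z : EK K, GK K Z = (r : ℂ) := by
  set P : ℝ × (Fin K → ℝ) → ℝ := fun z => ∏ i, (√(√3 / 2) *
    Real.exp (-(Real.pi / (8 * √3)) * (10 * (z.2 i) ^ 2 + 10 * (z.2 (i + 1)) ^ 2 -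
      8 * (z.2 i) * (z.2 (i + 1))) - 2 * Real.pi / √3 * z.1 ^ 2)) with hP
  have h3 : (0 : ℝ) < √3 := Real.sqrt_pos.mpr (by norm_num)
  have hinner : ∀ z : ℝ × (Fin K → ℝ), ∫ Y : Fin K → ℝ, GK K (z, Y) = ((P z : ℝ) : ℂ) := by
    intro z
    have e1 : ∀ Y : Fin K → ℝ, GK K (z, Y) =
        ∏ i, (fun (i : Fin K) (y : ℝ) => gam z.1 (z.2 i) y * star (gam z.1 (z.2 (i + 1)) y)) i (Y i) :=
      fun Y => rfl
    rw [MeasureTheory.integral_congr_ae (Filter.Eventually.of_forall e1),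
      integral_fintype_prod_volume_eq_prod (f := fun (i : Fin K) (y : ℝ) =>
        gam z.1 (z.2 i) y * star (gam z.1 (z.2 (i + 1)) y))]
    simp_rw [gam_int]
    rw [Finset.prod_mul_distrib, ← Complex.exp_sum, ← Complex.ofReal_prod, ← Finset.sum_mul,
      ← Complex.ofReal_sum]
    have e2 : ∑ i : Fin K, Real.pi / 4 * ((z.2 i) ^ 2 - (z.2 (i + 1)) ^ 2) = 0 := by
      have e3 : ∑ i : Fin K, (z.2 (i + 1)) ^ 2 = ∑ i : Fin K, (z.2 i) ^ 2 :=
        Equiv.sum_comp (Equiv.addRight (1 : Fin K)) (fun i => (z.2 i) ^ 2)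
      rw [← Finset.mul_sum, Finset.sum_sub_distrib, e3, sub_self, mul_zero]
    rw [e2]
    simp [hP]
  have hv : (volume : Measure (EK K)) = (volume : Measure (ℝ × (Fin K → ℝ))).prod
    (volume : Measure (Fin K → ℝ)) := rfl
  have hi' : Integrable (GK K) ((volume : Measure (ℝ × (Fin K → ℝ))).prod
    (volume : Measure (Fin K → ℝ))) := hi
  have hPi : Integrable (fun z => ((P z : ℝ) : ℂ)) := by
    have := hi'.integral_prod_left
    refine this.congr (Filter.Eventually.of_forall (fun z => hinner z))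
  have hPr : Integrable P := by
    have := hPi.re
    simpa using this
  refine ⟨∫ z, P z, ?_, ?_⟩
  · have hpos : ∀ z, 0 < P z := by
      intro z
      exact Finset.prod_pos (fun i _ => by positivity)
    rw [integral_pos_iff_support_of_nonneg (fun z => (hpos z).le) hPr]
    have : Function.support P = Set.univ := by
      ext z
      simp [(hpos z).ne']
    rw [this]
    exact isOpen_univ.measure_pos _ Set.univ_nonempty
  · rw [hv, integral_prod _ hi']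
    simp_rw [hinner]
    exact integral_ofReal

end Pool.Agent.Work.MP_b30479_gt.AX
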