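import Pool.Agent.Work.MP_b30479_gt.AX.MDom
import Pool.Agent.Work.MP_b30479_gt.AX.CycTr

/-!
# The main blocks as one sum over lattice points
-/

namespace Pool.Agent.Work.MP_b30479_gt.AX

open Finset TB

/-- the entries of the main blocks, for integer indices -/
noncomputable def mainAZ (n ν : ℕ) (k j : ℤ) : ℂ :=
  ((√(bS n k j * bS n (k + 2 * ν) (j + 2 * ν)) : ℝ) : ℂ) *
    Complex.exp (((Real.pi * k * j / n : ℝ) : ℂ) * Complex.I)

theorem main_bS_ne {n : ℕ} {k j : ℤ} (h : bS n k j ≠ 0) : 0 ≤ j ∧ j ≤ k ∧ k < n := by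
  by_contra h'
  exact h (by unfold bS; rw [if_neg h'])

theorem mainAZ_ne {n ν : ℕ} {k j : ℤ} (h : mainAZ n ν k j ≠ 0) :
    0 ≤ j ∧ j ≤ k ∧ k + 2 * ν < n := by
  unfold mainAZ at h
  have h1 : bS n k j ≠ 0 := by
    intro h0
    apply h
    rw [h0]
    simp
  have h2 : bS n (k + 2 * ν) (j + 2 * ν) ≠ 0 := by
    intro h0
    apply h
    rw [h0]
    simp
  have h3 := main_bS_ne h1
  have h4 := main_bS_ne h2
  exact ⟨h3.1, h3.2.1, h4.2.2⟩

theorem main_Am {s ν : ℕ} (hν : ν ≤ s) (k j : Fin (2 * s - ν + 1)) :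
    Am s (2 * s - ν) k j = mainAZ (2 * s + 1) ν ((k : ℕ) : ℤ) ((j : ℕ) : ℤ) := by
  have h1 : ((2 * s - (2 * s - ν) : ℕ) : ℤ) = ν := by omega
  have hc : cN s (2 * s - ν) = 2 * s + 1 - 2 * ν := by
    unfold cN
    have : ((2 * s - ν : ℕ) : ℤ) = 2 * s - ν := by omega
    rw [this]
    ring
  by_cases h0 : mainAZ (2 * s + 1) ν ((k : ℕ) : ℤ) ((j : ℕ) : ℤ) = 0
  · rw [h0]
    unfold Am
    split_ifs
    · unfold mainAZ at h0
      rw [← h0]
      have h2 : (2 * ((2 * s : ℤ) - ((2 * s - ν : ℕ) : ℤ))) = 2 * ν := by omega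
      rw [h2]
      push_cast
      rfl
    · rfl
  · have h3 := mainAZ_ne h0
    unfold Am
    rw [if_pos]
    · unfold mainAZ
      have h2 : (2 * ((2 * s : ℤ) - ((2 * s - ν : ℕ) : ℤ))) = 2 * ν := by omega
      rw [h2]
      push_cast
      rfl
    · rw [hc]
      push_cast at h3
      omega

theorem main_mS {n : ℕ} (hb : 0 < b0 n) (ν : ℕ) (x y : ℤ) :
    mS n ν x y = ((b0 n : ℝ) : ℂ)⁻¹ *
      mainAZ n ν ((n : ℤ) - (n / 3 : ℕ) + x - ν) ((n / 3 : ℕ) + y - ν) *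
      Complex.exp (((Real.pi * (x * y - (((n : ℤ) - (n / 3 : ℕ) + x - ν : ℤ) : ℝ) *
        (((n / 3 : ℕ) + y - ν : ℤ) : ℝ)) / n : ℝ) : ℂ) * Complex.I) := by
  unfold mS mainAZ
  have h1 : √(beta n (x - ν) (y - ν) * beta n (x + ν) (y + ν)) =
      (b0 n)⁻¹ * √(bS n ((n : ℤ) - (n / 3 : ℕ) + x - ν) ((n / 3 : ℕ) + y - ν) *
        bS n ((n : ℤ) - (n / 3 : ℕ) + x - ν + 2 * ν) ((n / 3 : ℕ) + y - ν + 2 * ν)) := by
    unfold beta
    have e1 : (n : ℤ) - (n / 3 : ℕ) + (x - ν) = (n : ℤ) - (n / 3 : ℕ) + x - ν := by ring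
    have e2 : ((n / 3 : ℕ) : ℤ) + (y - ν) = (n / 3 : ℕ) + y - ν := by ring
    have e3 : (n : ℤ) - (n / 3 : ℕ) + (x + ν) = (n : ℤ) - (n / 3 : ℕ) + x - ν + 2 * ν := by ring
    have e4 : ((n / 3 : ℕ) : ℤ) + (y + ν) = (n / 3 : ℕ) + y - ν + 2 * ν := by ring
    rw [e1, e2, e3, e4, div_mul_div_comm, Real.sqrt_div (mul_nonneg (bS_nonneg _ _ _)
      (bS_nonneg _ _ _)), Real.sqrt_mul_self hb.le, div_eq_inv_mul]
  have h2 : Complex.exp (((Real.pi * x * y / n : ℝ) : ℂ) * Complex.I) =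
      Complex.exp (((Real.pi * (((n : ℤ) - (n / 3 : ℕ) + x - ν : ℤ) : ℝ) *
        (((n / 3 : ℕ) + y - ν : ℤ) : ℝ) / n : ℝ) : ℂ) * Complex.I) *
      Complex.exp (((Real.pi * (x * y - (((n : ℤ) - (n / 3 : ℕ) + x - ν : ℤ) : ℝ) *
        (((n / 3 : ℕ) + y - ν : ℤ) : ℝ)) / n : ℝ) : ℂ) * Complex.I) := by
    rw [← Complex.exp_add, ← add_mul, ← Complex.ofReal_add]
    congr 3
    ring
  rw [h1, h2, Complex.ofReal_mul, Complex.ofReal_inv]
  ring

theorem main_star_exp (r : ℝ) :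
    star (Complex.exp ((r : ℂ) * Complex.I)) = Complex.exp (((-r : ℝ) : ℂ) * Complex.I) := by
  rw [Complex.star_def, ← Complex.exp_conj, map_mul, Complex.conj_I, Complex.conj_ofReal]
  congr 1
  push_cast
  ring

theorem main_term {n : ℕ} (hb : 0 < b0 n) (ν K : ℕ) [NeZero K] (x y : Fin K → ℤ) :
    ((b0 n ^ (2 * K) : ℝ) : ℂ) * FS K n (((ν : ℤ), x), y) =
      ∏ i, mainAZ n ν ((n : ℤ) - (n / 3 : ℕ) + x i - ν) ((n / 3 : ℕ) + y i - ν) *
        star (mainAZ n ν ((n : ℤ) - (n / 3 : ℕ) + x (i + 1) - ν) ((n / 3 : ℕ) + y i - ν)) := by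
  unfold FS
  simp only
  have h1 : ∀ i : Fin K, mS n ν (x i) (y i) * star (mS n ν (x (i + 1)) (y i)) =
      (((b0 n ^ 2 : ℝ) : ℂ))⁻¹ *
      (mainAZ n ν ((n : ℤ) - (n / 3 : ℕ) + x i - ν) ((n / 3 : ℕ) + y i - ν) *
        star (mainAZ n ν ((n : ℤ) - (n / 3 : ℕ) + x (i + 1) - ν) ((n / 3 : ℕ) + y i - ν))) *
      Complex.exp ((((Real.pi * x i * (ν - (n / 3 : ℕ)) / n -
        Real.pi * x (i + 1) * (ν - (n / 3 : ℕ)) / n : ℝ)) : ℂ) * Complex.I) := by
    intro i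
    rw [main_mS hb, main_mS hb, star_mul', star_mul', main_star_exp]
    have e1 : star (((b0 n : ℝ) : ℂ)⁻¹) = ((b0 n : ℝ) : ℂ)⁻¹ := by
      rw [← Complex.ofReal_inv, Complex.star_def, Complex.conj_ofReal]
    rw [e1]
    have e2 : ∀ A B E F : ℂ, ((b0 n : ℝ) : ℂ)⁻¹ * A * E * (((b0 n : ℝ) : ℂ)⁻¹ * B * F) =
        (((b0 n ^ 2 : ℝ) : ℂ))⁻¹ * (A * B) * (E * F) := by
      intro A B E F
      rw [pow_two, Complex.ofReal_mul, mul_inv]
      ring
    rw [e2, ← Complex.exp_add, ← add_mul, ← Complex.ofReal_add]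
    congr 4
    generalize n / 3 = q
    push_cast
    ring
  rw [prod_congr rfl fun i _ => h1 i, prod_mul_distrib, prod_mul_distrib, prod_const,
    card_univ, Fintype.card_fin, ← Complex.exp_sum, ← sum_mul, ← Complex.ofReal_sum,
    sum_sub_distrib]
  have h2 : ∑ i : Fin K, Real.pi * x (i + 1) * (ν - (n / 3 : ℕ)) / n =
      ∑ i : Fin K, Real.pi * x i * (ν - (n / 3 : ℕ)) / n :=
    Equiv.sum_comp (Equiv.addRight (1 : Fin K))
      (fun i => Real.pi * (x i : ℝ) * (ν - (n / 3 : ℕ)) / n)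
  rw [h2, sub_self, Complex.ofReal_zero, zero_mul, Complex.exp_zero, mul_one]
  rw [← mul_assoc, pow_mul, Complex.ofReal_pow, ← mul_pow, mul_inv_cancel₀, one_pow, one_mul]
  exact Complex.ofReal_ne_zero.2 (by positivity)

theorem main_FS_ne {n : ℕ} {K : ℕ} [NeZero K] {v : ℤ} {x y : Fin K → ℤ}
    (h : FS K n ((v, x), y) ≠ 0) (i : Fin K) :
    0 ≤ (n / 3 : ℕ) + y i - v ∧ (n / 3 : ℕ) + y i - v ≤ (n : ℤ) - (n / 3 : ℕ) + x i - v ∧
      (n : ℤ) - (n / 3 : ℕ) + x i - v < n ∧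
    0 ≤ (n / 3 : ℕ) + y i + v ∧ (n / 3 : ℕ) + y i + v ≤ (n : ℤ) - (n / 3 : ℕ) + x i + v ∧
      (n : ℤ) - (n / 3 : ℕ) + x i + v < n := by
  unfold FS at h
  simp only at h
  have h1 := (prod_ne_zero_iff.1 h) i (mem_univ i)
  have h2 : mS n v (x i) (y i) ≠ 0 := left_ne_zero_of_mul h1
  unfold mS at h2
  have h3 : bS n ((n : ℤ) - (n / 3 : ℕ) + (x i - v)) ((n / 3 : ℕ) + (y i - v)) ≠ 0 := by
    intro h0
    apply h2
    unfold beta
    rw [h0]
    simp
  have h4 : bS n ((n : ℤ) - (n / 3 : ℕ) + (x i + v)) ((n / 3 : ℕ) + (y i + v)) ≠ 0 := by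
    intro h0
    apply h2
    unfold beta
    rw [h0]
    simp
  have h5 := main_bS_ne h3
  have h6 := main_bS_ne h4
  omega

theorem Am_trace {s ν : ℕ} (hs : 1 ≤ s) (hν : ν ≤ s) (K : ℕ) [NeZero K] :
    ((Am s (2 * s - ν) * (Am s (2 * s - ν)).conjTranspose) ^ K).trace =
      ((b0 (2 * s + 1) ^ (2 * K) : ℝ) : ℂ) *
        ∑' z : (Fin K → ℤ) × (Fin K → ℤ), FS K (2 * s + 1) ((ν, z.1), z.2) := by
  have hb : 0 < b0 (2 * s + 1) := b0_pos (by omega)
  set n := 2 * s + 1 with hn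
  set N := 2 * s - ν with hN
  set g : (Fin K → Fin (N + 1)) × (Fin K → Fin (N + 1)) → (Fin K → ℤ) × (Fin K → ℤ) := fun p =>
    (fun i => ((p.1 i : ℕ) : ℤ) + ν - ((n : ℤ) - (n / 3 : ℕ)),
      fun i => ((p.2 i : ℕ) : ℤ) + ν - (n / 3 : ℕ)) with hg
  have hginj : Function.Injective g := by
    rintro ⟨a, b⟩ ⟨a', b'⟩ h
    simp only [hg, Prod.mk.injEq] at h
    refine Prod.ext (funext fun i => ?_) (funext fun i => ?_)
    · have := congrFun h.1 i
      apply Fin.ext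
      simp only at this ⊢
      omega
    · have := congrFun h.2 i
      apply Fin.ext
      simp only at this ⊢
      omega
  have hsupp : Function.support (fun z : (Fin K → ℤ) × (Fin K → ℤ) =>
      FS K n (((ν : ℤ), z.1), z.2)) ⊆ Set.range g := by
    rintro ⟨x, y⟩ hz
    have h1 := fun i => main_FS_ne (v := (ν : ℤ)) (x := x) (y := y) hz i
    refine ⟨(fun i => ⟨((n : ℤ) - (n / 3 : ℕ) + x i - ν).toNat, ?_⟩,
      fun i => ⟨((n / 3 : ℕ) + y i - ν : ℤ).toNat, ?_⟩), ?_⟩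
    · have := h1 i
      omega
    · have := h1 i
      omega
    · simp only [hg]
      refine Prod.ext (funext fun i => ?_) (funext fun i => ?_)
      · have := h1 i
        simp only
        omega
      · have := h1 i
        simp only
        omega
  rw [← hginj.tsum_eq hsupp, tsum_fintype, Fintype.sum_prod_type, trace_mul_pow_cyc, mul_sum]
  refine sum_congr rfl fun k _ => ?_
  rw [mul_sum]
  refine sum_congr rfl fun j _ => ?_
  rw [main_term hb]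
  refine prod_congr rfl fun i _ => ?_
  rw [Matrix.conjTranspose_apply, main_Am hν, main_Am hν]
  have e1 : ∀ a : Fin (N + 1), (n : ℤ) - (n / 3 : ℕ) + (((a : ℕ) : ℤ) + ν -
      ((n : ℤ) - (n / 3 : ℕ))) - ν = ((a : ℕ) : ℤ) := fun a => by ring
  have e2 : ∀ a : Fin (N + 1), ((n / 3 : ℕ) : ℤ) + (((a : ℕ) : ℤ) + ν - (n / 3 : ℕ)) - ν =
      ((a : ℕ) : ℤ) := fun a => by ring
  simp only [hg]
  rw [e1, e1, e2]

theorem Am_zero {s N : ℕ} (hN : N < s) : Am s N = 0 := by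
  ext k j
  unfold Am
  rw [if_neg, Matrix.zero_apply]
  unfold cN
  omega

theorem FS_neg (K : ℕ) [NeZero K] (n : ℕ) (v : ℤ) (x y : Fin K → ℤ) :
    FS K n ((-v, x), y) = FS K n ((v, x), y) := by
  have h : ∀ a b : ℤ, mS n (-v) a b = mS n v a b := by
    intro a b
    unfold mS
    rw [sub_neg_eq_add, sub_neg_eq_add, ← sub_eq_add_neg, ← sub_eq_add_neg,
      mul_comm (beta n (a + v) (b + v))]
  unfold FS
  simp only [h]

theorem FS_large (K : ℕ) [NeZero K] {s : ℕ} {v : ℤ} (hv : (s : ℤ) < |v|) (x y : Fin K → ℤ) :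
    FS K (2 * s + 1) ((v, x), y) = 0 := by
  by_contra h
  have h1 := main_FS_ne h 0
  rcases abs_cases v with h2 | h2 <;> omega

theorem main_total {s : ℕ} (hs : 1 ≤ s) (K : ℕ) [NeZero K] :
    ((Am s (2 * s) * (Am s (2 * s)).conjTranspose) ^ K).trace +
      2 * ∑ N ∈ range (2 * s), ((Am s N * (Am s N).conjTranspose) ^ K).trace =
      ((b0 (2 * s + 1) ^ (2 * K) : ℝ) : ℂ) * ∑' z : ZK K, FS K (2 * s + 1) z := by
  set n := 2 * s + 1 with hn
  set t : ℕ → ℂ := fun N => ((Am s N * (Am s N).conjTranspose) ^ K).trace with ht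
  set T : ℤ → ℂ := fun v => ∑' z : (Fin K → ℤ) × (Fin K → ℤ), FS K n ((v, z.1), z.2) with hT
  have hK : K ≠ 0 := NeZero.ne K
  -- the left hand side
  have hL : ∑ N ∈ range (2 * s), t N = ∑ j ∈ range s, t (2 * s - (j + 1)) := by
    rw [← sum_range_reflect]
    symm
    have h1 : ∀ j, 2 * s - 1 - j = 2 * s - (j + 1) := fun j => by omega
    simp only [h1]
    apply sum_subset
    · intro j hj
      rw [mem_range] at *
      omega
    · intro j hj hj'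
      rw [mem_range] at *
      simp only [ht]
      rw [Am_zero (by omega), zero_mul, zero_pow hK, Matrix.trace_zero]
  have htr : ∀ ν ≤ s, t (2 * s - ν) = ((b0 n ^ (2 * K) : ℝ) : ℂ) * T ν := fun ν hν =>
    Am_trace hs hν K
  have ht0 : t (2 * s) = ((b0 n ^ (2 * K) : ℝ) : ℂ) * T 0 := by
    have := htr 0 (by omega)
    rw [Nat.sub_zero] at this
    exact_mod_cast this
  -- the right hand side
  have hsum : Summable (FS K n) := summable_of_hasFiniteSupport (FS_fin K n)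
  have hprod : ∑' z : ZK K, FS K n z = ∑' v : ℤ, T v := by
    have h1 : Summable (fun p : ℤ × ((Fin K → ℤ) × (Fin K → ℤ)) => FS K n ((p.1, p.2.1), p.2.2)) :=
      (Equiv.prodAssoc ℤ (Fin K → ℤ) (Fin K → ℤ)).symm.summable_iff.2 hsum
    rw [← (Equiv.prodAssoc ℤ (Fin K → ℤ) (Fin K → ℤ)).symm.tsum_eq]
    exact h1.tsum_prod
  have hTneg : ∀ v : ℤ, T (-v) = T v := fun v => by
    simp only [hT, FS_neg]
  have hTlarge : ∀ v : ℤ, (s : ℤ) < |v| → T v = 0 := fun v hv => by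
    simp only [hT]
    have : ∀ z : (Fin K → ℤ) × (Fin K → ℤ), FS K n ((v, z.1), z.2) = 0 := fun z =>
      FS_large K hv z.1 z.2
    simp only [this, tsum_zero]
  have hfin1 : ∀ m : ℕ, m ∉ range s → T ((m : ℤ) + 1) = 0 := by
    intro m hm
    rw [mem_range] at hm
    apply hTlarge
    rw [abs_of_nonneg (by omega)]
    omega
  have hS1 : Summable fun m : ℕ => T ((m : ℤ) + 1) := summable_of_ne_finset_zero (s := range s) hfin1
  have hS0 : Summable fun m : ℕ => T (m : ℤ) := by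
    have : Summable fun m : ℕ => T (((m + 1 : ℕ) : ℤ)) := by
      simpa using hS1
    exact (summable_nat_add_iff (f := fun m : ℕ => T (m : ℤ)) 1).1 this
  have hR : ∑' v : ℤ, T v = T 0 + 2 * ∑ j ∈ range s, T ((j : ℤ) + 1) := by
    have h1 : ∑' m : ℕ, T ((m : ℤ) + 1) = ∑ j ∈ range s, T ((j : ℤ) + 1) :=
      tsum_eq_sum fun m hm => hfin1 m hm
    have h2 : ∑' m : ℕ, T (m : ℤ) = T 0 + ∑' m : ℕ, T ((m : ℤ) + 1) := by
      rw [hS0.tsum_eq_zero_add]
      push_cast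
      rfl
    have hSneg : Summable fun m : ℕ => T (-((m : ℤ) + 1)) := by
      simpa only [hTneg] using hS1
    rw [tsum_of_nat_of_neg_add_one hS0 hSneg, h2]
    simp only [hTneg]
    rw [h1]
    ring
  have hgoal : t (2 * s) + 2 * ∑ N ∈ range (2 * s), t N =
      ((b0 n ^ (2 * K) : ℝ) : ℂ) * ∑' z : ZK K, FS K n z := by
    rw [hprod, hR, hL, ht0, mul_add, mul_left_comm _ (2 : ℂ)]
    congr 2
    rw [mul_sum]
    refine sum_congr rfl fun j hj => ?_
    rw [mem_range] at hj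
    have := htr (j + 1) (by omega)
    rw [this]
    push_cast
    rfl
  exact hgoal

end Pool.Agent.Work.MP_b30479_gt.AX
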