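import Pool.Agent.Work.MP_b30479_gt.AX.SinP
import Pool.Agent.Work.MP_b30479_gt.TB.Lob
import Pool.Agent.Work.MP_b30479_gt.TwoBridgeAlt

/-!
# Growth of the maximal value
-/

namespace Pool.Agent.Work.MP_b30479_gt.AX

open Finset TB Filter Topology Pool.Agent.Work.MP_b30479_gt.Lob

/-- `x cot x` -/
noncomputable def peak_phi (x : ℝ) : ℝ := x * (Real.cos x / Real.sin x)

/-- the antiderivative of `x cot x` -/
noncomputable def peak_Phi (x : ℝ) : ℝ := x * ff x - LF x

theorem peak_phi_deriv {x : ℝ} (h0 : 0 < x) (h1 : x < Real.pi) :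
    HasDerivAt peak_phi ((Real.cos x * Real.sin x - x) / Real.sin x ^ 2) x := by
  have hs : Real.sin x ≠ 0 := (Real.sin_pos_of_pos_of_lt_pi h0 h1).ne'
  have h := (hasDerivAt_id x).mul ((Real.hasDerivAt_cos x).div (Real.hasDerivAt_sin x) hs)
  have e : (Real.cos x * Real.sin x - x) / Real.sin x ^ 2 =
      1 * (Real.cos x / Real.sin x) + id x * ((-Real.sin x * Real.sin x -
        Real.cos x * Real.cos x) / Real.sin x ^ 2) := by
    have h2 := Real.sin_sq_add_cos_sq x
    have h3 : -Real.sin x * Real.sin x - Real.cos x * Real.cos x = -1 := by nlinarith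
    rw [h3]
    simp only [id]
    field_simp
    ring
  rw [e]
  exact h

theorem peak_phi_anti : AntitoneOn peak_phi (Set.Ioo 0 Real.pi) := by
  apply antitoneOn_of_deriv_nonpos (convex_Ioo _ _)
  · intro x hx
    exact (peak_phi_deriv hx.1 hx.2).continuousAt.continuousWithinAt
  · rw [interior_Ioo]
    intro x hx
    exact (peak_phi_deriv hx.1 hx.2).differentiableAt.differentiableWithinAt
  · rw [interior_Ioo]
    intro x hx
    rw [(peak_phi_deriv hx.1 hx.2).deriv]
    apply div_nonpos_of_nonpos_of_nonneg _ (by positivity)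
    have h1 : Real.sin (2 * x) ≤ 2 * x := Real.sin_le (by linarith [hx.1])
    rw [Real.sin_two_mul] at h1
    nlinarith

theorem peak_ff_deriv {x : ℝ} (h0 : 0 < x) (h1 : x < Real.pi) :
    HasDerivAt ff (Real.cos x / Real.sin x) x := by
  have hs : 0 < Real.sin x := Real.sin_pos_of_pos_of_lt_pi h0 h1
  have h := ((Real.hasDerivAt_sin x).const_mul 2).log (by positivity)
  have e : Real.cos x / Real.sin x = 2 * Real.cos x / (2 * Real.sin x) := by
    rw [mul_div_mul_left _ _ two_ne_zero]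
  rw [e]
  exact h

theorem peak_LF_deriv {x : ℝ} (h0 : 0 < x) (h1 : x < Real.pi) : HasDerivAt LF (ff x) x := by
  have hm : Measurable ff := by
    unfold ff
    fun_prop
  exact intervalIntegral.integral_hasDerivAt_right (ii 0 x)
    (hm.stronglyMeasurable.stronglyMeasurableAtFilter) (peak_ff_deriv h0 h1).continuousAt

theorem peak_Phi_deriv {x : ℝ} (h0 : 0 < x) (h1 : x < Real.pi) :
    HasDerivAt peak_Phi (peak_phi x) x := by
  have h := ((hasDerivAt_id x).mul (peak_ff_deriv h0 h1)).sub (peak_LF_deriv h0 h1)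
  have e : peak_phi x = 1 * ff x + id x * (Real.cos x / Real.sin x) - ff x := by
    simp [peak_phi]
  rw [e]
  exact h

theorem peak_between {a b : ℝ} (h0 : 0 < a) (hab : a < b) (hb : b < Real.pi) :
    peak_phi b * (b - a) ≤ peak_Phi b - peak_Phi a ∧
      peak_Phi b - peak_Phi a ≤ peak_phi a * (b - a) := by
  obtain ⟨c, hc, hc2⟩ := exists_hasDerivAt_eq_slope peak_Phi peak_phi hab
    (fun x hx => (peak_Phi_deriv (by linarith [hx.1]) (by linarith [hx.2])).continuousAt.continuousWithinAt)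
    (fun x hx => peak_Phi_deriv (by linarith [hx.1]) (by linarith [hx.2]))
  have hba : 0 < b - a := by linarith
  rw [eq_div_iff hba.ne'] at hc2
  have ha' : a ∈ Set.Ioo 0 Real.pi := ⟨h0, by linarith⟩
  have hb' : b ∈ Set.Ioo 0 Real.pi := ⟨by linarith, hb⟩
  have hc' : c ∈ Set.Ioo 0 Real.pi := ⟨by linarith [hc.1], by linarith [hc.2]⟩
  rw [← hc2]
  exact ⟨mul_le_mul_of_nonneg_right (peak_phi_anti hc' hb' hc.2.le) hba.le,
    mul_le_mul_of_nonneg_right (peak_phi_anti ha' hc' hc.1.le) hba.le⟩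

theorem peak_lower {x : ℝ} (hx : 0 < x) (m : ℕ) (h : ((m : ℝ) + 1) * x < Real.pi) :
    peak_Phi ((m + 1) * x) - peak_Phi x ≤ x * ∑ j ∈ range m, peak_phi ((j + 1) * x) := by
  induction m with
  | zero => simp
  | succ m ih =>
    have h2 : ((m : ℝ) + 1) * x < Real.pi := by
      push_cast at h
      nlinarith
    have h3 := ih h2
    have h4 := (peak_between (a := ((m : ℝ) + 1) * x) (b := ((m : ℝ) + 1 + 1) * x) (by positivity)
      (by nlinarith) (by push_cast at h; exact h)).2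
    rw [sum_range_succ, mul_add]
    push_cast
    have e : ((m : ℝ) + 1 + 1) * x - ((m : ℝ) + 1) * x = x := by ring
    rw [e] at h4
    linarith

theorem peak_upper {x : ℝ} (hx : 0 < x) (hx2 : x < Real.pi / 2) (m : ℕ)
    (h : ((m : ℝ) + 1) * x < Real.pi) :
    x * ∑ j ∈ range (m + 1), peak_phi ((j + 1) * x) ≤
      peak_Phi ((m + 1) * x) - peak_Phi x + x := by
  induction m with
  | zero =>
    have h1 := Real.le_tan hx.le hx2
    have hs : 0 < Real.sin x := Real.sin_pos_of_pos_of_lt_pi hx (by linarith)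
    have hc : 0 < Real.cos x := Real.cos_pos_of_mem_Ioo ⟨by linarith, by linarith⟩
    have h2 : peak_phi x ≤ 1 := by
      unfold peak_phi
      rw [Real.tan_eq_sin_div_cos, le_div_iff₀ hc] at h1
      rw [← mul_div_assoc, div_le_one hs]
      exact h1
    have h3 : x * peak_phi x ≤ x * 1 := mul_le_mul_of_nonneg_left h2 hx.le
    simp only [zero_add, range_one, sum_singleton, CharP.cast_eq_zero, one_mul, sub_self]
    linarith
  | succ m ih =>
    have h2 : ((m : ℝ) + 1) * x < Real.pi := by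
      push_cast at h
      nlinarith
    have h3 := ih h2
    have h4 := (peak_between (a := ((m : ℝ) + 1) * x) (b := ((m : ℝ) + 1 + 1) * x) (by positivity)
      (by nlinarith) (by push_cast at h; exact h)).1
    rw [sum_range_succ, mul_add]
    push_cast
    have e : ((m : ℝ) + 1 + 1) * x - ((m : ℝ) + 1) * x = x := by ring
    rw [e] at h4
    linarith

theorem peak_log_fS {n m : ℕ} (h : m < n) :
    Real.log (fS n m) = ∑ j ∈ range m, ff (((j : ℝ) + 1) * (Real.pi / n)) := by
  unfold fS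
  rw [Real.log_prod]
  · refine sum_congr rfl fun j _ => ?_
    unfold ff
    congr 3
    ring
  · intro j hj
    have hj' : (j : ℝ) + 1 < n := by
      have := mem_range.1 hj
      exact_mod_cast (by omega : j + 1 < n)
    have hn : (0 : ℝ) < n := by linarith [(Nat.cast_nonneg j : (0 : ℝ) ≤ j)]
    have : 0 < Real.sin (Real.pi * ((j : ℝ) + 1) / n) := by
      apply Real.sin_pos_of_pos_of_lt_pi
      · have := Real.pi_pos
        positivity
      · rw [div_lt_iff₀ hn]
        exact mul_lt_mul_of_pos_left hj' Real.pi_pos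
    positivity

/-- the mean value theorem in the step `π/n` -/
theorem peak_mvt {n m : ℕ} (h : m + 1 < n) : ∃ x : ℝ, Real.pi / (n + 2) < x ∧ x < Real.pi / n ∧
    Real.log (fS (n + 2) m) - Real.log (fS n m) =
      -(2 * Real.pi / (n * (n + 2) * x ^ 2)) *
        (x * ∑ j ∈ range m, peak_phi (((j : ℝ) + 1) * x)) := by
  have hn : (0 : ℝ) < n := by exact_mod_cast (by omega : 0 < n)
  have hpi := Real.pi_pos
  have hlt : Real.pi / ((n : ℝ) + 2) < Real.pi / n :=
    div_lt_div_of_pos_left hpi hn (by linarith)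
  have hpos : 0 < Real.pi / ((n : ℝ) + 2) := by positivity
  have hd : ∀ x : ℝ, 0 < x → x ≤ Real.pi / n →
      HasDerivAt (fun y : ℝ => ∑ j ∈ range m, ff (((j : ℝ) + 1) * y))
        (∑ j ∈ range m, ((j : ℝ) + 1) *
          (Real.cos (((j : ℝ) + 1) * x) / Real.sin (((j : ℝ) + 1) * x))) x := by
    intro x hx hx2
    refine HasDerivAt.fun_sum fun j hj => ?_
    have hj' : (j : ℝ) + 1 < n := by
      have := mem_range.1 hj
      exact_mod_cast (by omega : j + 1 < n)
    have hj0 : (0 : ℝ) < (j : ℝ) + 1 := by positivity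
    have hlt2 : ((j : ℝ) + 1) * x < Real.pi := by
      calc ((j : ℝ) + 1) * x < n * x := mul_lt_mul_of_pos_right hj' hx
        _ ≤ n * (Real.pi / n) := mul_le_mul_of_nonneg_left hx2 hn.le
        _ = Real.pi := by field_simp
    have h1 := peak_ff_deriv (mul_pos hj0 hx) hlt2
    have h2 : HasDerivAt (fun y : ℝ => ((j : ℝ) + 1) * y) ((j : ℝ) + 1) x := by
      simpa using (hasDerivAt_id x).const_mul ((j : ℝ) + 1)
    have h3 := h1.comp x h2
    rw [mul_comm] at h3
    exact h3
  obtain ⟨c, hc, hc2⟩ := exists_hasDerivAt_eq_slope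
    (fun y : ℝ => ∑ j ∈ range m, ff (((j : ℝ) + 1) * y)) _ hlt
    (fun x hx => (hd x (by linarith [hx.1]) hx.2).continuousAt.continuousWithinAt)
    (fun x hx => hd x (by linarith [hx.1]) hx.2.le)
  refine ⟨c, hc.1, hc.2, ?_⟩
  have hc0 : 0 < c := by linarith [hc.1]
  have e2 : ((n + 2 : ℕ) : ℝ) = (n : ℝ) + 2 := by push_cast; ring
  rw [peak_log_fS (by omega : m < n + 2), peak_log_fS (by omega : m < n), e2]
  have hba : 0 < Real.pi / n - Real.pi / ((n : ℝ) + 2) := by linarith
  rw [eq_div_iff hba.ne'] at hc2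
  have e3 : ∑ j ∈ range m, peak_phi (((j : ℝ) + 1) * c) =
      c * ∑ j ∈ range m, ((j : ℝ) + 1) *
          (Real.cos (((j : ℝ) + 1) * c) / Real.sin (((j : ℝ) + 1) * c)) := by
    rw [mul_sum]
    refine sum_congr rfl fun j _ => ?_
    unfold peak_phi
    ring
  rw [e3]
  have e4 : ∑ j ∈ range m, ff (((j : ℝ) + 1) * (Real.pi / ((n : ℝ) + 2))) -
      ∑ j ∈ range m, ff (((j : ℝ) + 1) * (Real.pi / n)) =
      -((∑ j ∈ range m, ((j : ℝ) + 1) *
          (Real.cos (((j : ℝ) + 1) * c) / Real.sin (((j : ℝ) + 1) * c))) *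
        (Real.pi / n - Real.pi / ((n : ℝ) + 2))) := by
    rw [hc2]
    ring
  rw [e4]
  generalize (∑ j ∈ range m, ((j : ℝ) + 1) *
          (Real.cos (((j : ℝ) + 1) * c) / Real.sin (((j : ℝ) + 1) * c))) = S
  field_simp
  ring

theorem peak_Phi_zero : Tendsto peak_Phi (𝓝[>] 0) (𝓝 0) := by
  have h1 : Tendsto LF (𝓝[>] 0) (𝓝 0) := by
    have hc : ContinuousAt LF 0 := by
      unfold LF
      exact (intervalIntegral.continuous_primitive (fun a b => ii a b) 0).continuousAt
    have := hc.tendsto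
    rw [LF_zero] at this
    exact this.mono_left nhdsWithin_le_nhds
  have h2 : Tendsto (fun x : ℝ => x * ff x) (𝓝[>] 0) (𝓝 0) := by
    have hl : Tendsto (fun x : ℝ => x * Real.log x) (𝓝[>] 0) (𝓝 0) := by
      have := Real.continuous_mul_log.continuousAt (x := 0) |>.tendsto
      simp only [Real.log_zero, mul_zero] at this
      exact this.mono_left nhdsWithin_le_nhds
    have hid : Tendsto (fun x : ℝ => x) (𝓝[>] 0) (𝓝 0) :=
      (continuous_id.tendsto 0).mono_left nhdsWithin_le_nhds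
    have hu : Tendsto (fun x : ℝ => x * Real.log 2 + x * Real.log x) (𝓝[>] 0) (𝓝 0) := by
      simpa using (hid.mul_const (Real.log 2)).add hl
    have hev : ∀ᶠ x : ℝ in 𝓝[>] 0, 0 < x ∧ x < Real.pi / 2 := by
      have : Set.Ioo (0 : ℝ) (Real.pi / 2) ∈ 𝓝[>] (0 : ℝ) :=
        Ioo_mem_nhdsGT (by have := Real.pi_pos; positivity)
      exact this
    refine tendsto_of_tendsto_of_tendsto_of_le_of_le' hl hu ?_ ?_
    · filter_upwards [hev] with x hx
      apply mul_le_mul_of_nonneg_left _ hx.1.le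
      unfold ff
      apply Real.log_le_log hx.1
      have h3 := Real.mul_le_sin hx.1.le hx.2.le
      have h4 : 2 / Real.pi * x * 2 ≥ x := by
        have h5 : (1 : ℝ) ≤ 2 / Real.pi * 2 := by
          rw [div_mul_eq_mul_div, le_div_iff₀ Real.pi_pos]
          linarith [Real.pi_le_four]
        nlinarith [hx.1]
      linarith
    · filter_upwards [hev] with x hx
      have h3 := Real.sin_le hx.1.le
      have hs : 0 < Real.sin x := Real.sin_pos_of_pos_of_lt_pi hx.1 (by linarith [hx.2])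
      have h4 : ff x ≤ Real.log 2 + Real.log x := by
        unfold ff
        rw [Real.log_mul two_ne_zero hs.ne']
        have := Real.log_le_log hs h3
        linarith
      have := mul_le_mul_of_nonneg_left h4 hx.1.le
      linarith
  have := h2.sub h1
  rw [sub_zero] at this
  exact this

theorem peak_diff {ρ C : ℝ} (h0 : 0 < ρ) (h1 : ρ < 1) {m : ℕ → ℕ}
    (hm : ∀ n, |(m n : ℝ) - ρ * n| ≤ C) :
    Tendsto (fun n : ℕ => Real.log (fS (n + 2) (m n)) - Real.log (fS n (m n))) atTop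
      (𝓝 (2 / Real.pi * LF (Real.pi * ρ) - 2 * ρ * ff (Real.pi * ρ))) := by
  have hpi := Real.pi_pos
  have hn_top : Tendsto (fun n : ℕ => (n : ℝ)) atTop atTop := tendsto_natCast_atTop_atTop
  have hinv : Tendsto (fun n : ℕ => ((n : ℝ))⁻¹) atTop (𝓝 0) := tendsto_inv_atTop_zero.comp hn_top
  -- `m n / n → ρ`
  have hmn : Tendsto (fun n : ℕ => (m n : ℝ) / n) atTop (𝓝 ρ) := by
    rw [tendsto_iff_dist_tendsto_zero]
    have hC : Tendsto (fun n : ℕ => C * ((n : ℝ))⁻¹) atTop (𝓝 0) := by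
      simpa using hinv.const_mul C
    refine squeeze_zero' (Eventually.of_forall fun _ => dist_nonneg) ?_ hC
    filter_upwards [eventually_gt_atTop 0] with n hn
    have hn' : (0 : ℝ) < n := by exact_mod_cast hn
    rw [Real.dist_eq]
    have e : (m n : ℝ) / n - ρ = ((m n : ℝ) - ρ * n) * ((n : ℝ))⁻¹ := by field_simp
    rw [e, abs_mul, abs_of_pos (inv_pos.2 hn')]
    exact mul_le_mul_of_nonneg_right (hm n) (inv_pos.2 hn').le
  have hm1 : Tendsto (fun n : ℕ => ((m n : ℝ) + 1) / n) atTop (𝓝 ρ) := by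
    have := hmn.add hinv
    rw [add_zero] at this
    refine this.congr fun n => ?_
    rw [add_div, one_div]
  have hbig : ∀ᶠ n : ℕ in atTop, m n + 1 < n ∧ 1 ≤ m n ∧ 3 ≤ n := by
    have a1 : ∀ᶠ n : ℕ in atTop, ((m n : ℝ) + 1) / n < 1 := hm1.eventually_lt_const h1
    have a2 : ∀ᶠ n : ℕ in atTop, 0 < (m n : ℝ) / n := hmn.eventually_const_lt h0
    filter_upwards [a1, a2, eventually_ge_atTop 3] with n b1 b2 b3
    have hn' : (0 : ℝ) < n := by exact_mod_cast (by omega : 0 < n)
    rw [div_lt_one hn'] at b1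
    have b4 : m n ≠ 0 := by
      intro h
      rw [h] at b2
      simp at b2
    exact ⟨by exact_mod_cast b1, by omega, b3⟩
  obtain ⟨x, hx⟩ := (hbig.mono fun n hn => peak_mvt hn.1).choice
  have hnx : Tendsto (fun n : ℕ => (n : ℝ) * x n) atTop (𝓝 Real.pi) := by
    have hl : Tendsto (fun n : ℕ => Real.pi / (1 + 2 * ((n : ℝ))⁻¹)) atTop (𝓝 Real.pi) := by
      have : Tendsto (fun n : ℕ => Real.pi / (1 + 2 * ((n : ℝ))⁻¹)) atTop
          (𝓝 (Real.pi / (1 + 2 * 0))) := (tendsto_const_nhds (x := Real.pi)).div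
        ((tendsto_const_nhds (x := (1 : ℝ))).add (hinv.const_mul 2)) (by norm_num)
      simpa using this
    refine tendsto_of_tendsto_of_tendsto_of_le_of_le' hl tendsto_const_nhds ?_ ?_
    · filter_upwards [hx, eventually_gt_atTop 0] with n hn hn0
      have hn' : (0 : ℝ) < n := by exact_mod_cast hn0
      have : Real.pi / (1 + 2 * ((n : ℝ))⁻¹) = n * (Real.pi / (n + 2)) := by
        field_simp
      rw [this]
      exact mul_le_mul_of_nonneg_left hn.1.le hn'.le
    · filter_upwards [hx, eventually_gt_atTop 0] with n hn hn0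
      have hn' : (0 : ℝ) < n := by exact_mod_cast hn0
      have h := mul_le_mul_of_nonneg_left hn.2.1.le hn'.le
      rwa [mul_div_cancel₀ _ hn'.ne'] at h
  have hx0 : Tendsto x atTop (𝓝[>] 0) := by
    rw [tendsto_nhdsWithin_iff]
    constructor
    · have := hnx.mul hinv
      rw [mul_zero] at this
      refine this.congr' ?_
      filter_upwards [eventually_gt_atTop 0] with n hn0
      have hn' : (0 : ℝ) < n := by exact_mod_cast hn0
      field_simp
    · filter_upwards [hx] with n hn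
      exact lt_trans (by positivity) hn.1
  have hmx : Tendsto (fun n : ℕ => (m n : ℝ) * x n) atTop (𝓝 (Real.pi * ρ)) := by
    have := hmn.mul hnx
    rw [mul_comm ρ] at this
    refine this.congr' ?_
    filter_upwards [eventually_gt_atTop 0] with n hn0
    have hn' : (0 : ℝ) < n := by exact_mod_cast hn0
    field_simp
  have hmx1 : Tendsto (fun n : ℕ => ((m n : ℝ) + 1) * x n) atTop (𝓝 (Real.pi * ρ)) := by
    have := hm1.mul hnx
    rw [mul_comm ρ] at this
    refine this.congr' ?_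
    filter_upwards [eventually_gt_atTop 0] with n hn0
    have hn' : (0 : ℝ) < n := by exact_mod_cast hn0
    field_simp
  have hρ1 : Real.pi * ρ < Real.pi := by nlinarith
  have hcont : ContinuousAt peak_Phi (Real.pi * ρ) :=
    (peak_Phi_deriv (by positivity) hρ1).continuousAt
  have hP0 := peak_Phi_zero.comp hx0
  have hxz : Tendsto x atTop (𝓝 0) := hx0.mono_right nhdsWithin_le_nhds
  -- the Riemann sum
  have hT : Tendsto (fun n : ℕ => x n * ∑ j ∈ range (m n), peak_phi (((j : ℝ) + 1) * x n)) atTop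
      (𝓝 (peak_Phi (Real.pi * ρ))) := by
    have hl : Tendsto (fun n : ℕ => peak_Phi (((m n : ℝ) + 1) * x n) - peak_Phi (x n)) atTop
        (𝓝 (peak_Phi (Real.pi * ρ))) := by
      have := (hcont.tendsto.comp hmx1).sub hP0
      rw [sub_zero] at this
      exact this
    have hu : Tendsto (fun n : ℕ => peak_Phi ((m n : ℝ) * x n) - peak_Phi (x n) + x n) atTop
        (𝓝 (peak_Phi (Real.pi * ρ))) := by
      have := ((hcont.tendsto.comp hmx).sub hP0).add hxz
      rw [sub_zero, add_zero] at this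
      exact this
    have hbound : ∀ᶠ n : ℕ in atTop, 0 < x n ∧ x n < Real.pi / 2 ∧
        ((m n : ℝ) + 1) * x n < Real.pi := by
      filter_upwards [hx, hbig] with n hn hb
      have hn' : (0 : ℝ) < n := by exact_mod_cast (by omega : 0 < n)
      have hx1 : 0 < x n := lt_trans (by positivity) hn.1
      refine ⟨hx1, ?_, ?_⟩
      · refine lt_of_lt_of_le hn.2.1 ?_
        apply div_le_div_of_nonneg_left hpi.le two_pos
        exact_mod_cast (by omega : 2 ≤ n)
      · have h2 : ((m n : ℝ) + 1) < n := by exact_mod_cast hb.1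
        calc ((m n : ℝ) + 1) * x n < n * x n := mul_lt_mul_of_pos_right h2 hx1
          _ ≤ n * (Real.pi / n) := mul_le_mul_of_nonneg_left hn.2.1.le hn'.le
          _ = Real.pi := by field_simp
    refine tendsto_of_tendsto_of_tendsto_of_le_of_le' hl hu ?_ ?_
    · filter_upwards [hbound] with n hn
      exact peak_lower hn.1 _ hn.2.2
    · filter_upwards [hbound, hbig] with n hn hb
      obtain ⟨k, hk⟩ : ∃ k, m n = k + 1 := ⟨m n - 1, by omega⟩
      have h2 := hn.2.2
      have h3 := peak_upper hn.1 hn.2.1 k (by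
        rw [hk] at h2
        push_cast at h2
        nlinarith [hn.1])
      rw [hk]
      push_cast
      exact h3
  have hcoef : Tendsto (fun n : ℕ => 2 * Real.pi / (n * ((n : ℝ) + 2) * x n ^ 2)) atTop
      (𝓝 (2 / Real.pi)) := by
    have hd : Tendsto (fun n : ℕ => ((n : ℝ) * x n) ^ 2 * (1 + 2 * ((n : ℝ))⁻¹)) atTop
        (𝓝 (Real.pi ^ 2)) := by
      have := (hnx.pow 2).mul ((tendsto_const_nhds (x := (1 : ℝ))).add (hinv.const_mul 2))
      simpa using this
    have h : Tendsto (fun n : ℕ => 2 * Real.pi / (((n : ℝ) * x n) ^ 2 * (1 + 2 * ((n : ℝ))⁻¹)))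
        atTop (𝓝 (2 * Real.pi / Real.pi ^ 2)) :=
      (tendsto_const_nhds (x := 2 * Real.pi)).div hd (by positivity)
    have e : 2 * Real.pi / Real.pi ^ 2 = 2 / Real.pi := by field_simp
    rw [e] at h
    refine h.congr' ?_
    filter_upwards [eventually_gt_atTop 0] with n hn0
    have hn' : (0 : ℝ) < n := by exact_mod_cast hn0
    congr 1
    field_simp
  have hfin := hcoef.neg.mul hT
  have e : -(2 / Real.pi) * peak_Phi (Real.pi * ρ) =
      2 / Real.pi * LF (Real.pi * ρ) - 2 * ρ * ff (Real.pi * ρ) := by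
    unfold peak_Phi
    field_simp
    ring
  rw [e] at hfin
  refine hfin.congr' ?_
  filter_upwards [hx] with n hn
  exact hn.2.2.symm

theorem peak_inc {ρ C : ℝ} (h0 : 0 < ρ) (h1 : ρ < 1) {m k : ℕ → ℕ} (hk : ∀ n, k n ≤ 2)
    (hm : ∀ n, |(m n : ℝ) - ρ * n| ≤ C) :
    Tendsto (fun n : ℕ => Real.log (fS (n + 2) (m n + k n)) - Real.log (fS (n + 2) (m n)) -
      k n * ff (Real.pi * ρ)) atTop (𝓝 0) := by
  have hpi := Real.pi_pos
  have hn_top : Tendsto (fun n : ℕ => (n : ℝ)) atTop atTop := tendsto_natCast_atTop_atTop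
  have hinv : Tendsto (fun n : ℕ => ((n : ℝ) + 2)⁻¹) atTop (𝓝 0) :=
    tendsto_inv_atTop_zero.comp (tendsto_atTop_add_const_right _ _ hn_top)
  have hC0 : 0 ≤ C := le_trans (abs_nonneg _) (hm 0)
  have hlim : ∀ c : ℝ, Tendsto (fun n : ℕ => ((m n : ℝ) + c) / (n + 2)) atTop (𝓝 ρ) := by
    intro c
    rw [tendsto_iff_dist_tendsto_zero]
    have hC : Tendsto (fun n : ℕ => (C + |c| + 2) * ((n : ℝ) + 2)⁻¹) atTop (𝓝 0) := by
      simpa using hinv.const_mul (C + |c| + 2)
    refine squeeze_zero' (Eventually.of_forall fun _ => dist_nonneg) ?_ hC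
    refine Eventually.of_forall fun n => ?_
    have hn' : (0 : ℝ) < (n : ℝ) + 2 := by positivity
    rw [Real.dist_eq]
    have e : ((m n : ℝ) + c) / (n + 2) - ρ =
        (((m n : ℝ) - ρ * n) + c - 2 * ρ) * ((n : ℝ) + 2)⁻¹ := by field_simp; ring
    rw [e, abs_mul, abs_of_pos (inv_pos.2 hn')]
    apply mul_le_mul_of_nonneg_right _ (inv_pos.2 hn').le
    have a1 := hm n
    have a2 : |2 * ρ| ≤ 2 := by rw [abs_of_pos (by positivity)]; linarith
    calc |(m n : ℝ) - ρ * n + c - 2 * ρ| ≤ |(m n : ℝ) - ρ * n + c| + |2 * ρ| := abs_sub _ _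
      _ ≤ |(m n : ℝ) - ρ * n| + |c| + |2 * ρ| := by linarith [abs_add_le ((m n : ℝ) - ρ * n) c]
      _ ≤ C + |c| + 2 := by linarith
  have hff : ∀ c : ℝ, Tendsto (fun n : ℕ => ff (Real.pi * (((m n : ℝ) + c) / (n + 2)))) atTop
      (𝓝 (ff (Real.pi * ρ))) := by
    intro c
    have hcont : ContinuousAt ff (Real.pi * ρ) :=
      (peak_ff_deriv (by positivity) (by nlinarith)).continuousAt
    exact hcont.tendsto.comp ((hlim c).const_mul Real.pi)
  have hbig : ∀ᶠ n : ℕ in atTop, m n + 2 < n + 2 := by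
    have a1 : ∀ᶠ n : ℕ in atTop, ((m n : ℝ) + 2) / (n + 2) < 1 := (hlim 2).eventually_lt_const h1
    filter_upwards [a1] with n b1
    have hn' : (0 : ℝ) < (n : ℝ) + 2 := by positivity
    rw [div_lt_one hn'] at b1
    exact_mod_cast b1
  have hsum : Tendsto (fun n : ℕ => |ff (Real.pi * (((m n : ℝ) + 1) / (n + 2))) -
      ff (Real.pi * ρ)| + |ff (Real.pi * (((m n : ℝ) + 2) / (n + 2))) - ff (Real.pi * ρ)|) atTop
      (𝓝 0) := by
    have a := ((hff 1).sub_const (ff (Real.pi * ρ))).abs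
    have b := ((hff 2).sub_const (ff (Real.pi * ρ))).abs
    have := a.add b
    simpa using this
  rw [tendsto_zero_iff_abs_tendsto_zero]
  refine squeeze_zero' (Eventually.of_forall fun _ => abs_nonneg _) ?_ hsum
  filter_upwards [hbig] with n hn
  simp only [Function.comp]
  have e2 : ((n + 2 : ℕ) : ℝ) = (n : ℝ) + 2 := by push_cast; ring
  have hk2 := hk n
  rw [peak_log_fS (by omega : m n + k n < n + 2), peak_log_fS (by omega : m n < n + 2), e2]
  have g1 : ∀ i : ℕ, ((m n + i : ℕ) : ℝ) + 1 = (m n : ℝ) + (i + 1) := by intro i; push_cast; ring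
  have g2 : ∀ t : ℝ, t * (Real.pi / ((n : ℝ) + 2)) = Real.pi * (t / (n + 2)) := by
    intro t; ring
  have hkk : k n = 0 ∨ k n = 1 ∨ k n = 2 := by omega
  rcases hkk with h | h | h
  · rw [h]
    simp
    positivity
  · rw [h, sum_range_succ]
    rw [add_sub_cancel_left, g2]
    simp only [Nat.cast_one, one_mul]
    have := abs_nonneg (ff (Real.pi * (((m n : ℝ) + 2) / (n + 2))) - ff (Real.pi * ρ))
    linarith
  · rw [h, sum_range_succ, sum_range_succ, g2, g2]
    have e3 : ((m n + 1 : ℕ) : ℝ) + 1 = (m n : ℝ) + 2 := by push_cast; ring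
    rw [e3]
    have e4 : ∀ a b c d : ℝ, a + b + c - a - ((2 : ℕ) : ℝ) * d = (b - d) + (c - d) := by
      intro a b c d; push_cast; ring
    rw [e4]
    exact abs_add_le _ _

/-- Riemann sums of `x cot x` -/
theorem log_fS_diff {ρ : ℝ} (h0 : 0 < ρ) (h1 : ρ < 1) {m : ℕ → ℕ}
    (hm : ∀ n, |(m n : ℝ) - ρ * n| ≤ 1) :
    Tendsto (fun n : ℕ => Real.log (fS (n + 2) (m n)) - Real.log (fS n (m n))) atTop
      (𝓝 (2 / Real.pi * LF (Real.pi * ρ) - 2 * ρ * ff (Real.pi * ρ))) :=
  peak_diff h0 h1 hm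

theorem peak_full {ρ C : ℝ} (h0 : 0 < ρ) (h1 : ρ < 1) {m : ℕ → ℕ}
    (hk : ∀ n, m n ≤ m (n + 2) ∧ m (n + 2) ≤ m n + 2)
    (hm : ∀ n, |(m n : ℝ) - ρ * n| ≤ C) :
    Tendsto (fun n : ℕ => Real.log (fS (n + 2) (m (n + 2))) - Real.log (fS n (m n)) -
      ((m (n + 2) : ℝ) - m n) * ff (Real.pi * ρ)) atTop
      (𝓝 (2 / Real.pi * LF (Real.pi * ρ) - 2 * ρ * ff (Real.pi * ρ))) := by
  have a := peak_diff h0 h1 hm
  have b := peak_inc h0 h1 (k := fun n => m (n + 2) - m n) (fun n => by have := hk n; omega) hm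
  have c := a.add b
  rw [add_zero] at c
  refine c.congr fun n => ?_
  have h2 := hk n
  have e1 : m n + (m (n + 2) - m n) = m (n + 2) := by omega
  have e2 : ((m (n + 2) - m n : ℕ) : ℝ) = (m (n + 2) : ℝ) - m n := by
    rw [Nat.cast_sub h2.1]
  rw [e1, e2]
  ring

theorem peak_b0 {n : ℕ} (hn : 3 ≤ n) : b0 n = fS n (n - n / 3) / (fS n (n / 3) *
    fS n (n - 2 * (n / 3))) := by
  unfold b0 bS
  have h1 : (0 : ℤ) ≤ ((n / 3 : ℕ) : ℤ) := by positivity
  have h2 : ((n / 3 : ℕ) : ℤ) ≤ (n : ℤ) - (n / 3 : ℕ) := by omega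
  have h3 : (n : ℤ) - (n / 3 : ℕ) < n := by omega
  rw [if_pos ⟨h1, h2, h3⟩]
  have e1 : ((n : ℤ) - (n / 3 : ℕ)).toNat = n - n / 3 := by omega
  have e2 : (((n / 3 : ℕ) : ℤ)).toNat = n / 3 := by omega
  have e3 : ((n : ℤ) - (n / 3 : ℕ) - (n / 3 : ℕ)).toNat = n - 2 * (n / 3) := by omega
  rw [e1, e2, e3]

theorem peak_b0_pos {n : ℕ} (hn : 3 ≤ n) : 0 < b0 n := by
  rw [peak_b0 hn]
  exact div_pos (fS_pos (by omega)) (mul_pos (fS_pos (by omega)) (fS_pos (by omega)))

theorem peak_b0_log {n : ℕ} (hn : 3 ≤ n) : Real.log (b0 n) = Real.log (fS n (n - n / 3)) -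
    Real.log (fS n (n / 3)) - Real.log (fS n (n - 2 * (n / 3))) := by
  have h1 : 0 < fS n (n - n / 3) := fS_pos (by omega)
  have h2 : 0 < fS n (n / 3) := fS_pos (by omega)
  have h3 : 0 < fS n (n - 2 * (n / 3)) := fS_pos (by omega)
  rw [peak_b0 hn, Real.log_div h1.ne' (mul_pos h2 h3).ne', Real.log_mul h2.ne' h3.ne']
  ring

theorem b0_ratio : Tendsto (fun n : ℕ => b0 (n + 2) / b0 n) atTop
    (𝓝 (Real.exp (volFigureEight / Real.pi))) := by
  have hpi := Real.pi_pos
  have hfl : ∀ n : ℕ, |((n / 3 : ℕ) : ℝ) - 1 / 3 * n| ≤ 1 := by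
    intro n
    have h1 : ((3 * (n / 3) : ℕ) : ℝ) ≤ n := by exact_mod_cast (by omega : 3 * (n / 3) ≤ n)
    have h2 : (n : ℝ) ≤ ((3 * (n / 3) + 2 : ℕ) : ℝ) := by
      exact_mod_cast (by omega : n ≤ 3 * (n / 3) + 2)
    push_cast at h1 h2
    rw [abs_le]
    constructor <;> linarith
  have hA := peak_full (ρ := 2 / 3) (C := 2) (m := fun n => n - n / 3) (by norm_num) (by norm_num)
    (fun n => by
      constructor
      · show n - n / 3 ≤ (n + 2) - (n + 2) / 3
        omega
      · show (n + 2) - (n + 2) / 3 ≤ n - n / 3 + 2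
        omega)
    (fun n => by
      have h := hfl n
      have e : ((n - n / 3 : ℕ) : ℝ) = (n : ℝ) - (n / 3 : ℕ) := by
        rw [Nat.cast_sub (by omega)]
      rw [e, abs_le] at *
      constructor <;> linarith [h.1, h.2])
  have hB := peak_full (ρ := 1 / 3) (C := 2) (m := fun n => n / 3) (by norm_num) (by norm_num)
    (fun n => by
      constructor
      · show n / 3 ≤ (n + 2) / 3
        omega
      · show (n + 2) / 3 ≤ n / 3 + 2
        omega)
    (fun n => by
      have h := hfl n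
      rw [abs_le] at *
      constructor <;> linarith [h.1, h.2])
  have hD := peak_full (ρ := 1 / 3) (C := 2) (m := fun n => n - 2 * (n / 3)) (by norm_num)
    (by norm_num)
    (fun n => by
      constructor
      · show n - 2 * (n / 3) ≤ (n + 2) - 2 * ((n + 2) / 3)
        omega
      · show (n + 2) - 2 * ((n + 2) / 3) ≤ n - 2 * (n / 3) + 2
        omega)
    (fun n => by
      have h := hfl n
      have e : ((n - 2 * (n / 3) : ℕ) : ℝ) = (n : ℝ) - 2 * (n / 3 : ℕ) := by
        rw [Nat.cast_sub (by omega)]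
        push_cast
        ring
      rw [e, abs_le] at *
      constructor <;> linarith [h.1, h.2])
  have hff : ff (Real.pi * (2 / 3)) = ff (Real.pi * (1 / 3)) := by
    have := ff_sub (Real.pi * (1 / 3))
    rw [← this]
    congr 1
    ring
  have hLF : LF (Real.pi * (2 / 3)) = -LF (Real.pi * (1 / 3)) := by
    have := LF_reflect (Real.pi * (1 / 3))
    rw [← this]
    congr 1
    ring
  have hvol : volFigureEight = -6 * LF (Real.pi * (1 / 3)) := by
    have e : volFigureEight = -6 * LF (Real.pi / 3) := rfl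
    rw [e]
    congr 2
    ring
  have hlim := (hA.sub hB).sub hD
  rw [hff, hLF] at hlim
  have e : 2 / Real.pi * -LF (Real.pi * (1 / 3)) - 2 * (2 / 3) * ff (Real.pi * (1 / 3)) -
      (2 / Real.pi * LF (Real.pi * (1 / 3)) - 2 * (1 / 3) * ff (Real.pi * (1 / 3))) -
      (2 / Real.pi * LF (Real.pi * (1 / 3)) - 2 * (1 / 3) * ff (Real.pi * (1 / 3))) =
      volFigureEight / Real.pi := by
    rw [hvol]
    field_simp
    ring
  rw [e] at hlim
  have hexp := (Real.continuous_exp.tendsto _).comp hlim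
  refine hexp.congr' ?_
  filter_upwards [eventually_ge_atTop 3] with n hn
  simp only [Function.comp]
  have p1 := peak_b0_pos hn
  have p2 := peak_b0_pos (by omega : 3 ≤ n + 2)
  rw [← Real.exp_log (div_pos p2 p1), Real.log_div p2.ne' p1.ne', peak_b0_log hn,
    peak_b0_log (by omega : 3 ≤ n + 2)]
  congr 1
  have e1 : ((n - n / 3 : ℕ) : ℝ) = (n : ℝ) - (n / 3 : ℕ) := by
    rw [Nat.cast_sub (by omega)]
  have e2 : ((n - 2 * (n / 3) : ℕ) : ℝ) = (n : ℝ) - 2 * (n / 3 : ℕ) := by
    rw [Nat.cast_sub (by omega)]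
    push_cast
    ring
  have e3 : ((n + 2 - (n + 2) / 3 : ℕ) : ℝ) = ((n : ℝ) + 2) - ((n + 2) / 3 : ℕ) := by
    rw [Nat.cast_sub (by omega)]
    push_cast
    ring
  have e4 : ((n + 2 - 2 * ((n + 2) / 3) : ℕ) : ℝ) = ((n : ℝ) + 2) - 2 * ((n + 2) / 3 : ℕ) := by
    rw [Nat.cast_sub (by omega)]
    push_cast
    ring
  rw [e1, e2, e3, e4]
  ring

end Pool.Agent.Work.MP_b30479_gt.AX
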