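import Pool.Agent.Work.MP_b30479_gt.AX.Dom
import Pool.Agent.Work.MP_b30479_gt.AX.CycTr

/-!
# The rest is exponentially small
-/

namespace Pool.Agent.Work.MP_b30479_gt.AX

open Finset TB

lemma restB_bS {n : ℕ} (hn : 3 ≤ n) {C c : ℝ} (h : ∀ n : ℕ, 3 ≤ n → ∀ x y : ℤ,
    beta n x y ≤ C * Real.exp (-c * ((x : ℝ) ^ 2 + (y : ℝ) ^ 2) / n)) (k j : ℤ) :
    bS n k j ≤ b0 n * (C * Real.exp (-c * (((k : ℝ) - ((n : ℝ) - (n / 3 : ℕ))) ^ 2 +
      ((j : ℝ) - (n / 3 : ℕ)) ^ 2) / n)) := by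
  have hb := b0_pos hn
  have h1 := h n hn (k - ((n : ℤ) - (n / 3 : ℕ))) (j - (n / 3 : ℕ))
  unfold beta at h1
  have e1 : (n : ℤ) - (n / 3 : ℕ) + (k - ((n : ℤ) - (n / 3 : ℕ))) = k := by ring
  have e2 : ((n / 3 : ℕ) : ℤ) + (j - (n / 3 : ℕ)) = j := by ring
  rw [e1, e2, div_le_iff₀ hb] at h1
  simp only [Int.cast_sub, Int.cast_natCast] at h1
  linarith [h1]

lemma restB_quad (p q r m : ℝ) (hm : 0 ≤ m) (h : m / 3 ≤ q + r - 2 * p) :
    m ^ 2 / 54 ≤ p ^ 2 + r ^ 2 + q ^ 2 := by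
  have h1 : (m / 3) ^ 2 ≤ (q + r - 2 * p) ^ 2 := by
    apply pow_le_pow_left₀ (by positivity) h
  nlinarith [sq_nonneg (q - r), sq_nonneg (2 * q + p), sq_nonneg (2 * r + p)]

theorem rest_bound {C c : ℝ} (hC : 0 < C) (hc : 0 < c) (h : ∀ n : ℕ, 3 ≤ n → ∀ x y : ℤ,
    beta n x y ≤ C * Real.exp (-c * ((x : ℝ) ^ 2 + (y : ℝ) ^ 2) / n)) {s N : ℕ} (hs : 1 ≤ s)
    (hN : N ≤ 2 * s) (K : ℕ) [NeZero K] :
    ((Br s N * (Br s N).transpose) ^ K).trace ≤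
      (((2 * s + 1 : ℕ) : ℝ) ^ 2 * (b0 (2 * s + 1) ^ 2 * C ^ 2 *
        Real.exp (-c * ((2 * s + 1 : ℕ) : ℝ) / 54))) ^ K := by
  have hn : 3 ≤ 2 * s + 1 := by omega
  have hn0 : (0 : ℝ) < ((2 * s + 1 : ℕ) : ℝ) := by positivity
  have hb := b0_pos hn
  obtain ⟨M, hMdef⟩ : ∃ M : ℝ, M = b0 (2 * s + 1) ^ 2 * C ^ 2 *
        Real.exp (-c * ((2 * s + 1 : ℕ) : ℝ) / 54) := ⟨_, rfl⟩
  have hM : 0 ≤ M := by rw [hMdef]; positivity
  rw [← hMdef]
  have hent0 : ∀ k j, 0 ≤ Br s N k j := by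
    intro k j
    unfold Br
    split_ifs
    · exact Real.sqrt_nonneg _
    · exact le_refl _
  have hent : ∀ k j, Br s N k j ≤ √M := by
    intro k j
    unfold Br
    split_ifs with hkj
    · apply Real.sqrt_le_sqrt
      have h1 := restB_bS hn h ((k : ℕ) : ℤ) ((j : ℕ) : ℤ)
      have h2 := restB_bS hn h (2 * (N : ℤ) + 1 - ((j : ℕ) : ℤ)) (((k : ℕ) : ℤ) - ((j : ℕ) : ℤ))
      have h3 : bS (2 * s + 1) ((k : ℕ) : ℤ) ((j : ℕ) : ℤ) *
          bS (2 * s + 1) (2 * (N : ℤ) + 1 - ((j : ℕ) : ℤ)) (((k : ℕ) : ℤ) - ((j : ℕ) : ℤ)) ≤ _ :=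
        mul_le_mul h1 h2 (bS_nonneg _ _ _) (by positivity)
      refine le_trans h3 ?_
      rw [hMdef]
      have e : ∀ A B : ℝ, b0 (2 * s + 1) * (C * Real.exp A) * (b0 (2 * s + 1) * (C * Real.exp B)) =
          b0 (2 * s + 1) ^ 2 * C ^ 2 * Real.exp (A + B) := by
        intro A B
        rw [Real.exp_add]
        ring
      rw [e]
      apply mul_le_mul_of_nonneg_left _ (by positivity)
      apply Real.exp_le_exp.mpr
      have hdiv : (((2 * s + 1) / 3 : ℕ) : ℝ) ≤ ((2 * s + 1 : ℕ) : ℝ) / 3 := Nat.cast_div_le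
      have hkN : ((k : ℕ) : ℝ) ≤ N := by
        have := k.2
        exact_mod_cast (by omega : (k : ℕ) ≤ N)
      have hq := restB_quad (((k : ℕ) : ℝ) - (((2 * s + 1 : ℕ) : ℝ) - (((2 * s + 1) / 3 : ℕ) : ℝ)))
        ((2 * (N : ℝ) + 1 - (j : ℕ)) - (((2 * s + 1 : ℕ) : ℝ) - (((2 * s + 1) / 3 : ℕ) : ℝ)))
        (((j : ℕ) : ℝ) - (((2 * s + 1) / 3 : ℕ) : ℝ)) ((2 * s + 1 : ℕ) : ℝ) hn0.le (by linarith)
      have hq2 := sq_nonneg ((((k : ℕ) : ℝ) - ((j : ℕ) : ℝ)) - (((2 * s + 1) / 3 : ℕ) : ℝ))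
      rw [← add_div, div_le_div_iff₀ hn0 (by norm_num)]
      push_cast at hq hq2 ⊢
      nlinarith [hq, hq2, hc]
    · exact Real.sqrt_nonneg _
  rw [trace_mul_pow_cyc]
  have hterm : ∀ (k : Fin K → Fin (N + 1)) (j : Fin K → Fin (N + 1)),
      ∏ i, Br s N (k i) (j i) * (Br s N).transpose (j i) (k (i + 1)) ≤ M ^ K := by
    intro k j
    calc ∏ i, Br s N (k i) (j i) * (Br s N).transpose (j i) (k (i + 1))
        ≤ ∏ _i : Fin K, M := by
          apply Finset.prod_le_prod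
          · intro i _
            exact mul_nonneg (hent0 _ _) (hent0 _ _)
          · intro i _
            calc Br s N (k i) (j i) * (Br s N).transpose (j i) (k (i + 1))
                ≤ √M * √M := mul_le_mul (hent _ _) (hent _ _) (hent0 _ _) (Real.sqrt_nonneg _)
              _ = M := Real.mul_self_sqrt hM
      _ = M ^ K := by simp
  calc ∑ k : Fin K → Fin (N + 1), ∑ j : Fin K → Fin (N + 1),
        ∏ i, Br s N (k i) (j i) * (Br s N).transpose (j i) (k (i + 1))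
      ≤ ∑ _k : Fin K → Fin (N + 1), ∑ _j : Fin K → Fin (N + 1), M ^ K :=
        Finset.sum_le_sum fun k _ => Finset.sum_le_sum fun j _ => hterm k j
    _ = (((N : ℝ) + 1) ^ 2 * M) ^ K := by
        simp only [Finset.sum_const, Finset.card_univ, Fintype.card_fun, Fintype.card_fin,
          nsmul_eq_mul]
        push_cast
        rw [mul_pow, ← pow_mul, mul_comm 2 K, pow_mul]
        ring
    _ ≤ _ := by
        apply pow_le_pow_left₀ (by positivity)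
        apply mul_le_mul_of_nonneg_right _ hM
        apply pow_le_pow_left₀ (by positivity)
        have : (N : ℝ) ≤ 2 * s := by exact_mod_cast hN
        push_cast
        linarith

end Pool.Agent.Work.MP_b30479_gt.AX
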