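import Pool.Agent.Work.MP_b30479_gt.AX.DefsB

/-!
# Sums over lattice points and integrals
-/

namespace Pool.Agent.Work.MP_b30479_gt.AX

open Finset TB Filter Topology MeasureTheory

theorem riem_measurable_flK {K : ℕ} (n : ℕ) : Measurable (flK (K := K) n) := by
  unfold flK
  refine Measurable.prodMk (Measurable.prodMk ?_ ?_) ?_
  · exact Int.measurable_floor.comp (measurable_const.mul (measurable_fst.comp measurable_fst))
  · refine measurable_pi_lambda _ fun i => ?_
    exact Int.measurable_floor.comp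
      (measurable_const.mul ((measurable_pi_apply i).comp (measurable_snd.comp measurable_fst)))
  · refine measurable_pi_lambda _ fun i => ?_
    exact Int.measurable_floor.comp
      (measurable_const.mul ((measurable_pi_apply i).comp measurable_snd))

theorem riem_measurable {K : ℕ} (n : ℕ) (F : ZK K → ℂ) : Measurable fun Z => F (flK n Z) :=
  (Measurable.of_discrete (f := F)).comp (riem_measurable_flK n)

/-- the interval of reals with given rounding -/
def riem_I (n : ℕ) (a : ℤ) : Set ℝ := {x | ⌊√(n : ℝ) * x⌋ = a}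

theorem riem_I_eq {n : ℕ} (hn : 1 ≤ n) (a : ℤ) :
    riem_I n a = Set.Ico ((√(n : ℝ))⁻¹ * a) ((√(n : ℝ))⁻¹ * (a + 1)) := by
  have h0 : 0 < √(n : ℝ) := Real.sqrt_pos.mpr (by exact_mod_cast hn)
  ext x
  rw [riem_I, Set.mem_setOf_eq, Int.floor_eq_iff, Set.mem_Ico, inv_mul_le_iff₀ h0,
    lt_inv_mul_iff₀ h0]

theorem riem_I_vol {n : ℕ} (hn : 1 ≤ n) (a : ℤ) :
    volume (riem_I n a) = ENNReal.ofReal (√(n : ℝ))⁻¹ := by
  rw [riem_I_eq hn, Real.volume_Ico]
  congr 1
  ring

theorem riem_pre {K : ℕ} (n : ℕ) (z : ZK K) :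
    flK (K := K) n ⁻¹' {z} =
      ((riem_I n z.1.1 ×ˢ (Set.univ.pi fun i => riem_I n (z.1.2 i))) ×ˢ
        (Set.univ.pi fun i => riem_I n (z.2 i)) : Set (EK K)) := by
  ext Z
  rw [Set.mem_preimage, Set.mem_singleton_iff, Set.mem_prod, Set.mem_prod, Set.mem_univ_pi,
    Set.mem_univ_pi]
  constructor
  · intro h
    rw [← h]
    exact ⟨⟨rfl, fun i => rfl⟩, fun i => rfl⟩
  · rintro ⟨⟨h1, h2⟩, h3⟩
    refine Prod.ext (Prod.ext h1 (funext h2)) (funext h3)

theorem riem_pre_vol {K : ℕ} {n : ℕ} (hn : 1 ≤ n) (z : ZK K) :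
    (volume (flK (K := K) n ⁻¹' {z})).toReal = (√(n : ℝ))⁻¹ ^ (2 * K + 1) := by
  have h0 : 0 ≤ (√(n : ℝ))⁻¹ := inv_nonneg.mpr (Real.sqrt_nonneg _)
  rw [riem_pre, Measure.volume_eq_prod, Measure.prod_prod, Measure.volume_eq_prod,
    Measure.prod_prod, volume_pi_pi, volume_pi_pi]
  simp only [riem_I_vol hn, Finset.prod_const, Finset.card_univ, Fintype.card_fin]
  rw [ENNReal.toReal_mul, ENNReal.toReal_mul, ENNReal.toReal_pow, ENNReal.toReal_ofReal h0]
  ring

theorem riem_int {K : ℕ} {n : ℕ} (hn : 1 ≤ n) {F : ZK K → ℂ} (hF : (Function.support F).Finite) :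
    ∫ Z : EK K, F (flK n Z) = (((√(n : ℝ))⁻¹ ^ (2 * K + 1) : ℝ) : ℂ) * ∑' z, F z := by
  classical
  have hms : ∀ z : ZK K, MeasurableSet (flK (K := K) n ⁻¹' {z}) := fun z =>
    riem_measurable_flK n (measurableSet_singleton z)
  have hfin : ∀ z : ZK K, volume (flK (K := K) n ⁻¹' {z}) ≠ ⊤ := by
    intro z htop
    have h1 := riem_pre_vol (K := K) hn z
    rw [htop, ENNReal.toReal_top] at h1
    have h0 : 0 < (√(n : ℝ))⁻¹ := inv_pos.mpr (Real.sqrt_pos.mpr (by exact_mod_cast hn))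
    have h2 := pow_pos h0 (2 * K + 1)
    rw [← h1] at h2
    exact lt_irrefl _ h2
  have h1 : ∀ Z : EK K, F (flK n Z) =
      ∑ z ∈ hF.toFinset, (flK (K := K) n ⁻¹' {z}).indicator (fun _ => F z) Z := by
    intro Z
    by_cases h : flK n Z ∈ hF.toFinset
    · rw [Finset.sum_eq_single_of_mem (flK n Z) h]
      · rw [Set.indicator_of_mem]
        rfl
      · intro z _ hz
        rw [Set.indicator_of_notMem]
        intro h2
        exact hz (Set.mem_singleton_iff.mp h2).symm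
    · rw [Finset.sum_eq_zero]
      · rw [Set.Finite.mem_toFinset, Function.mem_support, not_not] at h
        exact h
      · intro z hz
        rw [Set.indicator_of_notMem]
        intro h2
        rw [Set.mem_preimage, Set.mem_singleton_iff] at h2
        rw [h2] at h
        exact h hz
  simp_rw [h1]
  rw [integral_finset_sum]
  · rw [tsum_eq_sum (s := hF.toFinset), Finset.mul_sum]
    · refine Finset.sum_congr rfl fun z _ => ?_
      rw [integral_indicator_const _ (hms z), Measure.real, riem_pre_vol hn, Complex.real_smul]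
    · intro z hz
      rw [Set.Finite.mem_toFinset, Function.mem_support, not_not] at hz
      exact hz
  · intro z _
    rw [integrable_indicator_iff (hms z)]
    exact integrableOn_const (hfin z)

/-- squared norm -/
noncomputable def riem_sq {K : ℕ} (Z : EK K) : ℝ :=
  Z.1.1 ^ 2 + ∑ i, Z.1.2 i ^ 2 + ∑ i, Z.2 i ^ 2

theorem riem_floor {n : ℕ} (hn : 1 ≤ n) (x : ℝ) :
    x ^ 2 / 2 - 1 ≤ (⌊√(n : ℝ) * x⌋ : ℝ) ^ 2 / n := by
  have hn0 : (0 : ℝ) < n := by exact_mod_cast hn
  have hn1 : (1 : ℝ) ≤ n := by exact_mod_cast hn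
  rw [le_div_iff₀ hn0]
  have h1 := Int.floor_le (√(n : ℝ) * x)
  have h2 := Int.lt_floor_add_one (√(n : ℝ) * x)
  have h3 : √(n : ℝ) ^ 2 = n := Real.sq_sqrt hn0.le
  set a : ℝ := (⌊√(n : ℝ) * x⌋ : ℝ) with ha
  have h4 : (√(n : ℝ) * x) ^ 2 = n * x ^ 2 := by rw [mul_pow, h3]
  have h5 : (√(n : ℝ) * x) ^ 2 / 2 - 1 ≤ a ^ 2 := by
    set b := √(n : ℝ) * x
    nlinarith [sq_nonneg (2 * a - b), sq_nonneg (b - a)]
  nlinarith

theorem riem_sqn {K : ℕ} {n : ℕ} (hn : 1 ≤ n) (Z : EK K) :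
    riem_sq Z / 2 - (2 * K + 1) ≤ sqn (flK n Z) / n := by
  have h1 : ∀ f : Fin K → ℝ, (∑ i, f i ^ 2) / 2 - K ≤
      (∑ i, (⌊√(n : ℝ) * f i⌋ : ℝ) ^ 2) / n := by
    intro f
    rw [Finset.sum_div, Finset.sum_div]
    have h2 : ∑ i : Fin K, (f i ^ 2 / 2 - 1) ≤ ∑ i, (⌊√(n : ℝ) * f i⌋ : ℝ) ^ 2 / n :=
      Finset.sum_le_sum fun i _ => riem_floor hn (f i)
    rw [Finset.sum_sub_distrib] at h2
    simpa using h2
  have h2 := riem_floor hn Z.1.1
  have h3 := h1 Z.1.2
  have h4 := h1 Z.2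
  unfold riem_sq sqn flK
  simp only
  rw [add_div, add_div, add_div, add_div]
  linarith

theorem riem_gauss {c : ℝ} (hc : 0 < c) (K : ℕ) :
    Integrable fun Z : EK K => Real.exp (-(c / 2) * riem_sq Z) := by
  have h1 : Integrable fun x : ℝ => Real.exp (-(c / 2) * x ^ 2) :=
    integrable_exp_neg_mul_sq (by positivity)
  have h2 : Integrable fun X : Fin K → ℝ => ∏ i, Real.exp (-(c / 2) * X i ^ 2) :=
    Integrable.fintype_prod fun _ => h1
  have h3 : Integrable fun W : ℝ × (Fin K → ℝ) =>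
      Real.exp (-(c / 2) * W.1 ^ 2) * ∏ i, Real.exp (-(c / 2) * W.2 i ^ 2) :=
    Integrable.mul_prod h1 h2
  have h4 : Integrable fun Z : EK K =>
      (Real.exp (-(c / 2) * Z.1.1 ^ 2) * ∏ i, Real.exp (-(c / 2) * Z.1.2 i ^ 2)) *
        ∏ i, Real.exp (-(c / 2) * Z.2 i ^ 2) :=
    Integrable.mul_prod h3 h2
  refine h4.congr (Filter.Eventually.of_forall fun Z => ?_)
  simp only
  rw [← Real.exp_sum, ← Real.exp_sum, ← Real.exp_add, ← Real.exp_add]
  congr 1
  unfold riem_sq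
  rw [← Finset.mul_sum, ← Finset.mul_sum]
  ring

theorem riem {K : ℕ} {F : ℕ → ZK K → ℂ} {f : EK K → ℂ} {C c : ℝ} (hc : 0 < c)
    (hfin : ∀ n, (Function.support (F n)).Finite)
    (hdom : ∀ n : ℕ, 3 ≤ n → ∀ z, ‖F n z‖ ≤ C * Real.exp (-c * sqn z / n))
    (hlim : ∀ Z, Tendsto (fun n => F n (flK n Z)) atTop (𝓝 (f Z))) :
    Integrable f ∧
    Tendsto (fun n : ℕ => (((√(n : ℝ))⁻¹ ^ (2 * K + 1) : ℝ) : ℂ) * ∑' z, F n z) atTop
      (𝓝 (∫ Z, f Z)) := by
  have hC : 0 ≤ C := by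
    have h1 := (norm_nonneg _).trans (hdom 3 le_rfl 0)
    have h2 : 0 < Real.exp (-c * sqn (0 : ZK K) / (3 : ℕ)) := Real.exp_pos _
    exact nonneg_of_mul_nonneg_left h1 h2
  set B : EK K → ℝ := fun Z => C * Real.exp (c * (2 * K + 1)) * Real.exp (-(c / 2) * riem_sq Z)
    with hB
  have hBint : Integrable B := (riem_gauss hc K).const_mul _
  have hbound : ∀ n : ℕ, 3 ≤ n → ∀ Z : EK K, ‖F n (flK n Z)‖ ≤ B Z := by
    intro n hn Z
    refine (hdom n hn _).trans ?_
    rw [hB]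
    simp only
    rw [mul_assoc C, ← Real.exp_add]
    apply mul_le_mul_of_nonneg_left _ hC
    apply Real.exp_le_exp.mpr
    have h1 := riem_sqn (K := K) (show 1 ≤ n by omega) Z
    have h2 := mul_le_mul_of_nonneg_left h1 hc.le
    have h3 : -c * sqn (flK n Z) / n = -(c * (sqn (flK n Z) / n)) := by ring
    rw [h3]
    linarith
  have hmeas : ∀ n, AEStronglyMeasurable (fun Z : EK K => F n (flK n Z)) volume := fun n =>
    (riem_measurable n (F n)).aestronglyMeasurable
  have hfmeas : AEStronglyMeasurable f volume :=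
    aestronglyMeasurable_of_tendsto_ae atTop hmeas (Filter.Eventually.of_forall hlim)
  have hfb : ∀ Z, ‖f Z‖ ≤ B Z := by
    intro Z
    refine le_of_tendsto (hlim Z).norm ?_
    filter_upwards [eventually_ge_atTop 3] with n hn
    exact hbound n hn Z
  refine ⟨hBint.mono' hfmeas (Filter.Eventually.of_forall hfb), ?_⟩
  have hmain : Tendsto (fun n => ∫ Z : EK K, F n (flK n Z)) atTop (𝓝 (∫ Z, f Z)) := by
    refine tendsto_integral_filter_of_dominated_convergence B ?_ ?_ hBint ?_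
    · exact Filter.Eventually.of_forall hmeas
    · filter_upwards [eventually_ge_atTop 3] with n hn
      exact Filter.Eventually.of_forall (hbound n hn)
    · exact Filter.Eventually.of_forall hlim
  refine hmain.congr' ?_
  filter_upwards [eventually_ge_atTop 3] with n hn
  exact riem_int (by omega) (hfin n)

end Pool.Agent.Work.MP_b30479_gt.AX
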