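import Pool.Agent.Work.MP_b30479_gt.AX.EntM
import Pool.Agent.Work.MP_b30479_gt.AX.CycTr

/-!
# The main block and the rest
-/

namespace Pool.Agent.Work.MP_b30479_gt.AX

open Finset TB

theorem Split_ind {K : ℕ} [NeZero K] (P : Fin K → Prop) (h : ∀ i, P i → P (i + 1)) {i₀ : Fin K}
    (h0 : P i₀) (i : Fin K) : P i := by
  obtain ⟨n, rfl⟩ : ∃ n, K = n + 1 := ⟨K - 1, by have := NeZero.pos K; omega⟩
  have key : ∀ b a : ℕ, ∀ (ha : a < n + 1) (hb : b < n + 1), a ≤ b → P ⟨a, ha⟩ → P ⟨b, hb⟩ := by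
    intro b
    induction b with
    | zero =>
      intro a ha hb hab hP
      obtain rfl : a = 0 := by omega
      exact hP
    | succ b ih =>
      intro a ha hb hab hP
      rcases Nat.lt_or_ge b a with h1 | h1
      · obtain rfl : a = b + 1 := by omega
        exact hP
      · have h2 := h _ (ih a ha (by omega) h1 hP)
        have h3 : (⟨b, by omega⟩ : Fin (n + 1)) + 1 = ⟨b + 1, hb⟩ := by
          have := Fin.coeSucc_eq_succ (a := (⟨b, by omega⟩ : Fin n))
          exact this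
        rw [h3] at h2
        exact h2
  have hlast : P (Fin.last n) := key n i₀.1 i₀.2 (by omega) (by omega) h0
  have hzero : P 0 := by
    have := h _ hlast
    rwa [Fin.last_add_one] at this
  exact key i.1 0 (by omega) i.2 (by omega) hzero

theorem Split_cyc {K : ℕ} [NeZero K] (k j : Fin K → ℕ) (c : ℕ) (ψ : ℕ → ℝ)
    (h1 : ∀ i, c ≤ j i) (h2 : ∀ i, j i ≤ k i) (h3 : ∀ i, j i ≤ k (i + 1))
    (h4 : ∀ i, ∏ l ∈ Ioc c (j i), ψ l ≠ 0) :
    ∏ i, ∏ l ∈ Ioc (j i) (k (i + 1)), ψ l = ∏ i, ∏ l ∈ Ioc (j i) (k i), ψ l := by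
  have hs : ∀ a b : ℕ, c ≤ a → a ≤ b →
      ∏ l ∈ Ioc c b, ψ l = (∏ l ∈ Ioc c a, ψ l) * ∏ l ∈ Ioc a b, ψ l := by
    intro a b ha hb
    rw [← Finset.prod_union]
    · rw [Ioc_union_Ioc_eq_Ioc ha hb]
    · rw [Finset.disjoint_left]
      intro x hx hx'
      rw [mem_Ioc] at hx hx'
      omega
  have e1 : ∏ i, ∏ l ∈ Ioc c (k (i + 1)), ψ l = (∏ i, ∏ l ∈ Ioc c (j i), ψ l) *
      ∏ i, ∏ l ∈ Ioc (j i) (k (i + 1)), ψ l := by
    rw [← prod_mul_distrib]
    exact prod_congr rfl fun i _ => hs _ _ (h1 i) (h3 i)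
  have e2 : ∏ i, ∏ l ∈ Ioc c (k i), ψ l = (∏ i, ∏ l ∈ Ioc c (j i), ψ l) *
      ∏ i, ∏ l ∈ Ioc (j i) (k i), ψ l := by
    rw [← prod_mul_distrib]
    exact prod_congr rfl fun i _ => hs _ _ (h1 i) (h2 i)
  have e3 : ∏ i, ∏ l ∈ Ioc c (k (i + 1)), ψ l = ∏ i, ∏ l ∈ Ioc c (k i), ψ l :=
    Equiv.prod_comp (Equiv.addRight (1 : Fin K)) (fun i => ∏ l ∈ Ioc c (k i), ψ l)
  have hne : (∏ i, ∏ l ∈ Ioc c (j i), ψ l) ≠ 0 := Finset.prod_ne_zero_iff.mpr fun i _ => h4 i
  rw [e1, e2] at e3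
  exact mul_left_cancel₀ hne e3

/-- the real cyclic identity -/
theorem Split_real {K : ℕ} [NeZero K] (k j : Fin K → ℕ) (a R w : ℕ → ℕ → ℝ)
    (ha : ∀ i, 0 < a (k i) (j i)) (ha' : ∀ i, 0 < a (k (i + 1)) (j i))
    (hR : ∀ i, 0 < R (k i) (j i)) (hR' : ∀ i, 0 < R (k (i + 1)) (j i))
    (hw : ∀ i, w (j i) (k i) = R (k i) (j i) / a (k i) (j i) ^ 2)
    (hw' : ∀ i, w (j i) (k (i + 1)) = R (k (i + 1)) (j i) / a (k (i + 1)) (j i) ^ 2)
    (hc : ∏ i, w (j i) (k (i + 1)) = ∏ i, w (j i) (k i)) :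
    ∏ i, (a (k i) (j i) * (a (k (i + 1)) (j i) * w (j i) (k (i + 1)))) =
      ∏ i, √(R (k i) (j i)) * √(R (k (i + 1)) (j i)) := by
  have hw0 : ∀ i, 0 < w (j i) (k i) := fun i => by
    rw [hw]; exact div_pos (hR i) (pow_pos (ha i) 2)
  have hw0' : ∀ i, 0 < w (j i) (k (i + 1)) := fun i => by
    rw [hw']; exact div_pos (hR' i) (pow_pos (ha' i) 2)
  have s1 : ∀ i, √(R (k i) (j i)) = a (k i) (j i) * √(w (j i) (k i)) := by
    intro i
    have : R (k i) (j i) = a (k i) (j i) ^ 2 * w (j i) (k i) := by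
      rw [hw]; field_simp [(ha i).ne']
    rw [this, Real.sqrt_mul (by positivity), Real.sqrt_sq (ha i).le]
  have s2 : ∀ i, √(R (k (i + 1)) (j i)) = a (k (i + 1)) (j i) * √(w (j i) (k (i + 1))) := by
    intro i
    have : R (k (i + 1)) (j i) = a (k (i + 1)) (j i) ^ 2 * w (j i) (k (i + 1)) := by
      rw [hw']; field_simp [(ha' i).ne']
    rw [this, Real.sqrt_mul (by positivity), Real.sqrt_sq (ha' i).le]
  have s3 : ∏ i, w (j i) (k (i + 1)) = (∏ i, √(w (j i) (k i))) * ∏ i, √(w (j i) (k (i + 1))) := by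
    have p1 : ∏ i, √(w (j i) (k i)) = √(∏ i, w (j i) (k i)) :=
      (Real.sqrt_prod _ (fun i _ => (hw0 i).le)).symm
    have p2 : ∏ i, √(w (j i) (k (i + 1))) = √(∏ i, w (j i) (k (i + 1))) :=
      (Real.sqrt_prod _ (fun i _ => (hw0' i).le)).symm
    rw [p1, p2, ← hc, Real.mul_self_sqrt]
    exact Finset.prod_nonneg fun i _ => (hw0' i).le
  simp only [prod_mul_distrib]
  rw [s3]
  simp only [s1, s2, prod_mul_distrib]
  ring

theorem level_split {s N : ℕ} (hN : N ≤ 2 * s) (K : ℕ) [NeZero K] :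
    ‖((alM s (tt s) N * stM s (tt s) N) ^ K).trace -
      ((Am s N * (Am s N).conjTranspose) ^ K).trace‖ ≤
      ((Br s N * (Br s N).transpose) ^ K).trace := by
  obtain ⟨p, q, hp, hq, hal⟩ := alM_tt hN
  have hBr0 : ∀ k j : Fin (N + 1), 0 ≤ Br s N k j := by
    intro k j
    unfold Br
    split_ifs
    · exact Real.sqrt_nonneg _
    · exact le_rfl
  rw [trace_mul_pow_cyc, trace_mul_pow_cyc, trace_mul_pow_cyc, ← sum_sub_distrib]
  refine (norm_sum_le _ _).trans (sum_le_sum fun k _ => ?_)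
  rw [← sum_sub_distrib]
  refine (norm_sum_le _ _).trans (sum_le_sum fun j _ => ?_)
  have hTB : 0 ≤ ∏ i, Br s N (k i) (j i) * (Br s N).transpose (j i) (k (i + 1)) :=
    Finset.prod_nonneg fun i _ => mul_nonneg (hBr0 _ _) (hBr0 _ _)
  have al0 : ∀ k j : Fin (N + 1), ¬ j ≤ k → alM s (tt s) N k j = 0 := by
    intro k j h
    unfold alM
    have h' : ¬ ((j : ℕ) ≤ (k : ℕ)) := h
    rw [if_neg h']
  have bS0 : ∀ k j : Fin (N + 1), ¬ j ≤ k → bS (2 * s + 1) (k : ℕ) (j : ℕ) = 0 := by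
    intro k j h
    unfold bS
    rw [if_neg]
    rintro ⟨-, h2, -⟩
    exact h (by exact_mod_cast h2)
  have am0 : ∀ k j : Fin (N + 1), ¬ j ≤ k → Am s N k j = 0 := by
    intro k j h
    unfold Am
    split_ifs
    · rw [bS0 k j h]; simp
    · rfl
  -- vanishing of a term
  have van : (∃ i, (¬ j i ≤ k i) ∨ (¬ j i ≤ k (i + 1)) ∨
      ((((j i : ℕ) : ℤ) < cN s N) ∧ cN s N ≤ ((k (i + 1) : ℕ) : ℤ))) →
      (∏ i, alM s (tt s) N (k i) (j i) * stM s (tt s) N (j i) (k (i + 1))) = 0 ∧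
      (∏ i, Am s N (k i) (j i) * (Am s N).conjTranspose (j i) (k (i + 1))) = 0 := by
    rintro ⟨i, hi⟩
    constructor
    · refine Finset.prod_eq_zero (mem_univ i) ?_
      rcases hi with h | h | ⟨h, h'⟩
      · rw [al0 _ _ h, zero_mul]
      · unfold stM
        rw [al0 _ _ h]
        simp
      · unfold stM
        rw [phi_cN hN (by omega) h h']
        simp
    · refine Finset.prod_eq_zero (mem_univ i) ?_
      rcases hi with h | h | ⟨h, h'⟩
      · rw [am0 _ _ h, zero_mul]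
      · rw [Matrix.conjTranspose_apply, am0 _ _ h]
        simp
      · have h0 : Am s N (k (i + 1)) (j i) = 0 := by
          unfold Am
          rw [if_neg (fun hh => absurd hh.1 (by omega))]
        rw [Matrix.conjTranspose_apply, h0]
        simp
  by_cases hv : ∃ i, (¬ j i ≤ k i) ∨ (¬ j i ≤ k (i + 1)) ∨
      ((((j i : ℕ) : ℤ) < cN s N) ∧ cN s N ≤ ((k (i + 1) : ℕ) : ℤ))
  · obtain ⟨v1, v2⟩ := van hv
    rw [v1, v2]
    simpa using hTB
  push Not at hv
  have g1 : ∀ i, j i ≤ k i := fun i => (hv i).1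
  have g2 : ∀ i, j i ≤ k (i + 1) := fun i => (hv i).2.1
  have g3 : ∀ i, ((j i : ℕ) : ℤ) < cN s N → ((k (i + 1) : ℕ) : ℤ) < cN s N :=
    fun i => (hv i).2.2
  -- positivity of the prefactors
  set a : ℕ → ℕ → ℝ := fun k j => fS (2 * s + 1) (N - k) / (fS (2 * s + 1) (k - j) *
    fS (2 * s + 1) (N - j)) with ha_def
  have ha_pos : ∀ k j : ℕ, k ≤ N → 0 < a k j := by
    intro k j hk
    have f1 := fS_pos (n := 2 * s + 1) (m := N - k) (by omega)
    have f2 := fS_pos (n := 2 * s + 1) (m := k - j) (by omega)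
    have f3 := fS_pos (n := 2 * s + 1) (m := N - j) (by omega)
    exact div_pos f1 (mul_pos f2 f3)
  set e : ℕ → ℕ → ℂ := fun k j =>
    Complex.exp (((Real.pi * (k : ℕ) * (j : ℕ) / ((2 * s + 1 : ℕ) : ℝ) : ℝ) : ℂ) * Complex.I)
    with he_def
  have he_norm : ∀ k j, ‖e k j‖ = 1 := fun k j => Complex.norm_exp_ofReal_mul_I _
  set w : ℕ → ℕ → ℝ := fun j k => ∏ l ∈ Ioc j k, ‖phi (tt s) N l‖ with hw_def
  have hwn : ∀ j k, w j k = ‖∏ l ∈ Ioc j k, phi (tt s) N l‖ := by
    intro j k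
    rw [norm_prod]
  by_cases hA : ∃ i, ((k i : ℕ) : ℤ) < cN s N
  · -- main block
    obtain ⟨i₀, hi₀⟩ := hA
    have hk : ∀ i, ((k i : ℕ) : ℤ) < cN s N := by
      refine Split_ind _ (fun i hi => g3 i ?_) hi₀
      have := g1 i
      have h2 : ((j i : ℕ) : ℤ) ≤ ((k i : ℕ) : ℤ) := by exact_mod_cast this
      exact lt_of_le_of_lt h2 hi
    have hj : ∀ i, ((j i : ℕ) : ℤ) < cN s N := by
      intro i
      have h2 : ((j i : ℕ) : ℤ) ≤ ((k i : ℕ) : ℤ) := by exact_mod_cast g1 i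
      exact lt_of_le_of_lt h2 (hk i)
    set R : ℕ → ℕ → ℝ := fun k j => bS (2 * s + 1) (k : ℕ) (j : ℕ) *
      bS (2 * s + 1) ((k : ℕ) + 2 * (2 * s - N)) ((j : ℕ) + 2 * (2 * s - N)) with hR_def
    have key : ∀ k j : ℕ, j ≤ k → k ≤ N → (k : ℤ) < cN s N →
        0 < R k j ∧ (∏ l ∈ Ioc j k, phi (tt s) N l) = ((w j k : ℝ) : ℂ) ∧
          w j k = R k j / a k j ^ 2 := by
      intro k j h1 h2 h3
      obtain ⟨h4, h5⟩ := phi_main hN h1 h2 h3
      have h6 : w j k = R k j / a k j ^ 2 := by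
        rw [hwn, h5, Complex.norm_real, Real.norm_of_nonneg]
        exact (div_pos h4 (pow_pos (ha_pos _ _ h2) 2)).le
      refine ⟨h4, ?_, h6⟩
      rw [h6]
      exact h5
    have hcyc : ∏ i, w (j i) (k (i + 1)) = ∏ i, w (j i) (k i) := by
      refine Split_cyc (fun i => (k i : ℕ)) (fun i => (j i : ℕ)) 0 (fun l => ‖phi (tt s) N l‖)
        (fun i => Nat.zero_le _) (fun i => g1 i) (fun i => g2 i) (fun i => ?_)
      have h := key (j i) 0 (Nat.zero_le _) (by omega) (hj i)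
      have h2 : 0 < w 0 (j i) := by
        rw [h.2.2]
        exact div_pos h.1 (pow_pos (ha_pos _ _ (by omega)) 2)
      exact h2.ne'
    have hreal := Split_real (fun i => (k i : ℕ)) (fun i => (j i : ℕ)) a R w
      (fun i => ha_pos _ _ (by omega)) (fun i => ha_pos _ _ (by omega))
      (fun i => (key _ _ (g1 i) (by omega) (hk i)).1)
      (fun i => (key _ _ (g2 i) (by omega) (hk (i + 1))).1)
      (fun i => (key _ _ (g1 i) (by omega) (hk i)).2.2)
      (fun i => (key _ _ (g2 i) (by omega) (hk (i + 1))).2.2) hcyc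
    have hpc : ∏ i, p (k i) * star (p (k (i + 1))) = 1 := by
      rw [prod_mul_distrib]
      have : ∏ i, star (p (k (i + 1))) = ∏ i, star (p (k i)) :=
        Equiv.prod_comp (Equiv.addRight (1 : Fin K)) (fun i => star (p (k i)))
      rw [this, ← prod_mul_distrib]
      refine Finset.prod_eq_one fun i _ => ?_
      have := Complex.mul_conj (p (k i))
      rw [Complex.star_def, this, Complex.normSq_eq_norm_sq, hp]
      simp
    have hqc : ∏ i, q (j i) * star (q (j i)) = 1 := by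
      refine Finset.prod_eq_one fun i _ => ?_
      have := Complex.mul_conj (q (j i))
      rw [Complex.star_def, this, Complex.normSq_eq_norm_sq, hq]
      simp
    have hT : (∏ i, alM s (tt s) N (k i) (j i) * stM s (tt s) N (j i) (k (i + 1))) =
        (∏ i, p (k i) * star (p (k (i + 1)))) * (∏ i, q (j i) * star (q (j i))) *
        (((∏ i, (a (k i) (j i) * (a (k (i + 1)) (j i) * w (j i) (k (i + 1)))) : ℝ)) : ℂ) *
        ∏ i, e (k i) (j i) * star (e (k (i + 1)) (j i)) := by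
      push_cast
      rw [← prod_mul_distrib, ← prod_mul_distrib, ← prod_mul_distrib]
      refine prod_congr rfl fun i _ => ?_
      unfold stM
      rw [hal _ _ (g1 i), hal _ _ (g2 i), (key _ _ (g2 i) (by omega) (hk (i + 1))).2.1]
      simp only [star_mul', Complex.star_def, Complex.conj_ofReal]
      simp only [ha_def, he_def]
      ring
    have hTA : (∏ i, Am s N (k i) (j i) * (Am s N).conjTranspose (j i) (k (i + 1))) =
        (((∏ i, √(R (k i) (j i)) * √(R (k (i + 1)) (j i)) : ℝ)) : ℂ) *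
        ∏ i, e (k i) (j i) * star (e (k (i + 1)) (j i)) := by
      push_cast
      rw [← prod_mul_distrib]
      refine prod_congr rfl fun i _ => ?_
      rw [Matrix.conjTranspose_apply]
      unfold Am
      rw [if_pos ⟨hk i, hj i⟩, if_pos ⟨hk (i + 1), hj i⟩]
      simp only [star_mul', Complex.star_def, Complex.conj_ofReal]
      simp only [hR_def, he_def]
      ring
    rw [hT, hTA, hpc, hqc, hreal, one_mul, one_mul, sub_self, norm_zero]
    exact hTB
  · -- rest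
    push Not at hA
    have hj : ∀ i, cN s N ≤ ((j i : ℕ) : ℤ) := by
      intro i
      by_contra h
      push Not at h
      exact absurd (g3 i h) (not_lt.mpr (hA (i + 1)))
    have hTA : (∏ i, Am s N (k i) (j i) * (Am s N).conjTranspose (j i) (k (i + 1))) = 0 := by
      refine Finset.prod_eq_zero (mem_univ 0) ?_
      unfold Am
      rw [if_neg (fun hh => absurd hh.1 (not_lt.mpr (hA 0))), zero_mul]
    rw [hTA, sub_zero]
    set R : ℕ → ℕ → ℝ := fun k j => bS (2 * s + 1) (k : ℕ) (j : ℕ) *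
      bS (2 * s + 1) (2 * N + 1 - (j : ℕ)) ((k : ℕ) - (j : ℕ)) with hR_def
    have key : ∀ k j : ℕ, j ≤ k → k ≤ N → cN s N ≤ (j : ℤ) →
        0 < R k j ∧ w j k = R k j / a k j ^ 2 := by
      intro k j h1 h2 h3
      obtain ⟨h4, h5⟩ := phi_rest hN h1 h2 h3
      exact ⟨h4, (hwn j k).trans h5⟩
    have hc0 : ∀ i, (cN s N).toNat ≤ (j i : ℕ) := by
      intro i
      have := hj i
      omega
    have hcyc : ∏ i, w (j i) (k (i + 1)) = ∏ i, w (j i) (k i) := by
      refine Split_cyc (fun i => (k i : ℕ)) (fun i => (j i : ℕ)) (cN s N).toNat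
        (fun l => ‖phi (tt s) N l‖) hc0 (fun i => g1 i) (fun i => g2 i) (fun i => ?_)
      have h := key (j i) (cN s N).toNat (hc0 i) (by omega) (by omega)
      have h2 : 0 < w (cN s N).toNat (j i) := by
        rw [h.2]
        exact div_pos h.1 (pow_pos (ha_pos _ _ (by omega)) 2)
      exact h2.ne'
    have hreal := Split_real (fun i => (k i : ℕ)) (fun i => (j i : ℕ)) a R w
      (fun i => ha_pos _ _ (by omega)) (fun i => ha_pos _ _ (by omega))
      (fun i => (key _ _ (g1 i) (by omega) (hj i)).1)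
      (fun i => (key _ _ (g2 i) (by omega) (hj i)).1)
      (fun i => (key _ _ (g1 i) (by omega) (hj i)).2)
      (fun i => (key _ _ (g2 i) (by omega) (hj i)).2) hcyc
    have hTB' : (∏ i, Br s N (k i) (j i) * (Br s N).transpose (j i) (k (i + 1))) =
        ∏ i, √(R (k i) (j i)) * √(R (k (i + 1)) (j i)) := by
      refine prod_congr rfl fun i _ => ?_
      rw [Matrix.transpose_apply]
      unfold Br
      rw [if_pos ⟨hA i, hj i⟩, if_pos ⟨hA (i + 1), hj i⟩]
    rw [hTB', ← hreal, norm_prod]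
    refine le_of_eq (prod_congr rfl fun i _ => ?_)
    unfold stM
    rw [hal _ _ (g1 i), hal _ _ (g2 i)]
    simp only [norm_mul, norm_star, hp, hq, Complex.norm_real, one_mul]
    rw [← hwn, Complex.norm_exp_ofReal_mul_I, Complex.norm_exp_ofReal_mul_I,
      Real.norm_of_nonneg (ha_pos _ _ (by omega)).le, Real.norm_of_nonneg (ha_pos _ _ (by omega)).le]
    simp only [ha_def]
    ring

end Pool.Agent.Work.MP_b30479_gt.AX
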