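import Pool.Agent.Work.MP_b30479_gt.AX.Formula
import Pool.Agent.Work.MP_b30479_gt.AX.Peak
import Pool.Agent.Work.MP_b30479_gt.AX.Riem
import Pool.Agent.Work.MP_b30479_gt.AX.HGauss
import Pool.Agent.Work.MP_b30479_gt.AX.Split
import Pool.Agent.Work.MP_b30479_gt.AX.RestB
import Pool.Agent.Work.MP_b30479_gt.AX.MainSum

/-!
# The volume conjecture for the braid-axis links
-/

namespace Pool.Agent.Work.MP_b30479_gt.AX

open Finset TB Filter Topology MeasureTheory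

/-- the sum of the traces over the levels -/
noncomputable def TS (K s : ℕ) : ℂ :=
  ((alM s (tt s) (2 * s) * stM s (tt s) (2 * s)) ^ K).trace +
    2 * ∑ N ∈ range (2 * s), ((alM s (tt s) N * stM s (tt s) N) ^ K).trace

lemma TS_split {C c : ℝ} (hC : 0 < C) (hc : 0 < c) (h : ∀ n : ℕ, 3 ≤ n → ∀ x y : ℤ,
    beta n x y ≤ C * Real.exp (-c * ((x : ℝ) ^ 2 + (y : ℝ) ^ 2) / n)) {s : ℕ} (hs : 1 ≤ s)
    (K : ℕ) [NeZero K] :
    ‖TS K s - ((b0 (2 * s + 1) ^ (2 * K) : ℝ) : ℂ) * ∑' z : ZK K, FS K (2 * s + 1) z‖ ≤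
      2 * ((2 * s + 1 : ℕ) : ℝ) * (((2 * s + 1 : ℕ) : ℝ) ^ 2 * (b0 (2 * s + 1) ^ 2 * C ^ 2 *
        Real.exp (-c * ((2 * s + 1 : ℕ) : ℝ) / 54))) ^ K := by
  rw [← main_total hs K]
  set R := (((2 * s + 1 : ℕ) : ℝ) ^ 2 * (b0 (2 * s + 1) ^ 2 * C ^ 2 *
        Real.exp (-c * ((2 * s + 1 : ℕ) : ℝ) / 54))) ^ K with hR
  have hR0 : 0 ≤ R := by rw [hR]; positivity
  have h1 : ∀ N, N ≤ 2 * s → ‖((alM s (tt s) N * stM s (tt s) N) ^ K).trace -
      ((Am s N * (Am s N).conjTranspose) ^ K).trace‖ ≤ R := fun N hN =>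
    (level_split hN K).trans (rest_bound hC hc h hs hN K)
  have e : TS K s - (((Am s (2 * s) * (Am s (2 * s)).conjTranspose) ^ K).trace +
      2 * ∑ N ∈ range (2 * s), ((Am s N * (Am s N).conjTranspose) ^ K).trace) =
      (((alM s (tt s) (2 * s) * stM s (tt s) (2 * s)) ^ K).trace -
      ((Am s (2 * s) * (Am s (2 * s)).conjTranspose) ^ K).trace) +
      2 * ∑ N ∈ range (2 * s), (((alM s (tt s) N * stM s (tt s) N) ^ K).trace -
      ((Am s N * (Am s N).conjTranspose) ^ K).trace) := by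
    unfold TS
    rw [Finset.sum_sub_distrib]
    ring
  rw [e]
  refine (norm_add_le _ _).trans ?_
  have h2 : ‖(2 : ℂ) * ∑ N ∈ range (2 * s), (((alM s (tt s) N * stM s (tt s) N) ^ K).trace -
      ((Am s N * (Am s N).conjTranspose) ^ K).trace)‖ ≤ 2 * ((2 * s : ℕ) * R) := by
    rw [norm_mul]
    have e2 : ‖(2 : ℂ)‖ = 2 := by simp
    rw [e2]
    apply mul_le_mul_of_nonneg_left _ (by norm_num)
    refine (norm_sum_le _ _).trans ?_
    refine (Finset.sum_le_sum (fun N hN => h1 N (by rw [mem_range] at hN; omega))).trans ?_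
    rw [Finset.sum_const, card_range, nsmul_eq_mul]
  have h3 := h1 (2 * s) le_rfl
  push_cast at h2 ⊢
  nlinarith

/-- normalised sums -/
noncomputable def AS (K s : ℕ) : ℂ :=
  TS K s / (((b0 (2 * s + 1) ^ (2 * K) * √((2 * s + 1 : ℕ) : ℝ) ^ (2 * K + 1)) : ℝ) : ℂ)

lemma tendsto_odd : Tendsto (fun s : ℕ => 2 * s + 1) atTop atTop := by
  apply tendsto_atTop_mono (fun s => (by omega : s ≤ 2 * s + 1)) tendsto_id

lemma AS_tendsto (K : ℕ) [NeZero K] : ∃ r : ℝ, 0 < r ∧ Tendsto (AS K) atTop (𝓝 (r : ℂ)) := by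
  obtain ⟨C, c, hC, hc, hb⟩ := beta_dom
  obtain ⟨C', c', hc', hd⟩ := FS_dom K
  obtain ⟨hi, hl⟩ := riem hc' (FS_fin K) hd (FS_lim K)
  obtain ⟨r, hr, hI⟩ := GK_int_pos K hi
  refine ⟨r, hr, ?_⟩
  rw [hI] at hl
  have hl2 := hl.comp tendsto_odd
  -- the difference tends to zero
  have key : Tendsto (fun s : ℕ => AS K s - (((√((2 * s + 1 : ℕ) : ℝ))⁻¹ ^ (2 * K + 1) : ℝ) : ℂ) *
      ∑' z : ZK K, FS K (2 * s + 1) z) atTop (𝓝 0) := by
    have hz : Tendsto (fun s : ℕ => 2 * ((2 * s + 1 : ℕ) : ℝ) * (((2 * s + 1 : ℕ) : ℝ) ^ 2 *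
        (C ^ 2 * Real.exp (-c * ((2 * s + 1 : ℕ) : ℝ) / 54))) ^ K) atTop (𝓝 0) := by
      have hb0 : 0 < c * K / 54 := by
        have : (0 : ℝ) < K := by exact_mod_cast Nat.pos_of_ne_zero (NeZero.ne K)
        positivity
      have h1 := (Real.tendsto_pow_mul_exp_neg_atTop_nhds_zero (2 * K + 1)).comp
        ((tendsto_id.const_mul_atTop hb0).comp
        (tendsto_natCast_atTop_atTop.comp tendsto_odd))
      have h2 := h1.const_mul (2 * C ^ (2 * K) / (c * K / 54) ^ (2 * K + 1))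
      rw [mul_zero] at h2
      refine h2.congr (fun s => ?_)
      simp only [Function.comp_apply, id_eq]
      have e : Real.exp (-(c * K / 54 * ((2 * s + 1 : ℕ) : ℝ))) =
          Real.exp (-c * ((2 * s + 1 : ℕ) : ℝ) / 54) ^ K := by
        rw [← Real.exp_nat_mul]
        congr 1
        ring
      rw [e, mul_pow, mul_pow, mul_pow]
      have hne : (c * K / 54) ≠ 0 := hb0.ne'
      have hne2 : (c * K / 54) ^ (2 * K + 1) ≠ 0 := pow_ne_zero _ hne
      field_simp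
      ring
    rw [tendsto_zero_iff_norm_tendsto_zero]
    refine squeeze_zero' (Eventually.of_forall fun s => norm_nonneg _) ?_ hz
    filter_upwards [eventually_ge_atTop 1] with s hs
    have hn : (1 : ℝ) ≤ ((2 * s + 1 : ℕ) : ℝ) := by exact_mod_cast (by omega : 1 ≤ 2 * s + 1)
    have hbp := b0_pos (n := 2 * s + 1) (by omega)
    have hsq : 1 ≤ √((2 * s + 1 : ℕ) : ℝ) := by
      rw [Real.one_le_sqrt]
      exact hn
    have hsq0 : (0 : ℝ) < √((2 * s + 1 : ℕ) : ℝ) := by linarith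
    set D : ℝ := b0 (2 * s + 1) ^ (2 * K) * √((2 * s + 1 : ℕ) : ℝ) ^ (2 * K + 1) with hD
    have hD0 : 0 < D := by positivity
    have e1 : AS K s - (((√((2 * s + 1 : ℕ) : ℝ))⁻¹ ^ (2 * K + 1) : ℝ) : ℂ) *
        ∑' z : ZK K, FS K (2 * s + 1) z = (TS K s - ((b0 (2 * s + 1) ^ (2 * K) : ℝ) : ℂ) *
        ∑' z : ZK K, FS K (2 * s + 1) z) / (D : ℂ) := by
      unfold AS
      rw [← hD, sub_div]
      congr 1
      have hD1 : (D : ℂ) ≠ 0 := by exact_mod_cast hD0.ne'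
      rw [eq_div_iff hD1, hD]
      have e3 : (√((2 * s + 1 : ℕ) : ℝ))⁻¹ ^ (2 * K + 1) * √((2 * s + 1 : ℕ) : ℝ) ^ (2 * K + 1) = 1 := by
        rw [← mul_pow, inv_mul_cancel₀ hsq0.ne', one_pow]
      have e4 : (((√((2 * s + 1 : ℕ) : ℝ))⁻¹ ^ (2 * K + 1) : ℝ) : ℂ) *
          ((√((2 * s + 1 : ℕ) : ℝ) ^ (2 * K + 1) : ℝ) : ℂ) = 1 := by
        rw [← Complex.ofReal_mul, e3, Complex.ofReal_one]
      rw [Complex.ofReal_mul]
      calc _ = ((((√((2 * s + 1 : ℕ) : ℝ))⁻¹ ^ (2 * K + 1) : ℝ) : ℂ) *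
          ((√((2 * s + 1 : ℕ) : ℝ) ^ (2 * K + 1) : ℝ) : ℂ)) *
          (((b0 (2 * s + 1) ^ (2 * K) : ℝ) : ℂ) * ∑' z : ZK K, FS K (2 * s + 1) z) := by ring
        _ = _ := by rw [e4, one_mul]
    rw [e1, norm_div, Complex.norm_of_nonneg hD0.le, div_le_iff₀ hD0]
    refine (TS_split hC hc hb hs K).trans ?_
    have e5 : (((2 * s + 1 : ℕ) : ℝ) ^ 2 * (b0 (2 * s + 1) ^ 2 * C ^ 2 *
        Real.exp (-c * ((2 * s + 1 : ℕ) : ℝ) / 54))) ^ K = b0 (2 * s + 1) ^ (2 * K) *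
        (((2 * s + 1 : ℕ) : ℝ) ^ 2 *
        (C ^ 2 * Real.exp (-c * ((2 * s + 1 : ℕ) : ℝ) / 54))) ^ K := by
      rw [pow_mul, ← mul_pow]
      congr 1
      ring
    rw [e5]
    have h6 : 1 ≤ √((2 * s + 1 : ℕ) : ℝ) ^ (2 * K + 1) := one_le_pow₀ hsq
    set Q : ℝ := (((2 * s + 1 : ℕ) : ℝ) ^ 2 *
        (C ^ 2 * Real.exp (-c * ((2 * s + 1 : ℕ) : ℝ) / 54))) ^ K with hQ
    have hQ0 : 0 ≤ Q := by rw [hQ]; positivity
    rw [hD]
    calc 2 * ((2 * s + 1 : ℕ) : ℝ) * (b0 (2 * s + 1) ^ (2 * K) * Q)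
        = (2 * ((2 * s + 1 : ℕ) : ℝ) * Q * b0 (2 * s + 1) ^ (2 * K)) * 1 := by ring
      _ ≤ (2 * ((2 * s + 1 : ℕ) : ℝ) * Q * b0 (2 * s + 1) ^ (2 * K)) *
          √((2 * s + 1 : ℕ) : ℝ) ^ (2 * K + 1) := by
          apply mul_le_mul_of_nonneg_left h6
          positivity
      _ = _ := by ring
  have := key.add hl2
  simp only [Function.comp_apply, zero_add] at this
  refine this.congr (fun s => ?_)
  push_cast
  ring

/-- the factor coming from the framing -/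
noncomputable def ph (s : ℕ) : ℂ := tt s ^ (-6 * ((s : ℤ) * (s + 1)))

lemma kashaev_eq (K s : ℕ) : kashaev (axisWord (wordK K)) (2 * s + 1) =
    ph s * (((2 * s + 1 : ℕ) : ℂ) * TS K s) := by
  unfold kashaev
  have e : (2 * s + 1 - 1) / 2 = s := by omega
  rw [e]
  have hval : ((Units.mk0 (Complex.exp (2 * Real.pi * Complex.I / ((2 * s + 1 : ℕ) : ℂ)))
      (Complex.exp_ne_zero _) : ℂˣ) : ℂ) = tt s := rfl
  rw [formula (u := Units.mk0 (Complex.exp (2 * Real.pi * Complex.I / ((2 * s + 1 : ℕ) : ℂ)))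
      (Complex.exp_ne_zero _)) (by rw [hval]; exact tt_prim s) K, hval,
    Units.val_zpow_eq_zpow_val, hval]
  unfold ph TS
  push_cast
  ring

lemma ph_eq (s : ℕ) : ph s =
    Complex.exp (((3 * Real.pi / ((2 * s + 1 : ℕ) : ℝ) : ℝ) : ℂ) * Complex.I) * (-1) := by
  unfold ph tt
  rw [← Complex.exp_int_mul, ← Complex.exp_pi_mul_I, ← Complex.exp_add]
  have hn : ((2 * s + 1 : ℕ) : ℂ) ≠ 0 := by exact_mod_cast (by omega : 2 * s + 1 ≠ 0)
  rw [Complex.exp_eq_exp_iff_exists_int]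
  refine ⟨-(3 * (s : ℤ) + 2), ?_⟩
  push_cast at hn ⊢
  have e1 : -6 * ((s : ℂ) * (s + 1)) * (2 * Real.pi * Complex.I / (2 * s + 1)) =
      (3 * Real.pi / (2 * s + 1) - 3 * Real.pi * (2 * s + 1)) * Complex.I := by
    field_simp
    ring
  rw [e1]
  ring

lemma ph_ne (s : ℕ) : ph s ≠ 0 := by
  rw [ph_eq]
  exact mul_ne_zero (Complex.exp_ne_zero _) (by norm_num)

lemma ph_tendsto : Tendsto ph atTop (𝓝 (-1)) := by
  have h1 : Tendsto (fun s : ℕ => 3 * Real.pi / ((2 * s + 1 : ℕ) : ℝ)) atTop (𝓝 0) :=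
    (tendsto_const_nhds.div_atTop (tendsto_natCast_atTop_atTop.comp tendsto_odd))
  have h2 : Tendsto (fun s : ℕ =>
      Complex.exp (((3 * Real.pi / ((2 * s + 1 : ℕ) : ℝ) : ℝ) : ℂ) * Complex.I) * (-1)) atTop
      (𝓝 (Complex.exp (((0 : ℝ) : ℂ) * Complex.I) * (-1))) := by
    apply Tendsto.mul_const
    exact (Complex.continuous_exp.tendsto _).comp
      (((Complex.continuous_ofReal.tendsto _).comp h1).mul_const _)
  simp only [Complex.ofReal_zero, zero_mul, Complex.exp_zero, one_mul] at h2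
  exact h2.congr (fun s => (ph_eq s).symm)

theorem main (K : ℕ) [NeZero K] :
    (∀ᶠ s : ℕ in atTop, kashaev (axisWord (wordK K)) (2 * s + 1) ≠ 0) ∧
    Tendsto (fun s : ℕ => (Real.pi : ℂ) * Complex.log (kashaev (axisWord (wordK K)) (2 * s + 3) /
      kashaev (axisWord (wordK K)) (2 * s + 1))) atTop (𝓝 ((2 * K * volFigureEight : ℝ) : ℂ)) := by
  obtain ⟨r, hr, hA⟩ := AS_tendsto K
  have hr0 : (r : ℂ) ≠ 0 := by exact_mod_cast hr.ne'
  have hAne : ∀ᶠ s in atTop, AS K s ≠ 0 := hA.eventually_ne hr0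
  -- positive normalisation
  set D : ℕ → ℝ := fun s => b0 (2 * s + 1) ^ (2 * K) * √((2 * s + 1 : ℕ) : ℝ) ^ (2 * K + 1) with hD
  have hDpos : ∀ s, 1 ≤ s → 0 < D s := by
    intro s hs
    have hbp := b0_pos (n := 2 * s + 1) (by omega)
    have : (0 : ℝ) < ((2 * s + 1 : ℕ) : ℝ) := by exact_mod_cast (by omega : 0 < 2 * s + 1)
    rw [hD]
    positivity
  have hTS : ∀ s, 1 ≤ s → TS K s = (D s : ℂ) * AS K s := by
    intro s hs
    have h1 : ((D s : ℝ) : ℂ) ≠ 0 := by exact_mod_cast (hDpos s hs).ne'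
    unfold AS
    rw [mul_div_cancel₀ _ h1]
  refine ⟨?_, ?_⟩
  · filter_upwards [hAne, eventually_ge_atTop 1] with s h1 h2
    rw [kashaev_eq, hTS s h2]
    have h3 : ((D s : ℝ) : ℂ) ≠ 0 := by exact_mod_cast (hDpos s h2).ne'
    have h4 : ((2 * s + 1 : ℕ) : ℂ) ≠ 0 := by exact_mod_cast (by omega : 2 * s + 1 ≠ 0)
    exact mul_ne_zero (ph_ne s) (mul_ne_zero h4 (mul_ne_zero h3 h1))
  · -- the ratio
    have hq : Tendsto (fun s : ℕ => (((2 * (s + 1) + 1 : ℕ) : ℝ)) / ((2 * s + 1 : ℕ) : ℝ)) atTop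
        (𝓝 1) := by
      have h1 : Tendsto (fun s : ℕ => 1 + 2 / ((2 * s + 1 : ℕ) : ℝ)) atTop (𝓝 (1 + 0)) :=
        tendsto_const_nhds.add
          (tendsto_const_nhds.div_atTop (tendsto_natCast_atTop_atTop.comp tendsto_odd))
      rw [add_zero] at h1
      refine h1.congr (fun s => ?_)
      have : ((2 * s + 1 : ℕ) : ℝ) ≠ 0 := by exact_mod_cast (by omega : 2 * s + 1 ≠ 0)
      field_simp
      push_cast
      ring
    have hb : Tendsto (fun s : ℕ => b0 (2 * (s + 1) + 1) / b0 (2 * s + 1)) atTop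
        (𝓝 (Real.exp (volFigureEight / Real.pi))) := by
      refine (b0_ratio.comp tendsto_odd).congr (fun s => ?_)
      rfl
    have hDr : Tendsto (fun s : ℕ => D (s + 1) / D s) atTop
        (𝓝 (Real.exp (2 * K * volFigureEight / Real.pi))) := by
      have h1 := (hb.pow (2 * K)).mul ((hq.sqrt).pow (2 * K + 1))
      rw [Real.sqrt_one, one_pow, mul_one, ← Real.exp_nat_mul] at h1
      have e : ((2 * K : ℕ) : ℝ) * (volFigureEight / Real.pi) =
          2 * K * volFigureEight / Real.pi := by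
        push_cast
        ring
      rw [e] at h1
      refine h1.congr (fun s => ?_)
      rw [hD]
      simp only
      rw [Real.sqrt_div' _ (by positivity), div_pow, div_pow, div_mul_div_comm]
    have hAr : Tendsto (fun s : ℕ => AS K (s + 1) / AS K s) atTop (𝓝 1) := by
      have := ((tendsto_add_atTop_iff_nat (f := AS K) 1).mpr hA).div hA hr0
      rwa [div_self hr0] at this
    have hpr : Tendsto (fun s : ℕ => ph (s + 1) / ph s) atTop (𝓝 1) := by
      have := ((tendsto_add_atTop_iff_nat (f := ph) 1).mpr ph_tendsto).div ph_tendsto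
        (by norm_num)
      rwa [div_self (by norm_num : (-1 : ℂ) ≠ 0)] at this
    have hall : Tendsto (fun s : ℕ => kashaev (axisWord (wordK K)) (2 * s + 3) /
        kashaev (axisWord (wordK K)) (2 * s + 1)) atTop
        (𝓝 ((Real.exp (2 * K * volFigureEight / Real.pi) : ℝ) : ℂ)) := by
      have h1 := (hpr.mul (((Complex.continuous_ofReal.tendsto _).comp hq).mul
        (((Complex.continuous_ofReal.tendsto _).comp hDr).mul hAr)))
      simp only [one_mul, mul_one, Complex.ofReal_one] at h1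
      refine h1.congr' ?_
      filter_upwards [eventually_ge_atTop 1, hAne] with s hs hne
      have e1 : 2 * s + 3 = 2 * (s + 1) + 1 := by ring
      rw [e1, kashaev_eq, kashaev_eq, hTS s hs, hTS (s + 1) (by omega)]
      have h3 : ((D s : ℝ) : ℂ) ≠ 0 := by exact_mod_cast (hDpos s hs).ne'
      have h4 : ((2 * s + 1 : ℕ) : ℂ) ≠ 0 := by exact_mod_cast (by omega : 2 * s + 1 ≠ 0)
      have h5 := ph_ne s
      simp only [Function.comp_apply, Complex.ofReal_div, Complex.ofReal_natCast]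
      field_simp
    have hlog := (hall.clog (by
      rw [Complex.mem_slitPlane_iff]
      left
      rw [Complex.ofReal_re]
      exact Real.exp_pos _)).const_mul (Real.pi : ℂ)
    rw [← Complex.ofReal_log (Real.exp_pos _).le, Real.log_exp, ← Complex.ofReal_mul] at hlog
    have e : Real.pi * (2 * K * volFigureEight / Real.pi) = 2 * K * volFigureEight := by
      field_simp
    rwa [e] at hlog

end Pool.Agent.Work.MP_b30479_gt.AX
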