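import Pool.Agent.Work.MP_b30479_gt.AX.Defs

/-!
# `E` is nilpotent of order `2s+1`
-/

namespace Pool.Agent.Work.MP_b30479_gt.AX

open Finset Polynomial TB

lemma nilp_comm {R : Type*} [Ring R] [Algebra ℂ R] {q : ℂ} {A B : R} (h : B * A = q • (A * B))
    (k : ℕ) : B * A ^ k = q ^ k • (A ^ k * B) := by
  induction k with
  | zero => simp
  | succ k ih =>
    rw [pow_succ, ← mul_assoc, ih, smul_mul_assoc, mul_assoc, h, mul_smul_comm, smul_smul,
      ← mul_assoc, pow_succ]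

/-- the `q`-binomial theorem -/
lemma nilp_binom {R : Type*} [Ring R] [Algebra ℂ R] {q : ℂ} {A B : R}
    (h : B * A = q • (A * B)) (n : ℕ) :
    (A + B) ^ n = ∑ k ∈ range (n + 1), gauss q n k • (A ^ k * B ^ (n - k)) := by
  induction n with
  | zero => simp
  | succ n ih =>
    rw [pow_succ', ih, Finset.mul_sum]
    have e1 : ∀ k ∈ range (n + 1), (A + B) * gauss q n k • (A ^ k * B ^ (n - k)) =
        gauss q n k • (A ^ (k + 1) * B ^ (n + 1 - (k + 1))) +
        (q ^ k * gauss q n k) • (A ^ k * B ^ (n + 1 - k)) := by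
      intro k hk
      rw [mem_range] at hk
      rw [mul_smul_comm, add_mul, ← mul_assoc, ← mul_assoc, nilp_comm h, smul_mul_assoc,
        mul_assoc (A ^ k) B, ← pow_succ' B, smul_add, smul_smul, mul_comm (gauss q n k) (q ^ k),
        ← pow_succ' A, Nat.add_sub_add_right, show n - k + 1 = n + 1 - k by omega]
    rw [Finset.sum_congr rfl e1, Finset.sum_add_distrib]
    rw [Finset.sum_range_succ' (fun k => gauss q (n + 1) k • (A ^ k * B ^ (n + 1 - k)))]
    have e2 : ∀ k ∈ range (n + 1), gauss q (n + 1) (k + 1) • (A ^ (k + 1) * B ^ (n + 1 - (k + 1))) =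
        gauss q n k • (A ^ (k + 1) * B ^ (n + 1 - (k + 1))) +
        (q ^ (k + 1) * gauss q n (k + 1)) • (A ^ (k + 1) * B ^ (n + 1 - (k + 1))) := by
      intro k _
      rw [gauss_succ_succ, add_smul]
    rw [Finset.sum_congr rfl e2, Finset.sum_add_distrib, add_assoc]
    congr 1
    rw [Finset.sum_range_succ' (fun k => (q ^ k * gauss q n k) • (A ^ k * B ^ (n + 1 - k)))]
    rw [Finset.sum_range_succ (fun k => (q ^ (k + 1) * gauss q n (k + 1)) •
      (A ^ (k + 1) * B ^ (n + 1 - (k + 1))))]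
    rw [gauss_eq_zero_of_lt q (Nat.lt_succ_self n)]
    simp

theorem add_pow_root {R : Type*} [Ring R] [Algebra ℂ R] {n : ℕ} (hn : 0 < n) {q : ℂ}
    (hq : IsPrimitiveRoot q n) {A B : R} (h : B * A = q • (A * B)) :
    (A + B) ^ n = A ^ n + B ^ n := by
  rw [nilp_binom h]
  obtain ⟨m, rfl⟩ : ∃ m, n = m + 1 := ⟨n - 1, by omega⟩
  rw [Finset.sum_range_succ, Finset.sum_range_succ']
  rw [Finset.sum_eq_zero]
  · have : gauss q (m + 1) (m + 1) = 1 := by
      have h0 : ∀ k : ℕ, gauss q k k = 1 := by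
        intro k
        induction k with
        | zero => simp
        | succ k ih => rw [gauss_succ_succ, ih, gauss_eq_zero_of_lt q (Nat.lt_succ_self k)]; simp
      exact h0 _
    rw [this]
    simp [add_comm]
  · intro k hk
    rw [mem_range] at hk
    rw [gauss_primitive q hq (by omega) (by omega), zero_smul]

/-- `E` on the first factor -/
noncomputable def nilpA (s : ℕ) (t : ℂ) : Matrix (I2 s) (I2 s) ℂ := fun p q =>
  if (q.1 : ℕ) = p.1 + 1 ∧ q.2 = p.2 then (1 - t⁻¹ ^ ((p.1 : ℕ) + 1)) * t ^ ((s : ℤ) - (p.2 : ℕ))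
    else 0

/-- `E` on the second factor -/
noncomputable def nilpB (s : ℕ) (t : ℂ) : Matrix (I2 s) (I2 s) ℂ := fun p q =>
  if q.1 = p.1 ∧ (q.2 : ℕ) = p.2 + 1 then 1 - t⁻¹ ^ ((p.2 : ℕ) + 1) else 0

lemma nilp_Em (s : ℕ) (t : ℂ) : Em s t = nilpA s t + nilpB s t := by
  ext p q
  rfl

lemma nilpA_pow (s : ℕ) (t : ℂ) (k : ℕ) : ∀ p q : I2 s, (q.1 : ℕ) ≠ p.1 + k →
    (nilpA s t ^ k) p q = 0 := by
  induction k with
  | zero =>
    intro p q hpq
    rw [pow_zero, Matrix.one_apply_ne]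
    rintro rfl
    exact hpq rfl
  | succ k ih =>
    intro p q hpq
    rw [pow_succ, Matrix.mul_apply]
    apply Finset.sum_eq_zero
    intro r _
    by_cases hr : (r.1 : ℕ) = p.1 + k
    · have : nilpA s t r q = 0 := by
        unfold nilpA
        rw [if_neg (by omega)]
      rw [this, mul_zero]
    · rw [ih p r hr, zero_mul]

lemma nilpB_pow (s : ℕ) (t : ℂ) (k : ℕ) : ∀ p q : I2 s, (q.2 : ℕ) ≠ p.2 + k →
    (nilpB s t ^ k) p q = 0 := by
  induction k with
  | zero =>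
    intro p q hpq
    rw [pow_zero, Matrix.one_apply_ne]
    rintro rfl
    exact hpq rfl
  | succ k ih =>
    intro p q hpq
    rw [pow_succ, Matrix.mul_apply]
    apply Finset.sum_eq_zero
    intro r _
    by_cases hr : (r.2 : ℕ) = p.2 + k
    · have : nilpB s t r q = 0 := by
        unfold nilpB
        rw [if_neg (by omega)]
      rw [this, mul_zero]
    · rw [ih p r hr, zero_mul]

lemma nilp_BA (s : ℕ) {t : ℂ} (ht : t ≠ 0) :
    nilpB s t * nilpA s t = t⁻¹ • (nilpA s t * nilpB s t) := by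
  ext p q
  rw [Matrix.smul_apply, Matrix.mul_apply, Matrix.mul_apply]
  by_cases hq : (q.1 : ℕ) = p.1 + 1 ∧ (q.2 : ℕ) = p.2 + 1
  · obtain ⟨h1, h2⟩ := hq
    rw [Finset.sum_eq_single (p.1, q.2), Finset.sum_eq_single (q.1, p.2)]
    · have f1 : nilpB s t p (p.1, q.2) = 1 - t⁻¹ ^ ((p.2 : ℕ) + 1) := by
        unfold nilpB
        exact if_pos ⟨rfl, h2⟩
      have f2 : nilpA s t (p.1, q.2) q =
          (1 - t⁻¹ ^ ((p.1 : ℕ) + 1)) * t ^ ((s : ℤ) - (q.2 : ℕ)) := by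
        unfold nilpA
        exact if_pos ⟨h1, rfl⟩
      have f3 : nilpA s t p (q.1, p.2) =
          (1 - t⁻¹ ^ ((p.1 : ℕ) + 1)) * t ^ ((s : ℤ) - (p.2 : ℕ)) := by
        unfold nilpA
        exact if_pos ⟨h1, rfl⟩
      have f4 : nilpB s t (q.1, p.2) q = 1 - t⁻¹ ^ ((p.2 : ℕ) + 1) := by
        unfold nilpB
        exact if_pos ⟨rfl, h2⟩
      rw [f1, f2, f3, f4, h2]
      have e : t ^ ((s : ℤ) - ((p.2 : ℕ) + 1 : ℕ)) = t⁻¹ * t ^ ((s : ℤ) - (p.2 : ℕ)) := by
        rw [← zpow_neg_one t, ← zpow_add₀ ht]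
        congr 1
        push_cast
        ring
      rw [e, smul_eq_mul]
      ring
    · intro r _ hr
      unfold nilpA nilpB
      by_cases h3 : (r.1 : ℕ) = p.1 + 1 ∧ r.2 = p.2
      · exact absurd (Prod.ext (Fin.ext (h3.1.trans h1.symm)) h3.2 : r = (q.1, p.2)) hr
      · rw [if_neg h3, zero_mul]
    · intro hc
      exact absurd (mem_univ _) hc
    · intro r _ hr
      unfold nilpA nilpB
      by_cases h3 : r.1 = p.1 ∧ (r.2 : ℕ) = p.2 + 1
      · exact absurd (Prod.ext h3.1 (Fin.ext (h3.2.trans h2.symm)) : r = (p.1, q.2)) hr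
      · rw [if_neg h3, zero_mul]
    · intro hc
      exact absurd (mem_univ _) hc
  · rw [Finset.sum_eq_zero, Finset.sum_eq_zero, smul_zero]
    · intro r _
      unfold nilpA nilpB
      by_cases h3 : (r.1 : ℕ) = p.1 + 1 ∧ r.2 = p.2
      · rw [if_pos h3]
        rw [if_neg, mul_zero]
        rintro ⟨h4, h5⟩
        apply hq
        refine ⟨by rw [h4, h3.1], by rw [h5, h3.2]⟩
      · rw [if_neg h3, zero_mul]
    · intro r _
      unfold nilpA nilpB
      by_cases h3 : r.1 = p.1 ∧ (r.2 : ℕ) = p.2 + 1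
      · rw [if_pos h3]
        rw [if_neg, mul_zero]
        rintro ⟨h4, h5⟩
        apply hq
        refine ⟨by rw [h4, h3.1], by rw [h5, h3.2]⟩
      · rw [if_neg h3, zero_mul]

theorem Em_pow {s : ℕ} {t : ℂ} (h : IsPrimitiveRoot t (2 * s + 1)) : Em s t ^ (2 * s + 1) = 0 := by
  have ht : t ≠ 0 := h.ne_zero (by omega)
  rw [nilp_Em, add_pow_root (by omega) h.inv (nilp_BA s ht)]
  have e1 : nilpA s t ^ (2 * s + 1) = 0 := by
    ext p q
    rw [nilpA_pow s t _ p q (by have := q.1.isLt; omega)]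
    rfl
  have e2 : nilpB s t ^ (2 * s + 1) = 0 := by
    ext p q
    rw [nilpB_pow s t _ p q (by have := q.2.isLt; omega)]
    rfl
  rw [e1, e2, add_zero]

/-- `E` on the first two factors -/
noncomputable def nilpA3 (s : ℕ) (t : ℂ) : Module.End ℂ (V3 s) where
  toFun X k := t ^ ((s : ℤ) - (k : ℕ)) • (Em s t).mulVec (X k)
  map_add' X Y := by
    funext k
    simp only [Pi.add_apply, Matrix.mulVec_add, smul_add]
  map_smul' c X := by
    funext k
    simp only [Pi.smul_apply, Matrix.mulVec_smul, RingHom.id_apply]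
    rw [smul_comm c]

/-- `E` on the third factor -/
noncomputable def nilpB3 (s : ℕ) (t : ℂ) : Module.End ℂ (V3 s) where
  toFun X k := if h : (k : ℕ) + 1 < 2 * s + 1 then (1 - t⁻¹ ^ ((k : ℕ) + 1)) • X ⟨(k : ℕ) + 1, h⟩
    else 0
  map_add' X Y := by
    funext k
    by_cases h : (k : ℕ) + 1 < 2 * s + 1
    · simp only [Pi.add_apply, dif_pos h, smul_add]
    · simp only [Pi.add_apply, dif_neg h, add_zero]
  map_smul' c X := by
    funext k
    by_cases h : (k : ℕ) + 1 < 2 * s + 1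
    · simp only [Pi.smul_apply, dif_pos h, RingHom.id_apply]
      rw [smul_comm c]
    · simp only [Pi.smul_apply, dif_neg h, smul_zero, RingHom.id_apply]

lemma nilp_E3 (s : ℕ) (t : ℂ) : E3 s t = nilpA3 s t + nilpB3 s t := by
  ext1 X
  rfl

lemma nilpA3_pow (s : ℕ) (t : ℂ) (m : ℕ) : ∀ (X : V3 s) (k : Fin (2 * s + 1)),
    (nilpA3 s t ^ m) X k = (t ^ ((s : ℤ) - (k : ℕ))) ^ m • (Em s t ^ m).mulVec (X k) := by
  induction m with
  | zero => intro X k; simp
  | succ m ih =>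
    intro X k
    rw [pow_succ' (nilpA3 s t), Module.End.mul_apply]
    show t ^ ((s : ℤ) - (k : ℕ)) • (Em s t).mulVec ((nilpA3 s t ^ m) X k) = _
    rw [ih, Matrix.mulVec_smul, smul_smul, ← pow_succ', Matrix.mulVec_mulVec, ← pow_succ']

lemma nilpB3_pow (s : ℕ) (t : ℂ) (m : ℕ) : ∀ (X : V3 s) (k : Fin (2 * s + 1)),
    2 * s + 1 ≤ (k : ℕ) + m → (nilpB3 s t ^ m) X k = 0 := by
  induction m with
  | zero => intro X k hk; exact absurd k.isLt (by omega)
  | succ m ih =>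
    intro X k hk
    rw [pow_succ', Module.End.mul_apply]
    show (if h : (k : ℕ) + 1 < 2 * s + 1 then
      (1 - t⁻¹ ^ ((k : ℕ) + 1)) • (nilpB3 s t ^ m) X ⟨(k : ℕ) + 1, h⟩ else 0) = 0
    by_cases h : (k : ℕ) + 1 < 2 * s + 1
    · rw [dif_pos h, ih X ⟨(k : ℕ) + 1, h⟩ (by simp only; omega), smul_zero]
    · rw [dif_neg h]

lemma nilp_BA3 (s : ℕ) {t : ℂ} (ht : t ≠ 0) :
    nilpB3 s t * nilpA3 s t = t⁻¹ • (nilpA3 s t * nilpB3 s t) := by
  apply LinearMap.ext
  intro X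
  funext k
  show (if h : (k : ℕ) + 1 < 2 * s + 1 then (1 - t⁻¹ ^ ((k : ℕ) + 1)) •
      (t ^ ((s : ℤ) - ((k : ℕ) + 1 : ℕ)) • (Em s t).mulVec (X ⟨(k : ℕ) + 1, h⟩)) else 0) =
    t⁻¹ • (t ^ ((s : ℤ) - (k : ℕ)) • (Em s t).mulVec (if h : (k : ℕ) + 1 < 2 * s + 1 then
      (1 - t⁻¹ ^ ((k : ℕ) + 1)) • X ⟨(k : ℕ) + 1, h⟩ else 0))
  by_cases h : (k : ℕ) + 1 < 2 * s + 1
  · rw [dif_pos h, dif_pos h, Matrix.mulVec_smul, smul_smul, smul_smul, smul_smul]
    congr 1
    have e : t ^ ((s : ℤ) - ((k : ℕ) + 1 : ℕ)) = t⁻¹ * t ^ ((s : ℤ) - (k : ℕ)) := by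
      rw [← zpow_neg_one t, ← zpow_add₀ ht]
      congr 1
      push_cast
      ring
    rw [e]
    ring
  · rw [dif_neg h, dif_neg h]
    simp

theorem E3_pow {s : ℕ} {t : ℂ} (h : IsPrimitiveRoot t (2 * s + 1)) : E3 s t ^ (2 * s + 1) = 0 := by
  have ht : t ≠ 0 := h.ne_zero (by omega)
  rw [nilp_E3, add_pow_root (by omega) h.inv (nilp_BA3 s ht)]
  apply LinearMap.ext
  intro X
  funext k
  show (nilpA3 s t ^ (2 * s + 1)) X k + (nilpB3 s t ^ (2 * s + 1)) X k = 0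
  rw [nilpA3_pow, nilpB3_pow s t _ X k (by omega), Em_pow h]
  simp

end Pool.Agent.Work.MP_b30479_gt.AX
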