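import Pool.Agent.Work.MP_b30479_gt.AX.CmF

/-!
# Operators on `V ⊗ V ⊗ V`
-/

namespace Pool.Agent.Work.MP_b30479_gt.AX

open Finset Polynomial TB

theorem op12_mul {s : ℕ} (S T : Matrix (I2 s) (I2 s) ℂ) : op12 (S * T) = op12 S * op12 T := by
  apply LinearMap.ext
  intro X
  funext k
  exact (Matrix.mulVec_mulVec _ _ _).symm

lemma ops_op23_apply {s : ℕ} (T : Matrix (I2 s) (I2 s) ℂ) (X : V3 s) (k : Fin (2 * s + 1))
    (p : I2 s) : op23 T X k p = ∑ q : I2 s, T (p.2, k) q * X q.2 (p.1, q.1) := rfl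

theorem op23_mul {s : ℕ} (S T : Matrix (I2 s) (I2 s) ℂ) : op23 (S * T) = op23 S * op23 T := by
  apply LinearMap.ext
  intro X
  funext k p
  show op23 (S * T) X k p = op23 S (op23 T X) k p
  rw [ops_op23_apply, ops_op23_apply]
  simp only [ops_op23_apply, Matrix.mul_apply, Finset.sum_mul, Finset.mul_sum]
  rw [Finset.sum_comm]
  refine Finset.sum_congr rfl fun q _ => Finset.sum_congr rfl fun r _ => ?_
  rw [mul_assoc]

/-- `op12` as an algebra homomorphism -/
noncomputable def ops_h12 (s : ℕ) : Matrix (I2 s) (I2 s) ℂ →ₐ[ℂ] Module.End ℂ (V3 s) :=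
  AlgHom.ofLinearMap
    { toFun := op12
      map_add' := fun S T => by
        apply LinearMap.ext
        intro X
        funext k
        exact Matrix.add_mulVec _ _ _
      map_smul' := fun c S => by
        apply LinearMap.ext
        intro X
        funext k
        exact Matrix.smul_mulVec _ _ _ }
    (by
      apply LinearMap.ext
      intro X
      funext k
      exact Matrix.one_mulVec _)
    (fun S T => op12_mul S T)

/-- `op23` as an algebra homomorphism -/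
noncomputable def ops_h23 (s : ℕ) : Matrix (I2 s) (I2 s) ℂ →ₐ[ℂ] Module.End ℂ (V3 s) :=
  AlgHom.ofLinearMap
    { toFun := op23
      map_add' := fun S T => by
        apply LinearMap.ext
        intro X
        funext k p
        show op23 (S + T) X k p = op23 S X k p + op23 T X k p
        simp only [ops_op23_apply, Matrix.add_apply, add_mul, Finset.sum_add_distrib]
      map_smul' := fun c S => by
        apply LinearMap.ext
        intro X
        funext k p
        show op23 (c • S) X k p = c * op23 S X k p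
        simp only [ops_op23_apply, Matrix.smul_apply, smul_eq_mul, Finset.mul_sum, mul_assoc] }
    (by
      apply LinearMap.ext
      intro X
      funext k p
      show op23 1 X k p = X k p
      rw [ops_op23_apply, Finset.sum_eq_single (p.2, k)]
      · rw [Matrix.one_apply_eq, one_mul]
      · intro q _ hq
        rw [Matrix.one_apply_ne (Ne.symm hq), zero_mul]
      · intro h
        exact absurd (Finset.mem_univ _) h)
    (fun S T => op23_mul S T)

theorem op12_aeval {s : ℕ} (T : Matrix (I2 s) (I2 s) ℂ) (p : ℂ[X]) :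
    op12 (aeval T p) = aeval (op12 T) p :=
  (Polynomial.aeval_algHom_apply (ops_h12 s) T p).symm

theorem op23_aeval {s : ℕ} (T : Matrix (I2 s) (I2 s) ℂ) (p : ℂ[X]) :
    op23 (aeval T p) = aeval (op23 T) p :=
  (Polynomial.aeval_algHom_apply (ops_h23 s) T p).symm

theorem E3_op12 {s : ℕ} {t : ℂ} (h : IsPrimitiveRoot t (2 * s + 1)) :
    Commute (E3 s t) (op12 (Cm s t)) := by
  apply LinearMap.ext
  intro X
  funext k
  show t ^ ((s : ℤ) - (k : ℕ)) • (Em s t).mulVec ((Cm s t).mulVec (X k)) +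
      (if h : (k : ℕ) + 1 < 2 * s + 1 then
        (1 - t⁻¹ ^ ((k : ℕ) + 1)) • (Cm s t).mulVec (X ⟨(k : ℕ) + 1, h⟩) else 0) =
    (Cm s t).mulVec (t ^ ((s : ℤ) - (k : ℕ)) • (Em s t).mulVec (X k) +
      if h : (k : ℕ) + 1 < 2 * s + 1 then (1 - t⁻¹ ^ ((k : ℕ) + 1)) • X ⟨(k : ℕ) + 1, h⟩ else 0)
  rw [Matrix.mulVec_add, Matrix.mulVec_smul, Matrix.mulVec_mulVec, Matrix.mulVec_mulVec,
    Em_comm_Cm h]
  congr 1
  by_cases hk : (k : ℕ) + 1 < 2 * s + 1
  · rw [dif_pos hk, dif_pos hk, Matrix.mulVec_smul]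
  · rw [dif_neg hk, dif_neg hk, Matrix.mulVec_zero]

lemma ops_Em {s : ℕ} (t : ℂ) (Y : I2 s → ℂ) (p : I2 s) :
    (Em s t).mulVec Y p =
      (if h : (p.1 : ℕ) + 1 < 2 * s + 1 then
        (1 - t⁻¹ ^ ((p.1 : ℕ) + 1)) * t ^ ((s : ℤ) - (p.2 : ℕ)) * Y (⟨(p.1 : ℕ) + 1, h⟩, p.2)
        else 0) +
      (if h : (p.2 : ℕ) + 1 < 2 * s + 1 then
        (1 - t⁻¹ ^ ((p.2 : ℕ) + 1)) * Y (p.1, ⟨(p.2 : ℕ) + 1, h⟩) else 0) := by
  show ∑ q, Em s t p q * Y q = _
  unfold Em
  simp only [add_mul]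
  rw [Finset.sum_add_distrib]
  congr 1
  · by_cases h : (p.1 : ℕ) + 1 < 2 * s + 1
    · rw [dif_pos h, Finset.sum_eq_single (⟨(p.1 : ℕ) + 1, h⟩, p.2)]
      · rw [if_pos ⟨rfl, rfl⟩]
      · intro q _ hq
        rw [if_neg, zero_mul]
        rintro ⟨h1, h2⟩
        exact hq (Prod.ext (Fin.ext h1) h2)
      · intro hc
        exact absurd (Finset.mem_univ _) hc
    · rw [dif_neg h]
      apply Finset.sum_eq_zero
      intro q _
      rw [if_neg, zero_mul]
      rintro ⟨h1, h2⟩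
      have := q.1.isLt
      omega
  · by_cases h : (p.2 : ℕ) + 1 < 2 * s + 1
    · rw [dif_pos h, Finset.sum_eq_single (p.1, ⟨(p.2 : ℕ) + 1, h⟩)]
      · rw [if_pos ⟨rfl, rfl⟩]
      · intro q _ hq
        rw [if_neg, zero_mul]
        rintro ⟨h1, h2⟩
        exact hq (Prod.ext h1 (Fin.ext h2))
      · intro hc
        exact absurd (Finset.mem_univ _) hc
    · rw [dif_neg h]
      apply Finset.sum_eq_zero
      intro q _
      rw [if_neg, zero_mul]
      rintro ⟨h1, h2⟩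
      have := q.2.isLt
      omega

/-- the part of `E3` acting on the first tensor factor -/
noncomputable def ops_A (s : ℕ) (t : ℂ) : Module.End ℂ (V3 s) where
  toFun X k p := if h : (p.1 : ℕ) + 1 < 2 * s + 1 then
    t ^ ((s : ℤ) - (k : ℕ)) * ((1 - t⁻¹ ^ ((p.1 : ℕ) + 1)) * t ^ ((s : ℤ) - (p.2 : ℕ)) *
      X k (⟨(p.1 : ℕ) + 1, h⟩, p.2)) else 0
  map_add' X Y := by
    funext k p
    simp only [Pi.add_apply]
    by_cases h : (p.1 : ℕ) + 1 < 2 * s + 1
    · rw [dif_pos h, dif_pos h, dif_pos h]; ring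
    · rw [dif_neg h, dif_neg h, dif_neg h, add_zero]
  map_smul' c X := by
    funext k p
    simp only [Pi.smul_apply, smul_eq_mul, RingHom.id_apply]
    by_cases h : (p.1 : ℕ) + 1 < 2 * s + 1
    · rw [dif_pos h, dif_pos h]; ring
    · rw [dif_neg h, dif_neg h, mul_zero]

lemma ops_E3_apply {s : ℕ} (t : ℂ) (X : V3 s) (k : Fin (2 * s + 1)) (p : I2 s) :
    E3 s t X k p = t ^ ((s : ℤ) - (k : ℕ)) * (Em s t).mulVec (X k) p +
      if h : (k : ℕ) + 1 < 2 * s + 1 then
        (1 - t⁻¹ ^ ((k : ℕ) + 1)) * X ⟨(k : ℕ) + 1, h⟩ p else 0 := by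
  show (t ^ ((s : ℤ) - (k : ℕ)) • (Em s t).mulVec (X k) +
    if h : (k : ℕ) + 1 < 2 * s + 1 then
      (1 - t⁻¹ ^ ((k : ℕ) + 1)) • X ⟨(k : ℕ) + 1, h⟩ else 0) p = _
  by_cases h : (k : ℕ) + 1 < 2 * s + 1
  · rw [dif_pos h, dif_pos h]; rfl
  · rw [dif_neg h, dif_neg h]; rfl

lemma ops_op23_Em {s : ℕ} (t : ℂ) (X : V3 s) (k : Fin (2 * s + 1)) (p : I2 s) :
    op23 (Em s t) X k p =
      (if h : (p.2 : ℕ) + 1 < 2 * s + 1 then
        (1 - t⁻¹ ^ ((p.2 : ℕ) + 1)) * t ^ ((s : ℤ) - (k : ℕ)) * X k (p.1, ⟨(p.2 : ℕ) + 1, h⟩)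
        else 0) +
      (if h : (k : ℕ) + 1 < 2 * s + 1 then
        (1 - t⁻¹ ^ ((k : ℕ) + 1)) * X ⟨(k : ℕ) + 1, h⟩ (p.1, p.2) else 0) :=
  ops_Em t (fun q => X q.2 (p.1, q.1)) (p.2, k)

lemma ops_E3_split (s : ℕ) (t : ℂ) : E3 s t = ops_A s t + op23 (Em s t) := by
  apply LinearMap.ext
  intro X
  funext k p
  show E3 s t X k p = ops_A s t X k p + op23 (Em s t) X k p
  rw [ops_E3_apply, ops_op23_Em, ops_Em]
  show _ = (if h : (p.1 : ℕ) + 1 < 2 * s + 1 then
    t ^ ((s : ℤ) - (k : ℕ)) * ((1 - t⁻¹ ^ ((p.1 : ℕ) + 1)) * t ^ ((s : ℤ) - (p.2 : ℕ)) *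
      X k (⟨(p.1 : ℕ) + 1, h⟩, p.2)) else 0) + _
  rw [← add_assoc]
  congr 1
  rw [mul_add]
  congr 1
  · by_cases h : (p.1 : ℕ) + 1 < 2 * s + 1
    · rw [dif_pos h, dif_pos h]
    · rw [dif_neg h, dif_neg h, mul_zero]
  · by_cases h : (p.2 : ℕ) + 1 < 2 * s + 1
    · rw [dif_pos h, dif_pos h]; ring
    · rw [dif_neg h, dif_neg h, mul_zero]

lemma ops_A_comm {s : ℕ} {t : ℂ} (h : IsPrimitiveRoot t (2 * s + 1)) :
    Commute (ops_A s t) (op23 (Cm s t)) := by
  have h0 : t ≠ 0 := h.ne_zero (by omega)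
  apply LinearMap.ext
  intro X
  funext k p
  show ops_A s t (op23 (Cm s t) X) k p = op23 (Cm s t) (ops_A s t X) k p
  rw [ops_op23_apply]
  show (if h : (p.1 : ℕ) + 1 < 2 * s + 1 then
      t ^ ((s : ℤ) - (k : ℕ)) * ((1 - t⁻¹ ^ ((p.1 : ℕ) + 1)) * t ^ ((s : ℤ) - (p.2 : ℕ)) *
        ∑ q : I2 s, Cm s t (p.2, k) q * X q.2 (⟨(p.1 : ℕ) + 1, h⟩, q.1)) else 0) =
    ∑ q : I2 s, Cm s t (p.2, k) q * (if h : (p.1 : ℕ) + 1 < 2 * s + 1 then
      t ^ ((s : ℤ) - (q.2 : ℕ)) * ((1 - t⁻¹ ^ ((p.1 : ℕ) + 1)) * t ^ ((s : ℤ) - (q.1 : ℕ)) *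
        X q.2 (⟨(p.1 : ℕ) + 1, h⟩, q.1)) else 0)
  by_cases hp : (p.1 : ℕ) + 1 < 2 * s + 1
  · simp only [dif_pos hp]
    rw [Finset.mul_sum, Finset.mul_sum]
    refine Finset.sum_congr rfl fun q _ => ?_
    by_cases hq : (p.2 : ℕ) + k = (q.1 : ℕ) + q.2
    · have e1 : t ^ ((s : ℤ) - (k : ℕ)) * t ^ ((s : ℤ) - (p.2 : ℕ)) =
          t ^ ((s : ℤ) - (q.2 : ℕ)) * t ^ ((s : ℤ) - (q.1 : ℕ)) := by
        rw [← zpow_add₀ h0, ← zpow_add₀ h0]
        congr 1
        omega
      linear_combination (1 - t⁻¹ ^ ((p.1 : ℕ) + 1)) * Cm s t (p.2, k) q *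
        X q.2 (⟨(p.1 : ℕ) + 1, hp⟩, q.1) * e1
    · rw [Cm_level (p := (p.2, k)) (q := q) hq]
      ring
  · simp only [dif_neg hp, mul_zero, Finset.sum_const_zero]

theorem E3_op23 {s : ℕ} {t : ℂ} (h : IsPrimitiveRoot t (2 * s + 1)) :
    Commute (E3 s t) (op23 (Cm s t)) := by
  rw [ops_E3_split]
  refine Commute.add_left (ops_A_comm h) ?_
  show op23 (Em s t) * op23 (Cm s t) = op23 (Cm s t) * op23 (Em s t)
  rw [← op23_mul, ← op23_mul, Em_comm_Cm h]

/-- the Casimir operator `C_{23}` on the kernel of `E` -/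
theorem op23_ker {s : ℕ} {t : ℂ} (h : IsPrimitiveRoot t (2 * s + 1)) {X : V3 s}
    (hX : E3 s t X = 0) : op23 (Cm s t) X 0 = (Um s t).mulVec (X 0) := by
  have h0 : t ≠ 0 := h.ne_zero (by omega)
  have h1 : t ^ (2 * s + 1) = 1 := h.pow_eq_one
  funext p
  obtain ⟨a, b⟩ := p
  rw [ops_op23_apply]
  show ∑ q : I2 s, Cm s t (b, 0) q * X q.2 (a, q.1) = ∑ q : I2 s, Um s t (a, b) q * X 0 q
  by_cases hb : (b : ℕ) = 0
  · -- bottom
    have hb0 : b = 0 := Fin.ext hb
    subst hb0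
    rw [Finset.sum_eq_single ((0 : Fin (2 * s + 1)), (0 : Fin (2 * s + 1))),
      Finset.sum_eq_single (a, (0 : Fin (2 * s + 1)))]
    · show cas s t ((0 : Fin (2 * s + 1)) : ℕ) ((0 : Fin (2 * s + 1)) : ℕ)
        ((0 : Fin (2 * s + 1)) : ℕ) ((0 : Fin (2 * s + 1)) : ℕ) * _ = _
      rw [cas_diag]
      unfold Um dg xx
      rw [if_pos rfl]
      simp only [Fin.val_zero, pow_zero, mul_one]
      ring
    · intro q _ hq
      unfold Um
      rw [if_neg hq, if_neg, zero_mul]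
      rintro ⟨_, h3⟩
      simp only [Fin.val_zero] at h3
      omega
    · intro hc
      exact absurd (Finset.mem_univ _) hc
    · intro q _ hq
      unfold Cm
      rw [CmF_ne, zero_mul]
      intro h3
      apply hq
      simp only [Fin.val_zero] at h3
      exact Prod.ext (Fin.ext (by simp only [Fin.val_zero]; omega))
        (Fin.ext (by simp only [Fin.val_zero]; omega))
    · intro hc
      exact absurd (Finset.mem_univ _) hc
  · have hbl := b.isLt
    have h1s : 1 < 2 * s + 1 := by omega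
    set b' : Fin (2 * s + 1) := ⟨(b : ℕ) - 1, by omega⟩ with hb'
    set e1 : Fin (2 * s + 1) := ⟨1, h1s⟩ with he1
    have hb'v : (b' : ℕ) = b - 1 := rfl
    have e1v : (e1 : ℕ) = 1 := rfl
    -- left side
    have hL : ∑ q : I2 s, Cm s t (b, 0) q * X q.2 (a, q.1) =
        dg s t b 0 * X 0 (a, b) + (1 - t ^ (b : ℕ)) * (1 - t⁻¹) * X e1 (a, b') := by
      have hne : (b, (0 : Fin (2 * s + 1))) ≠ (b', e1) := by
        intro hh
        have := congrArg (fun z : I2 s => (z.2 : ℕ)) hh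
        simp only [Fin.val_zero, e1v] at this
        omega
      rw [Finset.sum_eq_add (b, (0 : Fin (2 * s + 1))) (b', e1) hne]
      · congr 1
        · show cas s t (b : ℕ) ((0 : Fin (2 * s + 1)) : ℕ) (b : ℕ)
            ((0 : Fin (2 * s + 1)) : ℕ) * _ = _
          rw [cas_diag, Fin.val_zero]
        · show cas s t (b' : ℕ) (e1 : ℕ) (b : ℕ) ((0 : Fin (2 * s + 1)) : ℕ) * _ = _
          have : (b : ℕ) = (b' : ℕ) + 1 := by omega
          rw [Fin.val_zero, e1v, this]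
          rw [show cas s t (b' : ℕ) 1 ((b' : ℕ) + 1) 0 =
            (1 - t ^ ((b' : ℕ) + 1)) * (1 - t⁻¹ ^ (0 + 1)) from cas_up s t b' 0]
          rw [zero_add, pow_one]
      · intro q _ hq
        obtain ⟨hq1, hq2⟩ := hq
        unfold Cm
        rw [show cas s t q.1 q.2 (b : ℕ) ((0 : Fin (2 * s + 1)) : ℕ) = 0 from ?_, zero_mul]
        unfold cas
        rw [Fin.val_zero, if_neg, if_neg, if_neg]
        · rintro ⟨h2, h3⟩; omega
        · rintro ⟨h2, h3⟩
          apply hq2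
          exact Prod.ext (Fin.ext (by show (q.1 : ℕ) = (b' : ℕ); omega))
            (Fin.ext (by show (q.2 : ℕ) = (e1 : ℕ); omega))
        · rintro ⟨h2, h3⟩
          apply hq1
          exact Prod.ext (Fin.ext (by show (q.1 : ℕ) = (b : ℕ); omega))
            (Fin.ext (by show (q.2 : ℕ) = ((0 : Fin (2 * s + 1)) : ℕ); rw [Fin.val_zero]; omega))
      · intro hc
        exact absurd (Finset.mem_univ _) hc
      · intro hc
        exact absurd (Finset.mem_univ _) hc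
    -- the kernel relation
    have hK := congrFun (congrFun hX 0) (a, b')
    rw [ops_E3_apply, ops_Em] at hK
    rw [dif_pos (show ((0 : Fin (2 * s + 1)) : ℕ) + 1 < 2 * s + 1 by rw [Fin.val_zero]; omega)] at hK
    simp only [Fin.val_zero] at hK
    rw [dif_pos (show (b' : ℕ) + 1 < 2 * s + 1 by omega)] at hK
    have eb : (⟨(b' : ℕ) + 1, by omega⟩ : Fin (2 * s + 1)) = b := Fin.ext (by
      show (b : ℕ) - 1 + 1 = b
      omega)
    have eb2 : (b' : ℕ) + 1 = b := by omega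
    have eo : (⟨0 + 1, by omega⟩ : Fin (2 * s + 1)) = e1 := Fin.ext rfl
    rw [eo] at hK
    rw [show (X 0 (a, (⟨(b' : ℕ) + 1, by omega⟩ : Fin (2 * s + 1)))) = X 0 (a, b) by rw [eb]] at hK
    rw [hL]
    have hpb : t ^ (b : ℕ) * t⁻¹ ^ (b : ℕ) = 1 := by
      rw [← mul_pow, mul_inv_cancel₀ h0, one_pow]
    have z1 : t ^ ((s : ℤ) - ((0 : ℕ) : ℤ)) = t ^ s := by
      rw [Nat.cast_zero, sub_zero, zpow_natCast]
    have z2 : t ^ ((s : ℤ) - ((b' : ℕ) : ℤ)) = t ^ s * t * t⁻¹ ^ (b : ℕ) := by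
      have : (s : ℤ) - ((b' : ℕ) : ℤ) = (s : ℤ) + 1 - ((b : ℕ) : ℤ) := by
        have : ((b' : ℕ) : ℤ) = ((b : ℕ) : ℤ) - 1 := by
          rw [← eb2]; push_cast; ring
        rw [this]; ring
      rw [this, zpow_sub₀ h0, zpow_add₀ h0, zpow_natCast, zpow_one, zpow_natCast, inv_pow]
      rfl
    rw [z1, z2, eb2, zero_add, pow_one] at hK
    have hV : t ^ s * t ^ s * t = 1 := by rw [← h1]; ring
    by_cases ha : (a : ℕ) + 1 < 2 * s + 1
    · rw [dif_pos ha] at hK
      have hR : ∑ q : I2 s, Um s t (a, b) q * X 0 q =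
          xx s t b * X 0 (a, b) + (1 - t⁻¹ ^ (b : ℕ)) * (1 - t⁻¹ ^ ((a : ℕ) + 1)) *
            X 0 (⟨(a : ℕ) + 1, ha⟩, b') := by
        have hne : (a, b) ≠ ((⟨(a : ℕ) + 1, ha⟩ : Fin (2 * s + 1)), b') := by
          intro hh
          have := congrArg (fun z : I2 s => (z.1 : ℕ)) hh
          simp only at this
          omega
        rw [Finset.sum_eq_add (a, b) ((⟨(a : ℕ) + 1, ha⟩ : Fin (2 * s + 1)), b') hne]
        · congr 1
          · unfold Um
            rw [if_pos rfl]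
          · unfold Um
            rw [if_neg (Ne.symm hne), if_pos ⟨rfl, eb2⟩]
        · intro q _ hq
          obtain ⟨hq1, hq2⟩ := hq
          unfold Um
          rw [if_neg hq1, if_neg, zero_mul]
          rintro ⟨h2, h3⟩
          apply hq2
          exact Prod.ext (Fin.ext h2)
            (Fin.ext (by show (q.2 : ℕ) = (b' : ℕ); simp only at h3; omega))
        · intro hc
          exact absurd (Finset.mem_univ _) hc
        · intro hc
          exact absurd (Finset.mem_univ _) hc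
      rw [hR]
      unfold dg xx
      simp only [pow_zero, mul_one]
      have hK' : t ^ s * ((1 - t⁻¹ ^ ((a : ℕ) + 1)) * (t ^ s * t * t⁻¹ ^ (b : ℕ)) *
          X 0 (⟨(a : ℕ) + 1, ha⟩, b') + (1 - t⁻¹ ^ (b : ℕ)) * X 0 (a, b)) +
          (1 - t⁻¹) * X e1 (a, b') = 0 := hK
      generalize X 0 (⟨(a : ℕ) + 1, ha⟩, b') = x at *
      generalize X 0 (a, b) = y at *
      generalize X e1 (a, b') = z at *
      generalize t⁻¹ ^ ((a : ℕ) + 1) = w at *
      generalize t⁻¹ ^ (b : ℕ) = v at *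
      generalize t ^ (b : ℕ) = u at *
      rw [pow_succ t s]
      generalize t ^ s = V at *
      linear_combination (1 - u) * hK' - (1 - u) * (1 - w) * v * x * hV +
        (- V * y + (1 - w) * x) * hpb
    · rw [dif_neg ha] at hK
      have hR : ∑ q : I2 s, Um s t (a, b) q * X 0 q = xx s t b * X 0 (a, b) := by
        rw [Finset.sum_eq_single (a, b)]
        · unfold Um
          rw [if_pos rfl]
        · intro q _ hq
          unfold Um
          rw [if_neg hq, if_neg, zero_mul]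
          rintro ⟨h2, h3⟩
          have := q.1.isLt
          simp only at h2
          omega
        · intro hc
          exact absurd (Finset.mem_univ _) hc
      rw [hR]
      unfold dg xx
      simp only [pow_zero, mul_one]
      have hK' : t ^ s * (0 + (1 - t⁻¹ ^ (b : ℕ)) * X 0 (a, b)) +
          (1 - t⁻¹) * X e1 (a, b') = 0 := hK
      generalize X 0 (a, b) = y at *
      generalize X e1 (a, b') = z at *
      generalize t⁻¹ ^ (b : ℕ) = v at *
      generalize t ^ (b : ℕ) = u at *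
      rw [pow_succ t s]
      generalize t ^ s = V at *
      linear_combination (1 - u) * hK' - V * y * hpb

end Pool.Agent.Work.MP_b30479_gt.AX
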