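import Pool.Agent.Work.MP_b30479_gt.AX.Defs
import Pool.Agent.Work.MP_b30479_gt.TB.CasComm
import Pool.Agent.Work.MP_b30479_gt.TB.Plat

/-!
# Symmetries of the braiding
-/

namespace Pool.Agent.Work.MP_b30479_gt.AX

open Finset Polynomial TB

theorem Rm_level {s : ℕ} {u : ℂˣ} {b : Bool} {p q : I2 s}
    (h : (p.1 : ℕ) + p.2 ≠ (q.1 : ℕ) + q.2) : Rm s u b p q = 0 := by
  unfold Rm
  exact entry_ne h

/-- the adjoint of the braiding, all levels -/
theorem RmF_dag {s : ℕ} {u : ℂˣ} (h : IsPrimitiveRoot (u : ℂ) (2 * s + 1)) {i j a b : ℕ}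
    (hi : i ≤ 2 * s) (hj : j ≤ 2 * s) (ha : a ≤ 2 * s) (hb : b ≤ 2 * s) :
    star (entry s u true i j a b) = entry s u false b a j i := by
  by_cases hij : a + b = i + j
  swap
  · rw [entry_ne hij, entry_ne (by omega), star_zero]
  have hinv : IsPrimitiveRoot (u : ℂ)⁻¹ (2 * s + 1) := h.inv
  have h0 : (u : ℂ) ≠ 0 := u.ne_zero
  have e2s : (u : ℂ) ^ (2 * (s : ℤ) + 1) = 1 := by
    have := h.pow_eq_one
    rw [← zpow_natCast] at this
    push_cast at this
    exact this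
  rcases lt_or_ge a j with hlt | hge
  · rw [entry_true_zero _ _ _ _ _ _ hlt, entry_false_zero _ _ _ _ _ _ (by omega), star_zero]
  · obtain ⟨k, rfl⟩ : ∃ k, a = j + k := ⟨a - j, by omega⟩
    have hi2 : i = b + k := by omega
    subst hi2
    rw [entry_true s u (b + k) j k b rfl, entry_false s u b (j + k) k j rfl]
    rw [coeffPos_closed h (by omega) (by omega) (by omega),
      coeffNeg_closed h (by omega) (by omega) (by omega),
      show b + k - k = b by omega, show j + k - k = j by omega]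
    rw [star_mul', star_mul', star_div₀, star_mul', star_mul', star_mul', star_pow, star_neg,
      star_one, star_zpow₀, star_root h]
    have r1 : ∀ m, star (qf (u : ℂ) m) = qf (u : ℂ)⁻¹ m := fun m => star_qf h m
    have r2 : ∀ m, star (qf (u : ℂ)⁻¹ m) = qf (u : ℂ) m := fun m => by
      rw [star_qf hinv, inv_inv]
    rw [r1, r1, r1, r2, r2]
    have hq := qf_inv h k
    have nk : qf (u : ℂ)⁻¹ k ≠ 0 := qf_ne_zero hinv (by omega)
    have nk' : qf (u : ℂ) k ≠ 0 := qf_ne_zero h (by omega)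
    have nj : qf (u : ℂ)⁻¹ j ≠ 0 := qf_ne_zero hinv (by omega)
    have nb : qf (u : ℂ) b ≠ 0 := qf_ne_zero h (by omega)
    have e1 : (u : ℂ)⁻¹ ^ ((k.choose 2 : ℤ) - s * k + ((s : ℤ) - ((b + k : ℕ) : ℤ) + k) *
        ((s : ℤ) - j - k)) * (u : ℂ) ^ ((k + 1).choose 2) =
        (u : ℂ) ^ (-(s : ℤ) * k - ((s : ℤ) - b) * ((s : ℤ) - ((j + k : ℕ) : ℤ))) := by
      rw [inv_zpow, ← zpow_neg, ← zpow_natCast, ← zpow_add₀ h0]
      have e3 : ((u : ℂ) ^ (2 * (s : ℤ) + 1)) ^ (k : ℤ) = 1 := by rw [e2s, one_zpow]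
      rw [← mul_one ((u : ℂ) ^ (-(s : ℤ) * k - ((s : ℤ) - b) * ((s : ℤ) -
        ((j + k : ℕ) : ℤ)))), ← e3, ← zpow_mul, ← zpow_add₀ h0]
      congr 1
      rw [Nat.choose_succ_succ' k 1, Nat.choose_one_right]
      push_cast
      ring
    rw [← e1]
    generalize (u : ℂ)⁻¹ ^ ((k.choose 2 : ℤ) - s * k + ((s : ℤ) - ((b + k : ℕ) : ℤ) + k) *
        ((s : ℤ) - j - k)) = W
    have e4 : ((-1 : ℂ)) ^ k / qf (u : ℂ)⁻¹ k = (u : ℂ) ^ ((k + 1).choose 2) / qf (u : ℂ) k := by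
      rw [div_eq_div_iff nk nk', ← hq]
      ring
    calc W * (-1) ^ k * (qf (↑u) (b + k) * qf (↑u)⁻¹ (j + k) /
          (qf (↑u) b * qf (↑u)⁻¹ k * qf (↑u)⁻¹ j))
        = W * ((-1) ^ k / qf (↑u)⁻¹ k) * (qf (↑u) (b + k) * qf (↑u)⁻¹ (j + k) /
          (qf (↑u) b * qf (↑u)⁻¹ j)) := by
          generalize qf (u : ℂ)⁻¹ k = A1 at *
          generalize qf (u : ℂ)⁻¹ j = A2 at *
          generalize qf (u : ℂ)⁻¹ (j + k) = A3 at *
          field_simp
      _ = _ := by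
          rw [e4]
          generalize qf (u : ℂ)⁻¹ k = A1 at *
          generalize qf (u : ℂ)⁻¹ j = A2 at *
          generalize qf (u : ℂ)⁻¹ (j + k) = A3 at *
          field_simp

theorem Rm_dag {s : ℕ} {u : ℂˣ} (h : IsPrimitiveRoot (u : ℂ) (2 * s + 1)) (p q : I2 s) :
    Rm s u false (q.2, q.1) (p.2, p.1) = star (Rm s u true p q) := by
  unfold Rm
  simp only
  rw [RmF_dag h (by omega) (by omega) (by omega) (by omega)]

/-- the symmetry of the braiding -/
theorem RmF_omega {s : ℕ} {u : ℂˣ} (h : IsPrimitiveRoot (u : ℂ) (2 * s + 1)) {i j a b : ℕ}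
    (hi : i ≤ 2 * s) (hj : j ≤ 2 * s) (ha : a ≤ 2 * s) (hb : b ≤ 2 * s) :
    entry s u true (2 * s - j) (2 * s - i) (2 * s - b) (2 * s - a) = entry s u true i j a b := by
  by_cases hij : a + b = i + j
  swap
  · rw [entry_ne hij, entry_ne (by omega)]
  rcases lt_or_ge a j with hlt | hge
  · rw [entry_true_zero _ _ _ _ _ _ hlt, entry_true_zero _ _ _ _ _ _ (by omega)]
  · obtain ⟨k, rfl⟩ : ∃ k, a = j + k := ⟨a - j, by omega⟩
    have hi2 : i = b + k := by omega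
    subst hi2
    have e0 := entry_true s u (2 * s - j) (2 * s - (b + k)) k (2 * s - (j + k)) (by omega)
    rw [show 2 * s - (b + k) + k = 2 * s - b by omega] at e0
    rw [entry_true s u (b + k) j k b rfl, e0]
    rw [coeffPos_closed h (by omega) (by omega) (by omega),
      coeffPos_closed h (by omega) (by omega) (by omega),
      show b + k - k = b by omega, show 2 * s - j - k = 2 * s - (j + k) by omega,
      show 2 * s - (b + k) + k = 2 * s - b by omega]
    have hinv : IsPrimitiveRoot (u : ℂ)⁻¹ (2 * s + 1) := h.inv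
    have q1 := qf_inv_eq h j (by omega)
    have q2 := qf_inv_eq h (j + k) (by omega)
    have q3 := qf_inv_mul h b (by omega)
    have q4 := qf_inv_mul h (b + k) (by omega)
    have n0 : qf (u : ℂ) (2 * s) ≠ 0 := qf_ne_zero h le_rfl
    have n1 : qf (u : ℂ) j ≠ 0 := qf_ne_zero h (by omega)
    have n2 : qf (u : ℂ) (j + k) ≠ 0 := qf_ne_zero h (by omega)
    have n3 : qf (u : ℂ)⁻¹ b ≠ 0 := qf_ne_zero hinv (by omega)
    have n4 : qf (u : ℂ)⁻¹ (b + k) ≠ 0 := qf_ne_zero hinv (by omega)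
    have n5 : qf (u : ℂ) k ≠ 0 := qf_ne_zero h (by omega)
    have q3' : qf (u : ℂ) (2 * s - b) = qf (u : ℂ) (2 * s) / qf (u : ℂ)⁻¹ b := by
      rw [eq_div_iff n3, ← q3]
      ring
    have q4' : qf (u : ℂ) (2 * s - (b + k)) = qf (u : ℂ) (2 * s) / qf (u : ℂ)⁻¹ (b + k) := by
      rw [eq_div_iff n4, ← q4]
      ring
    rw [q1, q2, q3', q4']
    have e1 : ((k.choose 2 : ℤ) - s * k + ((s : ℤ) - ((2 * s - j : ℕ) : ℤ) + k) *
        ((s : ℤ) - ((2 * s - (b + k) : ℕ) : ℤ) - k)) =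
        ((k.choose 2 : ℤ) - s * k + ((s : ℤ) - ((b + k : ℕ) : ℤ) + k) * ((s : ℤ) - j - k)) := by
      rw [Nat.cast_sub (by omega), Nat.cast_sub (by omega)]
      push_cast
      ring
    rw [e1]
    congr 1
    generalize qf (u : ℂ)⁻¹ b = B at *
    generalize qf (u : ℂ)⁻¹ (b + k) = B' at *
    field_simp

theorem Rm_omega {s : ℕ} {u : ℂˣ} (h : IsPrimitiveRoot (u : ℂ) (2 * s + 1)) (p q : I2 s) :
    Rm s u true (Fin.rev p.2, Fin.rev p.1) (Fin.rev q.2, Fin.rev q.1) = Rm s u true p q := by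
  unfold Rm
  simp only [Fin.val_rev]
  have e : ∀ x : Fin (2 * s + 1), 2 * s + 1 - ((x : ℕ) + 1) = 2 * s - x := fun x => by omega
  rw [e, e, e, e]
  exact RmF_omega h (by omega) (by omega) (by omega) (by omega)

end Pool.Agent.Work.MP_b30479_gt.AX
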