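import Pool.Agent.Work.MP_b30479_gt.AX.CmF
import Pool.Agent.Work.MP_b30479_gt.AX.RmF

/-!
# The braiding is a polynomial in the Casimir operator
-/

namespace Pool.Agent.Work.MP_b30479_gt.AX

open Finset Polynomial TB

/-! ### polynomials in the Casimir matrix -/

theorem PolyEx_level {s : ℕ} {t : ℂ} (f : ℂ[X]) : ∀ p q : I2 s,
    (p.1 : ℕ) + p.2 ≠ (q.1 : ℕ) + q.2 → (aeval (Cm s t) f) p q = 0 := by
  induction f using Polynomial.induction_on' with
  | add f g hf hg =>
    intro p q h
    rw [map_add, Matrix.add_apply, hf p q h, hg p q h, add_zero]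
  | monomial n a =>
    intro p q h
    rw [← C_mul_X_pow_eq_monomial, map_mul, aeval_C, map_pow, aeval_X, Algebra.algebraMap_eq_smul_one,
      smul_mul_assoc, one_mul, Matrix.smul_apply]
    have h1 : ∀ (n : ℕ) (p q : I2 s), (p.1 : ℕ) + p.2 ≠ (q.1 : ℕ) + q.2 →
        (Cm s t ^ n) p q = 0 := by
      intro n
      induction n with
      | zero =>
        intro p q h
        rw [pow_zero, Matrix.one_apply_ne]
        rintro rfl
        exact h rfl
      | succ n ih =>
        intro p q h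
        rw [pow_succ, Matrix.mul_apply]
        apply Finset.sum_eq_zero
        intro r _
        by_cases hr : (p.1 : ℕ) + p.2 = (r.1 : ℕ) + r.2
        · rw [Cm_level (p := r) (q := q) (by omega), mul_zero]
        · rw [ih p r hr, zero_mul]
    rw [h1 n p q h, smul_zero]

/-- sums over pairs, of a function supported on the middle level -/
theorem PolyEx_sum {s : ℕ} (f : ℕ → ℕ → ℂ) (hf : ∀ a b, a + b ≠ 2 * s → f a b = 0) :
    ∑ r : I2 s, f r.1 r.2 = ∑ x ∈ AD (2 * s), f x.1 x.2 := by
  rw [Fintype.sum_prod_type]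
  exact sum_sq (N := 2 * s + 1) (m := 2 * s) (by omega) f hf

section
variable {s : ℕ} {u : ℂˣ} (h : IsPrimitiveRoot (u : ℂ) (2 * s + 1))
include h

/-- the braiding commutes with the Casimir matrix on the middle level -/
theorem PolyEx_comm (p q : I2 s) (hq : (q.1 : ℕ) + q.2 = 2 * s) :
    (Rm s u true * Cm s (u : ℂ)) p q = (Cm s (u : ℂ) * Rm s u true) p q := by
  by_cases hp : (p.1 : ℕ) + p.2 = 2 * s
  swap
  · rw [Matrix.mul_apply, Matrix.mul_apply]
    rw [Finset.sum_eq_zero, Finset.sum_eq_zero]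
    · intro r _
      by_cases hr : (p.1 : ℕ) + p.2 = (r.1 : ℕ) + r.2
      · rw [Rm_level (p := r) (q := q) (by omega), mul_zero]
      · rw [Cm_level hr, zero_mul]
    · intro r _
      by_cases hr : (p.1 : ℕ) + p.2 = (r.1 : ℕ) + r.2
      · rw [Cm_level (p := r) (q := q) (by omega), mul_zero]
      · rw [Rm_level hr, zero_mul]
  have hpb : (p.2 : ℕ) = 2 * s - p.1 := by omega
  have key := M_comm_cas h (fun a b => if a = q.1 then (1 : ℂ) else 0) (a := p.1) (by omega)
  have hM : ∀ (e : Ent) (a b : ℕ), a + b = 2 * s →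
      M e (fun a b => if a = q.1 then (1 : ℂ) else 0) a b = e q.1 q.2 a b := by
    intro e a b hab
    unfold M
    rw [hab, Finset.sum_eq_single ((q.1 : ℕ), (q.2 : ℕ))]
    · simp
    · rintro ⟨x, y⟩ hx hne
      rw [mem_AD] at hx
      simp only at hx ⊢
      rw [if_neg, mul_zero]
      rintro rfl
      apply hne
      rw [Prod.mk.injEq]
      exact ⟨rfl, by omega⟩
    · intro hc
      exact absurd (mem_AD.2 hq) hc
  have hM2 : ∀ (e : Ent) (Z Z' : ℕ → ℕ → ℂ) (a b : ℕ), a + b = 2 * s →
      (∀ x y, x + y = 2 * s → Z x y = Z' x y) → M e Z a b = M e Z' a b := by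
    intro e Z Z' a b hab hZ
    unfold M
    apply Finset.sum_congr rfl
    rintro ⟨x, y⟩ hx
    rw [mem_AD] at hx
    simp only at hx ⊢
    rw [hZ x y (by omega)]
  rw [hM2 (entry s u true) _ (fun x y => cas s (u : ℂ) q.1 q.2 x y) _ _ (by omega)
      (fun x y hxy => hM _ x y hxy),
    hM2 (cas s (u : ℂ)) _ (fun x y => entry s u true q.1 q.2 x y) _ _ (by omega)
      (fun x y hxy => hM _ x y hxy), ← hpb] at key
  have hpq : (p.1 : ℕ) + p.2 = 2 * s := hp
  unfold M at key
  rw [hpq] at key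
  rw [Matrix.mul_apply, Matrix.mul_apply]
  unfold Rm Cm
  rw [PolyEx_sum (fun x y => entry s u true x y p.1 p.2 * cas s (u : ℂ) q.1 q.2 x y),
    PolyEx_sum (fun x y => cas s (u : ℂ) x y p.1 p.2 * entry s u true q.1 q.2 x y)]
  · exact key
  · intro a b hab
    rw [entry_ne (by omega), mul_zero]
  · intro a b hab
    have : entry s u true a b p.1 p.2 = 0 := entry_ne (by omega)
    rw [this, zero_mul]

/-- commutation with polynomials on the middle level -/
theorem PolyEx_comm_poly (f : ℂ[X]) : ∀ p q : I2 s, (q.1 : ℕ) + q.2 = 2 * s →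
    (Rm s u true * aeval (Cm s (u : ℂ)) f) p q = (aeval (Cm s (u : ℂ)) f * Rm s u true) p q := by
  have h1 : ∀ (n : ℕ) (p q : I2 s), (q.1 : ℕ) + q.2 = 2 * s →
      (Rm s u true * Cm s (u : ℂ) ^ n) p q = (Cm s (u : ℂ) ^ n * Rm s u true) p q := by
    intro n
    induction n with
    | zero =>
      intro p q _
      rw [pow_zero, mul_one, one_mul]
    | succ n ih =>
      intro p q hq
      have e1 : (Rm s u true * Cm s (u : ℂ) ^ (n + 1)) p q =
          ((Cm s (u : ℂ) ^ n * Rm s u true) * Cm s (u : ℂ)) p q := by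
        rw [pow_succ, ← mul_assoc, Matrix.mul_apply, Matrix.mul_apply]
        apply Finset.sum_congr rfl
        intro r _
        by_cases hr : (r.1 : ℕ) + r.2 = 2 * s
        · rw [ih p r hr]
        · rw [Cm_level (p := r) (q := q) (by omega), mul_zero, mul_zero]
      rw [e1, pow_succ, mul_assoc, mul_assoc, Matrix.mul_apply, Matrix.mul_apply]
      apply Finset.sum_congr rfl
      intro r _
      rw [PolyEx_comm h r q hq]
  induction f using Polynomial.induction_on' with
  | add f g hf hg =>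
    intro p q hq
    rw [map_add, mul_add, add_mul, Matrix.add_apply, Matrix.add_apply, hf p q hq, hg p q hq]
  | monomial n a =>
    intro p q hq
    rw [← C_mul_X_pow_eq_monomial, map_mul, aeval_C, map_pow, aeval_X,
      Algebra.algebraMap_eq_smul_one, smul_mul_assoc, one_mul, Matrix.mul_smul, Matrix.smul_mul,
      Matrix.smul_apply, Matrix.smul_apply, h1 n p q hq]

/-- the basis vectors of the middle level are obtained from the first one -/
theorem PolyEx_cyclic : ∀ (n : ℕ) (i : Fin (2 * s + 1)), (i : ℕ) ≤ n → ∃ f : ℂ[X],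
    ∀ p : I2 s, (aeval (Cm s (u : ℂ)) f) p (0, Fin.rev 0) = if p = (i, Fin.rev i) then 1 else 0 := by
  intro n
  induction n with
  | zero =>
    intro i hi
    have h0 : i = 0 := Fin.ext (by simpa using hi)
    subst h0
    refine ⟨1, fun p => ?_⟩
    rw [map_one, Matrix.one_apply]
  | succ n ih =>
    intro i hi
    by_cases hin : (i : ℕ) ≤ n
    · exact ih i hin
    have hin' : (i : ℕ) = n + 1 := by omega
    have hn : n + 1 ≤ 2 * s := by
      have := i.2
      omega
    obtain ⟨f, hf⟩ := ih ⟨n, by omega⟩ le_rfl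
    set j : Fin (2 * s + 1) := ⟨n, by omega⟩ with hj
    have hinv : IsPrimitiveRoot (u : ℂ)⁻¹ (2 * s + 1) := h.inv
    -- the previous one
    obtain ⟨g, hg⟩ : ∃ g : ℂ[X], ∀ p : I2 s, (aeval (Cm s (u : ℂ)) g) p (0, Fin.rev 0) =
        if (p.1 : ℕ) + 1 = n ∧ (p.1 : ℕ) + p.2 = 2 * s then
          (1 - (u : ℂ)⁻¹ ^ n) * (1 - (u : ℂ) ^ (2 * s - n + 1)) *
            ((u : ℂ) ^ n * (u : ℂ)⁻¹ ^ (2 * s - n + 1)) else 0 := by
      by_cases hn0 : n = 0
      · refine ⟨0, fun p => ?_⟩
        rw [map_zero, Matrix.zero_apply, if_neg (by omega)]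
      · obtain ⟨g, hg⟩ := ih ⟨n - 1, by omega⟩ (by simp)
        refine ⟨C ((1 - (u : ℂ)⁻¹ ^ n) * (1 - (u : ℂ) ^ (2 * s - n + 1)) *
            ((u : ℂ) ^ n * (u : ℂ)⁻¹ ^ (2 * s - n + 1))) * g, fun p => ?_⟩
        rw [map_mul, aeval_C, Algebra.algebraMap_eq_smul_one, smul_mul_assoc, one_mul,
          Matrix.smul_apply, hg p, smul_eq_mul]
        have hiff : p = ((⟨n - 1, by omega⟩, Fin.rev ⟨n - 1, by omega⟩) : I2 s) ↔
            ((p.1 : ℕ) + 1 = n ∧ (p.1 : ℕ) + p.2 = 2 * s) := by
          rw [Prod.ext_iff, Fin.ext_iff, Fin.ext_iff, Fin.val_rev]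
          simp only
          omega
        by_cases hc : p = ((⟨n - 1, by omega⟩, Fin.rev ⟨n - 1, by omega⟩) : I2 s)
        · rw [if_pos hc, if_pos (hiff.1 hc), mul_one]
        · rw [if_neg hc, if_neg (fun h2 => hc (hiff.2 h2)), mul_zero]
    set up : ℂ := (1 - (u : ℂ) ^ (n + 1)) * (1 - (u : ℂ)⁻¹ ^ (2 * s - n)) with hup
    have hup0 : up ≠ 0 := mul_ne_zero (one_sub_pow_ne h (by omega) (by omega))
      (one_sub_pow_ne hinv (by omega) (by omega))
    refine ⟨C up⁻¹ * (X * f - C (dg s (u : ℂ) n (2 * s - n)) * f - g), fun p => ?_⟩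
    have e1 : (aeval (Cm s (u : ℂ)) (X * f)) p (0, Fin.rev 0) = Cm s (u : ℂ) p (j, Fin.rev j) := by
      rw [map_mul, aeval_X, Matrix.mul_apply, Finset.sum_eq_single (j, Fin.rev j)]
      · rw [hf, if_pos rfl, mul_one]
      · intro r _ hr
        rw [hf, if_neg hr, mul_zero]
      · intro hc
        exact absurd (Finset.mem_univ _) hc
    have hjv : (j : ℕ) = n := rfl
    have hjr : ((Fin.rev j : Fin (2 * s + 1)) : ℕ) = 2 * s - n := by
      rw [Fin.val_rev]
      omega
    rw [map_mul, map_sub, map_sub, aeval_C, Algebra.algebraMap_eq_smul_one, smul_mul_assoc,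
      one_mul, Matrix.smul_apply, Matrix.sub_apply, Matrix.sub_apply, e1, hg p, map_mul, aeval_C,
      Algebra.algebraMap_eq_smul_one, smul_mul_assoc, one_mul, Matrix.smul_apply, hf p]
    unfold Cm
    simp only [smul_eq_mul, hjv, hjr]
    have hiff1 : p = (j, Fin.rev j) ↔ ((p.1 : ℕ) = n ∧ (p.1 : ℕ) + p.2 = 2 * s) := by
      rw [Prod.ext_iff, Fin.ext_iff, Fin.ext_iff, hjr]
      simp only
      omega
    have hiff2 : p = (i, Fin.rev i) ↔ ((p.1 : ℕ) = n + 1 ∧ (p.1 : ℕ) + p.2 = 2 * s) := by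
      rw [Prod.ext_iff, Fin.ext_iff, Fin.ext_iff, Fin.val_rev]
      simp only
      omega
    by_cases hl : (p.1 : ℕ) + p.2 = 2 * s
    swap
    · have hz : cas s (u : ℂ) n (2 * s - n) p.1 p.2 = 0 := by
        unfold cas
        rw [if_neg (by omega), if_neg (by omega), if_neg (by omega)]
      rw [hz, if_neg (fun h2 => hl (hiff1.1 h2).2), if_neg (fun h2 => hl h2.2),
        if_neg (fun h2 => hl (hiff2.1 h2).2)]
      ring
    · by_cases h1 : (p.1 : ℕ) = n
      · have hp2 : (p.2 : ℕ) = 2 * s - n := by omega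
        rw [if_pos (hiff1.2 ⟨h1, hl⟩), if_neg (by omega), if_neg (fun h2 => by
          have := (hiff2.1 h2).1
          omega), h1, hp2, cas_diag]
        ring
      · by_cases h2 : (p.1 : ℕ) = n + 1
        · obtain ⟨m, hm⟩ : ∃ m, 2 * s - n = m + 1 := ⟨2 * s - n - 1, by omega⟩
          have hp2 : (p.2 : ℕ) = m := by omega
          rw [if_neg (fun h3 => h1 (hiff1.1 h3).1), if_neg (by omega),
            if_pos (hiff2.2 ⟨h2, hl⟩), h2, hp2, hm, cas_up, ← hm, ← hup]
          rw [mul_zero, sub_zero, sub_zero, inv_mul_cancel₀ hup0]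
        · by_cases h3 : (p.1 : ℕ) + 1 = n
          · have hp2 : (p.2 : ℕ) = 2 * s - n + 1 := by omega
            rw [if_neg (fun h3 => h1 (hiff1.1 h3).1), if_pos ⟨h3, hl⟩,
              if_neg (fun h4 => h2 (hiff2.1 h4).1), hp2, ← h3, cas_dn]
            rw [← h3] at *
            ring
          · rw [cas_zero _ _ _ _ _ _ h1 h2 (by omega), if_neg (fun h3 => h1 (hiff1.1 h3).1),
              if_neg (by omega), if_neg (fun h4 => h2 (hiff2.1 h4).1)]
            ring

/-- agreement on the middle level -/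
theorem PolyEx_mid : ∃ P : ℂ[X], ∀ p q : I2 s, (q.1 : ℕ) + q.2 = 2 * s →
    Rm s u true p q = (aeval (Cm s (u : ℂ)) P) p q := by
  choose f hf using fun i : Fin (2 * s + 1) => PolyEx_cyclic h i i le_rfl
  set P : ℂ[X] := ∑ i : Fin (2 * s + 1), C (Rm s u true (i, Fin.rev i) (0, Fin.rev 0)) * f i
    with hP
  have h0 : ∀ p : I2 s, (aeval (Cm s (u : ℂ)) P) p (0, Fin.rev 0) =
      Rm s u true p (0, Fin.rev 0) := by
    intro p
    rw [hP, map_sum, Matrix.sum_apply]
    have e1 : ∀ i : Fin (2 * s + 1), (aeval (Cm s (u : ℂ))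
        (C (Rm s u true (i, Fin.rev i) (0, Fin.rev 0)) * f i)) p (0, Fin.rev 0) =
        if p = (i, Fin.rev i) then Rm s u true (i, Fin.rev i) (0, Fin.rev 0) else 0 := by
      intro i
      rw [map_mul, aeval_C, Algebra.algebraMap_eq_smul_one, smul_mul_assoc, one_mul,
        Matrix.smul_apply, hf i p, smul_eq_mul, mul_ite, mul_one, mul_zero]
    rw [Finset.sum_congr rfl fun i _ => e1 i]
    by_cases hl : (p.1 : ℕ) + p.2 = 2 * s
    · have hp : p = (p.1, Fin.rev p.1) := Prod.ext rfl (Fin.ext (by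
        simp only [Fin.val_rev]
        omega))
      rw [Finset.sum_eq_single p.1]
      · rw [if_pos hp, ← hp]
      · intro i _ hi
        rw [if_neg]
        intro h2
        apply hi
        rw [h2]
      · intro hc
        exact absurd (Finset.mem_univ _) hc
    · rw [Rm_level (q := ((0, Fin.rev 0) : I2 s)) (by
        simp only [Fin.val_rev, Fin.val_zero]
        omega)]
      apply Finset.sum_eq_zero
      intro i _
      rw [if_neg]
      intro h2
      apply hl
      rw [h2]
      simp only [Fin.val_rev]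
      omega
  refine ⟨P, fun p q hq => ?_⟩
  have hq' : q = (q.1, Fin.rev q.1) := Prod.ext rfl (Fin.ext (by
    simp only [Fin.val_rev]
    omega))
  have hfq := hf q.1
  rw [← hq'] at hfq
  have h00 : (((0 : Fin (2 * s + 1)), Fin.rev (0 : Fin (2 * s + 1))).1 : ℕ) +
      ((0 : Fin (2 * s + 1)), Fin.rev (0 : Fin (2 * s + 1))).2 = 2 * s := by
    simp only [Fin.val_rev, Fin.val_zero]
    omega
  have e1 : ∀ T : Matrix (I2 s) (I2 s) ℂ,
      (T * aeval (Cm s (u : ℂ)) (f q.1)) p (0, Fin.rev 0) = T p q := by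
    intro T
    rw [Matrix.mul_apply, Finset.sum_eq_single q]
    · rw [hfq, if_pos rfl, mul_one]
    · intro r _ hr
      rw [hfq, if_neg hr, mul_zero]
    · intro hc
      exact absurd (Finset.mem_univ _) hc
  rw [← e1 (Rm s u true), ← e1 (aeval (Cm s (u : ℂ)) P),
    PolyEx_comm_poly h (f q.1) p (0, Fin.rev 0) h00, ← map_mul, mul_comm P, map_mul,
    Matrix.mul_apply, Matrix.mul_apply]
  apply Finset.sum_congr rfl
  intro r _
  rw [h0]

/-- the operator `E` commutes with the braiding on the lower levels -/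
theorem PolyEx_E (p q : I2 s) (hq : (q.1 : ℕ) + q.2 ≤ 2 * s) :
    (Em s (u : ℂ) * Rm s u true) p q = (Rm s u true * Em s (u : ℂ)) p q := by
  have hL : (Em s (u : ℂ) * Rm s u true) p q =
      (1 - (u : ℂ)⁻¹ ^ ((p.1 : ℕ) + 1)) * (u : ℂ) ^ ((s : ℤ) - (p.2 : ℕ)) *
        entry s u true q.1 q.2 (p.1 + 1) p.2 +
      (1 - (u : ℂ)⁻¹ ^ ((p.2 : ℕ) + 1)) * entry s u true q.1 q.2 p.1 (p.2 + 1) := by
    rw [Matrix.mul_apply]
    unfold Em Rm
    simp only [add_mul, Finset.sum_add_distrib]
    congr 1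
    · by_cases hp : (p.1 : ℕ) + 1 ≤ 2 * s
      · rw [Finset.sum_eq_single ((⟨p.1 + 1, by omega⟩, p.2) : I2 s)]
        · rw [if_pos ⟨rfl, rfl⟩]
        · intro r _ hr
          rw [if_neg, zero_mul]
          rintro ⟨h1, h2⟩
          apply hr
          rw [Prod.ext_iff, Fin.ext_iff]
          exact ⟨h1, h2⟩
        · intro hc
          exact absurd (Finset.mem_univ _) hc
      · have : entry s u true q.1 q.2 (p.1 + 1) p.2 = 0 := by
          apply entry_ne
          omega
        rw [this, mul_zero]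
        apply Finset.sum_eq_zero
        intro r _
        rw [if_neg, zero_mul]
        rintro ⟨h1, h2⟩
        have := r.1.2
        omega
    · by_cases hp : (p.2 : ℕ) + 1 ≤ 2 * s
      · rw [Finset.sum_eq_single ((p.1, ⟨p.2 + 1, by omega⟩) : I2 s)]
        · rw [if_pos ⟨rfl, rfl⟩]
        · intro r _ hr
          rw [if_neg, zero_mul]
          rintro ⟨h1, h2⟩
          apply hr
          rw [Prod.ext_iff, Fin.ext_iff (a := r.2)]
          exact ⟨h1, h2⟩
        · intro hc
          exact absurd (Finset.mem_univ _) hc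
      · have : entry s u true q.1 q.2 p.1 (p.2 + 1) = 0 := by
          apply entry_ne
          omega
        rw [this, mul_zero]
        apply Finset.sum_eq_zero
        intro r _
        rw [if_neg, zero_mul]
        rintro ⟨h1, h2⟩
        have := r.2.2
        omega
  have hR : (Rm s u true * Em s (u : ℂ)) p q =
      (1 - (u : ℂ)⁻¹ ^ (q.1 : ℕ)) * (u : ℂ) ^ ((s : ℤ) - (q.2 : ℕ)) *
        entry s u true (q.1 - 1) q.2 p.1 p.2 +
      (1 - (u : ℂ)⁻¹ ^ (q.2 : ℕ)) * entry s u true q.1 (q.2 - 1) p.1 p.2 := by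
    rw [Matrix.mul_apply]
    unfold Em Rm
    simp only [mul_add, Finset.sum_add_distrib]
    congr 1
    · by_cases hq1 : 1 ≤ (q.1 : ℕ)
      · rw [Finset.sum_eq_single ((⟨q.1 - 1, by omega⟩, q.2) : I2 s)]
        · rw [if_pos ⟨by simp only; omega, rfl⟩]
          simp only
          rw [Nat.sub_add_cancel hq1]
          ring
        · intro r _ hr
          rw [if_neg, mul_zero]
          rintro ⟨h1, h2⟩
          apply hr
          rw [Prod.ext_iff, Fin.ext_iff]
          exact ⟨by simp only; omega, h2.symm⟩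
        · intro hc
          exact absurd (Finset.mem_univ _) hc
      · have hq0 : (q.1 : ℕ) = 0 := by omega
        rw [hq0, pow_zero, sub_self, zero_mul, zero_mul]
        apply Finset.sum_eq_zero
        intro r _
        rw [if_neg, mul_zero]
        rintro ⟨h1, h2⟩
        omega
    · by_cases hq1 : 1 ≤ (q.2 : ℕ)
      · rw [Finset.sum_eq_single ((q.1, ⟨q.2 - 1, by omega⟩) : I2 s)]
        · rw [if_pos ⟨rfl, by simp only; omega⟩]
          simp only
          rw [Nat.sub_add_cancel hq1]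
          ring
        · intro r _ hr
          rw [if_neg, mul_zero]
          rintro ⟨h1, h2⟩
          apply hr
          rw [Prod.ext_iff, Fin.ext_iff (a := r.2)]
          exact ⟨h1.symm, by simp only; omega⟩
        · intro hc
          exact absurd (Finset.mem_univ _) hc
      · have hq0 : (q.2 : ℕ) = 0 := by omega
        rw [hq0, pow_zero, sub_self, zero_mul]
        apply Finset.sum_eq_zero
        intro r _
        rw [if_neg, mul_zero]
        rintro ⟨h1, h2⟩
        omega
  rw [hL, hR]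
  by_cases hpq : (q.1 : ℕ) + q.2 = p.1 + p.2 + 1
  · exact commC_true h q.1 q.2 p.1 p.2 hpq hq
  · have z1 : entry s u true q.1 q.2 (p.1 + 1) p.2 = 0 := entry_ne (by omega)
    have z2 : entry s u true q.1 q.2 p.1 (p.2 + 1) = 0 := entry_ne (by omega)
    have z3 : (1 - (u : ℂ)⁻¹ ^ (q.1 : ℕ)) * (u : ℂ) ^ ((s : ℤ) - (q.2 : ℕ)) *
        entry s u true (q.1 - 1) q.2 p.1 p.2 = 0 := by
      by_cases hq1 : 1 ≤ (q.1 : ℕ)
      · rw [entry_ne (by omega), mul_zero]
      · have hq0 : (q.1 : ℕ) = 0 := by omega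
        rw [hq0, pow_zero, sub_self, zero_mul, zero_mul]
    have z4 : (1 - (u : ℂ)⁻¹ ^ (q.2 : ℕ)) * entry s u true q.1 (q.2 - 1) p.1 p.2 = 0 := by
      by_cases hq1 : 1 ≤ (q.2 : ℕ)
      · rw [entry_ne (by omega), mul_zero]
      · have hq0 : (q.2 : ℕ) = 0 := by omega
        rw [hq0, pow_zero, sub_self, zero_mul]
    rw [z1, z2, z3, z4]
    ring

/-- agreement on the lower levels -/
theorem PolyEx_low {P : ℂ[X]} (hP : ∀ p q : I2 s, (q.1 : ℕ) + q.2 = 2 * s →
    Rm s u true p q = (aeval (Cm s (u : ℂ)) P) p q) : ∀ (d : ℕ) (p q : I2 s),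
      (q.1 : ℕ) + q.2 + d = 2 * s → Rm s u true p q = (aeval (Cm s (u : ℂ)) P) p q := by
  have hinv : IsPrimitiveRoot (u : ℂ)⁻¹ (2 * s + 1) := h.inv
  have h0 : (u : ℂ) ≠ 0 := u.ne_zero
  have hcomm : Em s (u : ℂ) * aeval (Cm s (u : ℂ)) P = aeval (Cm s (u : ℂ)) P * Em s (u : ℂ) := by
    have h1 : Commute (Em s (u : ℂ)) (Cm s (u : ℂ)) := Em_comm_Cm h
    have h2 : ∀ f : ℂ[X], Commute (Em s (u : ℂ)) (aeval (Cm s (u : ℂ)) f) := by
      intro f
      induction f using Polynomial.induction_on' with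
      | add f g hf hg =>
        rw [map_add]
        exact hf.add_right hg
      | monomial n a =>
        rw [← C_mul_X_pow_eq_monomial, map_mul, aeval_C, map_pow, aeval_X]
        have h3 : Commute (Em s (u : ℂ)) (algebraMap ℂ _ a) := (Algebra.commutes a _).symm
        exact h3.mul_right (h1.pow_right n)
    exact h2 P
  set D := Rm s u true - aeval (Cm s (u : ℂ)) P with hD
  have hDE : ∀ p q : I2 s, (q.1 : ℕ) + q.2 ≤ 2 * s →
      (Em s (u : ℂ) * D) p q = (D * Em s (u : ℂ)) p q := by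
    intro p q hq
    rw [hD, mul_sub, sub_mul, Matrix.sub_apply, Matrix.sub_apply, PolyEx_E h p q hq, hcomm]
  suffices hmain : ∀ (d : ℕ) (p q : I2 s), (q.1 : ℕ) + q.2 + d = 2 * s → D p q = 0 by
    intro d p q hq
    have := hmain d p q hq
    rw [hD, Matrix.sub_apply, sub_eq_zero] at this
    exact this
  intro d
  induction d with
  | zero =>
    intro p q hq
    rw [hD, Matrix.sub_apply, sub_eq_zero]
    exact hP p q (by omega)
  | succ d ih =>
    -- induction on the second index
    have key : ∀ (b : ℕ) (p q : I2 s), (q.2 : ℕ) = b → (q.1 : ℕ) + q.2 + (d + 1) = 2 * s →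
        D p q = 0 := by
      intro b
      induction b with
      | zero =>
        intro p q hb hq
        have hlt : (q.1 : ℕ) + 1 < 2 * s + 1 := by omega
        have e1 := hDE p (⟨q.1 + 1, hlt⟩, q.2) (by simp only; omega)
        have e2 : (Em s (u : ℂ) * D) p (⟨q.1 + 1, hlt⟩, q.2) = 0 := by
          rw [Matrix.mul_apply]
          apply Finset.sum_eq_zero
          intro r _
          rw [ih r (⟨q.1 + 1, hlt⟩, q.2) (by simp only; omega), mul_zero]
        have e3 : (D * Em s (u : ℂ)) p (⟨q.1 + 1, hlt⟩, q.2) =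
            D p q * ((1 - (u : ℂ)⁻¹ ^ ((q.1 : ℕ) + 1)) * (u : ℂ) ^ ((s : ℤ) - (q.2 : ℕ))) := by
          rw [Matrix.mul_apply, Finset.sum_eq_single q]
          · unfold Em
            simp only
            rw [if_pos ⟨trivial, trivial⟩, if_neg (by omega), add_zero]
          · intro r _ hr
            unfold Em
            simp only
            rw [if_neg, if_neg, add_zero, mul_zero]
            · omega
            · rintro ⟨h1, h2⟩
              apply hr
              rw [Prod.ext_iff, Fin.ext_iff]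
              exact ⟨by omega, h2.symm⟩
          · intro hc
            exact absurd (Finset.mem_univ _) hc
        rw [e2, e3] at e1
        have hne : (1 - (u : ℂ)⁻¹ ^ ((q.1 : ℕ) + 1)) * (u : ℂ) ^ ((s : ℤ) - (q.2 : ℕ)) ≠ 0 :=
          mul_ne_zero (one_sub_pow_ne hinv (by omega) (by omega)) (zpow_ne_zero _ h0)
        exact (mul_eq_zero.1 e1.symm).resolve_right hne
      | succ b ihb =>
        intro p q hb hq
        have hlt : (q.1 : ℕ) + 1 < 2 * s + 1 := by omega
        have e1 := hDE p (⟨q.1 + 1, hlt⟩, q.2) (by simp only; omega)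
        have e2 : (Em s (u : ℂ) * D) p (⟨q.1 + 1, hlt⟩, q.2) = 0 := by
          rw [Matrix.mul_apply]
          apply Finset.sum_eq_zero
          intro r _
          rw [ih r (⟨q.1 + 1, hlt⟩, q.2) (by simp only; omega), mul_zero]
        have e3 : (D * Em s (u : ℂ)) p (⟨q.1 + 1, hlt⟩, q.2) =
            D p q * ((1 - (u : ℂ)⁻¹ ^ ((q.1 : ℕ) + 1)) * (u : ℂ) ^ ((s : ℤ) - (q.2 : ℕ))) := by
          rw [Matrix.mul_apply, Finset.sum_eq_single q]
          · unfold Em
            simp only
            rw [if_pos ⟨trivial, trivial⟩, if_neg (by omega), add_zero]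
          · intro r _ hr
            by_cases hc2 : ((⟨q.1 + 1, hlt⟩ : Fin (2 * s + 1)) = r.1 ∧ (q.2 : ℕ) = r.2 + 1)
            · rw [ihb p r (by omega) (by
                have := congrArg Fin.val hc2.1
                simp only at this
                omega), zero_mul]
            · unfold Em
              simp only
              rw [if_neg, if_neg hc2, add_zero, mul_zero]
              rintro ⟨h1, h2⟩
              apply hr
              rw [Prod.ext_iff, Fin.ext_iff]
              exact ⟨by omega, h2.symm⟩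
          · intro hc
            exact absurd (Finset.mem_univ _) hc
        rw [e2, e3] at e1
        have hne : (1 - (u : ℂ)⁻¹ ^ ((q.1 : ℕ) + 1)) * (u : ℂ) ^ ((s : ℤ) - (q.2 : ℕ)) ≠ 0 :=
          mul_ne_zero (one_sub_pow_ne hinv (by omega) (by omega)) (zpow_ne_zero _ h0)
        exact (mul_eq_zero.1 e1.symm).resolve_right hne
    intro p q hq
    exact key q.2 p q rfl hq

end

/-- the reflection of the index set -/
def PolyEx_om (s : ℕ) : I2 s ≃ I2 s where
  toFun p := (Fin.rev p.2, Fin.rev p.1)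
  invFun p := (Fin.rev p.2, Fin.rev p.1)
  left_inv p := by simp
  right_inv p := by simp

theorem PolyEx_om_poly {s : ℕ} {t : ℂ} (h : IsPrimitiveRoot t (2 * s + 1)) (f : ℂ[X]) (p q : I2 s) :
    (aeval (Cm s t) f) (PolyEx_om s p) (PolyEx_om s q) = (aeval (Cm s t) f) p q := by
  have h1 : Matrix.reindexAlgEquiv ℂ ℂ (PolyEx_om s).symm (Cm s t) = Cm s t := by
    ext p q
    rw [Matrix.coe_reindexAlgEquiv, Matrix.reindex_apply, Matrix.submatrix_apply]
    exact Cm_omega h p q
  have h2 : Matrix.reindexAlgEquiv ℂ ℂ (PolyEx_om s).symm (aeval (Cm s t) f) =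
      aeval (Cm s t) f := by
    have := Polynomial.aeval_algHom_apply
      (Matrix.reindexAlgEquiv ℂ ℂ (PolyEx_om s).symm).toAlgHom (Cm s t) f
    have e1 : (Matrix.reindexAlgEquiv ℂ ℂ (PolyEx_om s).symm).toAlgHom (Cm s t) = Cm s t := h1
    rw [e1] at this
    exact this.symm
  have h3 := congrFun (congrFun h2 p) q
  rw [Matrix.coe_reindexAlgEquiv, Matrix.reindex_apply, Matrix.submatrix_apply] at h3
  exact h3

theorem exists_poly {s : ℕ} {u : ℂˣ} (h : IsPrimitiveRoot (u : ℂ) (2 * s + 1)) :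
    ∃ p : ℂ[X], Rm s u true = aeval (Cm s (u : ℂ)) p := by
  obtain ⟨P, hP⟩ := PolyEx_mid h
  refine ⟨P, ?_⟩
  ext p q
  by_cases hq : (q.1 : ℕ) + q.2 ≤ 2 * s
  · exact PolyEx_low h hP (2 * s - (q.1 + q.2)) p q (by omega)
  · have h1 := PolyEx_om_poly h P p q
    have h2 := Rm_omega h p q
    rw [← h1, ← h2]
    apply PolyEx_low h hP (2 * s - ((PolyEx_om s q).1 + (PolyEx_om s q).2)) (PolyEx_om s p)
      (PolyEx_om s q)
    have e : ((PolyEx_om s q).1 : ℕ) + (PolyEx_om s q).2 ≤ 2 * s := by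
      simp only [PolyEx_om, Equiv.coe_fn_mk, Fin.val_rev]
      omega
    omega

/-- the swap of the index set -/
def PolyEx_sw (s : ℕ) : I2 s ≃ I2 s := Equiv.prodComm _ _

theorem poly_false {s : ℕ} {u : ℂˣ} (h : IsPrimitiveRoot (u : ℂ) (2 * s + 1)) {p : ℂ[X]}
    (hp : Rm s u true = aeval (Cm s (u : ℂ)) p) : Rm s u false = aeval (Cm s (u : ℂ)) (pbar p) := by
  have h1 : (Matrix.reindexAlgEquiv ℂ ℂ (PolyEx_sw s)) (Cm s (u : ℂ)).conjTranspose =
      Cm s (u : ℂ) := by
    ext x y
    rw [Matrix.coe_reindexAlgEquiv, Matrix.reindex_apply, Matrix.submatrix_apply,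
      Matrix.conjTranspose_apply]
    have := Cm_dag h (y.2, y.1) (x.2, x.1)
    exact this.symm
  have h2 : (Matrix.reindexAlgEquiv ℂ ℂ (PolyEx_sw s)) (Rm s u true).conjTranspose =
      Rm s u false := by
    ext x y
    rw [Matrix.coe_reindexAlgEquiv, Matrix.reindex_apply, Matrix.submatrix_apply,
      Matrix.conjTranspose_apply]
    have := Rm_dag h (y.2, y.1) (x.2, x.1)
    exact this.symm
  have h3 : ∀ f : ℂ[X], (aeval (Cm s (u : ℂ)) f).conjTranspose =
      aeval (Cm s (u : ℂ)).conjTranspose (pbar f) := by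
    intro f
    unfold pbar
    induction f using Polynomial.induction_on' with
    | add f g hf hg =>
      rw [map_add, Matrix.conjTranspose_add, hf, hg, Polynomial.map_add, map_add]
    | monomial n a =>
      rw [← C_mul_X_pow_eq_monomial, Polynomial.map_mul, Polynomial.map_pow, map_X, map_C,
        map_mul, map_mul, map_pow, map_pow, aeval_X, aeval_X, aeval_C, aeval_C,
        Algebra.algebraMap_eq_smul_one, Algebra.algebraMap_eq_smul_one, smul_mul_assoc,
        smul_mul_assoc, one_mul, one_mul, Matrix.conjTranspose_smul, Matrix.conjTranspose_pow]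
      rfl
  have h4 := Polynomial.aeval_algHom_apply
    (Matrix.reindexAlgEquiv ℂ ℂ (PolyEx_sw s)).toAlgHom (Cm s (u : ℂ)).conjTranspose (pbar p)
  have e1 : (Matrix.reindexAlgEquiv ℂ ℂ (PolyEx_sw s)).toAlgHom (Cm s (u : ℂ)).conjTranspose =
      Cm s (u : ℂ) := h1
  rw [e1, ← h3, ← hp] at h4
  exact (h4.trans h2).symm

end Pool.Agent.Work.MP_b30479_gt.AX
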