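import Pool.Agent.Work.MP_b30479_gt.AX.Free
import Pool.Agent.Work.MP_b30479_gt.AX.Nilp
import Pool.Agent.Work.MP_b30479_gt.AX.PolyEx
import Pool.Agent.Work.MP_b30479_gt.AX.Ops

/-!
# Reduction of the trace on `V ⊗ V ⊗ V` to `V ⊗ V`
-/

namespace Pool.Agent.Work.MP_b30479_gt.AX

open Finset Polynomial TB

/-- an element commuting with `B` commutes with every polynomial in `B` -/
theorem Red_commute {R : Type*} [Ring R] [Algebra ℂ R] {A B : R} (h : Commute A B) (f : ℂ[X]) :
    Commute A (aeval B f) := by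
  rw [Polynomial.aeval_eq_sum_range]
  apply Commute.sum_right
  intro i _
  exact (h.pow_right i).smul_right _

/-- polynomials in `C_{23}` on the kernel of `E` -/
theorem Red_ker {s : ℕ} {t : ℂ} (h : IsPrimitiveRoot t (2 * s + 1)) {X : V3 s}
    (hX : E3 s t X = 0) (f : ℂ[X]) :
    (aeval (op23 (Cm s t)) f) X 0 = (aeval (Um s t) f).mulVec (X 0) := by
  have hpow : ∀ n : ℕ, E3 s t ((op23 (Cm s t) ^ n) X) = 0 ∧
      (op23 (Cm s t) ^ n) X 0 = (Um s t ^ n).mulVec (X 0) := by
    intro n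
    induction n with
    | zero =>
      refine ⟨?_, ?_⟩
      · rw [pow_zero]
        exact hX
      · rw [pow_zero, pow_zero, Matrix.one_mulVec]
        rfl
    | succ n ih =>
      obtain ⟨ih1, ih2⟩ := ih
      have hc : Commute (E3 s t) (op23 (Cm s t) ^ (n + 1)) := (E3_op23 h).pow_right _
      refine ⟨?_, ?_⟩
      · have := LinearMap.congr_fun hc.eq X
        have h1 : E3 s t ((op23 (Cm s t) ^ (n + 1)) X) = (op23 (Cm s t) ^ (n + 1)) (E3 s t X) := this
        rw [h1, hX, map_zero]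
      · have h1 : (op23 (Cm s t) ^ (n + 1)) X = op23 (Cm s t) ((op23 (Cm s t) ^ n) X) := by
          rw [pow_succ']
          rfl
        rw [h1, op23_ker h ih1, ih2, Matrix.mulVec_mulVec, pow_succ']
  induction f using Polynomial.induction_on' with
  | add f g hf hg =>
    rw [map_add, map_add, Matrix.add_mulVec, ← hf, ← hg]
    rfl
  | monomial n a =>
    rw [← C_mul_X_pow_eq_monomial, map_mul, aeval_C, map_pow, aeval_X, map_mul, aeval_C, map_pow,
      aeval_X, Algebra.algebraMap_eq_smul_one, Algebra.algebraMap_eq_smul_one, smul_mul_assoc,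
      smul_mul_assoc, one_mul, one_mul, Matrix.smul_mulVec, ← (hpow n).2]
    rfl

theorem trace_red {s : ℕ} {u : ℂˣ} (h : IsPrimitiveRoot (u : ℂ) (2 * s + 1)) {p : ℂ[X]}
    (hp : Rm s u true = aeval (Cm s (u : ℂ)) p) (K : ℕ) :
    LinearMap.trace ℂ _ ((op12 (Rm s u true) * op23 (Rm s u false)) ^ K) =
      (2 * s + 1 : ℂ) * ((aeval (Cm s (u : ℂ)) p * aeval (Um s (u : ℂ)) (pbar p)) ^ K).trace := by
  have hinv : IsPrimitiveRoot (u : ℂ)⁻¹ (2 * s + 1) := h.inv
  have hc1 : Commute (E3 s (u : ℂ)) (op12 (Rm s u true)) := by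
    rw [hp, op12_aeval]
    exact Red_commute (E3_op12 h) p
  have hc2 : Commute (E3 s (u : ℂ)) (op23 (Rm s u false)) := by
    rw [poly_false h hp, op23_aeval]
    exact Red_commute (E3_op23 h) (pbar p)
  have hc : Commute (E3 s (u : ℂ)) (op12 (Rm s u true) * op23 (Rm s u false)) := hc1.mul_right hc2
  obtain ⟨ι, hι1, hι2, hι3⟩ := free_trace (W := I2 s → ℂ) (m := 2 * s)
    (A := fun k => ((u : ℂ) ^ ((s : ℤ) - (k : ℕ))) • (Em s (u : ℂ)).mulVecLin)
    (d := fun k => 1 - (u : ℂ)⁻¹ ^ k)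
    (fun k h1 h2 => one_sub_pow_ne hinv (by omega) (by omega))
    (E := E3 s (u : ℂ)) (fun X k => rfl) (E3_pow h)
  rw [hι3 _ (hc.pow_right K)]
  have hker : ∀ w, E3 s (u : ℂ) (ι w) = 0 := fun w => LinearMap.congr_fun hι1 w
  have hmain : ∀ (K : ℕ) (w : I2 s → ℂ),
      ((op12 (Rm s u true) * op23 (Rm s u false)) ^ K) (ι w) 0 =
        ((aeval (Cm s (u : ℂ)) p * aeval (Um s (u : ℂ)) (pbar p)) ^ K).mulVec w := by
    intro K
    induction K with
    | zero =>
      intro w
      rw [pow_zero, pow_zero, Matrix.one_mulVec]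
      exact hι2 w
    | succ K ih =>
      intro w
      have h1 : ((op12 (Rm s u true) * op23 (Rm s u false)) ^ (K + 1)) (ι w) =
          (op12 (Rm s u true)) ((op23 (Rm s u false))
            (((op12 (Rm s u true) * op23 (Rm s u false)) ^ K) (ι w))) := by
        rw [pow_succ']
        rfl
      have h2 : E3 s (u : ℂ) (((op12 (Rm s u true) * op23 (Rm s u false)) ^ K) (ι w)) = 0 := by
        have := LinearMap.congr_fun (hc.pow_right K).eq (ι w)
        have h3 : E3 s (u : ℂ) (((op12 (Rm s u true) * op23 (Rm s u false)) ^ K) (ι w)) =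
          ((op12 (Rm s u true) * op23 (Rm s u false)) ^ K) (E3 s (u : ℂ) (ι w)) := this
        rw [h3, hker, map_zero]
      have h4 : ∀ Y : V3 s, (op12 (Rm s u true)) Y 0 = (Rm s u true).mulVec (Y 0) := fun Y => rfl
      have h5 : ∀ Y : V3 s, E3 s (u : ℂ) Y = 0 → (op23 (Rm s u false)) Y 0 =
          (aeval (Um s (u : ℂ)) (pbar p)).mulVec (Y 0) := by
        intro Y hY
        rw [poly_false h hp, op23_aeval]
        exact Red_ker h hY _
      rw [h1, h4, h5 _ h2, ih, ← hp, Matrix.mulVec_mulVec, Matrix.mulVec_mulVec, pow_succ',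
        mul_assoc]
  have hlin : (LinearMap.proj 0 ∘ₗ ((op12 (Rm s u true) * op23 (Rm s u false)) ^ K) ∘ₗ ι :
      (I2 s → ℂ) →ₗ[ℂ] (I2 s → ℂ)) =
      Matrix.toLin' ((aeval (Cm s (u : ℂ)) p * aeval (Um s (u : ℂ)) (pbar p)) ^ K) := by
    apply LinearMap.ext
    intro w
    rw [Matrix.toLin'_apply, ← hmain K w]
    rfl
  rw [hlin, Matrix.trace_toLin'_eq]
  push_cast
  ring

end Pool.Agent.Work.MP_b30479_gt.AX
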