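import Pool.Agent.Work.MP_b30479_gt.AX.Link
import Pool.Agent.Work.MP_b30479_gt.AX.Braid
import Pool.Agent.Work.MP_b30479_gt.AX.Red
import Pool.Agent.Work.MP_b30479_gt.AX.Closed
import Pool.Agent.Work.MP_b30479_gt.AX.Dual

/-!
# The formula for the Kashaev invariants
-/

namespace Pool.Agent.Work.MP_b30479_gt.AX

open Finset Polynomial TB

theorem formula {s : ℕ} {u : ℂˣ} (h : IsPrimitiveRoot (u : ℂ) (2 * s + 1)) (K : ℕ) :
    colouredJones s (axisWord (wordK K)) u =
      ((u ^ (-6 * ((s : ℤ) * (s + 1))) : ℂˣ) : ℂ) * ((2 * s + 1 : ℂ) *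
        (((alM s (u : ℂ) (2 * s) * stM s (u : ℂ) (2 * s)) ^ K).trace +
          2 * ∑ N ∈ range (2 * s), ((alM s (u : ℂ) N * stM s (u : ℂ) N) ^ K).trace)) := by
  obtain ⟨p, hp⟩ := exists_poly h
  have e : ∀ N, N ≤ 2 * s → aeval (SN s (u : ℂ) N) (pbar p) = stM s (u : ℂ) N := by
    intro N hN
    ext j k
    rw [SN_aeval h hN, LN_aeval h hp hN]
    rfl
  rw [colouredJones_axis h, writhe_wordK, trace_braid, trace_red h hp, trace_level h]
  have e1 : ∑ N ∈ range (2 * s + 1),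
      ((aeval (TN s (u : ℂ) N) p * aeval (UN s (u : ℂ) N) (pbar p)) ^ K).trace =
      ∑ N ∈ range (2 * s + 1), ((alM s (u : ℂ) N * stM s (u : ℂ) N) ^ K).trace := by
    apply Finset.sum_congr rfl
    intro N hN
    rw [mem_range] at hN
    rw [UN_trace h (by omega), LN_aeval h hp (by omega), e N (by omega)]
  have e2 : ∑ M ∈ range (2 * s),
      ((aeval (TN s (u : ℂ) M) p * aeval (UB s (u : ℂ) M) (pbar p)) ^ K).trace =
      ∑ N ∈ range (2 * s), ((alM s (u : ℂ) N * stM s (u : ℂ) N) ^ K).trace := by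
    apply Finset.sum_congr rfl
    intro N hN
    rw [mem_range] at hN
    rw [UB_trace h (by omega), LN_aeval h hp (by omega), e N (by omega)]
  rw [e1, e2, Finset.sum_range_succ]
  have e3 : (-(0 + 6) * ((s : ℤ) * (s + 1))) = -6 * ((s : ℤ) * (s + 1)) := by ring
  rw [e3]
  ring

end Pool.Agent.Work.MP_b30479_gt.AX
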