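import Pool.Agent.Work.MP_b30479_gt.TB.Tt

/-!
# Traces of operators commuting with a regular nilpotent operator
-/

namespace Pool.Agent.Work.MP_b30479_gt.AX

open Finset Polynomial TB

/-- a vector of the kernel is determined by its component `0` -/
theorem ker_inj {W : Type*} [AddCommGroup W] [Module ℂ W] {m : ℕ}
    {A : Fin (m + 1) → Module.End ℂ W} {d : ℕ → ℂ} (hd : ∀ k, 1 ≤ k → k ≤ m → d k ≠ 0)
    {E : Module.End ℂ (Fin (m + 1) → W)}
    (hE : ∀ X (k : Fin (m + 1)), E X k = A k (X k) +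
      if h : (k : ℕ) + 1 < m + 1 then d ((k : ℕ) + 1) • X ⟨(k : ℕ) + 1, h⟩ else 0)
    {X : Fin (m + 1) → W} (h : E X = 0) (h0 : X 0 = 0) : X = 0 := by
  have key : ∀ k : ℕ, ∀ hk : k < m + 1, X ⟨k, hk⟩ = 0 := by
    intro k
    induction k with
    | zero =>
      intro hk
      exact h0
    | succ k ih =>
      intro hk
      have hk' : k < m + 1 := by omega
      have h1 := hE X ⟨k, hk'⟩
      rw [h, ih hk', map_zero, zero_add, dif_pos (show ((⟨k, hk'⟩ : Fin (m + 1)) : ℕ) + 1 < m + 1
        from hk), Pi.zero_apply] at h1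
      have h2 := (smul_eq_zero.mp h1.symm).resolve_left
        (hd (k + 1) (by omega) (by omega))
      exact h2
  funext k
  exact key k k.2

/-- the weighted shift -/
noncomputable def free_shift {W : Type*} [AddCommGroup W] [Module ℂ W] (m : ℕ) (d : ℕ → ℂ) :
    Module.End ℂ (Fin (m + 1) → W) where
  toFun X k := if h : (k : ℕ) + 1 < m + 1 then d ((k : ℕ) + 1) • X ⟨(k : ℕ) + 1, h⟩ else 0
  map_add' X Y := by
    funext k
    by_cases h : (k : ℕ) + 1 < m + 1
    · simp only [Pi.add_apply, dif_pos h, smul_add]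
    · simp only [Pi.add_apply, dif_neg h, add_zero]
  map_smul' c X := by
    funext k
    by_cases h : (k : ℕ) + 1 < m + 1
    · simp only [Pi.smul_apply, dif_pos h, RingHom.id_apply]
      rw [smul_comm c]
    · simp only [Pi.smul_apply, dif_neg h, RingHom.id_apply, smul_zero]

theorem free_shift_apply {W : Type*} [AddCommGroup W] [Module ℂ W] (m : ℕ) (d : ℕ → ℂ)
    (X : Fin (m + 1) → W) (k : Fin (m + 1)) :
    free_shift m d X k =
      if h : (k : ℕ) + 1 < m + 1 then d ((k : ℕ) + 1) • X ⟨(k : ℕ) + 1, h⟩ else 0 := rfl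

/-- the change of coordinates -/
noncomputable def free_g {W : Type*} [AddCommGroup W] [Module ℂ W] (m : ℕ) (d : ℕ → ℂ)
    (E : Module.End ℂ (Fin (m + 1) → W)) : Module.End ℂ (Fin (m + 1) → W) where
  toFun X r := (∏ l ∈ range (r : ℕ), d (l + 1))⁻¹ • (E ^ (r : ℕ)) X 0
  map_add' X Y := by
    funext r
    simp only [map_add, Pi.add_apply, smul_add]
  map_smul' c X := by
    funext r
    simp only [map_smul, Pi.smul_apply, RingHom.id_apply]
    rw [smul_comm c]

theorem free_g_apply {W : Type*} [AddCommGroup W] [Module ℂ W] (m : ℕ) (d : ℕ → ℂ)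
    (E : Module.End ℂ (Fin (m + 1) → W)) (X : Fin (m + 1) → W) (r : Fin (m + 1)) :
    free_g m d E X r = (∏ l ∈ range (r : ℕ), d (l + 1))⁻¹ • (E ^ (r : ℕ)) X 0 := rfl

theorem free_g_zero {W : Type*} [AddCommGroup W] [Module ℂ W] (m : ℕ) (d : ℕ → ℂ)
    (E : Module.End ℂ (Fin (m + 1) → W)) (X : Fin (m + 1) → W) :
    free_g m d E X 0 = X 0 := by
  rw [free_g_apply]
  simp

theorem free_g_inj {W : Type*} [AddCommGroup W] [Module ℂ W] {m : ℕ}
    {A : Fin (m + 1) → Module.End ℂ W} {d : ℕ → ℂ} (hd : ∀ k, 1 ≤ k → k ≤ m → d k ≠ 0)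
    {E : Module.End ℂ (Fin (m + 1) → W)}
    (hE : ∀ X (k : Fin (m + 1)), E X k = A k (X k) +
      if h : (k : ℕ) + 1 < m + 1 then d ((k : ℕ) + 1) • X ⟨(k : ℕ) + 1, h⟩ else 0)
    (hn : E ^ (m + 1) = 0) : Function.Injective (free_g m d E) := by
  rw [injective_iff_map_eq_zero]
  intro X hX
  have h0 : ∀ r : ℕ, r < m + 1 → (E ^ r) X 0 = 0 := by
    intro r hr
    have h1 := congrFun hX ⟨r, hr⟩
    rw [free_g_apply, Pi.zero_apply] at h1
    refine (smul_eq_zero.mp h1).resolve_left ?_
    apply inv_ne_zero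
    rw [Finset.prod_ne_zero_iff]
    intro l hl
    have hl' : l < r := Finset.mem_range.mp hl
    exact hd (l + 1) (by omega) (by omega)
  have key : ∀ j : ℕ, j ≤ m + 1 → (E ^ (m + 1 - j)) X = 0 := by
    intro j
    induction j with
    | zero =>
      intro _
      rw [Nat.sub_zero, hn]
      rfl
    | succ j ih =>
      intro hj
      refine ker_inj hd hE ?_ (h0 _ (by omega))
      have h2 := ih (by omega)
      have h3 : m + 1 - j = (m + 1 - (j + 1)) + 1 := by omega
      rw [h3, pow_succ'] at h2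
      exact h2
  have h4 := key (m + 1) le_rfl
  rw [Nat.sub_self, pow_zero] at h4
  exact h4

theorem free_g_comm {W : Type*} [AddCommGroup W] [Module ℂ W] {m : ℕ}
    {d : ℕ → ℂ} (hd : ∀ k, 1 ≤ k → k ≤ m → d k ≠ 0)
    {E : Module.End ℂ (Fin (m + 1) → W)}
    (hn : E ^ (m + 1) = 0) (X : Fin (m + 1) → W) :
    free_g m d E (E X) = free_shift m d (free_g m d E X) := by
  funext r
  rw [free_g_apply, free_shift_apply]
  have h1 : (E ^ (r : ℕ)) (E X) = (E ^ ((r : ℕ) + 1)) X := by
    rw [pow_succ]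
    rfl
  rw [h1]
  by_cases h : (r : ℕ) + 1 < m + 1
  · rw [dif_pos h, free_g_apply, smul_smul]
    congr 1
    change _ = d ((r : ℕ) + 1) * (∏ l ∈ range ((r : ℕ) + 1), d (l + 1))⁻¹
    rw [Finset.prod_range_succ, mul_inv, mul_comm _ (d ((r : ℕ) + 1))⁻¹, ← mul_assoc,
      mul_inv_cancel₀ (hd _ (by omega) (by omega)), one_mul]
  · rw [dif_neg h]
    have h2 : (r : ℕ) + 1 = m + 1 := by
      have := r.2
      omega
    rw [h2, hn]
    simp

/-- Let `E` be nilpotent of order `m + 1` on `W^{m+1}`, equal to the weighted shift plus a block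
diagonal operator.  Then the trace of an operator commuting with `E` is `m + 1` times the trace of
its restriction to the kernel of `E`, which is identified with `W` by the component `0`. -/
theorem free_trace {W : Type*} [AddCommGroup W] [Module ℂ W] [FiniteDimensional ℂ W] {m : ℕ}
    {A : Fin (m + 1) → Module.End ℂ W} {d : ℕ → ℂ} (hd : ∀ k, 1 ≤ k → k ≤ m → d k ≠ 0)
    {E : Module.End ℂ (Fin (m + 1) → W)}
    (hE : ∀ X (k : Fin (m + 1)), E X k = A k (X k) +
      if h : (k : ℕ) + 1 < m + 1 then d ((k : ℕ) + 1) • X ⟨(k : ℕ) + 1, h⟩ else 0)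
    (hn : E ^ (m + 1) = 0) :
    ∃ ι : W →ₗ[ℂ] (Fin (m + 1) → W), E ∘ₗ ι = 0 ∧ (∀ w, ι w 0 = w) ∧
      ∀ β : Module.End ℂ (Fin (m + 1) → W), Commute E β →
        LinearMap.trace ℂ _ β =
          (m + 1 : ℂ) * LinearMap.trace ℂ W (LinearMap.proj 0 ∘ₗ β ∘ₗ ι) := by
  classical
  have hinj := free_g_inj hd hE hn
  let g : (Fin (m + 1) → W) ≃ₗ[ℂ] (Fin (m + 1) → W) :=
    LinearEquiv.ofInjectiveEndo (free_g m d E) hinj
  have hg : ∀ X, g X = free_g m d E X := fun X => rfl
  have hgE : ∀ X, g (E X) = free_shift m d (g X) := by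
    intro X
    rw [hg, hg]
    exact free_g_comm hd hn X
  have hg0 : ∀ X, g X 0 = X 0 := by
    intro X
    rw [hg]
    exact free_g_zero m d E X
  let j : Fin (m + 1) → (W →ₗ[ℂ] (Fin (m + 1) → W)) := fun r => LinearMap.single ℂ (fun _ => W) r
  have hj : ∀ r w k, j r w k = if k = r then w else 0 := by
    intro r w k
    change (Pi.single r w : Fin (m + 1) → W) k = _
    rw [Pi.single_apply]
  have hSj0 : ∀ w, free_shift m d (j 0 w) = 0 := by
    intro w
    funext k
    rw [free_shift_apply]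
    by_cases h : (k : ℕ) + 1 < m + 1
    · rw [dif_pos h, hj, if_neg, smul_zero, Pi.zero_apply]
      intro h1
      have := congrArg Fin.val h1
      simp at this
    · rw [dif_neg h, Pi.zero_apply]
  refine ⟨g.symm.toLinearMap ∘ₗ j 0, ?_, ?_, ?_⟩
  · apply LinearMap.ext
    intro w
    have h1 : g (E (g.symm (j 0 w))) = 0 := by
      rw [hgE, LinearEquiv.apply_symm_apply, hSj0]
    have h2 : E (g.symm (j 0 w)) = 0 := by
      rw [← map_zero g] at h1
      exact g.injective h1
    exact h2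
  · intro w
    change g.symm (j 0 w) 0 = w
    rw [← hg0 (g.symm (j 0 w)), LinearEquiv.apply_symm_apply, hj, if_pos rfl]
  · intro β hβ
    let b : Module.End ℂ (Fin (m + 1) → W) := g.toLinearMap ∘ₗ β ∘ₗ g.symm.toLinearMap
    have hb : ∀ Y, b Y = g (β (g.symm Y)) := fun Y => rfl
    have hbS : ∀ Y, b (free_shift m d Y) = free_shift m d (b Y) := by
      intro Y
      have h1 : g.symm (free_shift m d Y) = E (g.symm Y) := by
        rw [LinearEquiv.symm_apply_eq, hgE, LinearEquiv.apply_symm_apply]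
      have h2 : β (E (g.symm Y)) = E (β (g.symm Y)) := by
        have := hβ.eq
        exact (LinearMap.congr_fun this (g.symm Y)).symm
      rw [hb, h1, h2, hgE, hb]
    have htr : LinearMap.trace ℂ _ β = LinearMap.trace ℂ _ b := by
      have := LinearMap.trace_conj' β g
      rw [← this]
      rfl
    have hsum : b = ∑ r : Fin (m + 1), (b ∘ₗ j r) ∘ₗ (LinearMap.proj r) := by
      apply LinearMap.ext
      intro X
      rw [LinearMap.sum_apply]
      have h1 : ∀ r : Fin (m + 1), ((b ∘ₗ j r) ∘ₗ (LinearMap.proj r)) X = b (j r (X r)) :=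
        fun r => rfl
      rw [Finset.sum_congr rfl (fun r _ => h1 r), ← map_sum]
      congr 1
      funext k
      rw [Finset.sum_apply]
      simp only [hj]
      rw [Finset.sum_ite_eq]
      simp
    have hdiag : ∀ r : ℕ, ∀ hr : r < m + 1, (LinearMap.proj ⟨r, hr⟩ ∘ₗ b ∘ₗ j ⟨r, hr⟩ : W →ₗ[ℂ] W) =
        LinearMap.proj 0 ∘ₗ b ∘ₗ j 0 := by
      intro r
      induction r with
      | zero =>
        intro hr
        rfl
      | succ r ih =>
        intro hr
        have hr' : r < m + 1 := by omega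
        rw [← ih hr']
        apply LinearMap.ext
        intro w
        change b (j ⟨r + 1, hr⟩ w) ⟨r + 1, hr⟩ = b (j ⟨r, hr'⟩ w) ⟨r, hr'⟩
        have hdr : d (r + 1) ≠ 0 := hd _ (by omega) (by omega)
        have h1 : free_shift m d (j ⟨r + 1, hr⟩ w) = d (r + 1) • j ⟨r, hr'⟩ w := by
          funext k
          rw [free_shift_apply, Pi.smul_apply, hj]
          by_cases h : (k : ℕ) + 1 < m + 1
          · rw [dif_pos h, hj]
            by_cases hk : (k : ℕ) = r
            · have e1 : (⟨(k : ℕ) + 1, h⟩ : Fin (m + 1)) = ⟨r + 1, hr⟩ := by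
                apply Fin.ext
                simp [hk]
              have e2 : k = ⟨r, hr'⟩ := Fin.ext hk
              rw [if_pos e1, if_pos e2, hk]
            · have e1 : ¬ (⟨(k : ℕ) + 1, h⟩ : Fin (m + 1)) = ⟨r + 1, hr⟩ := by
                intro h2
                have := congrArg Fin.val h2
                simp at this
                exact hk this
              have e2 : ¬ k = ⟨r, hr'⟩ := by
                intro h2
                exact hk (congrArg Fin.val h2)
              rw [if_neg e1, if_neg e2, smul_zero, smul_zero]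
          · rw [dif_neg h]
            have e2 : ¬ k = ⟨r, hr'⟩ := by
              intro h2
              have := congrArg Fin.val h2
              simp at this
              omega
            rw [if_neg e2, smul_zero]
        have h2 := congrFun (hbS (j ⟨r + 1, hr⟩ w)) ⟨r, hr'⟩
        rw [h1, map_smul, Pi.smul_apply, free_shift_apply,
          dif_pos (show ((⟨r, hr'⟩ : Fin (m + 1)) : ℕ) + 1 < m + 1 from hr)] at h2
        exact (smul_right_injective W hdr h2).symm
    have hdiag' : ∀ r : Fin (m + 1), LinearMap.trace ℂ _ ((b ∘ₗ j r) ∘ₗ (LinearMap.proj r)) =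
        LinearMap.trace ℂ W (LinearMap.proj 0 ∘ₗ b ∘ₗ j 0) := by
      intro r
      rw [LinearMap.trace_comp_comm']
      rw [show (LinearMap.proj r ∘ₗ b ∘ₗ j r : W →ₗ[ℂ] W) = LinearMap.proj 0 ∘ₗ b ∘ₗ j 0 from
        hdiag r.1 r.2]
    have hfin : (LinearMap.proj 0 ∘ₗ b ∘ₗ j 0 : W →ₗ[ℂ] W) =
        LinearMap.proj 0 ∘ₗ β ∘ₗ (g.symm.toLinearMap ∘ₗ j 0) := by
      apply LinearMap.ext
      intro w
      change b (j 0 w) 0 = β (g.symm (j 0 w)) 0
      rw [hb, hg0]
    rw [htr, ← hfin]
    conv_lhs => rw [hsum]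
    rw [map_sum, Finset.sum_congr rfl (fun r _ => hdiag' r), Finset.sum_const, Finset.card_univ,
      Fintype.card_fin, nsmul_eq_mul]
    push_cast
    ring

end Pool.Agent.Work.MP_b30479_gt.AX
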