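import Pool.Agent.Work.MP_b30479_gt.AxisWord
import Pool.Agent.Work.MP_b30479_gt.TB.Tt
import Pool.Agent.Work.MP_b30479_gt.Defs

/-!
# The Kashaev invariant of a closed braid together with its axis is an ordinary trace
-/

namespace Pool.Agent.Work.MP_b30479_gt.AX

open Finset Polynomial TB

lemma link_entry_left {s : ℕ} {u : ℂˣ} (j a b : ℕ) :
    entry (A := ℂ) s u true 0 j a b =
      if a = j ∧ b = 0 then ((u ^ ((s : ℤ) * (s - j)) : ℂˣ) : ℂ) else 0 := by
  unfold entry
  simp only [if_true]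
  by_cases h : a = j ∧ b = 0
  · obtain ⟨rfl, rfl⟩ := h
    rw [if_pos (by omega), if_pos ⟨rfl, rfl⟩, Nat.sub_self]
    unfold coeffPos
    have e : (((0 : ℕ).choose 2 : ℕ) : ℤ) = 0 := by simp
    rw [e]
    have e1 : (gauss (u : ℂ) (2 * s - 0 + 0) 0) = 1 := by
      rw [gauss]
    rw [e1]
    simp
  · rw [if_neg (by omega), if_neg h]

lemma link_entry_right {s : ℕ} {u : ℂˣ} (i j b : ℕ) :
    entry (A := ℂ) s u true i j 0 b =
      if i = b ∧ j = 0 then ((u ^ ((s : ℤ) * (s - b)) : ℂˣ) : ℂ) else 0 := by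
  unfold entry
  simp only [if_true]
  by_cases h : i = b ∧ j = 0
  · obtain ⟨rfl, rfl⟩ := h
    rw [if_pos (by omega), if_pos ⟨rfl, rfl⟩, Nat.sub_self]
    unfold coeffPos
    have e : (((0 : ℕ).choose 2 : ℕ) : ℤ) = 0 := by simp
    rw [e]
    have e1 : (gauss (u : ℂ) (2 * s - i + 0) 0) = 1 := by
      rw [gauss]
    rw [e1]
    have e2 : ((0 : ℤ) - (s : ℤ) * ((0 : ℕ) : ℤ) + ((s : ℤ) - (i : ℤ) + ((0 : ℕ) : ℤ)) *
        ((s : ℤ) - ((0 : ℕ) : ℤ) - ((0 : ℕ) : ℤ))) = (s : ℤ) * (s - i) := by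
      push_cast; ring
    rw [e2]
    simp
  · rw [if_neg (by omega), if_neg h]

/-- the weight of a strand -/
noncomputable def lkw (s : ℕ) (u : ℂˣ) (j : ℕ) : ℂ := ((u ^ ((s : ℤ) * (s - j)) : ℂˣ) : ℂ)

lemma link_fin4_eq {N : ℕ} (y : Fin 4 → Fin N) (a b c d : Fin N) :
    y = ![a, b, c, d] ↔ y 0 = a ∧ y 1 = b ∧ y 2 = c ∧ y 3 = d := by
  constructor
  · rintro rfl
    exact ⟨rfl, rfl, rfl, rfl⟩
  · rintro ⟨rfl, rfl, rfl, rfl⟩
    funext l
    fin_cases l <;> rfl

lemma link_c0 {s : ℕ} {u : ℂˣ} (y : Fin 4 → Fin (2 * s + 1)) (b c d : Fin (2 * s + 1)) :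
    crossing (r := 3) s u (0, true) y ![0, b, c, d] =
      if y = ![b, 0, c, d] then lkw s u b else 0 := by
  unfold crossing
  have e1 : (∀ l : Fin 4, l ≠ (0 : Fin 3).castSucc → l ≠ (0 : Fin 3).succ →
      y l = (![0, b, c, d] : Fin 4 → Fin (2 * s + 1)) l) ↔ y 2 = c ∧ y 3 = d := by
    constructor
    · intro hl
      exact ⟨hl 2 (by decide) (by decide), hl 3 (by decide) (by decide)⟩
    · rintro ⟨h2, h3⟩ l h1 h2
      fin_cases l
      · exact absurd rfl h1
      · exact absurd rfl h2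
      · assumption
      · assumption
  simp only [e1, link_fin4_eq]
  have e2 := link_entry_left (s := s) (u := u) (b : ℕ) (y 0 : ℕ) (y 1 : ℕ)
  change (if y 2 = c ∧ y 3 = d then entry (A := ℂ) s u true ((0 : Fin (2 * s + 1)) : ℕ) (b : ℕ)
    (y 0 : ℕ) (y 1 : ℕ) else 0) = _
  rw [Fin.val_zero, e2]
  simp only [Fin.ext_iff, Fin.val_zero]
  unfold lkw
  split_ifs <;> first | rfl | omega

lemma link_c1 {s : ℕ} {u : ℂˣ} (y : Fin 4 → Fin (2 * s + 1)) (a c d : Fin (2 * s + 1)) :
    crossing (r := 3) s u (1, true) y ![a, 0, c, d] =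
      if y = ![a, c, 0, d] then lkw s u c else 0 := by
  unfold crossing
  have e1 : (∀ l : Fin 4, l ≠ (1 : Fin 3).castSucc → l ≠ (1 : Fin 3).succ →
      y l = (![a, 0, c, d] : Fin 4 → Fin (2 * s + 1)) l) ↔ y 0 = a ∧ y 3 = d := by
    constructor
    · intro hl
      exact ⟨hl 0 (by decide) (by decide), hl 3 (by decide) (by decide)⟩
    · rintro ⟨h2, h3⟩ l h1 h2
      fin_cases l
      · assumption
      · exact absurd rfl h1
      · exact absurd rfl h2
      · assumption
  simp only [e1, link_fin4_eq]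
  have e2 := link_entry_left (s := s) (u := u) (c : ℕ) (y 1 : ℕ) (y 2 : ℕ)
  change (if y 0 = a ∧ y 3 = d then entry (A := ℂ) s u true ((0 : Fin (2 * s + 1)) : ℕ) (c : ℕ)
    (y 1 : ℕ) (y 2 : ℕ) else 0) = _
  rw [Fin.val_zero, e2]
  simp only [Fin.ext_iff, Fin.val_zero]
  unfold lkw
  split_ifs <;> first | rfl | omega

lemma link_c2 {s : ℕ} {u : ℂˣ} (y : Fin 4 → Fin (2 * s + 1)) (a b d : Fin (2 * s + 1)) :
    crossing (r := 3) s u (2, true) y ![a, b, 0, d] =
      if y = ![a, b, d, 0] then lkw s u d else 0 := by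
  unfold crossing
  have e1 : (∀ l : Fin 4, l ≠ (2 : Fin 3).castSucc → l ≠ (2 : Fin 3).succ →
      y l = (![a, b, 0, d] : Fin 4 → Fin (2 * s + 1)) l) ↔ y 0 = a ∧ y 1 = b := by
    constructor
    · intro hl
      exact ⟨hl 0 (by decide) (by decide), hl 1 (by decide) (by decide)⟩
    · rintro ⟨h2, h3⟩ l h1 h2
      fin_cases l
      · assumption
      · assumption
      · exact absurd rfl h1
      · exact absurd rfl h2
  simp only [e1, link_fin4_eq]
  have e2 := link_entry_left (s := s) (u := u) (d : ℕ) (y 2 : ℕ) (y 3 : ℕ)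
  change (if y 0 = a ∧ y 1 = b then entry (A := ℂ) s u true ((0 : Fin (2 * s + 1)) : ℕ) (d : ℕ)
    (y 2 : ℕ) (y 3 : ℕ) else 0) = _
  rw [Fin.val_zero, e2]
  simp only [Fin.ext_iff, Fin.val_zero]
  unfold lkw
  split_ifs <;> first | rfl | omega

lemma link_r0 {s : ℕ} {u : ℂˣ} (x : Fin 4 → Fin (2 * s + 1)) (b c d : Fin (2 * s + 1)) :
    crossing (r := 3) s u (0, true) ![0, b, c, d] x =
      if x = ![b, 0, c, d] then lkw s u b else 0 := by
  unfold crossing
  have e1 : (∀ l : Fin 4, l ≠ (0 : Fin 3).castSucc → l ≠ (0 : Fin 3).succ →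
      (![0, b, c, d] : Fin 4 → Fin (2 * s + 1)) l = x l) ↔ x 2 = c ∧ x 3 = d := by
    constructor
    · intro hl
      exact ⟨(hl 2 (by decide) (by decide)).symm, (hl 3 (by decide) (by decide)).symm⟩
    · rintro ⟨h2, h3⟩ l h1 h2
      fin_cases l
      · exact absurd rfl h1
      · exact absurd rfl h2
      · symm; assumption
      · symm; assumption
  simp only [e1, link_fin4_eq]
  have e2 := link_entry_right (s := s) (u := u) (x 0 : ℕ) (x 1 : ℕ) (b : ℕ)
  change (if x 2 = c ∧ x 3 = d then entry (A := ℂ) s u true (x 0 : ℕ) (x 1 : ℕ)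
    ((0 : Fin (2 * s + 1)) : ℕ) (b : ℕ) else 0) = _
  rw [Fin.val_zero, e2]
  simp only [Fin.ext_iff, Fin.val_zero]
  unfold lkw
  split_ifs <;> first | rfl | omega

lemma link_r1 {s : ℕ} {u : ℂˣ} (x : Fin 4 → Fin (2 * s + 1)) (a c d : Fin (2 * s + 1)) :
    crossing (r := 3) s u (1, true) ![a, 0, c, d] x =
      if x = ![a, c, 0, d] then lkw s u c else 0 := by
  unfold crossing
  have e1 : (∀ l : Fin 4, l ≠ (1 : Fin 3).castSucc → l ≠ (1 : Fin 3).succ →
      (![a, 0, c, d] : Fin 4 → Fin (2 * s + 1)) l = x l) ↔ x 0 = a ∧ x 3 = d := by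
    constructor
    · intro hl
      exact ⟨(hl 0 (by decide) (by decide)).symm, (hl 3 (by decide) (by decide)).symm⟩
    · rintro ⟨h2, h3⟩ l h1 h2
      fin_cases l
      · symm; assumption
      · exact absurd rfl h1
      · exact absurd rfl h2
      · symm; assumption
  simp only [e1, link_fin4_eq]
  have e2 := link_entry_right (s := s) (u := u) (x 1 : ℕ) (x 2 : ℕ) (c : ℕ)
  change (if x 0 = a ∧ x 3 = d then entry (A := ℂ) s u true (x 1 : ℕ) (x 2 : ℕ)
    ((0 : Fin (2 * s + 1)) : ℕ) (c : ℕ) else 0) = _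
  rw [Fin.val_zero, e2]
  simp only [Fin.ext_iff, Fin.val_zero]
  unfold lkw
  split_ifs <;> first | rfl | omega

lemma link_r2 {s : ℕ} {u : ℂˣ} (x : Fin 4 → Fin (2 * s + 1)) (a b d : Fin (2 * s + 1)) :
    crossing (r := 3) s u (2, true) ![a, b, 0, d] x =
      if x = ![a, b, d, 0] then lkw s u d else 0 := by
  unfold crossing
  have e1 : (∀ l : Fin 4, l ≠ (2 : Fin 3).castSucc → l ≠ (2 : Fin 3).succ →
      (![a, b, 0, d] : Fin 4 → Fin (2 * s + 1)) l = x l) ↔ x 0 = a ∧ x 1 = b := by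
    constructor
    · intro hl
      exact ⟨(hl 0 (by decide) (by decide)).symm, (hl 1 (by decide) (by decide)).symm⟩
    · rintro ⟨h2, h3⟩ l h1 h2
      fin_cases l
      · symm; assumption
      · symm; assumption
      · exact absurd rfl h1
      · exact absurd rfl h2
  simp only [e1, link_fin4_eq]
  have e2 := link_entry_right (s := s) (u := u) (x 2 : ℕ) (x 3 : ℕ) (d : ℕ)
  change (if x 0 = a ∧ x 1 = b then entry (A := ℂ) s u true (x 2 : ℕ) (x 3 : ℕ)
    ((0 : Fin (2 * s + 1)) : ℕ) (d : ℕ) else 0) = _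
  rw [Fin.val_zero, e2]
  simp only [Fin.ext_iff, Fin.val_zero]
  unfold lkw
  split_ifs <;> first | rfl | omega

lemma link_mul_col {ι : Type*} [Fintype ι] [DecidableEq ι] (B A : Matrix ι ι ℂ) (x x' : ι) (c : ℂ)
    (h : ∀ y, A y x = if y = x' then c else 0) (y : ι) : (B * A) y x = B y x' * c := by
  rw [Matrix.mul_apply]
  simp only [h, mul_ite, mul_zero, Finset.sum_ite_eq', Finset.mem_univ, if_true]

lemma link_mul_row {ι : Type*} [Fintype ι] [DecidableEq ι] (A B : Matrix ι ι ℂ) (z z' : ι) (c : ℂ)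
    (h : ∀ x, A z x = if x = z' then c else 0) (x : ι) : (A * B) z x = c * B z' x := by
  rw [Matrix.mul_apply]
  simp only [h, ite_mul, zero_mul, Finset.sum_ite_eq', Finset.mem_univ, if_true]

lemma link_M {s : ℕ} {u : ℂˣ} (b c d b' c' d' : Fin (2 * s + 1)) :
    (braidMatrix s u [((0 : Fin 3), true), (1, true), (2, true), (2, true), (1, true), (0, true)])
      ![0, b, c, d] ![0, b', c', d'] =
      if b = b' ∧ c = c' ∧ d = d' then (lkw s u b * lkw s u c * lkw s u d) ^ 2 else 0 := by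
  unfold braidMatrix
  simp only [List.map_cons, List.map_nil, List.prod_cons, List.prod_nil, mul_one]
  rw [link_mul_row _ _ _ _ _ (fun x => link_r0 x b c d),
    link_mul_row _ _ _ _ _ (fun x => link_r1 x b c d),
    link_mul_row _ _ _ _ _ (fun x => link_r2 x b c d),
    ← Matrix.mul_assoc (crossing s u ((2 : Fin 3), true)),
    link_mul_col _ _ _ _ _ (fun y => link_c0 y b' c' d'),
    link_mul_col _ _ _ _ _ (fun y => link_c1 y b' c' d'), link_c2]
  have e : (![b, c, d, 0] : Fin 4 → Fin (2 * s + 1)) = ![b', c', d', 0] ↔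
      b = b' ∧ c = c' ∧ d = d' := by
    rw [link_fin4_eq]
    constructor
    · rintro ⟨h1, h2, h3, _⟩
      exact ⟨h1, h2, h3⟩
    · rintro ⟨h1, h2, h3⟩
      exact ⟨h1, h2, h3, rfl⟩
  simp only [e]
  by_cases h : b = b' ∧ c = c' ∧ d = d'
  · obtain ⟨rfl, rfl, rfl⟩ := h
    simp only [and_self, if_true]
    ring
  · rw [if_neg h, if_neg h]
    ring

lemma link_M' {s : ℕ} {u : ℂˣ} (z x : Fin 3 → Fin (2 * s + 1)) :
    (braidMatrix s u [((0 : Fin 3), true), (1, true), (2, true), (2, true), (1, true), (0, true)])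
      (Fin.cons 0 z : Fin 4 → Fin (2 * s + 1)) (Fin.cons 0 x : Fin 4 → Fin (2 * s + 1)) =
      if z = x then ∏ l : Fin 3, (lkw s u (x l)) ^ 2 else 0 := by
  have e1 : (Fin.cons 0 z : Fin 4 → Fin (2 * s + 1)) = ![0, z 0, z 1, z 2] := by
    funext l; fin_cases l <;> rfl
  have e2 : (Fin.cons 0 x : Fin 4 → Fin (2 * s + 1)) = ![0, x 0, x 1, x 2] := by
    funext l; fin_cases l <;> rfl
  rw [e1, e2, link_M]
  have e3 : (z 0 = x 0 ∧ z 1 = x 1 ∧ z 2 = x 2) ↔ z = x := by
    constructor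
    · rintro ⟨h1, h2, h3⟩
      funext l; fin_cases l <;> assumption
    · rintro rfl
      exact ⟨rfl, rfl, rfl⟩
  simp only [e3]
  by_cases h : z = x
  · subst h
    simp only [if_true, Fin.prod_univ_three]
    ring
  · rw [if_neg h, if_neg h]

lemma link_cross {s : ℕ} {u : ℂˣ} (g : Fin 2 × Bool) (a c : Fin (2 * s + 1))
    (y z : Fin 3 → Fin (2 * s + 1)) :
    crossing (A := ℂ) s u ((g.1.succ, g.2) : Fin 3 × Bool) (Fin.cons a y : Fin 4 → Fin (2 * s + 1))
      (Fin.cons c z : Fin 4 → Fin (2 * s + 1)) =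
      if a = c then crossing (A := ℂ) s u g y z else 0 := by
  unfold crossing
  have e0 : (g.1.succ : Fin 3).castSucc = (g.1.castSucc).succ := (Fin.succ_castSucc g.1).symm
  have e1 : (∀ l : Fin 4, l ≠ (g.1.succ : Fin 3).castSucc → l ≠ (g.1.succ : Fin 3).succ →
      (Fin.cons a y : Fin 4 → Fin (2 * s + 1)) l = (Fin.cons c z : Fin 4 → Fin (2 * s + 1)) l) ↔
      a = c ∧ ∀ l : Fin 3, l ≠ g.1.castSucc → l ≠ g.1.succ → y l = z l := by
    rw [e0]
    constructor
    · intro hl
      refine ⟨?_, ?_⟩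
      · have := hl 0 (Fin.succ_ne_zero _).symm (Fin.succ_ne_zero _).symm
        simpa using this
      · intro l h1 h2
        have := hl l.succ (by simpa using h1) (by simpa using h2)
        simpa using this
    · rintro ⟨rfl, hl⟩ l h1 h2
      refine Fin.cases ?_ ?_ l (motive := fun l => l ≠ (g.1.castSucc).succ → l ≠ g.1.succ.succ →
        (Fin.cons a y : Fin 4 → Fin (2 * s + 1)) l = (Fin.cons a z : Fin 4 → Fin (2 * s + 1)) l) h1 h2
      · intro _ _; rfl
      · intro i hi1 hi2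
        have := hl i (by simpa using hi1) (by simpa using hi2)
        simpa using this
  simp only [e1]
  simp only [e0, Fin.cons_succ]
  by_cases h : a = c
  · simp only [h, true_and, if_true]
  · simp only [h, false_and, if_false]

lemma link_sum {N : ℕ} (F : (Fin 4 → Fin N) → ℂ) :
    ∑ z, F z = ∑ a : Fin N, ∑ z : Fin 3 → Fin N, F (Fin.cons a z) := by
  rw [← Equiv.sum_comp (Fin.consEquiv (fun _ : Fin 4 => Fin N)), Fintype.sum_prod_type]
  rfl

lemma link_lift {s : ℕ} {u : ℂˣ} (β : List (Fin 2 × Bool)) (a c : Fin (2 * s + 1))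
    (y z : Fin 3 → Fin (2 * s + 1)) :
    braidMatrix (A := ℂ) s u (β.map (fun g => ((g.1.succ, g.2) : Fin 3 × Bool)))
      (Fin.cons a y : Fin 4 → Fin (2 * s + 1)) (Fin.cons c z : Fin 4 → Fin (2 * s + 1)) =
      if a = c then braidMatrix (A := ℂ) s u β y z else 0 := by
  induction β generalizing a y with
  | nil =>
    unfold braidMatrix
    simp only [List.map_nil, List.prod_nil, Matrix.one_apply, Fin.cons_inj]
    by_cases h : a = c
    · simp [h]
    · simp [h]
  | cons g β ih =>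
    unfold braidMatrix at ih ⊢
    simp only [List.map_cons, List.prod_cons]
    rw [Matrix.mul_apply, link_sum]
    simp only [link_cross, ih]
    rw [Finset.sum_eq_single a]
    · simp only [if_true]
      by_cases h : a = c
      · simp only [h, if_true, Matrix.mul_apply]
      · simp only [h, if_false, mul_zero, Finset.sum_const_zero]
    · intro b _ hb
      apply Finset.sum_eq_zero
      intro z' _
      rw [if_neg (Ne.symm hb), zero_mul]
    · intro h
      exact absurd (Finset.mem_univ _) h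

lemma link_writhe (β : List (Fin 2 × Bool)) : writhe (axisWord β) = writhe β + 6 := by
  unfold writhe axisWord
  simp only [List.map_append, List.sum_append, List.map_map, List.map_cons, List.map_nil,
    List.sum_cons, List.sum_nil, if_true]
  rfl

lemma link_weight {s : ℕ} {u : ℂˣ} (h : IsPrimitiveRoot (u : ℂ) (2 * s + 1)) (j : ℕ) :
    ((u ^ ((s : ℤ) - (j : ℤ)) : ℂˣ) : ℂ) * (lkw s u j) ^ 2 = 1 := by
  unfold lkw
  have h1 : (u : ℂˣ) ^ (2 * s + 1) = 1 := by
    ext
    push_cast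
    exact h.pow_eq_one
  have e : (u ^ ((s : ℤ) - (j : ℤ)) : ℂˣ) * (u ^ ((s : ℤ) * (s - j)) : ℂˣ) ^ 2 = 1 := by
    rw [← zpow_natCast, ← zpow_mul, ← zpow_add]
    have : ((s : ℤ) - j + (s : ℤ) * (s - j) * ((2 : ℕ) : ℤ)) =
        ((2 * s + 1 : ℕ) : ℤ) * ((s : ℤ) - j) := by push_cast; ring
    rw [this, zpow_mul, zpow_natCast, h1, one_zpow]
  have := congrArg (fun v : ℂˣ => (v : ℂ)) e
  simpa using this

theorem colouredJones_axis {s : ℕ} {u : ℂˣ} (h : IsPrimitiveRoot (u : ℂ) (2 * s + 1))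
    (β : List (Fin 2 × Bool)) :
    colouredJones s (axisWord β) u =
      ((u ^ (-(writhe β + 6) * (s * (s + 1))) : ℂˣ) : ℂ) * (braidMatrix s u β).trace := by
  unfold colouredJones
  rw [link_writhe]
  congr 1
  rw [link_sum]
  have hprod : braidMatrix (A := ℂ) s u (axisWord β) =
      braidMatrix (A := ℂ) s u (β.map (fun g => ((g.1.succ, g.2) : Fin 3 × Bool))) *
        braidMatrix (A := ℂ) s u
          [((0 : Fin 3), true), (1, true), (2, true), (2, true), (1, true), (0, true)] := by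
    unfold braidMatrix axisWord
    rw [List.map_append, List.prod_append]
  have hBM : ∀ x : Fin 3 → Fin (2 * s + 1),
      braidMatrix (A := ℂ) s u (axisWord β) (Fin.cons 0 x : Fin 4 → Fin (2 * s + 1))
        (Fin.cons 0 x : Fin 4 → Fin (2 * s + 1)) =
        braidMatrix s u β x x * ∏ l : Fin 3, (lkw s u (x l)) ^ 2 := by
    intro x
    rw [hprod, Matrix.mul_apply, link_sum, Finset.sum_eq_single 0]
    · simp only [link_lift, if_true, link_M', mul_ite, mul_zero, Finset.sum_ite_eq',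
        Finset.mem_univ]
    · intro b _ hb
      apply Finset.sum_eq_zero
      intro z _
      rw [link_lift, if_neg (Ne.symm hb), zero_mul]
    · intro h
      exact absurd (Finset.mem_univ _) h
  rw [Finset.sum_eq_single 0]
  · unfold Matrix.trace
    apply Finset.sum_congr rfl
    intro x _
    rw [Matrix.diag_apply, Fin.cons_zero, if_pos rfl, hBM]
    simp only [Fin.cons_succ]
    rw [mul_comm (braidMatrix s u β x x), ← mul_assoc, ← Finset.prod_mul_distrib]
    rw [Finset.prod_congr rfl (fun l _ => link_weight h (x l : ℕ))]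
    simp
  · intro b _ hb
    apply Finset.sum_eq_zero
    intro z _
    rw [Fin.cons_zero, if_neg hb]
  · intro h
    exact absurd (Finset.mem_univ _) h

theorem writhe_wordK (K : ℕ) : writhe (wordK K) = 0 := by
  induction K with
  | zero => rfl
  | succ K ih =>
    have e : wordK (K + 1) = ((0 : Fin 2), true) :: ((1 : Fin 2), false) :: wordK K := by
      unfold wordK
      rw [List.replicate_succ, List.flatten_cons]
      rfl
    rw [e]
    unfold writhe at ih ⊢
    simp only [List.map_cons, List.sum_cons, ih]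
    simp

end Pool.Agent.Work.MP_b30479_gt.AX
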