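import Pool.Agent.Work.MP_b30479_gt.AX.SinP

/-!
# Local limit of `beta`
-/

namespace Pool.Agent.Work.MP_b30479_gt.AX

open Finset TB Filter Topology

/-- the logarithm of the factor `2 sin(π u)` -/
noncomputable def ptw_g (u : ℝ) : ℝ := Real.log (2 * Real.sin (Real.pi * u))

lemma ptw_sin_pos {u : ℝ} (h0 : 0 < u) (h1 : u < 1) : 0 < Real.sin (Real.pi * u) :=
  Real.sin_pos_of_pos_of_lt_pi (by positivity) (by nlinarith [Real.pi_pos])

lemma ptw_g_deriv {ρ : ℝ} (h0 : 0 < ρ) (h1 : ρ < 1) :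
    HasDerivAt ptw_g (Real.pi * Real.cos (Real.pi * ρ) / Real.sin (Real.pi * ρ)) ρ := by
  have hs : 0 < Real.sin (Real.pi * ρ) := ptw_sin_pos h0 h1
  have h2 : HasDerivAt (fun u => 2 * Real.sin (Real.pi * u))
      (2 * (Real.cos (Real.pi * ρ) * Real.pi)) ρ := by
    have h := (hasDerivAt_id ρ).const_mul Real.pi
    have h3 := (Real.hasDerivAt_sin (Real.pi * ρ)).comp ρ h
    simpa using h3.const_mul 2
  have h4 := h2.log (by positivity : (2 * Real.sin (Real.pi * ρ)) ≠ 0)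
  have h5 : Real.pi * Real.cos (Real.pi * ρ) / Real.sin (Real.pi * ρ) =
      2 * (Real.cos (Real.pi * ρ) * Real.pi) / (2 * Real.sin (Real.pi * ρ)) := by
    field_simp
  rw [h5]
  exact h4

lemma ptw_tel {E : ℤ → ℝ} {B : ℝ} {R : ℤ} (h0 : E 0 = 0)
    (h : ∀ x : ℤ, |x| ≤ R → |E x - E (x - 1)| ≤ B) :
    ∀ x : ℤ, |x| ≤ R → |E x| ≤ |(x : ℝ)| * B := by
  have pos : ∀ k : ℕ, (k : ℤ) ≤ R → |E k| ≤ k * B := by
    intro k
    induction k with
    | zero => intro _; simp [h0]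
    | succ k ih =>
      intro hk
      push_cast at hk
      have h1 := ih (by omega)
      have h2 := h ((k : ℤ) + 1) (by rw [abs_of_nonneg (by omega)]; exact hk)
      rw [add_sub_cancel_right] at h2
      push_cast
      calc |E ((k : ℤ) + 1)| = |(E ((k : ℤ) + 1) - E k) + E k| := by ring_nf
        _ ≤ |E ((k : ℤ) + 1) - E k| + |E k| := abs_add_le _ _
        _ ≤ B + k * B := add_le_add h2 h1
        _ = (k + 1) * B := by ring
  have neg : ∀ k : ℕ, (k : ℤ) ≤ R → |E (-(k : ℤ))| ≤ k * B := by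
    intro k
    induction k with
    | zero => intro _; simp [h0]
    | succ k ih =>
      intro hk
      push_cast at hk
      have h1 := ih (by omega)
      have h2 := h (-(k : ℤ)) (by rw [abs_neg, abs_of_nonneg (by omega)]; omega)
      have h3 : -(((k + 1 : ℕ) : ℤ)) = -(k : ℤ) - 1 := by push_cast; ring
      rw [h3]
      push_cast
      calc |E (-(k : ℤ) - 1)| = |E (-(k : ℤ)) - (E (-(k : ℤ)) - E (-(k : ℤ) - 1))| := by ring_nf
        _ ≤ |E (-(k : ℤ))| + |E (-(k : ℤ)) - E (-(k : ℤ) - 1)| := abs_sub _ _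
        _ ≤ k * B + B := add_le_add h1 h2
        _ = (k + 1) * B := by ring
  intro x hx
  obtain ⟨k, rfl | rfl⟩ := x.eq_nat_or_neg
  · rw [abs_of_nonneg (by omega)] at hx
    simpa using pos k hx
  · rw [abs_neg, abs_of_nonneg (by omega)] at hx
    simpa using neg k hx

lemma ptw_bound {ρ ε δ g' : ℝ} (hδ0 : δ ≤ ρ) (hδ1 : δ ≤ 1 - ρ) (hε : 0 ≤ ε)
    (hT : ∀ u, |u - ρ| < δ → |ptw_g u - ptw_g ρ - (u - ρ) * g'| ≤ ε * |u - ρ|)
    {n m : ℕ} {x : ℤ} (hn : 0 < n) (hm : |(m : ℝ) - ρ * n| ≤ 2) (hx : |(x : ℝ)| + 2 < δ * n) :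
    |Real.log (fS n ((m : ℤ) + x).toNat) - Real.log (fS n m) - x * ptw_g ρ
      - g' * ((x * (m - ρ * n) + x * (x + 1) / 2) / n)| ≤
      |(x : ℝ)| * (ε * ((|(x : ℝ)| + 2) / n)) := by
  have hnR : (0 : ℝ) < n := by exact_mod_cast hn
  set E : ℤ → ℝ := fun z => Real.log (fS n ((m : ℤ) + z).toNat) - Real.log (fS n m)
    - z * ptw_g ρ - g' * ((z * (m - ρ * n) + z * (z + 1) / 2) / n) with hE
  refine ptw_tel (E := E) (R := |x|) (by simp [hE]) ?_ x le_rfl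
  intro z hz
  have hzR : |(z : ℝ)| ≤ |(x : ℝ)| := by exact_mod_cast hz
  have hu1 : |((m : ℝ) + z) / n - ρ| ≤ (|(x : ℝ)| + 2) / n := by
    have h1 : ((m : ℝ) + z) / n - ρ = (((m : ℝ) - ρ * n) + z) / n := by
      field_simp
      ring
    rw [h1, abs_div, abs_of_pos hnR]
    gcongr
    calc |((m : ℝ) - ρ * n) + z| ≤ |(m : ℝ) - ρ * n| + |(z : ℝ)| := abs_add_le _ _
      _ ≤ |(x : ℝ)| + 2 := by linarith
  have hu2 : |((m : ℝ) + z) / n - ρ| < δ := by
    refine hu1.trans_lt ?_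
    rw [div_lt_iff₀ hnR]
    exact hx
  have hu3 := abs_lt.mp hu2
  have hpos : 0 < ((m : ℝ) + z) / n := by linarith [hu3.1]
  have hlt : ((m : ℝ) + z) / n < 1 := by linarith [hu3.2]
  have hposR : 0 < (m : ℝ) + z := by
    have := mul_pos hpos hnR
    rwa [div_mul_cancel₀ _ hnR.ne'] at this
  have hltR : (m : ℝ) + z < n := by
    rwa [div_lt_one hnR] at hlt
  have hposZ : 0 < (m : ℤ) + z := by exact_mod_cast hposR
  have hltZ : (m : ℤ) + z < n := by exact_mod_cast hltR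
  obtain ⟨k, hk⟩ : ∃ k : ℕ, (m : ℤ) + z = k + 1 := ⟨((m : ℤ) + z - 1).toNat, by omega⟩
  have hk1 : ((m : ℤ) + z).toNat = k + 1 := by omega
  have hk2 : ((m : ℤ) + (z - 1)).toNat = k := by omega
  have hkR : (m : ℝ) + z = k + 1 := by exact_mod_cast hk
  have hlog : Real.log (fS n (k + 1)) = Real.log (fS n k) + ptw_g (((m : ℝ) + z) / n) := by
    rw [fS_succ, Real.log_mul (fS_pos (by omega)).ne', ptw_g, hkR, mul_div_assoc]
    have := ptw_sin_pos hpos hlt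
    rw [hkR] at this
    rw [mul_div_assoc]
    exact mul_ne_zero two_ne_zero this.ne'
  have hdiff : E z - E (z - 1) = ptw_g (((m : ℝ) + z) / n) - ptw_g ρ
      - (((m : ℝ) + z) / n - ρ) * g' := by
    simp only [hE, hk1, hk2, hlog]
    push_cast
    field_simp
    ring
  rw [hdiff]
  exact (hT _ hu2).trans (mul_le_mul_of_nonneg_left hu1 hε)

theorem ptw_local {ρ : ℝ} (h0 : 0 < ρ) (h1 : ρ < 1) {m : ℕ → ℕ}
    (hm : ∀ n, |(m n : ℝ) - ρ * n| ≤ 2) {x : ℕ → ℤ} {X : ℝ}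
    (hx : Tendsto (fun n : ℕ => (x n : ℝ) / √(n : ℝ)) atTop (𝓝 X)) :
    Tendsto (fun n : ℕ => Real.log (fS n ((m n : ℤ) + x n).toNat) - Real.log (fS n (m n)) -
      x n * Real.log (2 * Real.sin (Real.pi * ρ))) atTop
      (𝓝 (Real.pi * Real.cos (Real.pi * ρ) / Real.sin (Real.pi * ρ) / 2 * X ^ 2)) := by
  set g' : ℝ := Real.pi * Real.cos (Real.pi * ρ) / Real.sin (Real.pi * ρ) with hg'
  have hs : Tendsto (fun n : ℕ => (√(n : ℝ))⁻¹) atTop (𝓝 0) :=
    tendsto_inv_atTop_zero.comp (Real.tendsto_sqrt_atTop.comp tendsto_natCast_atTop_atTop)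
  have hx1 : Tendsto (fun n : ℕ => (x n : ℝ) / n) atTop (𝓝 0) := by
    have h := hx.mul hs
    rw [mul_zero] at h
    refine h.congr fun n => ?_
    rw [div_mul_eq_mul_div, div_eq_mul_inv, mul_assoc, ← mul_inv, Real.mul_self_sqrt
      (Nat.cast_nonneg n), ← div_eq_mul_inv]
  have hx2 : Tendsto (fun n : ℕ => (x n : ℝ) ^ 2 / n) atTop (𝓝 (X ^ 2)) := by
    refine (hx.pow 2).congr fun n => ?_
    rw [div_pow, Real.sq_sqrt (Nat.cast_nonneg n)]
  have hx1a : Tendsto (fun n : ℕ => |(x n : ℝ)| / n) atTop (𝓝 0) := by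
    have h := hx1.abs
    rw [abs_zero] at h
    refine h.congr fun n => ?_
    rw [abs_div, abs_of_nonneg (Nat.cast_nonneg n : (0 : ℝ) ≤ n)]
  have hA : Tendsto (fun n : ℕ => ((x n : ℝ) * (m n - ρ * n) + x n * (x n + 1) / 2) / n) atTop
      (𝓝 (X ^ 2 / 2)) := by
    have h2 : Tendsto (fun n : ℕ => (x n : ℝ) * (m n - ρ * n) / n) atTop (𝓝 0) := by
      refine squeeze_zero_norm (a := fun n : ℕ => 2 * (|(x n : ℝ)| / n)) (fun n => ?_) ?_
      · rw [Real.norm_eq_abs, abs_div, abs_mul, abs_of_nonneg (Nat.cast_nonneg n : (0 : ℝ) ≤ n),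
          ← mul_div_assoc]
        apply div_le_div_of_nonneg_right _ (Nat.cast_nonneg n)
        rw [mul_comm]
        exact mul_le_mul_of_nonneg_right (hm n) (abs_nonneg _)
      · simpa using hx1a.const_mul 2
    have h3 := (h2.add (hx2.div_const 2)).add (hx1.div_const 2)
    rw [zero_add, zero_div, add_zero] at h3
    refine h3.congr fun n => ?_
    ring
  have hB : Tendsto (fun n : ℕ => |(x n : ℝ)| * ((|(x n : ℝ)| + 2) / n)) atTop (𝓝 (X ^ 2)) := by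
    have h3 := hx2.add (hx1a.const_mul 2)
    rw [mul_zero, add_zero] at h3
    refine h3.congr fun n => ?_
    rw [← sq_abs]
    ring
  have hE : Tendsto (fun n : ℕ => Real.log (fS n ((m n : ℤ) + x n).toNat) -
      Real.log (fS n (m n)) - x n * ptw_g ρ
      - g' * (((x n : ℝ) * (m n - ρ * n) + x n * (x n + 1) / 2) / n)) atTop (𝓝 0) := by
    rw [Metric.tendsto_atTop']
    intro η hη
    set ε : ℝ := η / (2 * (X ^ 2 + 1)) with hεd
    have hε : 0 < ε := by positivity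
    have hd := (hasDerivAt_iff_isLittleO.mp (ptw_g_deriv h0 h1)).def hε
    obtain ⟨δ, hδ, hT⟩ := Metric.eventually_nhds_iff.mp hd
    set δ' : ℝ := min δ (min ρ (1 - ρ)) with hδ'
    have hδ'0 : 0 < δ' := lt_min hδ (lt_min h0 (by linarith))
    have e1 : ∀ᶠ n : ℕ in atTop, |(x n : ℝ)| / n < δ' / 2 :=
      hx1a.eventually (gt_mem_nhds (by positivity))
    have e2 : ∀ᶠ n : ℕ in atTop, |(x n : ℝ)| * ((|(x n : ℝ)| + 2) / n) < X ^ 2 + 1 :=
      hB.eventually (gt_mem_nhds (by linarith))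
    have e3 : ∀ᶠ n : ℕ in atTop, 4 / δ' < (n : ℝ) :=
      tendsto_natCast_atTop_atTop.eventually (eventually_gt_atTop _)
    obtain ⟨N, hN⟩ := (((e1.and e2).and e3).and (eventually_gt_atTop 0)).exists_forall_of_atTop
    refine ⟨N, fun n hn => ?_⟩
    obtain ⟨⟨⟨a1, a2⟩, a3⟩, a4⟩ := hN n (le_of_lt hn)
    have hnR : (0 : ℝ) < n := by exact_mod_cast a4
    rw [div_lt_iff₀ hnR] at a1
    rw [div_lt_iff₀ hδ'0] at a3
    have hb := ptw_bound (ρ := ρ) (ε := ε) (δ := δ') (g' := g') (n := n) (m := m n) (x := x n)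
      ((min_le_right _ _).trans (min_le_left _ _)) ((min_le_right _ _).trans (min_le_right _ _))
      hε.le (fun u hu => by
        have h := hT (y := u) (by
          rw [Real.dist_eq]
          exact hu.trans_le (min_le_left _ _))
        simpa [Real.norm_eq_abs] using h) a4 (hm n) (by linarith)
    rw [Real.dist_eq, sub_zero]
    refine hb.trans_lt ?_
    calc |(x n : ℝ)| * (ε * ((|(x n : ℝ)| + 2) / n))
        = ε * (|(x n : ℝ)| * ((|(x n : ℝ)| + 2) / n)) := by ring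
      _ ≤ ε * (X ^ 2 + 1) := mul_le_mul_of_nonneg_left a2.le hε.le
      _ = η / 2 := by
        rw [hεd]
        field_simp
      _ < η := by linarith
  have hfin := hE.add (hA.const_mul g')
  rw [zero_add] at hfin
  have hval : g' * (X ^ 2 / 2) = g' / 2 * X ^ 2 := by ring
  rw [hval] at hfin
  refine hfin.congr fun n => ?_
  simp only [ptw_g]
  ring

theorem fS_local {ρ : ℝ} (h0 : 0 < ρ) (h1 : ρ < 1) {m : ℕ → ℕ}
    (hm : ∀ n, |(m n : ℝ) - ρ * n| ≤ 1) {x : ℕ → ℤ} {X : ℝ}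
    (hx : Tendsto (fun n : ℕ => (x n : ℝ) / √(n : ℝ)) atTop (𝓝 X)) :
    Tendsto (fun n : ℕ => Real.log (fS n ((m n : ℤ) + x n).toNat) - Real.log (fS n (m n)) -
      x n * Real.log (2 * Real.sin (Real.pi * ρ))) atTop
      (𝓝 (Real.pi * Real.cos (Real.pi * ρ) / Real.sin (Real.pi * ρ) / 2 * X ^ 2)) :=
  ptw_local h0 h1 (fun n => (hm n).trans (by norm_num)) hx

lemma ptw_div3 (n : ℕ) : (n : ℝ) / 3 - 1 < ((n / 3 : ℕ) : ℝ) ∧ ((n / 3 : ℕ) : ℝ) ≤ (n : ℝ) / 3 := by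
  have h1 : n < (n / 3) * 3 + 3 := by omega
  have h2 : (n / 3) * 3 ≤ n := by omega
  have h1R : (n : ℝ) < ((n / 3 : ℕ) : ℝ) * 3 + 3 := by exact_mod_cast h1
  have h2R : ((n / 3 : ℕ) : ℝ) * 3 ≤ n := by exact_mod_cast h2
  constructor <;> linarith

theorem beta_lim {x y : ℕ → ℤ} {X Y : ℝ}
    (hx : Tendsto (fun n : ℕ => (x n : ℝ) / √(n : ℝ)) atTop (𝓝 X))
    (hy : Tendsto (fun n : ℕ => (y n : ℝ) / √(n : ℝ)) atTop (𝓝 Y)) :
    Tendsto (fun n : ℕ => beta n (x n) (y n)) atTop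
      (𝓝 (Real.exp (-(Real.pi / √3) * (X ^ 2 - X * Y + Y ^ 2)))) := by
  have hxy : Tendsto (fun n : ℕ => ((x n - y n : ℤ) : ℝ) / √(n : ℝ)) atTop (𝓝 (X - Y)) := by
    refine (hx.sub hy).congr fun n => ?_
    push_cast
    ring
  have hm1 : ∀ n : ℕ, |((n - n / 3 : ℕ) : ℝ) - 2 / 3 * n| ≤ 2 := by
    intro n
    obtain ⟨h1, h2⟩ := ptw_div3 n
    rw [Nat.cast_sub (Nat.div_le_self n 3), abs_le]
    constructor <;> linarith
  have hm2 : ∀ n : ℕ, |((n / 3 : ℕ) : ℝ) - 1 / 3 * n| ≤ 2 := by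
    intro n
    obtain ⟨h1, h2⟩ := ptw_div3 n
    rw [abs_le]
    constructor <;> linarith
  have hm3 : ∀ n : ℕ, |((n - n / 3 - n / 3 : ℕ) : ℝ) - 1 / 3 * n| ≤ 2 := by
    intro n
    obtain ⟨h1, h2⟩ := ptw_div3 n
    rw [Nat.cast_sub (by omega), Nat.cast_sub (Nat.div_le_self n 3), abs_le]
    constructor <;> linarith
  have L1 := ptw_local (by norm_num : (0 : ℝ) < 2 / 3) (by norm_num) hm1 hx
  have L2 := ptw_local (by norm_num : (0 : ℝ) < 1 / 3) (by norm_num) hm2 hy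
  have L3 := ptw_local (by norm_num : (0 : ℝ) < 1 / 3) (by norm_num) hm3 hxy
  have c1 : Real.pi * (1 / 3) = Real.pi / 3 := by ring
  have c2 : Real.pi * (2 / 3) = Real.pi - Real.pi / 3 := by ring
  rw [c2, Real.sin_pi_sub, Real.cos_pi_sub] at L1
  rw [c1] at L2 L3
  rw [Real.sin_pi_div_three, Real.cos_pi_div_three] at L1 L2 L3
  have L := ((L1.sub L2).sub L3).rexp
  have h3 : √(3 : ℝ) * √3 = 3 := Real.mul_self_sqrt (by norm_num)
  have h30 : (0 : ℝ) < √3 := by positivity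
  have hval : Real.pi * -(1 / 2) / (√3 / 2) / 2 * X ^ 2 - Real.pi * (1 / 2) / (√3 / 2) / 2 * Y ^ 2
      - Real.pi * (1 / 2) / (√3 / 2) / 2 * (X - Y) ^ 2
      = -(Real.pi / √3) * (X ^ 2 - X * Y + Y ^ 2) := by
    field_simp
    ring
  rw [hval] at L
  refine L.congr' ?_
  have hs : Tendsto (fun n : ℕ => (√(n : ℝ))⁻¹) atTop (𝓝 0) :=
    tendsto_inv_atTop_zero.comp (Real.tendsto_sqrt_atTop.comp tendsto_natCast_atTop_atTop)
  have small : ∀ {z : ℕ → ℤ} {Z : ℝ}, Tendsto (fun n : ℕ => (z n : ℝ) / √(n : ℝ)) atTop (𝓝 Z) →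
      ∀ᶠ n : ℕ in atTop, |(z n : ℝ)| ≤ n / 12 := by
    intro z Z hz
    have h := hz.mul hs
    rw [mul_zero] at h
    have h2 := h.abs
    rw [abs_zero] at h2
    filter_upwards [h2.eventually (gt_mem_nhds (by norm_num : (0 : ℝ) < 1 / 12)),
      eventually_gt_atTop 0] with n hn hn0
    have hnR : (0 : ℝ) < n := by exact_mod_cast hn0
    have h4 : (z n : ℝ) / √(n : ℝ) * (√(n : ℝ))⁻¹ = z n / n := by
      rw [div_mul_eq_mul_div, div_eq_mul_inv, mul_assoc, ← mul_inv, Real.mul_self_sqrt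
        (Nat.cast_nonneg n), ← div_eq_mul_inv]
    rw [h4, abs_div, abs_of_pos hnR, div_lt_iff₀ hnR] at hn
    linarith
  filter_upwards [small hx, small hy, eventually_ge_atTop 100] with n hxn hyn hn
  obtain ⟨h1, h2⟩ := ptw_div3 n
  rw [beta, b0]
  obtain ⟨q, hq⟩ : ∃ q, q = n / 3 := ⟨_, rfl⟩
  rw [← hq] at h1 h2 ⊢
  have hnR : (100 : ℝ) ≤ n := by exact_mod_cast hn
  have ax := abs_le.mp hxn
  have ay := abs_le.mp hyn
  have i1 : (0 : ℤ) ≤ q + y n := by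
    have : (0 : ℝ) ≤ (q : ℝ) + y n := by linarith [ay.1]
    exact_mod_cast this
  have i2 : (q : ℤ) + y n ≤ (n : ℤ) - q + x n := by
    have : (q : ℝ) + y n ≤ (n : ℝ) - q + x n := by
      linarith [ay.2, ax.1]
    exact_mod_cast this
  have i3 : (n : ℤ) - q + x n < n := by
    have : (n : ℝ) - q + x n < n := by linarith [ax.2]
    exact_mod_cast this
  rw [bS, bS, if_pos ⟨i1, i2, i3⟩, if_pos ⟨by omega, by omega, by omega⟩]
  have e1 : ((n : ℤ) - q + x n).toNat = (((n - q : ℕ) : ℤ) + x n).toNat := by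
    congr 1
    omega
  have e2 : ((n : ℤ) - q + x n - ((q : ℤ) + y n)).toNat =
      (((n - q - q : ℕ) : ℤ) + (x n - y n)).toNat := by
    congr 1
    omega
  have e3 : ((n : ℤ) - q).toNat = n - q := by omega
  have e4 : ((n : ℤ) - q - (q : ℤ)).toNat = n - q - q := by omega
  have e5 : ((q : ℤ)).toNat = q := by omega
  rw [e1, e2, e3, e4, e5]
  have p1 : 0 < fS n (((n - q : ℕ) : ℤ) + x n).toNat := fS_pos (by omega)
  have p2 : 0 < fS n ((q : ℤ) + y n).toNat := fS_pos (by omega)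
  have p3 : 0 < fS n (((n - q - q : ℕ) : ℤ) + (x n - y n)).toNat := fS_pos (by omega)
  have p4 : 0 < fS n (n - q) := fS_pos (by omega)
  have p5 : 0 < fS n q := fS_pos (by omega)
  have p6 : 0 < fS n (n - q - q) := fS_pos (by omega)
  rw [← Real.exp_log (div_pos (div_pos p1 (mul_pos p2 p3)) (div_pos p4 (mul_pos p5 p6)))]
  congr 1
  rw [Real.log_div (div_pos p1 (mul_pos p2 p3)).ne' (div_pos p4 (mul_pos p5 p6)).ne',
    Real.log_div p1.ne' (mul_pos p2 p3).ne', Real.log_div p4.ne' (mul_pos p5 p6).ne',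
    Real.log_mul p2.ne' p3.ne', Real.log_mul p5.ne' p6.ne']
  push_cast
  ring

end Pool.Agent.Work.MP_b30479_gt.AX
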