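import Pool.Agent.Work.MP_b30479_gt.AX.Dom
import Pool.Agent.Work.MP_b30479_gt.AX.Ptw

/-!
# Domination and convergence of the summand
-/

namespace Pool.Agent.Work.MP_b30479_gt.AX

open Finset TB Filter Topology

lemma mDom_beta_ne {n : ℕ} {x y : ℤ} (h : beta n x y ≠ 0) :
    |x| ≤ 2 * n ∧ |y| ≤ 2 * n := by
  have h1 : bS n ((n : ℤ) - (n / 3 : ℕ) + x) ((n / 3 : ℕ) + y) ≠ 0 := by
    intro h0
    apply h
    rw [beta, h0, zero_div]
  unfold bS at h1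
  split_ifs at h1 with h2
  · constructor <;> rw [abs_le] <;> constructor <;> omega
  · exact absurd rfl h1

lemma mDom_mS_ne {n : ℕ} {v x y : ℤ} (h : mS n v x y ≠ 0) :
    |v| ≤ 2 * n ∧ |x| ≤ 2 * n ∧ |y| ≤ 2 * n := by
  have h1 : beta n (x - v) (y - v) ≠ 0 := by
    intro h0
    apply h
    simp [mS, h0]
  have h2 : beta n (x + v) (y + v) ≠ 0 := by
    intro h0
    apply h
    simp [mS, h0]
  obtain ⟨a1, a2⟩ := mDom_beta_ne h1
  obtain ⟨b1, b2⟩ := mDom_beta_ne h2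
  rw [abs_le] at a1 a2 b1 b2
  refine ⟨?_, ?_, ?_⟩ <;> rw [abs_le] <;> constructor <;> omega

theorem FS_fin (K : ℕ) [NeZero K] (n : ℕ) : (Function.support (FS K n)).Finite := by
  refine (((Set.finite_Icc (-(2 * n : ℤ)) (2 * n)).prod
    (Set.finite_Icc (fun _ : Fin K => -(2 * n : ℤ)) (fun _ => (2 * n : ℤ)))).prod
    (Set.finite_Icc (fun _ : Fin K => -(2 * n : ℤ)) (fun _ => (2 * n : ℤ)))).subset ?_
  intro z hz
  have h1 : ∀ i, mS n z.1.1 (z.1.2 i) (z.2 i) ≠ 0 := by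
    intro i h0
    apply hz
    unfold FS
    apply Finset.prod_eq_zero (Finset.mem_univ i)
    rw [h0, zero_mul]
  have h2 := fun i => mDom_mS_ne (h1 i)
  simp only [abs_le] at h2
  refine ⟨⟨⟨?_, ?_⟩, ⟨fun i => ?_, fun i => ?_⟩⟩, ⟨fun i => ?_, fun i => ?_⟩⟩
  · exact (h2 0).1.1
  · exact (h2 0).1.2
  · exact (h2 i).2.1.1
  · exact (h2 i).2.1.2
  · exact (h2 i).2.2.1
  · exact (h2 i).2.2.2

lemma mDom_norm_mS (n : ℕ) (v x y : ℤ) :
    ‖mS n v x y‖ = √(beta n (x - v) (y - v) * beta n (x + v) (y + v)) := by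
  unfold mS
  rw [norm_mul, Complex.norm_exp_ofReal_mul_I, mul_one, Complex.norm_real, Real.norm_eq_abs,
    abs_of_nonneg (Real.sqrt_nonneg _)]

lemma mDom_beta_nonneg (n : ℕ) (x y : ℤ) : 0 ≤ beta n x y := by
  unfold beta b0
  exact div_nonneg (bS_nonneg _ _ _) (bS_nonneg _ _ _)

lemma mDom_mS_le {C c : ℝ} (hC : 0 < C)
    (h : ∀ n : ℕ, 3 ≤ n → ∀ x y : ℤ,
      beta n x y ≤ C * Real.exp (-c * ((x : ℝ) ^ 2 + (y : ℝ) ^ 2) / n))
    {n : ℕ} (hn : 3 ≤ n) (v x y : ℤ) :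
    ‖mS n v x y‖ ≤ C * Real.exp (-c * ((x : ℝ) ^ 2 + (y : ℝ) ^ 2 + 2 * (v : ℝ) ^ 2) / n) := by
  rw [mDom_norm_mS]
  have h1 := h n hn (x - v) (y - v)
  have h2 := h n hn (x + v) (y + v)
  have h3 : beta n (x - v) (y - v) * beta n (x + v) (y + v) ≤
      (C * Real.exp (-c * ((x : ℝ) ^ 2 + (y : ℝ) ^ 2 + 2 * (v : ℝ) ^ 2) / n)) ^ 2 := by
    calc beta n (x - v) (y - v) * beta n (x + v) (y + v)
        ≤ (C * Real.exp (-c * (((x - v : ℤ) : ℝ) ^ 2 + ((y - v : ℤ) : ℝ) ^ 2) / n)) *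
          (C * Real.exp (-c * (((x + v : ℤ) : ℝ) ^ 2 + ((y + v : ℤ) : ℝ) ^ 2) / n)) :=
          mul_le_mul h1 h2 (mDom_beta_nonneg _ _ _) (by positivity)
      _ = C ^ 2 * (Real.exp (-c * (((x - v : ℤ) : ℝ) ^ 2 + ((y - v : ℤ) : ℝ) ^ 2) / n) *
          Real.exp (-c * (((x + v : ℤ) : ℝ) ^ 2 + ((y + v : ℤ) : ℝ) ^ 2) / n)) := by ring
      _ = _ := by
        rw [mul_pow, ← Real.exp_add, pow_two (Real.exp _), ← Real.exp_add]
        congr 2
        push_cast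
        ring
  calc √(beta n (x - v) (y - v) * beta n (x + v) (y + v))
      ≤ √((C * Real.exp (-c * ((x : ℝ) ^ 2 + (y : ℝ) ^ 2 + 2 * (v : ℝ) ^ 2) / n)) ^ 2) :=
        Real.sqrt_le_sqrt h3
    _ = _ := Real.sqrt_sq (by positivity)

theorem FS_dom (K : ℕ) [NeZero K] : ∃ C c : ℝ, 0 < c ∧ ∀ n : ℕ, 3 ≤ n → ∀ z : ZK K,
    ‖FS K n z‖ ≤ C * Real.exp (-c * sqn z / n) := by
  obtain ⟨C, c, hC, hc, h⟩ := beta_dom
  refine ⟨(C * C) ^ K, c, hc, fun n hn z => ?_⟩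
  have hnR : (0 : ℝ) < n := by
    have : 0 < n := by omega
    exact_mod_cast this
  have h1 : ∀ i, ‖mS n z.1.1 (z.1.2 i) (z.2 i) * star (mS n z.1.1 (z.1.2 (i + 1)) (z.2 i))‖ ≤
      (C * C) * Real.exp (-c * ((z.1.2 i : ℝ) ^ 2 + (z.2 i : ℝ) ^ 2 + (z.1.1 : ℝ) ^ 2) / n) := by
    intro i
    rw [norm_mul, norm_star]
    have a := mDom_mS_le hC h hn z.1.1 (z.1.2 i) (z.2 i)
    have b := mDom_mS_le hC h hn z.1.1 (z.1.2 (i + 1)) (z.2 i)
    have a' : ‖mS n z.1.1 (z.1.2 i) (z.2 i)‖ ≤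
        C * Real.exp (-c * ((z.1.2 i : ℝ) ^ 2 + (z.2 i : ℝ) ^ 2 + (z.1.1 : ℝ) ^ 2) / n) := by
      refine a.trans ?_
      gcongr C * Real.exp (?_ / _)
      nlinarith [sq_nonneg (z.1.1 : ℝ)]
    have b' : ‖mS n z.1.1 (z.1.2 (i + 1)) (z.2 i)‖ ≤ C := by
      refine b.trans ?_
      have : Real.exp (-c * ((z.1.2 (i + 1) : ℝ) ^ 2 + (z.2 i : ℝ) ^ 2 +
          2 * (z.1.1 : ℝ) ^ 2) / n) ≤ 1 := by
        rw [Real.exp_le_one_iff]
        apply div_nonpos_of_nonpos_of_nonneg _ hnR.le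
        have : 0 ≤ c * ((z.1.2 (i + 1) : ℝ) ^ 2 + (z.2 i : ℝ) ^ 2 + 2 * (z.1.1 : ℝ) ^ 2) := by
          positivity
        linarith
      nlinarith
    calc _ ≤ (C * Real.exp (-c * ((z.1.2 i : ℝ) ^ 2 + (z.2 i : ℝ) ^ 2 + (z.1.1 : ℝ) ^ 2) / n))
          * C := mul_le_mul a' b' (norm_nonneg _) (by positivity)
      _ = _ := by ring
  unfold FS
  rw [norm_prod]
  refine (Finset.prod_le_prod (fun i _ => norm_nonneg _) fun i _ => h1 i).trans ?_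
  rw [Finset.prod_mul_distrib, Finset.prod_const, Finset.card_univ, Fintype.card_fin,
    ← Real.exp_sum]
  gcongr
  rw [← Finset.sum_div, ← Finset.mul_sum]
  gcongr ?_ / _
  unfold sqn
  rw [Finset.sum_add_distrib, Finset.sum_add_distrib, Finset.sum_const, Finset.card_univ,
    Fintype.card_fin, nsmul_eq_mul]
  have hK : (1 : ℝ) ≤ K := by
    exact_mod_cast NeZero.one_le
  have : (z.1.1 : ℝ) ^ 2 ≤ K * (z.1.1 : ℝ) ^ 2 := by
    nlinarith [sq_nonneg (z.1.1 : ℝ)]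
  nlinarith

lemma mDom_floor (X : ℝ) :
    Tendsto (fun n : ℕ => ((⌊√(n : ℝ) * X⌋ : ℤ) : ℝ) / √(n : ℝ)) atTop (𝓝 X) := by
  have hs : Tendsto (fun n : ℕ => √(n : ℝ)) atTop atTop :=
    Real.tendsto_sqrt_atTop.comp tendsto_natCast_atTop_atTop
  have h1 : Tendsto (fun n : ℕ => X - (√(n : ℝ))⁻¹) atTop (𝓝 X) := by
    have := (tendsto_const_nhds (x := X)).sub (tendsto_inv_atTop_zero.comp hs)
    simpa using this
  refine tendsto_of_tendsto_of_tendsto_of_le_of_le' h1 tendsto_const_nhds ?_ ?_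
  · filter_upwards [eventually_gt_atTop 0] with n hn
    have hp : (0 : ℝ) < √(n : ℝ) := Real.sqrt_pos.mpr (by exact_mod_cast hn)
    rw [le_div_iff₀ hp, sub_mul, inv_mul_cancel₀ hp.ne']
    have := Int.sub_one_lt_floor (√(n : ℝ) * X)
    linarith
  · filter_upwards [eventually_gt_atTop 0] with n hn
    have hp : (0 : ℝ) < √(n : ℝ) := Real.sqrt_pos.mpr (by exact_mod_cast hn)
    rw [div_le_iff₀ hp]
    have := Int.floor_le (√(n : ℝ) * X)
    linarith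

lemma mDom_mS_lim {v x y : ℕ → ℤ} {V X Y : ℝ}
    (hv : Tendsto (fun n : ℕ => (v n : ℝ) / √(n : ℝ)) atTop (𝓝 V))
    (hx : Tendsto (fun n : ℕ => (x n : ℝ) / √(n : ℝ)) atTop (𝓝 X))
    (hy : Tendsto (fun n : ℕ => (y n : ℝ) / √(n : ℝ)) atTop (𝓝 Y)) :
    Tendsto (fun n : ℕ => mS n (v n) (x n) (y n)) atTop (𝓝 (gam V X Y)) := by
  have sub : ∀ {a b : ℕ → ℤ} {A B : ℝ},
      Tendsto (fun n : ℕ => (a n : ℝ) / √(n : ℝ)) atTop (𝓝 A) →
      Tendsto (fun n : ℕ => (b n : ℝ) / √(n : ℝ)) atTop (𝓝 B) →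
      Tendsto (fun n : ℕ => ((a n - b n : ℤ) : ℝ) / √(n : ℝ)) atTop (𝓝 (A - B)) := by
    intro a b A B ha hb
    refine (ha.sub hb).congr fun n => ?_
    push_cast
    ring
  have add : ∀ {a b : ℕ → ℤ} {A B : ℝ},
      Tendsto (fun n : ℕ => (a n : ℝ) / √(n : ℝ)) atTop (𝓝 A) →
      Tendsto (fun n : ℕ => (b n : ℝ) / √(n : ℝ)) atTop (𝓝 B) →
      Tendsto (fun n : ℕ => ((a n + b n : ℤ) : ℝ) / √(n : ℝ)) atTop (𝓝 (A + B)) := by
    intro a b A B ha hb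
    refine (ha.add hb).congr fun n => ?_
    push_cast
    ring
  have h1 := beta_lim (sub hx hv) (sub hy hv)
  have h2 := beta_lim (add hx hv) (add hy hv)
  have h3 : Tendsto (fun n : ℕ => √(beta n (x n - v n) (y n - v n) *
      beta n (x n + v n) (y n + v n))) atTop
      (𝓝 (Real.exp (-(Real.pi / √3) * (X ^ 2 - X * Y + Y ^ 2 + V ^ 2)))) := by
    have h := (Real.continuous_sqrt.tendsto _).comp (h1.mul h2)
    have hval : √(Real.exp (-(Real.pi / √3) * ((X - V) ^ 2 - (X - V) * (Y - V) + (Y - V) ^ 2)) *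
        Real.exp (-(Real.pi / √3) * ((X + V) ^ 2 - (X + V) * (Y + V) + (Y + V) ^ 2))) =
        Real.exp (-(Real.pi / √3) * (X ^ 2 - X * Y + Y ^ 2 + V ^ 2)) := by
      rw [← Real.exp_add]
      have : -(Real.pi / √3) * ((X - V) ^ 2 - (X - V) * (Y - V) + (Y - V) ^ 2) +
          -(Real.pi / √3) * ((X + V) ^ 2 - (X + V) * (Y + V) + (Y + V) ^ 2) =
          -(Real.pi / √3) * (X ^ 2 - X * Y + Y ^ 2 + V ^ 2) +
          -(Real.pi / √3) * (X ^ 2 - X * Y + Y ^ 2 + V ^ 2) := by ring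
      rw [this, Real.exp_add, Real.sqrt_mul_self (Real.exp_pos _).le]
    rw [hval] at h
    exact h
  have h4 : Tendsto (fun n : ℕ => Real.pi * (x n : ℝ) * (y n : ℝ) / n) atTop
      (𝓝 (Real.pi * X * Y)) := by
    have h := ((tendsto_const_nhds (x := Real.pi)).mul hx).mul hy
    refine h.congr fun n => ?_
    have : (n : ℝ) = √(n : ℝ) * √(n : ℝ) := (Real.mul_self_sqrt (Nat.cast_nonneg n)).symm
    conv_rhs => rw [this]
    ring
  unfold mS gam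
  refine ((Complex.continuous_ofReal.tendsto _).comp h3).mul ?_
  refine (Complex.continuous_exp.tendsto _).comp ?_
  exact ((Complex.continuous_ofReal.tendsto _).comp h4).mul tendsto_const_nhds

theorem FS_lim (K : ℕ) [NeZero K] (Z : EK K) :
    Tendsto (fun n => FS K n (flK n Z)) atTop (𝓝 (GK K Z)) := by
  unfold FS GK flK
  refine tendsto_finsetProd _ fun i _ => ?_
  refine (mDom_mS_lim (mDom_floor _) (mDom_floor _) (mDom_floor _)).mul ?_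
  exact (continuous_star.tendsto _).comp
    (mDom_mS_lim (mDom_floor _) (mDom_floor _) (mDom_floor _))

end Pool.Agent.Work.MP_b30479_gt.AX
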