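import Pool.Agent.Work.MP_b30479_gt.AX.DefsB

/-!
# Products of sines (the part that does not use the braiding)
-/

namespace Pool.Agent.Work.MP_b30479_gt.AX

open Finset TB

theorem fS_succ (n m : ℕ) :
    fS n (m + 1) = fS n m * (2 * Real.sin (Real.pi * ((m : ℝ) + 1) / n)) := by
  unfold fS
  rw [prod_range_succ]

lemma sinF_pos {n l : ℕ} (h : l + 1 < n) : 0 < Real.sin (Real.pi * ((l : ℝ) + 1) / n) := by
  have hn : (0 : ℝ) < n := by
    have : 0 < n := by omega
    exact_mod_cast this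
  have hpi := Real.pi_pos
  apply Real.sin_pos_of_pos_of_lt_pi
  · positivity
  · rw [div_lt_iff₀ hn]
    apply mul_lt_mul_of_pos_left _ hpi
    exact_mod_cast h

theorem fS_pos {n m : ℕ} (h : m < n) : 0 < fS n m := by
  unfold fS
  apply Finset.prod_pos
  intro l hl
  rw [mem_range] at hl
  have := sinF_pos (n := n) (l := l) (by omega)
  linarith

lemma sinF_norm {n l : ℕ} (h : l + 1 < n) :
    ‖1 - Complex.exp (2 * Real.pi * Complex.I / (n : ℂ)) ^ (l + 1)‖ =
      2 * Real.sin (Real.pi * ((l : ℝ) + 1) / n) := by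
  have hn : (n : ℂ) ≠ 0 := by
    have : n ≠ 0 := by omega
    exact_mod_cast this
  have hn' : (n : ℝ) ≠ 0 := by
    have : n ≠ 0 := by omega
    exact_mod_cast this
  have e1 : Complex.exp (2 * Real.pi * Complex.I / (n : ℂ)) ^ (l + 1) =
      Complex.exp (Complex.I * ((2 * (Real.pi * ((l : ℝ) + 1) / n) : ℝ) : ℂ)) := by
    rw [← Complex.exp_nat_mul]
    congr 1
    push_cast
    field_simp
  rw [e1, norm_sub_rev, Complex.norm_exp_I_mul_ofReal_sub_one,
    show 2 * (Real.pi * ((l : ℝ) + 1) / n) / 2 = Real.pi * ((l : ℝ) + 1) / n by ring,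
    Real.norm_of_nonneg]
  have := sinF_pos h
  linarith

lemma sinF_full_succ (m : ℕ) :
    ∏ l ∈ range m, 2 * Real.sin (Real.pi * ((l : ℝ) + 1) / ((m + 1 : ℕ) : ℝ)) =
      ((m + 1 : ℕ) : ℝ) := by
  have hp : IsPrimitiveRoot (Complex.exp (2 * Real.pi * Complex.I / ((m + 1 : ℕ) : ℂ))) (m + 1) :=
    Complex.isPrimitiveRoot_exp (m + 1) (Nat.succ_ne_zero m)
  have e := hp.prod_one_sub_pow_eq_order
  have e2 := congrArg norm e
  rw [norm_prod] at e2
  have e3 : ‖(m : ℂ) + 1‖ = ((m + 1 : ℕ) : ℝ) := by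
    have : (m : ℂ) + 1 = ((m + 1 : ℕ) : ℂ) := by push_cast; ring
    rw [this, Complex.norm_natCast]
  rw [e3] at e2
  refine Eq.trans ?_ e2
  apply Finset.prod_congr rfl
  intro l hl
  rw [mem_range] at hl
  exact (sinF_norm (n := m + 1) (l := l) (by omega)).symm

lemma sinF_full {n : ℕ} (h : 0 < n) :
    ∏ l ∈ range (n - 1), 2 * Real.sin (Real.pi * ((l : ℝ) + 1) / n) = n := by
  have := sinF_full_succ (n - 1)
  rw [Nat.sub_add_cancel h] at this
  exact this

theorem fS_refl {n m : ℕ} (h : m < n) : fS n m * fS n (n - 1 - m) = n := by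
  have hn : (n : ℝ) ≠ 0 := by
    have : n ≠ 0 := by omega
    exact_mod_cast this
  have e1 : fS n (n - 1 - m) =
      ∏ x ∈ range (n - 1 - m), 2 * Real.sin (Real.pi * (((m + x : ℕ) : ℝ) + 1) / n) := by
    unfold fS
    rw [← Finset.prod_range_reflect]
    apply Finset.prod_congr rfl
    intro x hx
    rw [mem_range] at hx
    congr 1
    rw [← Real.sin_pi_sub]
    congr 1
    have e2 : ((n - 1 - m - 1 - x : ℕ) : ℝ) = (n : ℝ) - 1 - m - 1 - x := by
      rw [Nat.cast_sub (by omega), Nat.cast_sub (by omega), Nat.cast_sub (by omega),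
        Nat.cast_sub (by omega)]
      push_cast
      ring
    rw [e2]
    push_cast
    field_simp
    ring
  rw [e1]
  unfold fS
  rw [← Finset.prod_range_add (fun l : ℕ => 2 * Real.sin (Real.pi * ((l : ℝ) + 1) / n)) m
    (n - 1 - m), show m + (n - 1 - m) = n - 1 by omega]
  exact sinF_full (by omega)

end Pool.Agent.Work.MP_b30479_gt.AX
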