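import Pool.Agent.Work.MP_b30479_gt.AX.Defs
import Pool.Agent.Work.MP_b30479_gt.AX.SinP
import Pool.Agent.Work.MP_b30479_gt.TB.Tt

/-!
# Products of sines
-/

namespace Pool.Agent.Work.MP_b30479_gt.AX

open Finset TB

lemma sinF_tt_pow (s l : ℕ) : tt s ^ l =
    Complex.exp (((2 * (Real.pi * l / ((2 * s + 1 : ℕ) : ℝ)) : ℝ) : ℂ) * Complex.I) := by
  unfold tt
  rw [← Complex.exp_nat_mul]
  congr 1
  push_cast
  ring

lemma sinF_one_sub (x : ℝ) : 1 - Complex.exp (((2 * x : ℝ) : ℂ) * Complex.I) =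
    ((2 * Real.sin x : ℝ) : ℂ) * (-Complex.I * Complex.exp ((x : ℂ) * Complex.I)) := by
  have e1 : Complex.exp (((2 * x : ℝ) : ℂ) * Complex.I) =
      Complex.exp ((x : ℂ) * Complex.I) * Complex.exp ((x : ℂ) * Complex.I) := by
    rw [← Complex.exp_add]
    congr 1
    push_cast
    ring
  have e2 : Complex.exp ((x : ℂ) * Complex.I) * Complex.exp (-(x : ℂ) * Complex.I) = 1 := by
    rw [← Complex.exp_add]
    rw [show (x : ℂ) * Complex.I + -(x : ℂ) * Complex.I = 0 by ring, Complex.exp_zero]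
  rw [e1]
  push_cast
  rw [Complex.sin]
  linear_combination (Complex.I ^ 2 : ℂ) * e2 + (1 - Complex.exp ((x : ℂ) * Complex.I) *
    Complex.exp ((x : ℂ) * Complex.I)) * Complex.I_sq

lemma sinF_one_sub_tt (s l : ℕ) : 1 - tt s ^ l =
    ((2 * Real.sin (Real.pi * l / ((2 * s + 1 : ℕ) : ℝ)) : ℝ) : ℂ) *
      (-Complex.I * Complex.exp (((Real.pi * l / ((2 * s + 1 : ℕ) : ℝ) : ℝ) : ℂ) *
        Complex.I)) := by
  rw [sinF_tt_pow, sinF_one_sub]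

lemma sinF_inv_tt_pow (s l : ℕ) : (tt s)⁻¹ ^ l =
    Complex.exp (((2 * (-(Real.pi * l / ((2 * s + 1 : ℕ) : ℝ))) : ℝ) : ℂ) * Complex.I) := by
  rw [inv_pow, sinF_tt_pow, ← Complex.exp_neg]
  congr 1
  push_cast
  ring

lemma sinF_one_sub_inv_tt (s l : ℕ) : 1 - (tt s)⁻¹ ^ l =
    ((2 * Real.sin (Real.pi * l / ((2 * s + 1 : ℕ) : ℝ)) : ℝ) : ℂ) *
      (Complex.I * Complex.exp (((-(Real.pi * l / ((2 * s + 1 : ℕ) : ℝ)) : ℝ) : ℂ) *
        Complex.I)) := by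
  rw [sinF_inv_tt_pow, sinF_one_sub, Real.sin_neg]
  push_cast
  ring

theorem qf_tt {s m : ℕ} (hm : m ≤ 2 * s) : qf (tt s) m = (fS (2 * s + 1) m : ℂ) *
    ((-Complex.I) ^ m * Complex.exp
      (((Real.pi * (m * (m + 1)) / (2 * ((2 * s + 1 : ℕ) : ℝ)) : ℝ) : ℂ) * Complex.I)) := by
  clear hm
  induction m with
  | zero => simp [fS]
  | succ m ih =>
    rw [qf_succ, ih, fS_succ, sinF_one_sub_tt]
    have e : Complex.exp (((Real.pi * (((m + 1 : ℕ) : ℝ) * (((m + 1 : ℕ) : ℝ) + 1)) /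
        (2 * ((2 * s + 1 : ℕ) : ℝ)) : ℝ) : ℂ) * Complex.I) =
        Complex.exp (((Real.pi * (m * (m + 1)) / (2 * ((2 * s + 1 : ℕ) : ℝ)) : ℝ) : ℂ) *
          Complex.I) *
        Complex.exp (((Real.pi * ((m + 1 : ℕ) : ℝ) / ((2 * s + 1 : ℕ) : ℝ) : ℝ) : ℂ) *
          Complex.I) := by
      rw [← Complex.exp_add]
      congr 1
      have hn : ((2 * s + 1 : ℕ) : ℂ) ≠ 0 := by exact_mod_cast (by omega : 2 * s + 1 ≠ 0)
      push_cast
      push_cast at hn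
      field_simp
      ring
    rw [e, pow_succ]
    push_cast
    ring

theorem phi_tt {s N l : ℕ} (hl : l ≤ N) : phi (tt s) N l =
    ((-16 * Real.sin (Real.pi * l / ((2 * s + 1 : ℕ) : ℝ)) *
      Real.sin (Real.pi * ((N : ℝ) + 1 - l) / ((2 * s + 1 : ℕ) : ℝ)) ^ 2 *
      Real.sin (Real.pi * (2 * (N : ℝ) + 2 - l) / ((2 * s + 1 : ℕ) : ℝ)) : ℝ) : ℂ) := by
  unfold phi
  have c1 : ((N + 1 - l : ℕ) : ℝ) = (N : ℝ) + 1 - l := by
    rw [Nat.cast_sub (by omega)]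
    push_cast
    ring
  have c2 : ((2 * N + 2 - l : ℕ) : ℝ) = 2 * (N : ℝ) + 2 - l := by
    rw [Nat.cast_sub (by omega)]
    push_cast
    ring
  rw [sinF_one_sub_tt s l, sinF_one_sub_tt s (N + 1 - l), sinF_one_sub_inv_tt s (N + 1 - l),
    sinF_one_sub_tt s (2 * N + 2 - l), sinF_inv_tt_pow, c1, c2]
  have e : Complex.exp (((Real.pi * l / ((2 * s + 1 : ℕ) : ℝ) : ℝ) : ℂ) * Complex.I) *
      Complex.exp (((Real.pi * ((N : ℝ) + 1 - l) / ((2 * s + 1 : ℕ) : ℝ) : ℝ) : ℂ) * Complex.I) *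
      Complex.exp (((-(Real.pi * ((N : ℝ) + 1 - l) / ((2 * s + 1 : ℕ) : ℝ)) : ℝ) : ℂ) *
        Complex.I) *
      Complex.exp (((Real.pi * (2 * (N : ℝ) + 2 - l) / ((2 * s + 1 : ℕ) : ℝ) : ℝ) : ℂ) *
        Complex.I) *
      Complex.exp (((2 * (-(Real.pi * ((N + 1 : ℕ) : ℝ) / ((2 * s + 1 : ℕ) : ℝ))) : ℝ) : ℂ) *
        Complex.I) = 1 := by
    rw [← Complex.exp_add, ← Complex.exp_add, ← Complex.exp_add, ← Complex.exp_add,
      ← Complex.exp_zero]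
    congr 1
    push_cast
    ring
  have i4 : Complex.I ^ 4 = 1 := Complex.I_pow_four
  push_cast at e ⊢
  linear_combination (-16 * Complex.sin (Real.pi * l / (2 * s + 1)) *
      Complex.sin (Real.pi * ((N : ℂ) + 1 - l) / (2 * s + 1)) ^ 2 *
      Complex.sin (Real.pi * (2 * (N : ℂ) + 2 - l) / (2 * s + 1)) * Complex.I ^ 4) * e +
    (-16 * Complex.sin (Real.pi * l / (2 * s + 1)) *
      Complex.sin (Real.pi * ((N : ℂ) + 1 - l) / (2 * s + 1)) ^ 2 *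
      Complex.sin (Real.pi * (2 * (N : ℂ) + 2 - l) / (2 * s + 1))) * i4

end Pool.Agent.Work.MP_b30479_gt.AX
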